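import Pool.Agent.FRK.Asm

/-! FRK: the theorem for hyperbolic groups with a torsion-free normal subgroup with quotient of
finite exponent. -/

namespace Pool.Agent.FRK

open Pool.Agent.BURN Pool.Agent.BURR Pool.Agent.BURR.Asm

/-- a torsion-free normal subgroup with quotient of finite exponent -/
def TFE (G : Type) [Group G] : Prop :=
  ∃ N : Subgroup G, N.Normal ∧ (∀ h ∈ N, h ≠ 1 → ∀ n : ℕ, 0 < n → h ^ n ≠ 1) ∧
    ∃ n : ℕ, 0 < n ∧ ∀ g : G, g ^ n ∈ N

theorem tfe_of_vtf (G : Type) [Group G] (h : VTF G) : TFE G := by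
  obtain ⟨H0, hfi, htf⟩ := h
  refine ⟨H0.normalCore, H0.normalCore_normal, fun h hh => htf h (H0.normalCore_le hh),
    H0.normalCore.index, ?_, fun g => ?_⟩
  · have : H0.normalCore.FiniteIndex := inferInstance
    exact Nat.pos_of_ne_zero this.index_ne_zero
  · haveI : H0.normalCore.Normal := H0.normalCore_normal
    exact Subgroup.pow_index_mem _ g

open Final in
theorem main_aux (h2 : ∀ [RP], Stmt_Tow2) (hF : ∀ [RP], Stmt_TowF) (hW : Stmt_WMet)
    (hB : Stmt_BaseTF) (hL : ∀ [RP], Stmt_Lim1) (G : Type) [Group G] (hG : HypGrp G)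
    (hT : TFE G) :
    ∃ F : Subgroup G, F.Normal ∧ IsFreeGroup F ∧ ∃ n : ℕ, 0 < n ∧ ∀ g : G, g ^ n ∈ F := by
  obtain ⟨H, hHn, htf, e, he, hexp⟩ := hT
  obtain ⟨hc, d, δ, Bf, hd, hh, h1, hi, hBf⟩ := hW G hG
  have hT : TFA (H := H) (X := G) d δ Bf := by
    refine ⟨hd, hh, fun g x y => hi (g : G) x y, h1, ⟨1⟩, ?_, ?_⟩
    · intro x r A hA
      have h3 := hBf x r (A.map ⟨fun h : H => (h : G), Subtype.val_injective⟩) (by
        intro h hh
        rw [Finset.mem_map] at hh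
        obtain ⟨a, ha, rfl⟩ := hh
        exact hA a ha)
      rwa [Finset.card_map] at h3
    · intro h hne n hn hpow
      refine htf (h : G) h.2 ?_ n hn ?_
      · intro h0
        exact hne (Subtype.ext h0)
      · rw [← Subgroup.coe_pow, hpow]
        rfl
  obtain ⟨P, hP⟩ := hB H G d δ Bf hT
  let p : ℕ := 2 * (64 * nq) + 1
  have hodd : Odd p := ⟨64 * nq, rfl⟩
  obtain ⟨d', hgood, hline⟩ := hP p hodd
  let s : StgG p := { G := H, X := G, d := d', good := hgood }
  have hcs : Countable s.G := inferInstanceAs (Countable H)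
  have hp1 : 1 ≤ p := by
    change 1 ≤ 2 * (64 * nq) + 1
    omega
  have hp2 : 64 * nq ≤ p := by
    change 64 * nq ≤ 2 * (64 * nq) + 1
    omega
  obtain ⟨W, hW0, hLR⟩ := h2 p p s hcs hline hp2 dvd_rfl
  have hcW : Countable (W.T 0).G := by
    rw [hW0]
    exact hcs
  have hfree : IsFreeGroup (Subgroup.closure {x : H | ∃ y : H, x = y ^ p}) :=
    bottom hL p W hp1 (hF p p W hp1 hcW hLR) s hW0
  let M : Subgroup H := Subgroup.closure {x : H | ∃ y : H, x = y ^ p}
  have hMeq : M.map H.subtype = Subgroup.closure {x : G | ∃ y ∈ H, x = y ^ p} := by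
    change (Subgroup.closure {x : H | ∃ y : H, x = y ^ p}).map H.subtype = _
    rw [MonoidHom.map_closure]
    congr 1
    ext x
    constructor
    · rintro ⟨z, ⟨y, rfl⟩, rfl⟩
      exact ⟨(y : G), y.2, by simp⟩
    · rintro ⟨y, hy, rfl⟩
      exact ⟨⟨y, hy⟩ ^ p, ⟨⟨y, hy⟩, rfl⟩, by simp⟩
  refine ⟨M.map H.subtype, ?_, ?_, e * p, ?_, ?_⟩
  · rw [hMeq]
    constructor
    intro x hx g
    induction hx using Subgroup.closure_induction with
    | mem x hx =>
      obtain ⟨y, hy, rfl⟩ := hx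
      apply Subgroup.subset_closure
      refine ⟨g * y * g⁻¹, hHn.conj_mem y hy g, ?_⟩
      rw [conj_pow]
    | one => simp
    | mul a b _ _ ha hb =>
      have h5 : g * (a * b) * g⁻¹ = (g * a * g⁻¹) * (g * b * g⁻¹) := by group
      rw [h5]
      exact mul_mem ha hb
    | inv a _ ha =>
      have h5 : g * a⁻¹ * g⁻¹ = (g * a * g⁻¹)⁻¹ := by group
      rw [h5]
      exact inv_mem ha
  · have : IsFreeGroup M := hfree
    exact IsFreeGroup.ofMulEquiv (M.equivMapOfInjective H.subtype H.subtype_injective)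
  · exact Nat.mul_pos he (by omega)
  · intro g
    rw [hMeq, pow_mul]
    exact Subgroup.subset_closure ⟨g ^ e, hexp g, rfl⟩

/-- the main theorem -/
theorem main (G : Type) [Group G] (hG : HypGrp G) (h : TFE G ∨ VTF G ∨ RFin G) :
    ∃ F : Subgroup G, F.Normal ∧ IsFreeGroup F ∧ ∃ n : ℕ, 0 < n ∧ ∀ g : G, g ^ n ∈ F := by
  refine main_aux Asm.p_Tow2 Asm.p_TowF Asm.p_WMet Asm.p_BaseTF p_Lim1 G hG ?_
  rcases h with h | h | h
  · exact h
  · exact tfe_of_vtf G h
  · exact tfe_of_vtf G (Asm.p_RFV G hG h)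

end Pool.Agent.FRK
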