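import Pool.Agent.FRK.Kit

/-! FRK, WMET: the word metric of a hyperbolic group. -/

namespace Pool.Agent.FRK

open Pool.Agent.BURN Pool.Agent.BURR

namespace WMet

variable {G : Type} [Group G]

/-- words for g -/
def Wd (S : Finset G) (g : G) (n : ℕ) : Prop :=
  ∃ l : List G, l.length = n ∧ (∀ s ∈ l, s ∈ S ∨ s⁻¹ ∈ S) ∧ l.prod = g

/-- word length -/
noncomputable def len (S : Finset G) (g : G) : ℕ := sInf {n : ℕ | Wd S g n}

theorem wd_ex (S : Finset G) (hS : Subgroup.closure (S : Set G) = ⊤) (g : G) : ∃ n, Wd S g n := by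
  have hg : g ∈ Subgroup.closure (S : Set G) := by rw [hS]; trivial
  rw [← Subgroup.mem_toSubmonoid, Subgroup.closure_toSubmonoid] at hg
  obtain ⟨l, h1, h2⟩ := Submonoid.exists_list_of_mem_closure hg
  refine ⟨l.length, l, rfl, fun s hs => ?_, h2⟩
  rcases h1 s hs with h | h
  · exact Or.inl h
  · exact Or.inr (Set.mem_inv.mp h)

theorem wd_len (S : Finset G) (hS : Subgroup.closure (S : Set G) = ⊤) (g : G) :
    Wd S g (len S g) := Nat.sInf_mem (s := {n : ℕ | Wd S g n}) (wd_ex S hS g)

theorem len_le {S : Finset G} {g : G} {n : ℕ} (h : Wd S g n) : len S g ≤ n := Nat.sInf_le h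

theorem wd_one (S : Finset G) : Wd S (1 : G) 0 := ⟨[], rfl, by simp, rfl⟩

theorem wd_mul {S : Finset G} {g h : G} {m n : ℕ} (hg : Wd S g m) (hh : Wd S h n) :
    Wd S (g * h) (m + n) := by
  obtain ⟨l1, a1, b1, c1⟩ := hg
  obtain ⟨l2, a2, b2, c2⟩ := hh
  refine ⟨l1 ++ l2, ?_, ?_, ?_⟩
  · rw [List.length_append, a1, a2]
  · intro s hs
    rcases List.mem_append.mp hs with hs | hs
    · exact b1 s hs
    · exact b2 s hs
  · rw [List.prod_append, c1, c2]

theorem wd_inv {S : Finset G} {g : G} {m : ℕ} (hg : Wd S g m) : Wd S g⁻¹ m := by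
  obtain ⟨l, a, b, c⟩ := hg
  refine ⟨(l.map fun x => x⁻¹).reverse, ?_, ?_, ?_⟩
  · rw [List.length_reverse, List.length_map, a]
  · intro s hs
    rw [List.mem_reverse, List.mem_map] at hs
    obtain ⟨y, hy, rfl⟩ := hs
    rw [inv_inv]
    exact (b y hy).symm
  · rw [← List.prod_inv_reverse, c]

open scoped Classical in
/-- balls -/
noncomputable def Bl (S : Finset G) : ℕ → Finset G
  | 0 => {1}
  | (n + 1) => Bl S n ∪ ((S ∪ S.image fun x => x⁻¹) ×ˢ Bl S n).image fun p => p.1 * p.2

theorem Bl_mono (S : Finset G) (n : ℕ) : Bl S n ⊆ Bl S (n + 1) := by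
  classical
  intro x hx
  rw [Bl]
  exact Finset.mem_union_left _ hx

theorem Bl_mono' (S : Finset G) {m n : ℕ} (h : m ≤ n) : Bl S m ⊆ Bl S n := by
  induction n, h using Nat.le_induction with
  | base => exact Finset.Subset.refl _
  | succ n _ ih => exact ih.trans (Bl_mono S n)

theorem mem_Bl (S : Finset G) (l : List G) (hl : ∀ s ∈ l, s ∈ S ∨ s⁻¹ ∈ S) :
    l.prod ∈ Bl S l.length := by
  classical
  induction l with
  | nil => simp [Bl]
  | cons a l ih =>
    rw [List.length_cons, List.prod_cons, Bl]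
    apply Finset.mem_union_right
    rw [Finset.mem_image]
    refine ⟨(a, l.prod), ?_, rfl⟩
    rw [Finset.mem_product]
    refine ⟨?_, ih fun s hs => hl s (List.mem_cons_of_mem a hs)⟩
    rw [Finset.mem_union]
    rcases hl a (List.mem_cons_self) with h | h
    · exact Or.inl h
    · right
      rw [Finset.mem_image]
      exact ⟨a⁻¹, h, inv_inv a⟩

theorem len_mem_Bl {S : Finset G} (hS : Subgroup.closure (S : Set G) = ⊤) {g : G} {r : ℕ}
    (h : len S g ≤ r) : g ∈ Bl S r := by
  obtain ⟨l, a, b, c⟩ := wd_len S hS g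
  have h1 := mem_Bl S l b
  rw [c] at h1
  rw [← a] at h
  exact Bl_mono' S h h1

end WMet

open WMet in
theorem wmet_proof : Stmt_WMet := by
  classical
  rintro G _ ⟨S, hS, δ, hδ⟩
  have hhyp := hδ (len S) (fun g => rfl)
  refine ⟨?_, fun x y => len S (x⁻¹ * y), 2 * δ + 1, fun r => (Bl S r).card, ?_, ?_, by omega, ?_, ?_⟩
  · have h1 : (Set.univ : Set G) ⊆ ⋃ n : ℕ, ((Bl S n : Finset G) : Set G) := by
      intro g _
      rw [Set.mem_iUnion]
      exact ⟨len S g, len_mem_Bl hS le_rfl⟩
    have h2 : (⋃ n : ℕ, ((Bl S n : Finset G) : Set G)).Countable :=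
      Set.countable_iUnion fun n => (Bl S n).countable_toSet
    exact Set.countable_univ_iff.mp (h2.mono h1)
  · refine ⟨?_, ?_, ?_, ?_⟩
    · intro x y
      constructor
      · intro h
        have h1 := wd_len S hS (x⁻¹ * y)
        rw [h] at h1
        obtain ⟨l, a, b, c⟩ := h1
        rw [List.length_eq_zero_iff] at a
        rw [a, List.prod_nil] at c
        exact (inv_mul_eq_one.mp c.symm)
      · rintro rfl
        rw [inv_mul_cancel]
        exact Nat.le_zero.mp (len_le (wd_one S))
    · have key : ∀ g : G, len S g⁻¹ ≤ len S g := fun g => len_le (wd_inv (wd_len S hS g))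
      intro x y
      apply le_antisymm
      · have h1 := key (y⁻¹ * x)
        rw [mul_inv_rev, inv_inv] at h1
        exact h1
      · have h1 := key (x⁻¹ * y)
        rw [mul_inv_rev, inv_inv] at h1
        exact h1
    · intro x y z
      have h1 := len_le (wd_mul (wd_len S hS (x⁻¹ * y)) (wd_len S hS (y⁻¹ * z)))
      have h2 : x⁻¹ * y * (y⁻¹ * z) = x⁻¹ * z := by group
      rw [h2] at h1
      exact h1
    · intro x y t ht
      obtain ⟨l, a, b, c⟩ := wd_len S hS (x⁻¹ * y)
      have ha : l.length = len S (x⁻¹ * y) := a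
      have htl : t ≤ l.length := by rw [ha]; exact ht
      have h1 : Wd S (l.take t).prod t := by
        refine ⟨l.take t, ?_, fun s hs => b s (List.mem_of_mem_take hs), rfl⟩
        rw [List.length_take]
        omega
      have h2 : Wd S (l.drop t).prod (l.length - t) := by
        refine ⟨l.drop t, ?_, fun s hs => b s (List.mem_of_mem_drop hs), rfl⟩
        rw [List.length_drop]
      have h3 : (l.take t).prod * (l.drop t).prod = x⁻¹ * y := by
        rw [← List.prod_append, List.take_append_drop, c]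
      have h4 := len_le h1
      have h5 := len_le h2
      have h6 := len_le (wd_mul (wd_len S hS (l.take t).prod) (wd_len S hS (l.drop t).prod))
      rw [h3] at h6
      refine ⟨x * (l.take t).prod, ?_, ?_⟩
      · have h7 : x⁻¹ * (x * (l.take t).prod) = (l.take t).prod := by group
        rw [h7]
        omega
      · have h7 : (x * (l.take t).prod)⁻¹ * y = (l.drop t).prod := by
          rw [mul_inv_rev, mul_assoc, ← h3]
          group
        rw [h7]
        omega
  · intro x y z w
    have h1 := hhyp x z y w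
    have hsymm : ∀ a b : G, len S (a⁻¹ * b) = len S (b⁻¹ * a) := by
      have key : ∀ g : G, len S g⁻¹ ≤ len S g := fun g => len_le (wd_inv (wd_len S hS g))
      intro a b
      apply le_antisymm
      · have h1 := key (b⁻¹ * a)
        rw [mul_inv_rev, inv_inv] at h1
        exact h1
      · have h1 := key (a⁻¹ * b)
        rw [mul_inv_rev, inv_inv] at h1
        exact h1
    have h2 := hsymm z y
    simp only
    rcases le_total ((len S (x⁻¹ * w) : ℤ) + (len S (z⁻¹ * w) : ℤ) - (len S (x⁻¹ * z) : ℤ))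
      ((len S (z⁻¹ * w) : ℤ) + (len S (y⁻¹ * w) : ℤ) - (len S (z⁻¹ * y) : ℤ)) with h3 | h3
    · rw [min_eq_left h3] at h1
      have h4 : len S (x⁻¹ * y) + len S (z⁻¹ * w) ≤ len S (x⁻¹ * z) + len S (y⁻¹ * w) + 2 * δ := by
        omega
      have h5 := le_max_left (len S (x⁻¹ * z) + len S (y⁻¹ * w)) (len S (x⁻¹ * w) + len S (y⁻¹ * z))
      omega
    · rw [min_eq_right h3] at h1
      have h4 : len S (x⁻¹ * y) + len S (z⁻¹ * w) ≤ len S (x⁻¹ * w) + len S (y⁻¹ * z) + 2 * δ := by
        omega
      have h5 := le_max_right (len S (x⁻¹ * z) + len S (y⁻¹ * w)) (len S (x⁻¹ * w) + len S (y⁻¹ * z))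
      omega
  · intro g x y
    change len S ((g • x)⁻¹ * (g • y)) = len S (x⁻¹ * y)
    congr 1
    rw [smul_eq_mul, smul_eq_mul]
    group
  · intro x r A hA
    have h1 : ∀ h ∈ A, x⁻¹ * (h * x) ∈ Bl S r := fun h hh => len_mem_Bl hS (hA h hh)
    refine Finset.card_le_card_of_injOn (fun h => x⁻¹ * (h * x)) h1 ?_
    intro a _ b _ hab
    have h2 : x⁻¹ * (a * x) = x⁻¹ * (b * x) := hab
    exact mul_right_cancel (mul_left_cancel h2)

end Pool.Agent.FRK
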