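import Pool.Agent.FRK.Kit

/-! FRK, part E, module ABND: apices near the region or near the connecting geodesic are near the
hull of the orbit of the base. Text: /team-store/MP_1e649a_FRK.md. -/

namespace Pool.Agent.FRK

open Pool.Agent.BURN Pool.Agent.BURR

variable [RP]

namespace ABnd

/-- a point of the region is near the hull of the orbit of the base, or it is near an apex of C -/
theorem side (E : Eng) (hStr : Stmt_Str) (S : KSys) (Γ : Subgroup S.G) (F C : Set S.Gm)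
    (U : Set S.Xb) (hst : St S Γ F C) (hQ : QC S.db (2 * dd) U) (hctl : Ctl S U (25 * dd) F C)
    {a : S.Gm} (ha : a ∈ Win S F C) :
    ∃ u ∈ U, S.db (S.q a) u ≤ 5 * dd ∨
      (S.db (S.q a) u ≤ 53 * dd ∧ ∃ j, S.db (S.q a) (S.q (S.ap j)) ≤ 28 * dd ∧
        S.db (S.q (S.ap j)) u ≤ 25 * dd) := by
  rcases hStr S Γ F C U (2 * dd) (25 * dd) hst hQ hctl a ha with ⟨u, hu, h1⟩ | ⟨c, hc, h1⟩
  · exact ⟨u, hu, Or.inl (by omega)⟩
  · obtain ⟨j, rfl⟩ := hst.sub hc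
    obtain ⟨u, hu, h2⟩ := hctl.2 _ hc
    have h3 := Kit.q_le E S a (S.ap j)
    have h4 := (Kit.dgB E S).tri (S.q a) (S.q (S.ap j)) u
    exact ⟨u, hu, Or.inr ⟨by omega, j, by omega, h2⟩⟩

/-- the end of the argument at one side -/
theorem fin (E : Eng) (S : KSys) (U' : Set S.Xb) (i : S.I) (r x u : S.Xb) (hu : u ∈ U')
    (hr : S.db (S.q (S.ap i)) r ≤ 12 * dd) (hg : gp S.db x u r ≤ 2 * dd)
    (h : S.db x u ≤ 5 * dd ∨ (S.db x u ≤ 53 * dd ∧ ∃ j, S.db x (S.q (S.ap j)) ≤ 28 * dd ∧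
        S.db (S.q (S.ap j)) u ≤ 25 * dd)) :
    S.q (S.ap i) ∈ Nbh S.db (25 * dd) U' := by
  have hB := Kit.dgB E S
  have h1 := gp_add hB x u r
  rcases h with h | ⟨h, j, h2, h3⟩
  · refine ⟨u, hu, ?_⟩
    have h4 := hB.tri (S.q (S.ap i)) r u
    rw [hB.symm r u] at h4
    omega
  · have h4 := hB.tri (S.q (S.ap i)) r x
    have h5 := hB.tri (S.q (S.ap i)) x (S.q (S.ap j))
    rw [hB.symm r x] at h4
    have h6 := Kit.num2
    have h7 := dd_ge
    have h8 : S.q (S.ap i) = S.q (S.ap j) := Kit.qap_eq E S (by omega)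
    rw [h8]
    exact ⟨u, hu, h3⟩

end ABnd

theorem ABnd_proof (E : Eng) (hStr : Stmt_Str) : Stmt_ABnd := by
  intro S Γ F C Bb hb Γb' a b i r hst hctl hle hhb ha hbw hr hcase
  have hB := Kit.dgB E S
  have hY := Kit.hypB E S
  have hI := Kit.isoB E S
  have hQ : QC S.db (2 * dd) (hull S.db (orb (Γ.map S.π) Bb)) := (E.hull S.Xb S.db dd hB hY).1 _
  have hQ' : QC S.db (2 * dd) (hull S.db (orb Γb' Bb)) := (E.hull S.Xb S.db dd hB hY).1 _
  have hsub : hull S.db (orb (Γ.map S.π) Bb) ⊆ hull S.db (orb Γb' Bb) :=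
    Kit.hull_mono (Kit.orb_mono hle (Set.Subset.refl _))
  have hd := dd_ge
  rcases hcase with ⟨w, hw, rfl⟩ | hbt
  · obtain ⟨u, hu, h⟩ := ABnd.side E hStr S Γ F C _ hst hQ hctl hw
    rcases h with h | ⟨_, j, h2, h3⟩
    · refine ⟨u, hsub hu, ?_⟩
      have h4 := hB.tri (S.q (S.ap i)) (S.q w) u
      omega
    · have h5 := hB.tri (S.q (S.ap i)) (S.q w) (S.q (S.ap j))
      have h6 := Kit.num2
      have h8 : S.q (S.ap i) = S.q (S.ap j) := Kit.qap_eq E S (by omega)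
      rw [h8]
      exact ⟨u, hsub hu, h3⟩
  · obtain ⟨u, hu, hua⟩ := ABnd.side E hStr S Γ F C _ hst hQ hctl ha
    obtain ⟨v, hv, hvb⟩ := ABnd.side E hStr S Γ F C _ hst hQ hctl hbw
    have hv' : hb • v ∈ hull S.db (orb Γb' Bb) :=
      Kit.hull_smul hI (fun x hx => Kit.orb_smul hhb hx) (hsub hv)
    have hvb' : S.db (hb • S.q b) (hb • v) ≤ 5 * dd ∨ (S.db (hb • S.q b) (hb • v) ≤ 53 * dd ∧
        ∃ j, S.db (hb • S.q b) (S.q (S.ap j)) ≤ 28 * dd ∧
        S.db (S.q (S.ap j)) (hb • v) ≤ 25 * dd) := by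
      rw [hI]
      rcases hvb with h | ⟨h, j, h2, h3⟩
      · exact Or.inl h
      · refine Or.inr ⟨h, ?_⟩
        obtain ⟨g, rfl⟩ := S.psurj hb
        refine ⟨g • j, ?_⟩
        rw [← Kit.smul_ap, Kit.q_smul, hI, hI]
        exact ⟨h2, h3⟩
    have h0 := (btw_iff hB _ _ _).1 hbt
    have h1 := hyp_gp hB hY (S.q a) (hb • S.q b) u r
    have h2 := hyp_gp hB hY u (hb • S.q b) (hb • v) r
    rcases min_le_iff.1 h1 with h1 | h1
    · exact ABnd.fin E S _ i r (S.q a) u (hsub hu) hr (by omega) hua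
    · rcases min_le_iff.1 h2 with h2 | h2
      · obtain ⟨p, hp, hrp⟩ := LadderX.near_btw hB hY u (hb • v) r
        obtain ⟨w, hw, hpw⟩ := hQ' u (hsub hu) (hb • v) hv' p hp
        refine ⟨w, hw, ?_⟩
        have h4 := hB.tri (S.q (S.ap i)) r w
        have h5 := hB.tri r p w
        omega
      · refine ABnd.fin E S _ i r (hb • S.q b) (hb • v) hv' hr ?_ hvb'
        rw [gp_comm hB]
        omega

end Pool.Agent.FRK
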