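import Pool.Agent.FRK.Kit

/-! FRK, module BallG: growth covering a ball. -/

namespace Pool.Agent.FRK

open Pool.Agent.BURN Pool.Agent.BURR

variable [RP]

theorem ballG_proof (E : Eng) (hGrow : Stmt_Grow) : Stmt_BallG := by
  intro S Γ F C Rb k κ s x0 hBig hSt hQC hinv hCtl hk hκ hx0 hball
  have hd := Kit.dgG E S
  have hiso := Kit.isoG E S
  have key : ∀ t : ℕ, t ≤ s → ∃ (Γ' : Subgroup S.G) (F' C' : Set S.Gm), St S Γ' F' C' ∧ Γ ≤ Γ' ∧
      F ⊆ F' ∧ C ⊆ C' ∧ Γ'.map S.π = Γ.map S.π ∧ Ctl S Rb κ F' C' ∧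
      (∀ u, S.dg (S.bs x0) u ≤ t → u ∈ F') ∧
      ∀ B : Set S.X, (∀ b ∈ B, S.bs b ∈ F) → Ext S.d B Γ Γ' := by
    intro t
    induction t with
    | zero =>
      intro _
      refine ⟨Γ, F, C, hSt, le_rfl, subset_rfl, subset_rfl, rfl, hCtl, ?_, ?_⟩
      · intro u hu
        have h1 : S.bs x0 = u := (hd.eq_zero _ _).1 (by omega)
        rw [← h1]; exact hx0
      · intro B _
        exact Ext.refl Γ
    | succ t ih =>
      intro hts
      obtain ⟨Γ1, F1, C1, hSt1, hΓ1, hF1, hC1, hmap1, hCtl1, hball1, hExt1⟩ := ih (by omega)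
      obtain ⟨F2, hF2⟩ : ∃ F2, F2 = F1 ∪ orb Γ1 {u | S.dg (S.bs x0) u ≤ t + 1} := ⟨_, rfl⟩
      have hinv1 : ∀ g ∈ Γ1, ∀ r ∈ Rb, S.π g • r ∈ Rb := by
        intro g hg r hr
        have h1 : S.π g ∈ Γ.map S.π := by
          rw [← hmap1]; exact Subgroup.mem_map_of_mem _ hg
        obtain ⟨g0, hg0, h2⟩ := Subgroup.mem_map.1 h1
        rw [← h2]
        exact hinv g0 hg0 r hr
      obtain ⟨Γ', F', C', hSt', hΓ', hF', hC', hmap', hCtl', hExt'⟩ :=
        hGrow S Γ1 F1 C1 F2 Rb k κ hBig hSt1 (by rw [hF2]; exact Set.subset_union_left)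
          (by
            rw [hF2]
            rintro g hg x (hx | hx)
            · exact Or.inl (hSt1.finv g hg x hx)
            · exact Or.inr (Kit.orb_smul hg hx))
          (by
            rw [hF2]
            rintro x (hx | ⟨g, hg, u, hu, rfl⟩)
            · refine ⟨x, Kit.sub_win E S F1 C1 (Or.inl hx), ?_⟩
              rw [(hd.eq_zero x x).2 rfl]; omega
            · have hu' : S.dg (S.bs x0) u ≤ t + 1 := hu
              obtain ⟨u', h1, h2⟩ := hd.geo (S.bs x0) u (min t (S.dg (S.bs x0) u))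
                (min_le_right _ _)
              have h3 : u' ∈ F1 := hball1 u' (by omega)
              refine ⟨g • u', Kit.sub_win E S F1 C1 (Or.inl (hSt1.finv g hg u' h3)), ?_⟩
              rw [hiso]
              have h4 := hd.symm u u'
              omega)
          hQC hinv1 hCtl1
          (by
            rw [hF2]
            rintro x (hx | ⟨g, hg, u, hu, rfl⟩)
            · exact hCtl1.1 x hx
            · have hu' : S.dg (S.bs x0) u ≤ t + 1 := hu
              rw [Kit.q_smul]
              refine hinv1 g hg _ (hball _ ?_)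
              have h1 := Kit.q_le E S (S.bs x0) u
              omega)
          hk hκ
      refine ⟨Γ', F', C', hSt', hΓ1.trans hΓ', ?_, hC1.trans hC', hmap'.trans hmap1, hCtl', ?_, ?_⟩
      · intro x hx
        exact hF' (by rw [hF2]; exact Or.inl (hF1 hx))
      · intro u hu
        refine hF' ?_
        rw [hF2]
        exact Or.inr (Kit.sub_orb Γ1 _ hu)
      · intro B hB
        refine Ext.trans Γ Γ1 Γ' (hExt1 B hB) (hExt' B ?_)
        intro b hb
        rw [hF2]
        exact Or.inl (hF1 (hB b hb))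
  exact key s le_rfl

end Pool.Agent.FRK
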