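import Pool.Agent.FRK.Kit
import Pool.Agent.BURN.W97SC

/-! FRK, module BaseTF: the base stage for torsion-free hyperbolic groups. -/

namespace Pool.Agent.FRK

open Pool.Agent.BURN Pool.Agent.BURR

namespace BaseTF

theorem le_D {X : Type} (d : X → X → ℕ) {Λ : ℕ} (h : 1 ≤ Λ) (x y : X) :
    d x y ≤ Λ * Dsc Λ d x y := by
  unfold Dsc
  have h1 := Nat.div_add_mod (d x y + Λ - 1) Λ
  have h2 := Nat.mod_lt (d x y + Λ - 1) (show 0 < Λ by omega)
  generalize (d x y + Λ - 1) / Λ = q at *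
  generalize Λ * q = z at *
  omega

theorem D_le' {X : Type} (d : X → X → ℕ) {Λ : ℕ} (h : 1 ≤ Λ) {x y : X} {n : ℕ}
    (hd : d x y ≤ Λ * n) : Dsc Λ d x y ≤ n := by
  unfold Dsc
  rw [← Nat.lt_succ_iff, Nat.div_lt_iff_lt_mul (by omega)]
  have : n.succ * Λ = Λ * n + Λ := by rw [Nat.succ_eq_add_one]; ring
  omega

theorem D_lt {X : Type} (d : X → X → ℕ) {Λ : ℕ} (h : 1 ≤ Λ) (x y : X) :
    Λ * Dsc Λ d x y + 1 ≤ d x y + Λ := by
  unfold Dsc
  have h1 := Nat.div_add_mod (d x y + Λ - 1) Λ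
  generalize (d x y + Λ - 1) / Λ = q at *
  generalize Λ * q = z at *
  omega

theorem D_iso {G X : Type} [Group G] [MulAction G X] {d : X → X → ℕ} (Λ : ℕ)
    (hi : IsIso G d) : IsIso G (Dsc Λ d) := by
  intro g x y
  unfold Dsc
  rw [hi]

theorem D_lox {G X : Type} [Group G] [MulAction G X] {d : X → X → ℕ} {Λ : ℕ} (h : 1 ≤ Λ)
    {g : G} (hg : Lox d g) : Lox (Dsc Λ d) g := by
  intro x B
  obtain ⟨m, hm⟩ := hg x (Λ * B)
  refine ⟨m, ?_⟩
  by_contra hn
  push Not at hn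
  have h1 := le_D d h x (g ^ m • x)
  have h2 : Λ * Dsc Λ d x (g ^ m • x) ≤ Λ * B := Nat.mul_le_mul_left _ hn
  omega

theorem not_lox_one {G X : Type} [Group G] [MulAction G X] {d : X → X → ℕ} (hd : IsDG d)
    (x : X) : ¬ Lox d (1 : G) := by
  intro h
  obtain ⟨m, hm⟩ := h x 0
  rw [one_pow, one_smul, (hd.eq_zero x x).2 rfl] at hm
  omega

theorem minset_zpow {G X : Type} [Group G] [MulAction G X] {d : X → X → ℕ}
    (hi : IsIso G d) {c : G} {o : X} (ho : o ∈ MinSet d c) (k : ℤ) :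
    c ^ k • o ∈ MinSet d c := by
  intro y
  have h1 : d (c ^ k • o) (c • c ^ k • o) = d o (c • o) := by
    rw [← hi (c ^ k) o (c • o), smul_smul, smul_smul, ← zpow_one_add, ← zpow_add_one, add_comm]
  rw [h1]
  exact ho y

theorem minset_ne {G X : Type} [Group G] [MulAction G X] [Nonempty X] (d : X → X → ℕ) (c : G) :
    ∃ o, o ∈ MinSet d c := by
  obtain ⟨o, -, ho⟩ := WellFounded.has_min (measure (fun x : X => d x (c • x))).wf Set.univ
    Set.univ_nonempty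
  refine ⟨o, fun y => ?_⟩
  exact Nat.not_lt.1 (ho y (Set.mem_univ y))

/-- generators of the same infinite cyclic group -/
theorem gen_eq {G : Type} [Group G]
    {w w' : G} (hno : ∀ n : ℕ, 0 < n → w ^ n ≠ 1)
    (he : Subgroup.zpowers w = Subgroup.zpowers w') : w' = w ∨ w' = w⁻¹ := by
  have h1 : w' ∈ Subgroup.zpowers w := he ▸ Subgroup.mem_zpowers w'
  have h2 : w ∈ Subgroup.zpowers w' := he ▸ Subgroup.mem_zpowers w
  obtain ⟨a, ha⟩ := h1
  obtain ⟨b, hb⟩ := h2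
  simp only at ha hb
  have h3 : w ^ (a * b - 1) = 1 := by
    rw [zpow_sub, zpow_mul, ha, hb, zpow_one, mul_inv_cancel]
  have h4 : a * b - 1 = 0 := by
    by_contra hne
    rcases Int.natAbs_eq (a * b - 1) with h | h
    · rw [h, zpow_natCast] at h3
      exact hno _ (Int.natAbs_pos.2 hne) h3
    · rw [h, zpow_neg, inv_eq_one, zpow_natCast] at h3
      exact hno _ (Int.natAbs_pos.2 hne) h3
  have h5 : a * b = 1 := by omega
  rcases Int.eq_one_or_neg_one_of_mul_eq_one h5 with h | h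
  · left; rw [← ha, h, zpow_one]
  · right; rw [← ha, h, zpow_neg_one]

theorem A0_gen (D : ℕ) (hD : 1000 ≤ D) : 800 * D + 2 ≤ 2 ^ (101 * D + 3) := by
  have h2 : D < 2 ^ D := Nat.lt_two_pow_self
  have h3 : 2 ^ (101 * D + 3) = 2 ^ D * 2 ^ (100 * D + 3) := by
    rw [← pow_add]; congr 1; ring
  have h4 : 2 ^ 10 ≤ 2 ^ (100 * D + 3) := Nat.pow_le_pow_right (by norm_num) (by omega)
  have h5 : (2 : ℕ) ^ 10 = 1024 := by norm_num
  rw [h5] at h4
  have h6 : D * 1024 ≤ 2 ^ D * 2 ^ (100 * D + 3) := Nat.mul_le_mul h2.le h4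
  rw [h3]
  generalize 2 ^ D * 2 ^ (100 * D + 3) = z at *
  omega

theorem A0_big : 800 * dd + 2 ≤ A0 := by
  rw [A0_eq]
  have h := A0_gen dd dd_ge
  generalize 2 ^ (101 * dd + 3) = z at *
  omega

theorem T1_gen (L s D : ℕ) (hL : 1 ≤ L) (hs : 1 ≤ s) (hD : 1 ≤ D) :
    100 * D ≤ L * (s * (1000000 * D ^ 2)) := by
  have h3 : 100 * D ≤ 1000000 * D ^ 2 := by
    rw [sq]; nlinarith
  calc 100 * D ≤ 1000000 * D ^ 2 := h3
    _ ≤ s * (1000000 * D ^ 2) := Nat.le_mul_of_pos_left _ hs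
    _ ≤ L * (s * (1000000 * D ^ 2)) := Nat.le_mul_of_pos_left _ hL

theorem T1_big : 100 * dd ≤ T1 :=
  T1_gen Lam (2 ^ s3) dd Lam_pos Nat.one_le_two_pow (by have := dd_ge; omega)

theorem A1_big : 100 * dd ≤ A1 := by
  rw [A1_eq]
  generalize 2 ^ (200 * dd) = z
  omega

end BaseTF

open Kit BaseTF in
theorem baseTF_proof (E : Eng0) (hTS : Stmt_TStab) (hGW : Stmt_TGW) (hTN : Stmt_TNear)
    (hTL : Stmt_TLine) : Stmt_BaseTF := by
  intro H X _ _ d δ Bf hT
  obtain ⟨R1, hR1, hS⟩ := hTS H X d δ Bf hT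
  obtain ⟨A, R1', hR1', hW⟩ := hGW H X d δ Bf hT
  obtain ⟨F1, hF1⟩ := hTN H X d δ Bf hT
  obtain ⟨F2, hF2⟩ := hTL H X d δ Bf hT
  have hddg := dd_ge
  obtain ⟨Λ, hΛ⟩ : ∃ Λ, Λ = 2 + 22 * δ + A + F1 + F2 := ⟨_, rfl⟩
  have hΛ1 : 1 ≤ Λ := by omega
  refine ⟨⟨max Rr (R1 * Λ), le_max_left _ _⟩, fun N hN => ⟨Dsc Λ d, ?_, ?_⟩⟩
  · letI P : RP := ⟨max Rr (R1 * Λ), le_max_left _ _⟩
    obtain ⟨r1, r2, -⟩ := E.rescale X d δ 0 Λ hT.dg hT.hyp (by omega) (by omega)
    have hiso : IsIso H (Dsc Λ d) := D_iso Λ hT.iso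
    have W := hW N hN
    haveI := hT.ne
    obtain ⟨x0⟩ := hT.ne
    have hne : ∀ g : H, Lox (Dsc Λ d) g → g ≠ 1 := by
      rintro g hg rfl
      exact not_lox_one r1 x0 hg
    refine ⟨r1, ?_, hiso, hN, hT.ne, ?_, ?_, ?_, ?_⟩
    · intro x y z w
      have := r2 x y z w
      omega
    · intro x y hxy
      have h1 : Λ * (A0 - 1) + 1 ≤ d x y := by
        have h2 := D_lt d hΛ1 x y
        have h3 : Λ * A0 ≤ Λ * Dsc Λ d x y := Nat.mul_le_mul_left _ hxy
        have h4 : Λ * (A0 - 1) + Λ = Λ * A0 := by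
          have hA := A0_big
          obtain ⟨n, hn⟩ : ∃ n, A0 = n + 1 := ⟨A0 - 1, by omega⟩
          rw [hn, Nat.add_sub_cancel]
          ring
        omega
      have hA := A0_big
      have h5 : Λ * (800 * dd + 1) ≤ Λ * (A0 - 1) := Nat.mul_le_mul_left _ (by omega)
      have h6 : Λ * (800 * dd + 1) = 8 * (Λ * (100 * dd)) + Λ := by ring
      obtain ⟨w, hw, hw2⟩ := W.SC E.iso1 (x := x) (y := y) (l := Λ * (100 * dd)) (by omega)
      refine ⟨w, ?_, ?_⟩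
      · rcases hw with h | h
        · exact Or.inl h
        · exact Or.inr (D_lox hΛ1 h.1)
      · intro g g1 g2
        refine hw2 g ?_ ?_
        · exact (le_D d hΛ1 x (g • x)).trans (Nat.mul_le_mul_left _ g1)
        · exact (le_D d hΛ1 y (g • y)).trans (Nat.mul_le_mul_left _ g2)
    · intro g hg
      by_cases h1 : g = 1
      · rw [h1, one_pow]
      · exact absurd (D_lox hΛ1 (hS g h1).1) hg
    · intro g hg x m
      have h1 := (hS g (hne g hg)).2 x m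
      have h2 := le_D d hΛ1 x (g ^ m • x)
      have h3 : R1 * Λ ≤ Rq := by
        rw [Rq_eq]
        exact le_max_right _ _
      calc m ≤ R1 * d x (g ^ m • x) := h1
        _ ≤ R1 * (Λ * Dsc Λ d x (g ^ m • x)) := Nat.mul_le_mul_left _ h2
        _ = (R1 * Λ) * Dsc Λ d x (g ^ m • x) := by ring
        _ ≤ Rq * Dsc Λ d x (g ^ m • x) := Nat.mul_le_mul_right _ h3
    · intro c g hc hg hg1 x hx
      obtain ⟨o, ho⟩ := minset_ne (Dsc Λ d) c
      obtain ⟨p, ⟨u, ⟨i, hu⟩, v, ⟨j, hv⟩, hb⟩, hp⟩ := hF1 g hg1 x o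
      obtain ⟨k, hk⟩ := hg
      simp only at hk
      have hmem : ∀ i : ℤ, g ^ i • o ∈ MinSet (Dsc Λ d) c := by
        intro i
        rw [← hk, ← zpow_mul]
        exact minset_zpow hiso ho _
      have h1 : gp (Dsc Λ d) u v p ≤ 1 := by
        unfold gp
        unfold Pool.Agent.BURN.Btw at hb
        have e1 := D_lt d hΛ1 u p
        have e2 := D_lt d hΛ1 v p
        have e3 := le_D d hΛ1 u v
        rw [hT.dg.symm v p] at e2
        by_contra hcon
        push Not at hcon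
        have e4 : Λ * (Dsc Λ d u v + 2) ≤ Λ * (Dsc Λ d u p + Dsc Λ d v p) :=
          Nat.mul_le_mul_left _ (by omega)
        rw [mul_add, mul_add] at e4
        omega
      obtain ⟨y, hy, hy2⟩ := LadderX.near_btw r1 r2 u v p
      refine ⟨y, ⟨u, by rw [hu]; exact hmem i, v, by rw [hv]; exact hmem j, hy⟩, ?_⟩
      have h2 : Dsc Λ d x p ≤ 50 * dd + 1 := by
        refine D_le' d hΛ1 ?_
        have h3 : d x (g • x) ≤ Λ * (100 * dd) :=
          (le_D d hΛ1 x (g • x)).trans (Nat.mul_le_mul_left _ hx)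
        have h4 : Λ * (100 * dd) = 2 * (Λ * (50 * dd)) := by ring
        have h5 : Λ * (50 * dd + 1) = Λ * (50 * dd) + Λ := by ring
        omega
      have h3 := r1.tri x p y
      have h4 := A1_big
      omega
  · intro w hw hx y hy y' hy'
    obtain ⟨r1, r2, -⟩ := E.rescale X d δ 0 Λ hT.dg hT.hyp (by omega) (by omega)
    have hiso : IsIso H (Dsc Λ d) := D_iso Λ hT.iso
    obtain ⟨x1, hx1⟩ := hx
    have hw1 : w ≠ 1 := by
      rintro rfl
      exact not_lox_one r1 x1 hw.1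
    have hno : ∀ n : ℕ, 0 < n → w ^ n ≠ 1 := hT.tf w hw1
    have hz : ∀ z ∈ {x | ∃ w' : H, Subgroup.zpowers w = Subgroup.zpowers w' ∧
        x ∈ MinSet (Dsc Λ d) w'}, Dsc Λ d z (w • z) ≤ 20 * dd := by
      rintro z ⟨w', he, hz⟩
      rcases gen_eq hno he with rfl | rfl
      · exact (hz x1).trans hx1
      · have h1 := hz x1
        have h2 : ∀ t : X, Dsc Λ d t (w⁻¹ • t) = Dsc Λ d t (w • t) := by
          intro t
          rw [← hiso w, smul_smul, mul_inv_cancel, one_smul, r1.symm]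
        rw [h2, h2] at h1
        exact h1.trans hx1
    have hh : ∀ z ∈ hull (Dsc Λ d) {x | ∃ w' : H, Subgroup.zpowers w = Subgroup.zpowers w' ∧
        x ∈ MinSet (Dsc Λ d) w'}, d z (w • z) ≤ Λ * (20 * dd + 2) := by
      rintro z ⟨u, hu, v, hv, hb⟩
      have h1 := w97_hulldisp r1 r2 hiso hb (u := w) (hz u hu) (hz v hv)
      exact (le_D d hΛ1 z (w • z)).trans (Nat.mul_le_mul_left _ h1)
    obtain ⟨k, hk⟩ := hF2 w hw1 (Λ * (20 * dd + 2)) y y' (hh y hy) (hh y' hy')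
    refine ⟨k, le_trans (D_le' d hΛ1 (n := 100 * dd) ?_) T1_big⟩
    have h1 : 4 * (Λ * (20 * dd + 2)) + Λ = Λ * (80 * dd + 9) := by ring
    have h2 : Λ * (80 * dd + 9) ≤ Λ * (100 * dd) := Nat.mul_le_mul_left _ (by omega)
    omega

end Pool.Agent.FRK
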