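import Pool.Agent.FRK.Kit

/-! FRK, module ChoT: choice of the cut points of the hair. -/

namespace Pool.Agent.FRK

open Pool.Agent.BURN Pool.Agent.BURR

variable [RP]

namespace ChoT

/-- bad parameter -/
def Bad (S : KSys) (σ : ℕ → S.Xb) (s : ℕ) : Prop :=
  ∃ i, S.db (σ s) (S.q (S.ap i)) < 1000 * dd

theorem one_bad (E : Eng) (S : KSys) {x y : S.Xb} {σ : ℕ → S.Xb} (hg : IsGeod S.db x y σ)
    {s s' : ℕ} (h1 : s + 2000 * dd ≤ s') (h2 : s' ≤ s + 8000 * dd) (h3 : s' ≤ S.db x y)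
    (hb : Bad S σ s) (hb' : Bad S σ s') : False := by
  obtain ⟨i, hi⟩ := hb
  obtain ⟨j, hj⟩ := hb'
  have hd := hg.2.2 s s' (by omega) h3
  have n2 := Kit.num2
  have dg := Kit.dgB E S
  have t1 := dg.tri (S.q (S.ap i)) (σ s) (σ s')
  have t2 := dg.tri (S.q (S.ap i)) (σ s') (S.q (S.ap j))
  have e1 := dg.symm (S.q (S.ap i)) (σ s)
  have heq := Kit.qap_eq E S (i := i) (j := j) (by omega)
  rw [← heq] at hj
  have t3 := dg.tri (σ s) (S.q (S.ap i)) (σ s')
  have e2 := dg.symm (S.q (S.ap i)) (σ s')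
  omega

omit [RP] in
theorem six {p1 p2 p3 q1 q2 q3 : Prop} (k1 : ¬ p1 → q1) (k2 : ¬ p2 → q2) (k3 : ¬ p3 → q3)
    (a12 : p1 → p2 → False) (a13 : p1 → p3 → False) (a23 : p2 → p3 → False)
    (b12 : q1 → q2 → False) (b13 : q1 → q3 → False) (b23 : q2 → q3 → False) : False := by
  tauto

end ChoT

open ChoT in
theorem ChoT_proof (E : Eng) : Stmt_ChoT := by
  intro S Wb hb hne hgap
  have n2 := Kit.num2
  have n1 := Kit.num1'.2.2.2.2.2.1
  -- minimal distance
  obtain ⟨w0, hw0⟩ := hne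
  have hP : ∃ n : ℕ, ∃ a ∈ Wb, ∃ b ∈ Wb, S.db a (hb • b) = n := ⟨_, w0, hw0, w0, hw0, rfl⟩
  classical
  obtain ⟨a, ha, b, hb', hab⟩ := Nat.find_spec hP
  have hmin : ∀ u ∈ Wb, ∀ v ∈ Wb, S.db a (hb • b) ≤ S.db u (hb • v) := by
    intro u hu v hv
    rw [hab]
    exact Nat.find_min' hP ⟨u, hu, v, hv, rfl⟩
  obtain ⟨σ, hσ⟩ := exists_geod (Kit.dgB E S) a (hb • b)
  have hL := hgap a ha b hb'
  clear hab
  set L := S.db a (hb • b) with hLdef
  set T := (L - 3 * rho) / 2 - 6000 * dd with hT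
  have hT1 : 2 * T + 12000 * dd ≤ L - 3 * rho := by omega
  have hT2 : L - 3 * rho ≤ 2 * T + 12000 * dd + 1 := by omega
  -- at most one bad parameter on each side
  have key : ∃ t, (t = T ∨ t = T + 3000 * dd ∨ t = T + 6000 * dd) ∧ ¬ Bad S σ t ∧
      ¬ Bad S σ (L - t) := by
    have c1 : ∀ s s', s + 3000 * dd ≤ s' → s' ≤ s + 6000 * dd → s' ≤ T + 6000 * dd →
        Bad S σ s → Bad S σ s' → False := fun s s' h1 h2 h3 => 
      one_bad E S hσ (by omega) (by omega) (by omega)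
    have c2 : ∀ s s', s + 3000 * dd ≤ s' → s' ≤ s + 6000 * dd → s' ≤ T + 6000 * dd →
        Bad S σ (L - s) → Bad S σ (L - s') → False := fun s s' h1 h2 h3 hb1 hb2 => 
      one_bad E S hσ (s := L - s') (s' := L - s) (by omega) (by omega) (by omega) hb2 hb1
    by_contra hcon
    push Not at hcon
    have k1 := hcon T (Or.inl rfl)
    have k2 := hcon (T + 3000 * dd) (Or.inr (Or.inl rfl))
    have k3 := hcon (T + 6000 * dd) (Or.inr (Or.inr rfl))
    have a12 := c1 T (T + 3000 * dd) (by omega) (by omega) (by omega)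
    have a13 := c1 T (T + 6000 * dd) (by omega) (by omega) (by omega)
    have a23 := c1 (T + 3000 * dd) (T + 6000 * dd) (by omega) (by omega) (by omega)
    have b12 := c2 T (T + 3000 * dd) (by omega) (by omega) (by omega)
    have b13 := c2 T (T + 6000 * dd) (by omega) (by omega) (by omega)
    have b23 := c2 (T + 3000 * dd) (T + 6000 * dd) (by omega) (by omega) (by omega)
    exact six k1 k2 k3 a12 a13 a23 b12 b13 b23
  obtain ⟨t, ht, h1, h2⟩ := key
  refine ⟨a, ha, b, hb', σ, t, hσ, hmin, ?_, ?_, ?_, ?_⟩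
  · rcases ht with h | h | h <;> omega
  · rcases ht with h | h | h <;> omega
  · rcases ht with h | h | h <;> omega
  · intro i
    refine ⟨?_, ?_⟩
    · by_contra hc
      exact h1 ⟨i, by omega⟩
    · by_contra hc
      exact h2 ⟨i, not_le.mp hc⟩

end Pool.Agent.FRK
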