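import Pool.Agent.FRK.Kit

/-! FRK, module CLOSE: the closing criterion. -/

namespace Pool.Agent.FRK

open Pool.Agent.BURN Pool.Agent.BURR

namespace Close

variable {G X : Type} [Group G] [MulAction G X] {d : X → X → ℕ} {δ : ℕ} {Γ : Subgroup G} {h : G}
  {U : Set X}

theorem hp_not (h : G) (e : Bool) : hp h (!e) = (hp h e)⁻¹ := by
  cases e <;> simp [hp]

theorem near_smul (hi : IsIso G d) {g : G} (hg : ∀ u ∈ U, g • u ∈ U) (hg' : ∀ u ∈ U, g⁻¹ • u ∈ U)
    {x p : X} (hn : IsNear d U x p) : IsNear d U (g • x) (g • p) := by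
  refine ⟨hg p hn.1, fun w hw => ?_⟩
  have h1 := hn.2 (g⁻¹ • w) (hg' w hw)
  have h2 := hi g x (g⁻¹ • w)
  rw [smul_inv_smul] at h2
  rw [hi g x p]
  omega

/-- the basic estimate -/
theorem est (hd : IsDG d) (hy : Hyp d δ) (hi : IsIso G d) (h1 : 1 ≤ δ) (hqc : QC d (2 * δ) U)
    (hP : Stmt_Proj)
    (hΓ : ∀ g ∈ Γ, ∀ u ∈ U, g • u ∈ U)
    (hdisp : ∀ g ∈ Γ ⊔ Subgroup.zpowers h, g ≠ 1 → ∀ x : X, 30 * δ ≤ d x (g • x))
    (hh : ∀ b, hp h b ∉ Γ)
    (P M : Bool → X) (hM : ∀ e, M e = hp h e • M (!e)) (hN : ∀ e, IsNear d U (M e) (P e))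
    (hlo : ∀ e, 30 * δ ≤ 2 * d (M e) (P e) + 1)
    (hcmp : ∀ e, d (M e) (P e) ≤ d (M (!e)) (P (!e)) + 1)
    (γ : G) (hγ : γ ∈ Γ) (e e' : Bool) (hred : e' ≠ e → γ ≠ 1) :
    13 * δ ≤ gp d (M e') (γ⁻¹ • P (!e)) (γ⁻¹ • M (!e)) ∧
    13 * δ ≤ gp d (γ⁻¹ • M (!e)) (P e') (M e') := by
  have hq : IsNear d U (γ⁻¹ • M (!e)) (γ⁻¹ • P (!e)) :=
    near_smul hi (hΓ _ (Γ.inv_mem hγ)) (by rw [inv_inv]; exact hΓ γ hγ) (hN _)
  have hp' := hN e'
  have e1 : d (γ⁻¹ • M (!e)) (γ⁻¹ • P (!e)) = d (M (!e)) (P (!e)) := hi _ _ _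
  have l1 := hlo e'
  have l2 := hlo (!e)
  by_cases hA : 7 * δ + 1 < d (γ⁻¹ • P (!e)) (P e')
  · have hP2 := (hP X d δ (2 * δ) (6 * δ + 1) ((7 * δ + 1 + 1) / 2 + δ) (7 * δ + 1)
      (2 * ((7 * δ + 1 + 1) / 2 + δ) + 3 * δ + 2 * δ + 1) U hd hy hqc (by omega) (by omega) rfl
      rfl).2.1 _ _ _ _ hq hp' hA
    obtain ⟨-, -, h3⟩ := hP2
    generalize γ⁻¹ • M (!e) = x at *
    generalize γ⁻¹ • P (!e) = q at *
    generalize M e' = y at *
    generalize P e' = p at *
    have g1 := gp_add hd y q x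
    have g2 := gp_add hd x p y
    have t1 := hd.tri y p q
    have t2 := hd.tri x q p
    have s1 : d y x = d x y := hd.symm _ _
    have s2 : d q x = d x q := hd.symm _ _
    have s3 : d p y = d y p := hd.symm _ _
    have s4 : d p q = d q p := hd.symm _ _
    constructor <;> omega
  · by_cases hee : e' = e
    · subst hee
      -- x is a translate of y
      have hx : γ⁻¹ • M (!e') = (γ⁻¹ * (hp h e')⁻¹) • M e' := by
        rw [mul_smul, hM e', inv_smul_smul]
      have hmem : γ⁻¹ * (hp h e')⁻¹ ∈ Γ ⊔ Subgroup.zpowers h := by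
        apply mul_mem (inv_mem (Subgroup.mem_sup_left hγ))
        apply inv_mem
        apply Subgroup.mem_sup_right
        cases e'
        · exact Subgroup.inv_mem _ (Subgroup.mem_zpowers h)
        · exact Subgroup.mem_zpowers h
      have hne : γ⁻¹ * (hp h e')⁻¹ ≠ 1 := by
        intro hc
        apply hh e'
        have h2 : hp h e' = γ⁻¹ := by
          have := mul_eq_one_iff_eq_inv.1 hc
          rw [this, inv_inv]
        rw [h2]
        exact Γ.inv_mem hγ
      have hxy := hdisp _ hmem hne (M e')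
      rw [← hx] at hxy
      have c1 := hcmp e'
      have c2 := hcmp (!e')
      rw [Bool.not_not] at c2
      generalize γ⁻¹ • M (!e') = x at *
      generalize γ⁻¹ • P (!e') = q at *
      generalize M e' = y at *
      generalize P e' = p at *
      have g1 := gp_add hd y q x
      have g2 := gp_add hd x p y
      have t1 := hd.tri y p q
      have t2 := hd.tri x q p
      have s1 : d y x = d x y := hd.symm _ _
      have s2 : d q x = d x q := hd.symm _ _
      have s3 : d p y = d y p := hd.symm _ _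
      have s4 : d p q = d q p := hd.symm _ _
      constructor <;> omega
    · exfalso
      have he : e' = !e := by
        revert hee
        cases e' <;> cases e <;> decide
      subst he
      have h2 := hdisp γ⁻¹ (inv_mem (Subgroup.mem_sup_left hγ)) (inv_ne_one.2 (hred hee)) (P (!e))
      rw [hd.symm] at h2
      omega

end Close

open Close in
theorem close_proof (E : Eng0) : Stmt_Close := by
  classical
  intro G X _ _ d δ Γ h U hd hy hi h1 hne hqc hΓ hdisp hgap n a ε hn hRW han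
  -- the shortest segment
  obtain ⟨u0, hu0⟩ := hne
  have hex : ∃ S, ∃ x ∈ U, ∃ y ∈ U, d x (h • y) = S := ⟨_, u0, hu0, u0, hu0, rfl⟩
  obtain ⟨x0, hx0, y0, hy0, hS⟩ := Nat.find_spec hex
  have hmin : ∀ u ∈ U, ∀ v ∈ U, d x0 (h • y0) ≤ d u (h • v) := by
    intro u hu v hv
    rw [hS]
    exact Nat.find_min' hex ⟨u, hu, v, hv, rfl⟩
  have hS30 := hgap x0 hx0 y0 hy0
  obtain ⟨m, hm1, hm2⟩ := hd.geo x0 (h • y0) (d x0 (h • y0) / 2) (Nat.div_le_self _ _)
  clear hS
  clear hex
  generalize hSS : d x0 (h • y0) = S at *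
  -- the two ends and the middle, seen from both sides
  obtain ⟨P, hPt, hPf⟩ : ∃ P : Bool → X, P true = x0 ∧ P false = y0 :=
    ⟨fun b => if b then x0 else y0, rfl, rfl⟩
  obtain ⟨M, hMt, hMf⟩ : ∃ M : Bool → X, M true = m ∧ M false = h⁻¹ • m :=
    ⟨fun b => if b then m else h⁻¹ • m, rfl, rfl⟩
  have dt : d (M true) (P true) = S / 2 := by
    rw [hMt, hPt, hd.symm]; exact hm1
  have df : d (M false) (P false) = S - S / 2 := by
    rw [hMf, hPf, ← hm2]
    have := hi h (h⁻¹ • m) y0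
    rw [smul_inv_smul] at this
    exact this.symm
  have hM : ∀ e, M e = hp h e • M (!e) := by
    intro e
    cases e
    · show M false = h⁻¹ • M true
      rw [hMf, hMt]
    · show M true = h • M false
      rw [hMf, hMt, smul_inv_smul]
  have hN : ∀ e, IsNear d U (M e) (P e) := by
    intro e
    cases e
    · refine ⟨by rw [hPf]; exact hy0, fun w hw => ?_⟩
      rw [df, hMf]
      have t1 := hi h (h⁻¹ • m) w
      rw [smul_inv_smul] at t1
      have t2 := hmin x0 hx0 w hw
      have t3 := hd.tri x0 m (h • w)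
      omega
    · refine ⟨by rw [hPt]; exact hx0, fun w hw => ?_⟩
      rw [dt, hMt]
      have t2 := hmin w hw y0 hy0
      have t3 := hd.tri w m (h • y0)
      have s := hd.symm w m
      omega
  have hlo : ∀ e, 30 * δ ≤ 2 * d (M e) (P e) + 1 := by
    intro e
    cases e
    · rw [df]; omega
    · rw [dt]; omega
  have hcmp : ∀ e, d (M e) (P e) ≤ d (M (!e)) (P (!e)) + 1 := by
    intro e
    cases e
    · rw [Bool.not_false, df, dt]; omega
    · rw [Bool.not_true, df, dt]; omega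
  have hh : ∀ b, hp h b ∉ Γ := by
    intro b hb
    have hhΓ : h ∈ Γ := by
      cases b
      · have : h⁻¹ ∈ Γ := hb
        rw [← inv_inv h]
        exact Γ.inv_mem this
      · exact hb
    have h2 := hgap (h • u0) (hΓ h hhΓ u0 hu0) u0 hu0
    have h3 := (hd.eq_zero (h • u0) (h • u0)).2 rfl
    omega
  have hest := est hd hy hi h1 hqc E.proj hΓ hdisp hh P M hM hN hlo hcmp
  -- the points along the word
  obtain ⟨pp, hpp⟩ : ∃ pp : ℕ → X, ∀ i, pp i = a i • P (ε i) := ⟨fun i => a i • P (ε i), fun _ => rfl⟩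
  obtain ⟨mm, hmm⟩ : ∃ mm : ℕ → X, ∀ i, mm i = a i • M (ε i) := ⟨fun i => a i • M (ε i), fun _ => rfl⟩
  obtain ⟨qq, hqq⟩ : ∃ qq : ℕ → X, ∀ i, qq i = (a i * hp h (ε i)) • P (!(ε i)) :=
    ⟨fun i => (a i * hp h (ε i)) • P (!(ε i)), fun _ => rfl⟩
  have hmm' : ∀ i, mm i = (a i * hp h (ε i)) • M (!(ε i)) := by
    intro i
    rw [hmm, mul_smul, ← hM]
  -- the point mm i lies between pp i and qq i
  have hz : ∀ i, gp d (pp i) (qq i) (mm i) = 0 := by
    intro i
    have g1 := gp_add hd (pp i) (qq i) (mm i)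
    have e1 : d (pp i) (mm i) = d (M (ε i)) (P (ε i)) := by
      rw [hpp, hmm, hi, hd.symm]
    have e2 : d (qq i) (mm i) = d (M (!(ε i))) (P (!(ε i))) := by
      rw [hqq, hmm', hi, hd.symm]
    have e3 : d (pp i) (qq i) = S := by
      rw [hpp, hqq, mul_smul, hi]
      cases ε i
      · show d (P false) (h⁻¹ • P true) = S
        rw [hPf, hPt]
        have := hi h y0 (h⁻¹ • x0)
        rw [smul_inv_smul, hd.symm, hSS] at this
        exact this.symm
      · show d (P true) (h • P false) = S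
        rw [hPf, hPt]
        exact hSS
    have e4 : d (M (ε i)) (P (ε i)) + d (M (!(ε i))) (P (!(ε i))) = S := by
      cases ε i
      · rw [Bool.not_false, df, dt]; omega
      · rw [Bool.not_true, df, dt]; omega
    omega
  -- estimates at the middle points
  have hT : ∀ i, i + 1 < n → 13 * δ ≤ gp d (mm (i + 1)) (qq i) (mm i) ∧
      13 * δ ≤ gp d (mm i) (pp (i + 1)) (mm (i + 1)) := by
    intro i hin
    obtain ⟨γ, hγ⟩ : ∃ γ, γ = (a i * hp h (ε i))⁻¹ * a (i + 1) := ⟨_, rfl⟩
    have hγΓ : γ ∈ Γ := hγ ▸ hRW.succ i (by omega)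
    have key := hest γ hγΓ (ε i) (ε (i + 1)) (by
      intro hne h2
      apply hRW.red i hin hne
      rw [h2] at hγ
      exact (inv_mul_eq_one.1 hγ.symm).symm)
    have e0 : a i * hp h (ε i) = a (i + 1) * γ⁻¹ := by rw [hγ]; group
    have e1 : mm (i + 1) = a (i + 1) • M (ε (i + 1)) := hmm _
    have e2 : qq i = a (i + 1) • γ⁻¹ • P (!(ε i)) := by rw [hqq, e0, mul_smul]
    have e3 : mm i = a (i + 1) • γ⁻¹ • M (!(ε i)) := by rw [hmm', e0, mul_smul]
    have e4 : pp (i + 1) = a (i + 1) • P (ε (i + 1)) := hpp _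
    rw [e1, e2, e3, e4, isIso_gp hi, isIso_gp hi]
    exact key
  have hA1 : ∀ i, i + 1 < n → gp d (pp i) (mm (i + 1)) (mm i) ≤ δ := by
    intro i hin
    have h2 := (hT i hin).1
    have h3 := hyp_gp hd hy (pp i) (qq i) (mm (i + 1)) (mm i)
    have h4 := hz i
    omega
  have hA2 : ∀ i, i + 1 < n → gp d (mm i) (qq (i + 1)) (mm (i + 1)) ≤ δ := by
    intro i hin
    have h2 := (hT i hin).2
    have h3 := hyp_gp hd hy (pp (i + 1)) (qq (i + 1)) (mm i) (mm (i + 1))
    have h4 := hz (i + 1)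
    have h5 := gp_comm hd (pp (i + 1)) (mm i) (mm (i + 1))
    omega
  have hA3 : ∀ i, i + 2 < n → gp d (mm i) (mm (i + 2)) (mm (i + 1)) ≤ 2 * δ := by
    intro i hin
    have h2 := (hT i (by omega)).2
    have h3 : gp d (pp (i + 1)) (mm (i + 2)) (mm (i + 1)) ≤ δ := hA1 (i + 1) hin
    have h4 := hyp_gp hd hy (pp (i + 1)) (mm (i + 2)) (mm i) (mm (i + 1))
    have h5 := gp_comm hd (pp (i + 1)) (mm i) (mm (i + 1))
    omega
  have hA4 : ∀ i, i + 1 < n → 6 * δ < d (mm i) (mm (i + 1)) := by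
    intro i hin
    have h2 := (hT i hin).1
    have h3 := gp_le_left hd (mm (i + 1)) (qq i) (mm i)
    have h4 : d (mm (i + 1)) (mm i) = d (mm i) (mm (i + 1)) := hd.symm _ _
    omega
  -- the broken geodesic
  have hprod : gp d (pp 0) (qq (n - 1)) (mm 0) ≤ 3 * δ := by
    obtain ⟨x, hx⟩ : ∃ x : ℕ → X, x = fun i => if i = 0 then pp 0 else
      if i = n + 1 then qq (n - 1) else mm (i - 1) := ⟨_, rfl⟩
    have hx0' : x 0 = pp 0 := by rw [hx]; rfl
    have hxn : x (n + 1) = qq (n - 1) := by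
      rw [hx]
      have : n + 1 ≠ 0 := by omega
      simp only [this, if_false, if_true]
    have hxm : ∀ i, 1 ≤ i → i ≤ n → x i = mm (i - 1) := by
      intro i hi1 hi2
      rw [hx]
      have h2 : i ≠ 0 := by omega
      have h3 : i ≠ n + 1 := by omega
      simp only [h2, h3, if_false]
    have key := E.lga X d δ (2 * δ) (n + 1) x hd hy (by omega)
      (by
        intro i hi1 hi2
        rw [hxm i hi1 (by omega)]
        by_cases hi3 : i = 1
        · subst hi3
          have e0 : x (1 - 1) = pp 0 := hx0'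
          rw [e0]
          by_cases hn1 : n = 1
          · subst hn1
            have e1 : x (1 + 1) = qq 0 := hxn
            rw [e1]
            have := hz 0
            show gp d (pp 0) (qq 0) (mm 0) ≤ 2 * δ
            omega
          · have e1 : x (1 + 1) = mm 1 := hxm 2 (by omega) (by omega)
            rw [e1]
            have : gp d (pp 0) (mm 1) (mm 0) ≤ δ := hA1 0 (by omega)
            show gp d (pp 0) (mm 1) (mm 0) ≤ 2 * δ
            omega
        · obtain ⟨j, rfl⟩ : ∃ j, i = j + 2 := ⟨i - 2, by omega⟩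
          have e0 : x (j + 2 - 1) = mm j := hxm (j + 1) (by omega) (by omega)
          have e2 : j + 2 - 1 = j + 1 := by omega
          rw [e0, e2]
          by_cases hjn : j + 2 = n
          · have e1 : x (j + 2 + 1) = qq (j + 1) := by
              have h3 : j + 2 + 1 = n + 1 := by omega
              have h4 : n - 1 = j + 1 := by omega
              rw [h3, hxn, h4]
            rw [e1]
            have := hA2 j (by omega)
            omega
          · have e1 : x (j + 2 + 1) = mm (j + 2) := hxm (j + 3) (by omega) (by omega)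
            rw [e1]
            exact hA3 j (by omega))
      (by
        intro i hi1 hi2
        obtain ⟨j, rfl⟩ : ∃ j, i = j + 1 := ⟨i - 1, by omega⟩
        have e0 : x (j + 1) = mm j := hxm (j + 1) (by omega) (by omega)
        have e1 : x (j + 1 + 1) = mm (j + 1) := hxm (j + 2) (by omega) (by omega)
        rw [e0, e1]
        have := hA4 j (by omega)
        omega)
    have h2 := key.2.1
    rw [hx0', hxn, hxm 1 le_rfl hn] at h2
    have h3 : 2 * δ + δ = 3 * δ := by ring
    rw [h3] at h2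
    exact h2
  -- the ends are in U
  have hp0U : pp 0 ∈ U := by
    rw [hpp]
    exact hΓ _ hRW.zero _ (hN _).1
  have hqU : qq (n - 1) ∈ U := by
    rw [hqq]
    have h2 := hRW.succ (n - 1) (by omega)
    have h3 : n - 1 + 1 = n := by omega
    rw [h3, han, mul_one] at h2
    have h4 : a (n - 1) * hp h (ε (n - 1)) ∈ Γ := by
      have := Γ.inv_mem h2
      rwa [inv_inv] at this
    exact hΓ _ h4 _ (hN _).1
  obtain ⟨p, hp1, hp2⟩ := LadderX.near_btw hd hy (pp 0) (qq (n - 1)) (mm 0)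
  obtain ⟨w, hw, hpw⟩ := hqc _ hp0U _ hqU p hp1
  have t1 := hd.tri (mm 0) p w
  -- the distance of mm 0 to U
  have hfar : d (mm 0) (pp 0) ≤ d (mm 0) w := by
    have hn0 : IsNear d U (mm 0) (pp 0) := by
      rw [hmm, hpp]
      exact near_smul hi (hΓ _ hRW.zero) (hΓ _ (Γ.inv_mem hRW.zero)) (hN _)
    exact hn0.2 w hw
  have hfar2 : d (mm 0) (pp 0) = d (M (ε 0)) (P (ε 0)) := by
    rw [hmm, hpp, hi]
  have hfar3 := hlo (ε 0)
  omega

end Pool.Agent.FRK
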