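import Pool.Agent.FRK.Kit

/-! FRK, module DISPUP. -/

namespace Pool.Agent.FRK

open Pool.Agent.BURN Pool.Agent.BURR

variable [RP]

theorem dispUp_proof (E : Eng) : Stmt_DispUp := by
  intro S Nb hNb g hg hg1 x
  have n1 := Kit.num1'
  have n2 := Kit.num2
  have n4 := Kit.num4
  have key : rho + 1 ≤ S.D x (g • x) := by
    by_cases hπ : S.π g = 1
    · have hK : g ∈ S.K := (Kit.ker_K S g).1 hπ
      have hap : ∀ c ∈ Set.range S.ap, rho + 1 ≤ S.dg (S.bs x) c := by
        rintro _ ⟨i, rfl⟩
        exact Kit.ap_bs E S x i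
      have h1 := (E.glcor S.G S.Gm S.dg (Set.range S.ap) S.R _ _ _ _ (Kit.rf E S)).1 (S.bs x)
        (rho + 1) g hK hg1 (fun c hc => by
          have := hap c hc
          generalize aa0 del1 (2 * f3 + 1) (2 * f3) = a at *
          omega) hap
      rw [Kit.bs_smul] at h1
      have h2 := Kit.bs_le E S x (g • x)
      generalize bet1 del1 (2 * f3) = b at *
      omega
    · have h1 := hNb (S.π g) hg hπ (S.q (S.bs x))
      rw [← Kit.q_smul, Kit.bs_smul] at h1
      have h2 := Kit.q_le E S (S.bs x) (S.bs (g • x))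
      have h3 := Kit.bs_le E S x (g • x)
      have h4 : 1000000 * rho ≤ Lam * rho := Nat.mul_le_mul_right _ n4.2
      have h5 : 1000000 ≤ rho := by omega
      omega
  have := Kit.d_ge S x (g • x) rho key
  omega

end Pool.Agent.FRK
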