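import Pool.Agent.FRK.Kit
import Pool.Agent.BURN.VR0

/-! FRK, module Exact: apices with a large angle lie on every geodesic. -/

namespace Pool.Agent.FRK

open Pool.Agent.BURN Pool.Agent.BURR

namespace Exact

open Pool.Agent.BURN.VR0

variable {V I : Type} {D : V → V → ℕ} {Y : I → Set V} {ρ : ℕ}

/-- left end of an excursion -/
theorem left_end (hdg : IsDG (dGam D Y ρ))
    (hadj : ∀ u w : Gam Y ρ, dGam D Y ρ u w = 1 ↔ CAdj D ρ u.1 w.1)
    {k : ℕ} {g : ℕ → Gam Y ρ} (hg : GSeq (dGam D Y ρ) k g) {i : I} :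
    ∀ t, t ≤ k → Hor i (g t).1 → ∃ t0, t0 ≤ t ∧ (∀ j, t0 < j → j ≤ t → Hor i (g j).1) ∧
      ((t0 = 0 ∧ Hor i (g 0).1) ∨ (∃ v ∈ Y i, (g t0).1 = .b v ∧ t0 < t)) := by
  intro t
  induction t with
  | zero => intro _ h; exact ⟨0, le_rfl, fun j hj hj' => by omega, Or.inl ⟨rfl, h⟩⟩
  | succ t ih =>
    intro ht h
    have h2 : dGam D Y ρ (g (t+1)) (g t) = 1 := by
      rw [hdg.symm, hg t (t + 1) (by omega) ht]; omega
    rcases hor_step ((hadj _ _).1 h2) h with h3 | ⟨v, h3, h4⟩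
    · obtain ⟨t0, h5, h6, h7⟩ := ih (by omega) h3
      refine ⟨t0, by omega, fun j hj hj' => ?_, ?_⟩
      · rcases Nat.lt_or_ge j (t+1) with h8 | h8
        · exact h6 j hj (by omega)
        · have : j = t + 1 := by omega
          rw [this]; exact h
      · rcases h7 with h7 | ⟨v, hv, h8, h9⟩
        · exact Or.inl h7
        · exact Or.inr ⟨v, hv, h8, by omega⟩
    · have h5 := (g (t+1)).2
      rw [h4] at h5
      refine ⟨t, by omega, fun j hj hj' => ?_, Or.inr ⟨v, h5.1, h3, by omega⟩⟩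
      have : j = t + 1 := by omega
      rw [this]; exact h

theorem ivert_mem {i : I} {y : V} {s : ℕ} {u : Gam Y ρ} (h : IVert Y i y s u.1) :
    y ∈ Y i ∧ s ≤ ρ := by
  rcases h with ⟨h1, h2, -⟩ | ⟨-, h2⟩
  · exact ⟨h2, by omega⟩
  · have h5 := u.2
    rw [h2] at h5
    exact ⟨h5.1, h5.2.2⟩

theorem ivert_isFt {i : I} {y : V} {s : ℕ} {u : CV V I} (h : IVert Y i y s u) : IsFt u y := by
  rcases h with ⟨-, -, h2⟩ | ⟨-, h2⟩
  · exact Or.inl h2
  · exact Or.inr ⟨i, s, h2⟩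

theorem ivert_ht {i : I} {y : V} {s : ℕ} {u : CV V I} (h : IVert Y i y s u) : ht ρ u = s := by
  rcases h with ⟨h1, -, h2⟩ | ⟨-, h2⟩
  · rw [h2, h1]; rfl
  · rw [h2]; rfl

/-- climbing to height ρ -/
theorem climb1 (hCl : Stmt_Climb) (hGD : Stmt_GamDG) (hCD : CD D Y ρ)
    {k : ℕ} {g : ℕ → Gam Y ρ} (hg : GSeq (dGam D Y ρ) k g) {i : I} (yy : ℕ → V) (ss : ℕ → ℕ)
    (hI : ∀ j ≤ k, IVert Y i (yy j) (ss j) (g j).1)
    (h00 : ∀ j < k, ¬ (ss j = 0 ∧ ss (j+1) = 0))
    (hlt : ∀ j < k, ss j < ρ) (hk : ss k = ρ) : D (yy 0) (yy k) ≤ 2 ^ ρ := by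
  obtain ⟨hdg, hadj, -⟩ := hGD V I D Y ρ hCD
  have hρ : 1 ≤ ρ := by have := hCD.big; omega
  have hdgD := hCD.dg
  have h0 := ivert_mem (hI 0 (by omega))
  let v : Gam Y ρ := ⟨.c i (yy 0) ρ, h0.1, hρ, le_rfl⟩
  have h1 := hCl V I D Y ρ hCD i k ρ g yy ss hg hI h00 hlt hk hρ le_rfl v rfl
  have h2 : (g k).1 = .c i (yy k) ρ := by
    rcases hI k le_rfl with ⟨h3, -⟩ | ⟨-, h3⟩
    · omega
    · rw [hk] at h3; exact h3
  rcases Nat.lt_or_ge (dGam D Y ρ v (g k)) 1 with h3 | h3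
  · have h4 : v = g k := (hdg.eq_zero _ _).1 (by omega)
    have h5 : (CV.c i (yy 0) ρ : CV V I) = .c i (yy k) ρ := by
      rw [← h2, ← h4]
    injection h5 with _ h6
    rw [h6, (hdgD.eq_zero _ _).2 rfl]
    exact Nat.zero_le _
  · have h4 : CAdj D ρ v.1 (g k).1 := (hadj _ _).1 (by omega)
    rw [h2] at h4
    obtain ⟨-, ⟨-, h5⟩ | ⟨-, -, h5⟩⟩ := h4
    · omega
    · exact h5

/-- a path in horoball i avoiding the apex -/
theorem core (hTop : Stmt_Top) (hCl : Stmt_Climb) (hGL : Stmt_GamLen) (hGD : Stmt_GamDG)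
    (hCD : CD D Y ρ)
    {k : ℕ} {g : ℕ → Gam Y ρ} (hg : GSeq (dGam D Y ρ) k g) {i : I} (yy : ℕ → V) (ss : ℕ → ℕ)
    (hI : ∀ j ≤ k, IVert Y i (yy j) (ss j) (g j).1)
    (h00 : ∀ j < k, ¬ (ss j = 0 ∧ ss (j+1) = 0)) : D (yy 0) (yy k) ≤ 2 ^ (ρ + 2) := by
  obtain ⟨hdg, hadj, -, -, -, hva, -, -⟩ := hGD V I D Y ρ hCD
  have hρ : 1 ≤ ρ := by have := hCD.big; omega
  have hdgD := hCD.dg
  have hp1 : 2 ^ (ρ + 2) = 4 * 2 ^ ρ := by rw [pow_add]; ring
  have hp2 : 2 * 2 ^ (ρ - 1) = 2 ^ ρ := by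
    rw [← pow_succ']; congr 1; omega
  by_cases hex : ∃ j, j ≤ k ∧ ss j = ρ
  · classical
    obtain ⟨hj1, hj1'⟩ := Nat.find_spec hex
    have hj1m : ∀ j, j < Nat.find hex → ss j < ρ := by
      intro j hj
      have h1 := Nat.find_min hex hj
      have h2 := (ivert_mem (hI j (by omega))).2
      by_contra hc
      exact h1 ⟨by omega, by omega⟩
    set j1 := Nat.find hex with hj1d
    have hex2 : ∃ j, j ≤ k ∧ ss (k - j) = ρ :=
      ⟨k - j1, by omega, by rw [show k - (k - j1) = j1 by omega]; exact hj1'⟩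
    obtain ⟨hj2, hj2'⟩ := Nat.find_spec hex2
    have hj2m : ∀ j, j < Nat.find hex2 → ss (k - j) < ρ := by
      intro j hj
      have h1 := Nat.find_min hex2 hj
      have h2 := (ivert_mem (hI (k - j) (by omega))).2
      by_contra hc
      exact h1 ⟨by omega, by omega⟩
    set j2 := Nat.find hex2 with hj2d
    have hj12 : j1 ≤ k - j2 := Nat.find_min' hex ⟨by omega, hj2'⟩
    -- left
    have a1 : D (yy 0) (yy j1) ≤ 2 ^ ρ :=
      climb1 hCl hGD hCD (g := g) (fun a b hab hb => hg a b hab (by omega)) yy ss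
        (fun j hj => hI j (by omega)) (fun j hj => h00 j (by omega)) hj1m hj1'
    -- right
    have a2 : D (yy k) (yy (k - j2)) ≤ 2 ^ ρ := by
      have := climb1 hCl hGD hCD (k := j2) (g := fun j => g (k - j)) (i := i)
        (fun a b hab hb => by
          simp only
          rw [hdg.symm, hg (k - b) (k - a) (by omega) (by omega)]
          omega) (fun j => yy (k - j)) (fun j => ss (k - j))
        (fun j hj => hI (k - j) (by omega)) (fun j hj h => by
          apply h00 (k - (j + 1)) (by omega)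
          rw [show k - (j + 1) + 1 = k - j by omega]
          exact ⟨h.2, h.1⟩) hj2m hj2'
      simpa using this
    -- middle
    have b1 : dGam D Y ρ (g j1) (va Y ρ i) = ρ + 1 - ρ :=
      hva i (yy j1) ρ (g j1) (by have := hI j1 hj1; rw [hj1'] at this; exact this)
    have b2 : dGam D Y ρ (g (k - j2)) (va Y ρ i) = ρ + 1 - ρ :=
      hva i (yy (k - j2)) ρ (g (k - j2)) (by
        have := hI (k - j2) (by omega); rw [hj2'] at this; exact this)
    have b3 := hdg.tri (g j1) (va Y ρ i) (g (k - j2))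
    rw [hdg.symm (va Y ρ i)] at b3
    have b4 := hg j1 (k - j2) hj12 (by omega)
    have a3 : D (yy j1) (yy (k - j2)) ≤ (k - j2 - j1) * 2 ^ ρ := by
      apply (hGL V I D Y ρ hCD).1 (k - j2 - j1) ρ (fun j => g (j1 + j)) (yy j1) (yy (k - j2))
      · intro a b hab hb
        simp only
        rw [hg (j1 + a) (j1 + b) (by omega) (by omega)]
        omega
      · exact le_rfl
      · intro j hj
        have := hI (j1 + j) (by omega)
        exact (ivert_ht (ρ := ρ) this).le.trans (ivert_mem this).2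
      · exact ivert_isFt (hI (j1 + 0) (by omega))
      · have := ivert_isFt (hI (j1 + (k - j2 - j1)) (by omega))
        have e : j1 + (k - j2 - j1) = k - j2 := by omega
        have e2 : yy (j1 + (k - j2 - j1)) = yy (k - j2) := congrArg yy e
        rw [e2] at this
        exact this
    have a4 : (k - j2 - j1) * 2 ^ ρ ≤ 2 * 2 ^ ρ := Nat.mul_le_mul_right _ (by omega)
    have t1 := hdgD.tri (yy 0) (yy j1) (yy k)
    have t2 := hdgD.tri (yy j1) (yy (k - j2)) (yy k)
    rw [hdgD.symm (yy (k - j2)) (yy k)] at t2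
    omega
  · push Not at hex
    have hlt : ∀ j ≤ k, ss j ≤ ρ - 1 := by
      intro j hj
      have h1 := hex j hj
      have h2 := (ivert_mem (hI j hj)).2
      omega
    have := hTop V I D Y ρ hCD i k (ρ - 1) g yy ss hg hI h00 hlt (by omega)
    omega

/-- one side of the excursion -/
theorem one_side (hGD : Stmt_GamDG) (hVR : Stmt_VR0) (hCD : CD D Y ρ)
    (hρ : 2 * f3 + del1 + 10 ≤ ρ) {i : I} {x y : Gam Y ρ} {g : ℕ → Gam Y ρ}
    (hg : IsGeod (dGam D Y ρ) x y g) {A : V} (hA : Foot D Y ρ i x A)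
    (_hno : ∀ j, j ≤ dGam D Y ρ x y → g j ≠ va Y ρ i) {t : ℕ} (ht : t ≤ dGam D Y ρ x y)
    (hH : Hor i (g t).1) (hnear : dGam D Y ρ (va Y ρ i) (g t) ≤ f3 + del1) :
    ∃ t0 v1 s, t0 ≤ t ∧ (∀ j, t0 < j → j ≤ t → Hor i (g j).1) ∧
      IVert Y i v1 s (g t0).1 ∧ D A v1 < 2 ^ (ρ + 5) ∧ (s = 0 → t0 < t) := by
  obtain ⟨hdg, hadj, -, -, -, hva, -, -⟩ := hGD V I D Y ρ hCD
  have hdgD := hCD.dg
  obtain ⟨t0, h1, h2, h3⟩ := left_end hdg hadj hg.2.2 t ht hH
  have hpos : 0 < 2 ^ (ρ + 5) := by positivity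
  rcases h3 with ⟨h3, h4⟩ | ⟨v, hv, h3, h4⟩
  · have hx : Hor i x.1 := by rw [← hg.1]; exact h4
    rcases hA.2 with ⟨s, hs⟩ | ⟨hn, -⟩
    · have h5 := x.2
      rw [hs] at h5
      refine ⟨t0, A, s, h1, h2, ?_, ?_, fun h => ?_⟩
      · rw [h3, hg.1]
        exact Or.inr ⟨h5.2.1, hs⟩
      · rw [(hdgD.eq_zero _ _).2 rfl]; exact hpos
      · have := h5.2.1; omega
    · exact absurd hx hn
  · refine ⟨t0, v, 0, h1, h2, Or.inl ⟨rfl, hv, h3⟩, ?_, fun _ => h4⟩
    have hgv : g t0 = vb Y ρ v := Subtype.ext h3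
    have e0 : dGam D Y ρ (vb Y ρ v) (va Y ρ i) = ρ + 1 := by
      have := hva i v 0 (vb Y ρ v) (Or.inl ⟨rfl, hv, rfl⟩)
      omega
    have hF : Foot D Y ρ i (vb Y ρ v) v := by
      refine ⟨hv, Or.inr ⟨fun h => hor_not_base h v rfl, ?_⟩⟩
      rw [e0, (hdg.eq_zero _ _).2 rfl]
      omega
    by_contra hc
    push Not at hc
    have h5 := hVR V I D Y ρ hCD i x (vb Y ρ v) A v hA hF hc
    have e1 := hg.dist_left ht
    have e2 := hg.dist_left (le_trans h1 ht)
    have e3 := hg.2.2 t0 t h1 ht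
    rw [hgv] at e2 e3
    have e4 := hdg.tri x (va Y ρ i) (g t)
    have e5 := hdg.tri (vb Y ρ v) (g t) (va Y ρ i)
    rw [hdg.symm (g t)] at e5
    have e6 := gp_add hdg x (vb Y ρ v) (va Y ρ i)
    omega

end Exact

open Exact Pool.Agent.BURN.VR0 in
theorem exact_proof (E : Eng0) : Stmt_Exact := by
  intro V I D Y ρ hCD hρ i x y A B hA hB hAB
  have hGD := E.gamDG
  obtain ⟨hdg, hadj, -, hhor, -, hva, -, -⟩ := hGD V I D Y ρ hCD
  have hdgD := hCD.dg
  have hp1 : 2 ^ (ρ + 8) = 256 * 2 ^ ρ := by rw [pow_add]; ring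
  have hp2 : 2 ^ (ρ + 5) = 32 * 2 ^ ρ := by rw [pow_add]; ring
  have hp3 : 2 ^ (ρ + 2) = 4 * 2 ^ ρ := by rw [pow_add]; ring
  have hpos : 0 < 2 ^ ρ := by positivity
  obtain ⟨g, hg⟩ := exists_geod hdg x y
  have hVR := E.vr0 V I D Y ρ hCD i x y A B hA hB (by omega)
  obtain ⟨htk, hnear⟩ := near_geod hdg (E.hypGam V I D Y ρ hCD) hg (va Y ρ i)
  set t := gp (dGam D Y ρ) y (va Y ρ i) x / 2 with htd
  have hnear' : dGam D Y ρ (va Y ρ i) (g t) ≤ f3 + del1 := by omega
  by_cases hno : ∃ j, j ≤ dGam D Y ρ x y ∧ g j = va Y ρ i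
  · obtain ⟨j, hj, hj2⟩ := hno
    have h1 := hg.btw' hj
    rw [hj2] at h1
    unfold Pool.Agent.BURN.Btw at h1
    omega
  · exfalso
    push Not at hno
    have hH : Hor i (g t).1 := by
      by_contra hc
      have h1 := hhor i (va Y ρ i) (g t) (Or.inr rfl) hc
      have h2 : ht ρ (va Y ρ i).1 = ρ + 1 := rfl
      rw [h2] at h1
      omega
    obtain ⟨t0, v1, s1, h1, h2, h3, h4, h5⟩ := one_side hGD E.vr0 hCD hρ hg hA hno htk hH hnear'
    -- reversed path
    set k := dGam D Y ρ x y with hk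
    have hkr : dGam D Y ρ y x = k := by rw [hdg.symm]
    have hgr : IsGeod (dGam D Y ρ) y x (fun j => g (k - j)) := by
      refine ⟨?_, ?_, ?_⟩
      · simp only [Nat.sub_zero]; exact hg.2.1
      · simp only [hkr, Nat.sub_self]; exact hg.1
      · intro a b hab hb
        rw [hkr] at hb
        simp only
        rw [hdg.symm, hg.2.2 (k - b) (k - a) (by omega) (by omega)]
        omega
    have hkt : k - (k - t) = t := by omega
    obtain ⟨u0, v2, s2, h1', h2', h3', h4', h5'⟩ := one_side (t := k - t) hGD E.vr0 hCD hρ hgr hB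
      (fun j hj => hno (k - j) (by omega)) (by rw [hkr]; omega)
      (by simp only [hkt]; exact hH) (by simp only [hkt]; exact hnear')
    replace h3' : IVert Y i v2 s2 (g (k - u0)).1 := h3'
    replace h2' : ∀ j, u0 < j → j ≤ k - t → Hor i (g (k - j)).1 := h2'
    -- the excursion
    have hrun : ∀ j, t0 < j → j < k - u0 → Hor i (g j).1 := by
      intro j hj hj'
      rcases Nat.lt_or_ge t j with h | h
      · have := h2' (k - j) (by omega) (by omega)
        rw [show k - (k - j) = j by omega] at this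
        exact this
      · exact h2 j hj h
    have hlt : t0 ≤ k - u0 := by omega
    have hIV : ∀ j, t0 < j → j < k - u0 → IVert Y i (yof A (g j).1) (ht ρ (g j).1) (g j).1 ∧
        1 ≤ ht ρ (g j).1 := by
      intro j hj hj'
      rcases hrun j hj hj' with ⟨y', s, hc⟩ | hc
      · have h5 := (g j).2
        rw [hc] at h5 ⊢
        exact ⟨Or.inr ⟨h5.2.1, rfl⟩, h5.2.1⟩
      · exact absurd (Subtype.ext hc) (hno j (by omega))
    have hyof : ∀ (v : V) (s : ℕ) (u : CV V I), IVert Y i v s u → yof A u = v := by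
      intro v s u h
      rcases h with ⟨-, -, h⟩ | ⟨-, h⟩ <;> rw [h] <;> rfl
    have hall : ∀ j, t0 ≤ j → j ≤ k - u0 → IVert Y i (yof A (g j).1) (ht ρ (g j).1) (g j).1 := by
      intro j hj hj'
      rcases Nat.lt_or_ge t0 j with h | h
      · rcases Nat.lt_or_ge j (k - u0) with h' | h'
        · exact (hIV j h h').1
        · have e : j = k - u0 := by omega
          subst e
          rw [hyof _ _ _ h3', ivert_ht h3']
          exact h3'
      · have e : j = t0 := by omega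
        subst e
        rw [hyof _ _ _ h3, ivert_ht h3]
        exact h3
    have hfin := core (k := k - u0 - t0) (g := fun j => g (t0 + j)) (i := i) E.top E.climb E.gamLen
      hGD hCD (fun a b hab hb => by
        simp only
        rw [hg.2.2 (t0 + a) (t0 + b) (by omega) (by omega)]
        omega) (fun j => yof A (g (t0 + j)).1) (fun j => ht ρ (g (t0 + j)).1)
      (fun j hj => hall (t0 + j) (by omega) (by omega))
      (fun j hj h => by
        replace h : ht ρ (g (t0 + j)).1 = 0 ∧ ht ρ (g (t0 + (j + 1))).1 = 0 := h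
        obtain ⟨ha, hb⟩ := h
        have c1 : j = 0 := by
          by_contra hc
          have := (hIV (t0 + j) (by omega) (by omega)).2
          omega
        have c2 : j + 1 = k - u0 - t0 := by
          by_contra hc
          have := (hIV (t0 + (j + 1)) (by omega) (by omega)).2
          omega
        subst c1
        rw [show t0 + 0 = t0 by omega, ivert_ht h3] at ha
        rw [show t0 + (0 + 1) = k - u0 by omega, ivert_ht h3'] at hb
        have := h5 ha
        have := h5' hb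
        omega)
    replace hfin : D (yof A (g (t0 + 0)).1) (yof A (g (t0 + (k - u0 - t0))).1) ≤ 2 ^ (ρ + 2) := hfin
    rw [show t0 + (k - u0 - t0) = k - u0 by omega, show t0 + 0 = t0 by omega, hyof _ _ _ h3,
      hyof _ _ _ h3'] at hfin
    have q1 := hdgD.tri A v1 B
    have q2 := hdgD.tri v1 v2 B
    rw [hdgD.symm v2 B] at q2
    omega

end Pool.Agent.FRK
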