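import Pool.Agent.FRK.Kit

/-! FRK, module Exh: all remaining rotations. -/

namespace Pool.Agent.FRK

open Pool.Agent.BURN Pool.Agent.BURR

variable [RP]

open Kit in
theorem Exh_proof (E : Eng) (hG : Stmt_Grow) : Stmt_Exh := by
  intro S Γ F C hBig hSt B hB
  have hdg := dgG E S
  have hiso := isoG E S
  have hdb := dgB E S
  have hself : ∀ z : S.Gm, S.dg z z = 0 := fun z => (hdg.eq_zero z z).2 rfl
  have hself' : ∀ z : S.Xb, S.db z z = 0 := fun z => (hdb.eq_zero z z).2 rfl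
  -- one step
  have hstep : ∀ s : {s : Subgroup S.G × Set S.Gm × Set S.Gm // St S s.1 s.2.1 s.2.2},
      ∃ s' : {s : Subgroup S.G × Set S.Gm × Set S.Gm // St S s.1 s.2.1 s.2.2},
        s.1.1 ≤ s'.1.1 ∧ {x | ∃ w ∈ Win S s.1.2.1 s.1.2.2, S.dg x w ≤ 1} ⊆ s'.1.2.1 ∧
        s'.1.1.map S.π = s.1.1.map S.π ∧
        ∀ B : Set S.X, (∀ b ∈ B, S.bs b ∈ s.1.2.1) → Ext S.d B s.1.1 s'.1.1 := by
    rintro ⟨⟨Γ, F, C⟩, hs⟩
    have hWinv : ∀ g ∈ Γ, ∀ w ∈ Win S F C, g • w ∈ Win S F C :=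
      fun g hg w hw => win_smul E S hs.finv hs.cinv hg hw
    have hF1 : F ⊆ {x | ∃ w ∈ Win S F C, S.dg x w ≤ 1} := fun x hx =>
      ⟨x, sub_win E S F C (Or.inl hx), by rw [hself]; omega⟩
    obtain ⟨Γ', F', C', h1, h2, h3, h4, h5, h6, h7⟩ := hG S Γ F C
      {x | ∃ w ∈ Win S F C, S.dg x w ≤ 1} Set.univ 0 (8 * dd) hBig hs hF1
      (by
        rintro g hg x ⟨w, hw, hxw⟩
        exact ⟨g • w, hWinv g hg w hw, by rw [hiso]; exact hxw⟩)
      (fun x hx => hx)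
      (fun x _ y _ p _ => ⟨p, Set.mem_univ _, by rw [hself']⟩)
      (fun g _ r _ => Set.mem_univ _)
      ⟨fun x _ => Set.mem_univ _, fun c _ => ⟨S.q c, Set.mem_univ _, by rw [hself']; omega⟩⟩
      (fun x _ => Set.mem_univ _) (by omega) (by omega)
    exact ⟨⟨⟨Γ', F', C'⟩, h1⟩, h2, h3, h5, fun B hB => h7 B (fun b hb => hF1 (hB b hb))⟩
  choose step hs1 hs2 hs3 hs4 using hstep
  let sq : ℕ → {s : Subgroup S.G × Set S.Gm × Set S.Gm // St S s.1 s.2.1 s.2.2} := fun n =>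
    Nat.rec ⟨⟨Γ, F, C⟩, hSt⟩ (fun _ s => step s) n
  have sq0 : sq 0 = ⟨⟨Γ, F, C⟩, hSt⟩ := rfl
  have sqs : ∀ n, sq (n + 1) = step (sq n) := fun n => rfl
  -- marked points grow
  have hFn : ∀ n, (sq n).1.2.1 ⊆ (sq (n + 1)).1.2.1 := by
    intro n x hx
    rw [sqs]
    exact hs2 _ ⟨x, sub_win E S _ _ (Or.inl hx), by rw [hself]; omega⟩
  have hF0 : ∀ n, F ⊆ (sq n).1.2.1 := by
    intro n
    induction n with
    | zero => exact fun x hx => hx
    | succ n ih => exact fun x hx => hFn n (ih hx)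
  obtain ⟨x0, hx0⟩ := hSt.ne
  have hball : ∀ n x, S.dg x0 x ≤ n → x ∈ (sq n).1.2.1 := by
    intro n
    induction n with
    | zero =>
      intro x hx
      have : x0 = x := (hdg.eq_zero x0 x).1 (by omega)
      rw [← this]; exact hx0
    | succ n ih =>
      intro x hx
      by_cases h1 : S.dg x0 x ≤ n
      · exact hFn n (ih x h1)
      · obtain ⟨y, hy1, hy2⟩ := hdg.geo x0 x n (by omega)
        have hy3 := ih y (by omega)
        rw [sqs]
        apply hs2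
        refine ⟨y, sub_win E S _ _ (Or.inl hy3), ?_⟩
        rw [hdg.symm]; omega
  have hmap : ∀ n, (sq n).1.1.map S.π = Γ.map S.π := by
    intro n
    induction n with
    | zero => rfl
    | succ n ih => rw [sqs, hs3, ih]
  have hΓ : ∀ n, (sq n).1.1 ≤ ⨆ n, (sq n).1.1 := fun n => le_iSup (fun n => (sq n).1.1) n
  have hsup : (⨆ n, (sq n).1.1) = Γ ⊔ S.K := by
    apply le_antisymm
    · refine iSup_le fun n => ?_
      intro g hg
      have h1 : S.π g ∈ Γ.map S.π := by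
        rw [← hmap n]; exact Subgroup.mem_map_of_mem _ hg
      obtain ⟨γ, hγ, he⟩ := Subgroup.mem_map.1 h1
      have h2 : γ⁻¹ * g ∈ S.K := by
        rw [← ker_K S, map_mul, map_inv, he, inv_mul_cancel]
      have h3 : g = γ * (γ⁻¹ * g) := by group
      rw [h3]
      exact mul_mem (Subgroup.mem_sup_left hγ) (Subgroup.mem_sup_right h2)
    · refine sup_le (hΓ 0) ?_
      unfold KSys.K KK
      rw [Subgroup.closure_le]
      rintro r ⟨c, ⟨i, hic⟩, hr⟩
      have hi : S.ap i = c := hic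
      have h1 := hball (S.dg x0 (S.ap i)) (S.ap i) (le_refl _)
      have h2 : S.ap i ∈ (sq (S.dg x0 (S.ap i))).1.2.2 :=
        (sq (S.dg x0 (S.ap i))).2.full i _ (sub_win E S _ _ (Or.inl h1)) (by rw [hself]; omega)
      have h3 := (sq (S.dg x0 (S.ap i))).2.rot i h2
      rw [← hi, R_ap] at hr
      exact hΓ _ (h3 hr)
  rw [← hsup]
  refine Ext.union (fun n => (sq n).1.1) (fun n => ?_)
  show Ext S.d B (sq n).1.1 (sq (n + 1)).1.1
  rw [sqs]
  exact hs4 _ B (fun b hb => hF0 n (hB b hb))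

end Pool.Agent.FRK
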