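import Pool.Agent.FRK.Kit

/-! FRK, module ExtB: elementary facts on chains of closings. -/

namespace Pool.Agent.FRK

open Pool.Agent.BURN Pool.Agent.BURR

namespace ExtB

theorem ext_le {G X : Type} [Group G] [MulAction G X] (d : X → X → ℕ) (B : Set X)
    (Γ Γ' : Subgroup G) (h : Ext d B Γ Γ') : Γ ≤ Γ' := by
  induction h with
  | refl Γ => exact le_rfl
  | step Γ h gap => exact le_sup_left
  | trans Γ Γ' Γ'' _ _ ih1 ih2 => exact ih1.trans ih2
  | union s _ ih => exact le_iSup s 0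

theorem orb_sub {G X : Type} [Group G] [MulAction G X] (Γ : Subgroup G) {B B' : Set X}
    (hB : B' ⊆ B) : orb Γ B' ⊆ orb Γ B := by
  rintro x ⟨g, hg, b, hb, rfl⟩
  exact ⟨g, hg, b, hB hb, rfl⟩

theorem ext_mono {G X : Type} [Group G] [MulAction G X] (d : X → X → ℕ) (B B' : Set X)
    (Γ Γ' : Subgroup G) (hB : B' ⊆ B) (h : Ext d B Γ Γ') : Ext d B' Γ Γ' := by
  induction h with
  | refl Γ => exact Ext.refl Γ
  | step Γ h gap =>
    exact Ext.step Γ h (fun u hu v hv => gap u (Kit.hull_mono (orb_sub Γ hB) hu) v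
      (Kit.hull_mono (orb_sub Γ hB) hv))
  | trans Γ Γ' Γ'' _ _ ih1 ih2 => exact Ext.trans _ _ _ ih1 ih2
  | union s _ ih => exact Ext.union s ih

end ExtB

theorem extB_proof : Stmt_ExtB :=
  ⟨fun _ _ _ _ d B Γ Γ' h => ExtB.ext_le d B Γ Γ' h,
    fun _ _ _ _ d B B' Γ Γ' hB h => ExtB.ext_mono d B B' Γ Γ' hB h⟩

end Pool.Agent.FRK
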