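import Pool.Agent.FRK.Kit

/-! FRK, module ExtFF: chains of closings are free product extensions. -/

namespace Pool.Agent.FRK

open Pool.Agent.BURN Pool.Agent.BURR

namespace ExtFF

theorem disp_mono {G X : Type} [Group G] [MulAction G X] {d : X → X → ℕ} {Γ Γ' : Subgroup G}
    (h : Γ ≤ Γ') (hD : Disp d Γ') : Disp d Γ := fun g hg h1 x => hD g (h hg) h1 x

theorem num : 30 * dd ≤ 4 * rho ∧ 30 * dd ≤ Lam * rho ∧ 1 ≤ dd := by
  have h1 := Kit.num2
  have h2 := Kit.num4.2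
  have h3 := Kit.num1'.2.2.2.2.2.1
  have h4 : 1 * rho ≤ Lam * rho := Nat.mul_le_mul_right _ (by omega)
  refine ⟨by omega, by omega, by omega⟩

end ExtFF

theorem ExtFF_proof (E : Eng0) (hC : Stmt_Close) (hH : Stmt_HnnF) (hB : Stmt_FFB)
    (hE : Stmt_ExtB) : Stmt_ExtFF := by
  intro G X _ _ d B Γ Γ' hdg hyp hiso hne hext
  obtain ⟨n1, n2, n3⟩ := ExtFF.num
  induction hext with
  | refl Γ => intro _; exact hB.1 G Γ
  | step Γ h gap =>
    intro hD
    refine hH G Γ h ?_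
    refine hC G X d dd Γ h (hull d (orb Γ B)) hdg hyp hiso n3 ?_ ?_ ?_ ?_ ?_
    · obtain ⟨b, hb⟩ := hne
      refine ⟨b, b, Kit.sub_orb Γ B hb, b, Kit.sub_orb Γ B hb, ?_⟩
      unfold Pool.Agent.BURN.Btw
      have := (hdg.eq_zero b b).2 rfl
      omega
    · exact (E.hull X d dd hdg hyp).1 _
    · intro g hg u hu
      exact Kit.hull_smul hiso (fun x hx => Kit.orb_smul hg hx) hu
    · intro g hg h1 x
      exact n2.trans (hD g hg h1 x)
    · intro u hu v hv
      exact n1.trans (gap u hu v hv)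
  | trans Γ Γ' Γ'' h1 h2 ih1 ih2 =>
    intro hD
    exact hB.2.1 G _ _ _ (ih1 (ExtFF.disp_mono (hE.1 G X d B _ _ h2) hD)) (ih2 hD)
  | union s h ih =>
    intro hD
    exact hB.2.2.1 G s (fun n => ih n (ExtFF.disp_mono (le_iSup s (n + 1)) hD))

end Pool.Agent.FRK
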