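import Pool.Agent.FRK.Kit

/-! FRK, module FFB: basic properties of free factors (pure group theory). -/

namespace Pool.Agent.FRK

namespace FFB

theorem refl {G : Type} [Group G] (Γ : Subgroup G) : FF Γ Γ := by
  refine ⟨le_rfl, ∅, by simp, fun H _ φ t => ⟨φ, fun x hx hx' => rfl, fun x hx' hx => hx.elim⟩⟩

theorem trans {G : Type} [Group G] (Γ Γ' Γ'' : Subgroup G) (h1 : FF Γ Γ') (h2 : FF Γ' Γ'') :
    FF Γ Γ'' := by
  obtain ⟨hle1, T1, hT1, hU1⟩ := h1
  obtain ⟨hle2, T2, hT2, hU2⟩ := h2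
  have hT1m : ∀ x ∈ T1, x ∈ Γ' := by
    intro x hx
    rw [hT1]
    exact (le_sup_right : Subgroup.closure T1 ≤ _) (Subgroup.subset_closure hx)
  refine ⟨hle1.trans hle2, T1 ∪ T2, ?_, fun H _ φ t => ?_⟩
  · rw [Subgroup.closure_union, ← sup_assoc, ← hT1, ← hT2]
  · obtain ⟨ψ1, h11, h12⟩ := hU1 H φ t
    obtain ⟨ψ2, h21, h22⟩ := hU2 H ψ1 t
    refine ⟨ψ2, fun x hx hx' => ?_, fun x hx' hx => ?_⟩
    · rw [h21 x (hle1 hx) hx', h11 x hx (hle1 hx)]
    · rcases hx with hx | hx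
      · rw [h21 x (hT1m x hx) hx', h12 x (hT1m x hx) hx]
      · exact h22 x hx' hx

theorem union {G : Type} [Group G] (s : ℕ → Subgroup G) (hs : ∀ n, FF (s n) (s (n + 1))) :
    FF (s 0) (⨆ n, s n) := by
  classical
  have hmono : Monotone s := monotone_nat_of_le_succ fun n => (hs n).1
  choose hle T hT hU using hs
  have hTm : ∀ n, ∀ x ∈ T n, x ∈ s (n + 1) := by
    intro n x hx
    rw [hT n]
    exact (le_sup_right : Subgroup.closure (T n) ≤ _) (Subgroup.subset_closure hx)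
  have hmem : ∀ x, x ∈ (⨆ n, s n) ↔ ∃ n, x ∈ s n := fun x =>
    Subgroup.mem_iSup_of_directed hmono.directed_le
  refine ⟨le_iSup s 0, ⋃ n, T n, ?_, fun H _ φ t => ?_⟩
  · apply le_antisymm
    · apply iSup_le
      intro n
      induction n with
      | zero => exact le_sup_left
      | succ n ih =>
        rw [hT n]
        exact sup_le ih ((Subgroup.closure_mono (Set.subset_iUnion T n)).trans le_sup_right)
    · refine sup_le (le_iSup s 0) ((Subgroup.closure_le _).2 ?_)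
      intro x hx
      obtain ⟨n, hn⟩ := Set.mem_iUnion.1 hx
      exact (le_iSup s (n + 1)) (hTm n x hn)
  · -- the extensions
    let step : ∀ n, (s n →* H) → (s (n + 1) →* H) := fun n ψ => Classical.choose (hU n H ψ t)
    have hstep1 : ∀ n (ψ : s n →* H) (x : G) (hx : x ∈ s n) (hx' : x ∈ s (n + 1)),
        step n ψ ⟨x, hx'⟩ = ψ ⟨x, hx⟩ := fun n ψ => (Classical.choose_spec (hU n H ψ t)).1
    have hstep2 : ∀ n (ψ : s n →* H) (x : G) (hx' : x ∈ s (n + 1)), x ∈ T n →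
        step n ψ ⟨x, hx'⟩ = t x := fun n ψ => (Classical.choose_spec (hU n H ψ t)).2
    let Ψ : ∀ n, s n →* H := fun n => Nat.rec φ (fun n ψ => step n ψ) n
    have hΨ0 : Ψ 0 = φ := rfl
    have hΨs : ∀ n, Ψ (n + 1) = step n (Ψ n) := fun n => rfl
    have hcomp : ∀ m n, m ≤ n → ∀ (x : G) (hx : x ∈ s m) (hx' : x ∈ s n),
        Ψ n ⟨x, hx'⟩ = Ψ m ⟨x, hx⟩ := by
      intro m n hmn
      induction n, hmn using Nat.le_induction with
      | base => intro x hx hx'; rfl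
      | succ n hmn ih =>
        intro x hx hx'
        rw [hΨs, hstep1 n (Ψ n) x (hmono hmn hx) hx', ih x hx (hmono hmn hx)]
    have hcomp' : ∀ m n (x : G) (hx : x ∈ s m) (hx' : x ∈ s n),
        Ψ n ⟨x, hx'⟩ = Ψ m ⟨x, hx⟩ := by
      intro m n x hx hx'
      rcases le_total m n with h | h
      · exact hcomp m n h x hx hx'
      · exact (hcomp n m h x hx' hx).symm
    have hch : ∀ x : (⨆ n, s n : Subgroup G), ∃ n, (x : G) ∈ s n := fun x => (hmem x).1 x.2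
    choose ν hν using hch
    let ψ : (⨆ n, s n : Subgroup G) →* H := MonoidHom.mk' (fun x => Ψ (ν x) ⟨x, hν x⟩) (by
      intro x y
      have hx : (x : G) ∈ s (max (ν x) (ν y)) := hmono (le_max_left _ _) (hν x)
      have hy : (y : G) ∈ s (max (ν x) (ν y)) := hmono (le_max_right _ _) (hν y)
      have hxy : ((x * y : (⨆ n, s n : Subgroup G)) : G) ∈ s (max (ν x) (ν y)) := by
        rw [Subgroup.coe_mul]; exact mul_mem hx hy
      rw [hcomp' (max (ν x) (ν y)) (ν (x * y)) _ hxy (hν (x * y)),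
        hcomp' (max (ν x) (ν y)) (ν x) _ hx (hν x), hcomp' (max (ν x) (ν y)) (ν y) _ hy (hν y),
        ← map_mul]
      rfl)
    have hψ : ∀ (x : G) (hx : x ∈ (⨆ n, s n : Subgroup G)) (n : ℕ) (hn : x ∈ s n),
        ψ ⟨x, hx⟩ = Ψ n ⟨x, hn⟩ := by
      intro x hx n hn
      exact hcomp' n (ν ⟨x, hx⟩) x hn (hν ⟨x, hx⟩)
    refine ⟨ψ, fun x hx hx' => ?_, fun x hx' hx => ?_⟩
    · rw [hψ x hx' 0 hx, hΨ0]
    · obtain ⟨n, hn⟩ := Set.mem_iUnion.1 hx
      rw [hψ x hx' (n + 1) (hTm n x hn), hΨs, hstep2 n (Ψ n) x (hTm n x hn) hn]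

theorem free {G : Type} [Group G] (Γ : Subgroup G) (h : FF ⊥ Γ) : IsFreeGroup Γ := by
  classical
  obtain ⟨-, T, hT, hU⟩ := h
  rw [bot_sup_eq] at hT
  have hTm : ∀ x ∈ T, x ∈ Γ := by
    intro x hx
    rw [hT]
    exact Subgroup.subset_closure hx
  let f : FreeGroup T →* Γ := FreeGroup.lift (fun x : T => (⟨x, hTm x x.2⟩ : Γ))
  have hf : ∀ x : T, f (FreeGroup.of x) = ⟨x, hTm x x.2⟩ := fun x => FreeGroup.lift_apply_of
  obtain ⟨ψ, -, hψ⟩ := hU (FreeGroup T) 1 (fun x => if h : x ∈ T then FreeGroup.of ⟨x, h⟩ else 1)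
  have hleft : ψ.comp f = MonoidHom.id _ := by
    apply FreeGroup.ext_hom
    intro x
    rw [MonoidHom.comp_apply, hf, hψ x (hTm x x.2) x.2]
    simp
  have hinj : Function.Injective f := by
    intro x y hxy
    have h1 := congrArg ψ hxy
    have h2 := fun z => DFunLike.congr_fun hleft z
    simp only [MonoidHom.comp_apply, MonoidHom.id_apply] at h2
    rw [h2, h2] at h1
    exact h1
  have hsurj : Function.Surjective f := by
    have h1 : Γ ≤ (f.range).map Γ.subtype := by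
      conv_lhs => rw [hT]
      rw [Subgroup.closure_le]
      intro x hx
      exact ⟨⟨x, hTm x hx⟩, ⟨FreeGroup.of ⟨x, hx⟩, hf ⟨x, hx⟩⟩, rfl⟩
    intro y
    obtain ⟨z, ⟨w, hw⟩, hz⟩ := h1 y.2
    refine ⟨w, ?_⟩
    rw [hw]
    exact Subtype.ext hz
  exact IsFreeGroup.ofMulEquiv (MulEquiv.ofBijective f ⟨hinj, hsurj⟩)

end FFB

theorem FFB_proof : Stmt_FFB :=
  ⟨fun _ _ Γ => FFB.refl Γ, fun _ _ Γ Γ' Γ'' h1 h2 => FFB.trans Γ Γ' Γ'' h1 h2,
    fun _ _ s hs => FFB.union s hs, fun _ _ Γ h => FFB.free Γ h⟩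

end Pool.Agent.FRK
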