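import Pool.Agent.FRK.Kit

/-! FRK, module FGF: finitely generated free factors of a free group. -/

namespace Pool.Agent.FRK

open Pool.Agent.BURN Pool.Agent.BURR

namespace FGF

theorem fin_closure {G : Type} [Group G] (T : Set G) (x : G) (hx : x ∈ Subgroup.closure T) :
    ∃ s : Finset G, (s : Set G) ⊆ T ∧ x ∈ Subgroup.closure (s : Set G) := by
  classical
  induction hx using Subgroup.closure_induction with
  | mem y hy =>
    exact ⟨{y}, by simpa using hy, Subgroup.subset_closure (by simp)⟩
  | one => exact ⟨∅, by simp, Subgroup.one_mem _⟩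
  | mul y z _ _ ihy ihz =>
    obtain ⟨s, hs, hys⟩ := ihy
    obtain ⟨s', hs', hzs⟩ := ihz
    refine ⟨s ∪ s', ?_, ?_⟩
    · rw [Finset.coe_union]
      exact Set.union_subset hs hs'
    · apply Subgroup.mul_mem
      · exact Subgroup.closure_mono (by rw [Finset.coe_union]; exact Set.subset_union_left) hys
      · exact Subgroup.closure_mono (by rw [Finset.coe_union]; exact Set.subset_union_right) hzs
  | inv y _ ihy =>
    obtain ⟨s, hs, hys⟩ := ihy
    exact ⟨s, hs, Subgroup.inv_mem _ hys⟩

theorem fin_closure' {G : Type} [Group G] (T : Set G) (E : Finset G)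
    (hE : ∀ x ∈ E, x ∈ Subgroup.closure T) :
    ∃ s : Finset G, (s : Set G) ⊆ T ∧ ∀ x ∈ E, x ∈ Subgroup.closure (s : Set G) := by
  classical
  induction E using Finset.induction_on with
  | empty => exact ⟨∅, by simp, by simp⟩
  | insert a E ha ih =>
    obtain ⟨s, hs, hsE⟩ := ih fun x hx => hE x (Finset.mem_insert_of_mem hx)
    obtain ⟨s', hs', has⟩ := fin_closure T a (hE a (Finset.mem_insert_self _ _))
    refine ⟨s ∪ s', ?_, ?_⟩
    · rw [Finset.coe_union]
      exact Set.union_subset hs hs'
    · intro x hx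
      rcases Finset.mem_insert.1 hx with rfl | hx
      · exact Subgroup.closure_mono (by rw [Finset.coe_union]; exact Set.subset_union_right) has
      · exact Subgroup.closure_mono (by rw [Finset.coe_union]; exact Set.subset_union_left)
          (hsE x hx)

end FGF

theorem fGF_proof : Stmt_FGF := by
  classical
  intro G _ P E hP hE
  obtain ⟨-, T, hT, hun⟩ := hP
  rw [bot_sup_eq] at hT
  obtain ⟨s, hs, hsE⟩ := FGF.fin_closure' T E (fun x hx => hT ▸ hE x hx)
  have hAP : Subgroup.closure (s : Set G) ≤ P := by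
    rw [hT]
    exact Subgroup.closure_mono hs
  refine ⟨Subgroup.closure (s : Set G), s, rfl, hsE, ?_, ?_⟩
  · refine ⟨bot_le, s, by rw [bot_sup_eq], ?_⟩
    intro H _ φ t
    obtain ⟨ψ, h1, h2⟩ := hun H φ t
    refine ⟨ψ.comp (Subgroup.inclusion hAP), ?_, ?_⟩
    · intro x hx hx'
      exact h1 x hx (hAP hx')
    · intro x hx' hx
      exact h2 x (hAP hx') (hs hx)
  · refine ⟨hAP, T \ (s : Set G), ?_, ?_⟩
    · rw [← Subgroup.closure_union, Set.union_sdiff_cancel hs, hT]
    · intro H _ φ t
      obtain ⟨ψ, h1, h2⟩ := hun H 1 (fun x => if hx : x ∈ (s : Set G) then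
        φ ⟨x, Subgroup.subset_closure hx⟩ else t x)
      refine ⟨ψ, ?_, ?_⟩
      · intro x hx hx'
        induction hx using Subgroup.closure_induction with
        | mem y hy =>
          rw [h2 y hx' (hs hy), dif_pos hy]
        | one =>
          have e1 : (⟨1, hx'⟩ : P) = 1 := rfl
          have e2 : (⟨1, Subgroup.one_mem _⟩ : Subgroup.closure (s : Set G)) = 1 := rfl
          rw [e1, map_one]
          exact (map_one φ).symm
        | mul y z hy hz ihy ihz =>
          have e1 : (⟨y * z, hx'⟩ : P) = ⟨y, hAP hy⟩ * ⟨z, hAP hz⟩ := rfl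
          rw [e1, map_mul, ihy (hAP hy), ihz (hAP hz), ← map_mul]
          rfl
        | inv y hy ihy =>
          have e1 : (⟨y⁻¹, hx'⟩ : P) = ⟨y, hAP hy⟩⁻¹ := rfl
          rw [e1, map_inv, ihy (hAP hy), ← map_inv]
          rfl
      · intro x hx' hx
        rw [h2 x hx' hx.1, dif_neg hx.2]

end Pool.Agent.FRK
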