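import Pool.Agent.FRK.Kit

/-! FRK, FINAL: virtually torsion-free hyperbolic groups. -/

namespace Pool.Agent.FRK

open Pool.Agent.BURN Pool.Agent.BURR

namespace Final

/-- the kernel of the tower in terms of the bottom group -/
theorem bottom [RP] (hL : Stmt_Lim1) (N : ℕ) (W : Tow N N) (hN : 1 ≤ N) (hM : IsFreeGroup W.M)
    (s : StgG N) (h : W.T 0 = s) :
    IsFreeGroup (Subgroup.closure {x : s.G | ∃ y : s.G, x = y ^ N}) := by
  subst h
  have h1 := hL N N W hN
  have h2 : W.M = Subgroup.closure {x : (W.T 0).G | ∃ y : (W.T 0).G, x = y ^ N} := by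
    apply le_antisymm
    · exact h1.2.2.2.2.2.2.2.2.2.1
    · rw [Subgroup.closure_le]
      rintro x ⟨y, rfl⟩
      exact h1.2.2.2.2.2.2.2.1 y
  rw [← h2]
  exact hM

end Final

open Final in
theorem final_proof (h2 : ∀ [RP], Stmt_Tow2) (hF : ∀ [RP], Stmt_TowF) (hW : Stmt_WMet)
    (hR : Stmt_RFV) (hB : Stmt_BaseTF) (hL : ∀ [RP], Stmt_Lim1) : Stmt_Final := by
  intro G _ hG hor
  have hV : VTF G := by
    rcases hor with h | h
    · exact hR G hG h
    · exact h
  obtain ⟨H0, hfi, htf⟩ := hV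
  let H : Subgroup G := H0.normalCore
  have hHn : H.Normal := H0.normalCore_normal
  have hHf : H.FiniteIndex := inferInstanceAs H0.normalCore.FiniteIndex
  have hle : H ≤ H0 := H0.normalCore_le
  obtain ⟨hc, d, δ, Bf, hd, hh, h1, hi, hBf⟩ := hW G hG
  have hT : TFA (H := H) (X := G) d δ Bf := by
    refine ⟨hd, hh, fun g x y => hi (g : G) x y, h1, ⟨1⟩, ?_, ?_⟩
    · intro x r A hA
      have h3 := hBf x r (A.map ⟨fun h : H => (h : G), Subtype.val_injective⟩) (by
        intro h hh
        rw [Finset.mem_map] at hh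
        obtain ⟨a, ha, rfl⟩ := hh
        exact hA a ha)
      rwa [Finset.card_map] at h3
    · intro h hne n hn hpow
      refine htf (h : G) (hle h.2) ?_ n hn ?_
      · intro h0
        exact hne (Subtype.ext h0)
      · rw [← Subgroup.coe_pow, hpow]
        rfl
  obtain ⟨P, hP⟩ := hB H G d δ Bf hT
  let p : ℕ := 2 * (64 * nq) + 1
  have hodd : Odd p := ⟨64 * nq, rfl⟩
  obtain ⟨d', hgood, hline⟩ := hP p hodd
  let s : StgG p := { G := H, X := G, d := d', good := hgood }
  have hcs : Countable s.G := inferInstanceAs (Countable H)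
  have hp1 : 1 ≤ p := by
    change 1 ≤ 2 * (64 * nq) + 1
    omega
  have hp2 : 64 * nq ≤ p := by
    change 64 * nq ≤ 2 * (64 * nq) + 1
    omega
  obtain ⟨W, hW0, hLR⟩ := h2 p p s hcs hline hp2 dvd_rfl
  have hcW : Countable (W.T 0).G := by
    rw [hW0]
    exact hcs
  have hfree : IsFreeGroup (Subgroup.closure {x : H | ∃ y : H, x = y ^ p}) :=
    bottom hL p W hp1 (hF p p W hp1 hcW hLR) s hW0
  let M : Subgroup H := Subgroup.closure {x : H | ∃ y : H, x = y ^ p}
  have hMeq : M.map H.subtype = Subgroup.closure {x : G | ∃ y ∈ H, x = y ^ p} := by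
    change (Subgroup.closure {x : H | ∃ y : H, x = y ^ p}).map H.subtype = _
    rw [MonoidHom.map_closure]
    congr 1
    ext x
    constructor
    · rintro ⟨z, ⟨y, rfl⟩, rfl⟩
      exact ⟨(y : G), y.2, by simp⟩
    · rintro ⟨y, hy, rfl⟩
      exact ⟨⟨y, hy⟩ ^ p, ⟨⟨y, hy⟩, rfl⟩, by simp⟩
  refine ⟨M.map H.subtype, ?_, ?_, H.index * p, ?_, ?_⟩
  · rw [hMeq]
    constructor
    intro x hx g
    induction hx using Subgroup.closure_induction with
    | mem x hx =>
      obtain ⟨y, hy, rfl⟩ := hx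
      apply Subgroup.subset_closure
      refine ⟨g * y * g⁻¹, hHn.conj_mem y hy g, ?_⟩
      rw [conj_pow]
    | one => simp
    | mul a b _ _ ha hb =>
      have h5 : g * (a * b) * g⁻¹ = (g * a * g⁻¹) * (g * b * g⁻¹) := by group
      rw [h5]
      exact mul_mem ha hb
    | inv a _ ha =>
      have h5 : g * a⁻¹ * g⁻¹ = (g * a * g⁻¹)⁻¹ := by group
      rw [h5]
      exact inv_mem ha
  · have : IsFreeGroup M := hfree
    exact IsFreeGroup.ofMulEquiv (M.equivMapOfInjective H.subtype H.subtype_injective)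
  · exact Nat.mul_pos (Nat.pos_of_ne_zero hHf.index_ne_zero) (by omega)
  · intro g
    rw [hMeq, pow_mul]
    exact Subgroup.subset_closure ⟨g ^ H.index, Subgroup.pow_index_mem H g, rfl⟩

end Pool.Agent.FRK
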