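import Pool.Agent.FRK.Kit

/-! FRK, module FINE. -/

namespace Pool.Agent.FRK

open Pool.Agent.BURN Pool.Agent.BURR

theorem fine_proof : Stmt_Fine := by
  intro X d δ b n x w hd hy hn hb hw hfar
  have hw0 := (btw_iff hd _ _ _).1 hw
  -- the last index with d (x 0) (x i) ≤ d (x 0) w
  obtain ⟨i, hi, hle, hgt⟩ : ∃ i, i < n ∧ d (x 0) (x i) ≤ d (x 0) w ∧
      d (x 0) w ≤ d (x 0) (x (i + 1)) := by
    by_contra hcon
    push Not at hcon
    have key : ∀ i, i ≤ n → d (x 0) (x i) ≤ d (x 0) w ∧ (1 ≤ i → d (x 0) (x i) < d (x 0) w) := by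
      intro i
      induction i with
      | zero =>
        intro _
        have := (hd.eq_zero (x 0) (x 0)).2 rfl
        exact ⟨by omega, by omega⟩
      | succ i ih =>
        intro hi
        have := hcon i (by omega) (ih (by omega)).1
        exact ⟨this.le, fun _ => this⟩
    have h1 := (key n le_rfl).2 hn
    unfold Pool.Agent.BURN.Btw at hw
    omega
  have hA : gp d (x i) (x n) w ≤ δ := by
    by_cases hi0 : i = 0
    · subst hi0
      omega
    · have h1 := hfar i (by omega) (by omega)
      have h2 := gp_add hd (x 0) (x i) w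
      rw [hd.symm (x i) w] at h2
      have h3 := hyp_gp hd hy (x 0) (x n) (x i) w
      omega
  refine ⟨i, hi, ?_⟩
  by_cases hin : i + 1 = n
  · rw [hin]
    omega
  · have h1 := hfar (i + 1) (by omega) (by omega)
    have h2 := hb (i + 1) (by omega) (by omega)
    have h3 := gp_add hd (x 0) (x n) (x (i + 1))
    have h4 := gp_add hd (x (i + 1)) (x n) w
    have h5 := hyp_gp hd hy (x i) (x n) (x (i + 1)) w
    have h6 : d (x n) w = d w (x n) := hd.symm _ _
    have h7 : d (x (i + 1)) w = d w (x (i + 1)) := hd.symm _ _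
    have h8 : d (x (i + 1)) (x n) = d (x n) (x (i + 1)) := hd.symm _ _
    unfold Pool.Agent.BURN.Btw at hw
    have h9 := hyp_gp hd hy (x i) (x n) (x (i + 1)) w
    omega

end Pool.Agent.FRK
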