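import Pool.Agent.FRK.Kit

/-! FRK, module GCHAIN: chains for an arbitrary group Γ. -/

namespace Pool.Agent.FRK

open Pool.Agent.BURN Pool.Agent.BURR

namespace GChain

variable {G X : Type} [Group G]

/-- the statement `g` has a chain of length `m` -/
def HasChain [MulAction G X] (Γ : Subgroup G) (C : Set X) (R : X → Subgroup G) (C1 : Set X) (g : G) : Prop :=
   ∃ (m : ℕ) (gs : ℕ → G) (c : ℕ → X) (h : G), h ∈ Γ ∧ gs 0 = 1 ∧ g = gs m * h ∧
    (∀ i, i ≤ m → gs i ∈ Γ ⊔ KK C1 R) ∧
    (∀ i, 1 ≤ i → i ≤ m → c i ∈ C ∧ (gs (i - 1))⁻¹ • c i ∈ C1 ∧ (gs i)⁻¹ • c i ∈ C1 ∧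
      ∃ r ∈ R (c i), r ≠ 1 ∧ gs i = r * gs (i - 1)) ∧
    (∀ i, 1 ≤ i → i + 1 ≤ m → c i ≠ c (i + 1))

theorem mem_KK {C : Set X} {R : X → Subgroup G} {c : X} (hc : c ∈ C) {r : G} (hr : r ∈ R c) :
    r ∈ KK C R := Subgroup.subset_closure ⟨c, hc, hr⟩

theorem step [MulAction G X] {d : X → X → ℕ} {C : Set X} {R : X → Subgroup G} {δ α β σ : ℕ} {Γ : Subgroup G} {C1 : Set X}
    (hRF : RF d C R δ α β σ) (hC1 : C1 ⊆ C)
    (hinv : ∀ h ∈ Γ, ∀ c ∈ C1, h • c ∈ C1) {g : G}
    (hg : HasChain Γ C R C1 g) {s : G} (hs0 : s ∈ Γ ∨ ∃ c0 ∈ C1, s ∈ R c0) :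
    HasChain Γ C R C1 (g * s) := by
  obtain ⟨m, gs, c, h, hh, h0, hgm, hmem, hch, hne⟩ := hg
  rcases hs0 with hc0 | ⟨c0, hc0, hs⟩
  · refine ⟨m, gs, c, h * s, mul_mem hh hc0, h0, ?_, hmem, hch, hne⟩
    rw [hgm, mul_assoc]
  · by_cases hs1 : s = 1
    · refine ⟨m, gs, c, h, hh, h0, ?_, hmem, hch, hne⟩
      rw [hs1, mul_one, hgm]
    · have hhc0 : h • c0 ∈ C1 := hinv h hh c0 hc0
      obtain ⟨c', hc'⟩ : ∃ c' : X, c' = gs m • h • c0 := ⟨_, rfl⟩
      obtain ⟨rho, hrho⟩ : ∃ rho : G, rho = gs m * h * s * h⁻¹ * (gs m)⁻¹ := ⟨_, rfl⟩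
      have hrhoR : rho ∈ R c' := by
        have h1 := (hRF.conj (gs m * h) c0 (hC1 hc0) s).1 hs
        rw [mul_smul, ← hc'] at h1
        have e : gs m * h * s * (gs m * h)⁻¹ = rho := by rw [hrho, mul_inv_rev, ← mul_assoc]
        rw [e] at h1
        exact h1
      have hrho1 : rho ≠ 1 := by
        intro hcon
        apply hs1
        have : s = (gs m * h)⁻¹ * rho * (gs m * h) := by rw [hrho]; group
        rw [this, hcon]; group
      have hc'C : c' ∈ C := by rw [hc']; exact hRF.cinv _ _ (hC1 hhc0)
      have hgsc' : (gs m)⁻¹ • c' = h • c0 := by rw [hc', inv_smul_smul]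
      have hhs : h ∈ Γ ⊔ KK C1 R := Subgroup.mem_sup_left hh
      have hrhoK : rho ∈ Γ ⊔ KK C1 R := by
        have a1 := hmem m le_rfl
        have a2 : s ∈ Γ ⊔ KK C1 R := Subgroup.mem_sup_right (mem_KK hc0 hs)
        rw [hrho]
        exact mul_mem (mul_mem (mul_mem (mul_mem a1 hhs) a2) (inv_mem hhs)) (inv_mem a1)
      have hgs : g * s = rho * gs m * h := by rw [hgm, hrho]; group
      have hrhofix : rho⁻¹ • c' = c' := by
        have := hRF.fix c' hc'C rho⁻¹ (inv_mem hrhoR)
        exact this
      have hnew : (rho * gs m)⁻¹ • c' = h • c0 := by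
        rw [mul_inv_rev, mul_smul, hrhofix, hgsc']
      by_cases hm : 1 ≤ m ∧ c' = c m
      · obtain ⟨hm1, hcm⟩ := hm
        obtain ⟨b1, b2, b3, r, hr, hr1, hgr⟩ := hch m hm1 le_rfl
        by_cases hd : rho * r = 1
        · -- drop the last step
          refine ⟨m - 1, gs, c, h, hh, h0, ?_, fun i hi => hmem i (by omega),
            fun i hi1 hi2 => hch i hi1 (by omega), fun i hi1 hi2 => hne i hi1 (by omega)⟩
          rw [hgs, hgr, ← mul_assoc, hd, one_mul]
        · refine ⟨m, fun i => if i = m then rho * gs m else gs i, c, h, hh, ?_, ?_, ?_, ?_, hne⟩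
          · have : (0 : ℕ) ≠ m := by omega
            simp only [this, if_false]; exact h0
          · simp only [if_true]; exact hgs
          · intro i hi
            by_cases him : i = m
            · simp only [him, if_true]; exact mul_mem hrhoK (hmem m le_rfl)
            · simp only [him, if_false]; exact hmem i hi
          · intro i hi1 hi2
            have e1 : i - 1 ≠ m := by omega
            simp only [e1, if_false]
            by_cases him : i = m
            · subst him
              simp only [if_true]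
              refine ⟨b1, b2, ?_, rho * r, ?_, hd, ?_⟩
              · rw [← hcm, hnew]; exact hhc0
              · rw [hcm] at hrhoR; exact mul_mem hrhoR hr
              · rw [mul_assoc, ← hgr]
            · simp only [him, if_false]; exact hch i hi1 hi2
      · refine ⟨m + 1, fun i => if i = m + 1 then rho * gs m else gs i,
          fun i => if i = m + 1 then c' else c i, h, hh, ?_, ?_, ?_, ?_, ?_⟩
        · have : (0 : ℕ) ≠ m + 1 := by omega
          simp only [this, if_false]; exact h0
        · simp only [if_true]; exact hgs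
        · intro i hi
          by_cases him : i = m + 1
          · simp only [him, if_true]; exact mul_mem hrhoK (hmem m le_rfl)
          · simp only [him, if_false]; exact hmem i (by omega)
        · intro i hi1 hi2
          have e1 : i - 1 ≠ m + 1 := by omega
          simp only [e1, if_false]
          by_cases him : i = m + 1
          · subst him
            simp only [if_true, Nat.add_sub_cancel]
            refine ⟨hc'C, ?_, ?_, rho, hrhoR, hrho1, rfl⟩
            · rw [hgsc']; exact hhc0
            · rw [hnew]; exact hhc0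
          · simp only [him, if_false]; exact hch i hi1 (by omega)
        · intro i hi1 hi2
          have e1 : i ≠ m + 1 := by omega
          simp only [e1, if_false]
          by_cases him : i + 1 = m + 1
          · simp only [him, if_true]
            have : i = m := by omega
            subst this
            intro hcon
            exact hm ⟨hi1, hcon.symm⟩
          · simp only [him, if_false]; exact hne i hi1 (by omega)

end GChain

open GChain in
theorem gChain_proof : Stmt_GChain := by
  intro G X _ _ _ d C R δ α β σ Γ C1 hRF hC1 hinv g hg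
  have key : ∀ g ∈ Subgroup.closure ((Γ : Set G) ∪ {r | ∃ c ∈ C1, r ∈ R c}),
      HasChain Γ C R C1 g := by
    intro g hg
    refine Subgroup.closure_induction_right
      (p := fun x _ => HasChain Γ C R C1 x) ?_ ?_ ?_ hg
    · refine ⟨0, fun _ => 1, fun _ => Classical.arbitrary X, 1, one_mem _, rfl, by simp,
        fun i _ => one_mem _, fun i h1 h2 => by omega, fun i h1 h2 => by omega⟩
    · rintro x hx y hy hp
      exact step hRF hC1 hinv hp hy
    · rintro x hx y hy hp
      refine step hRF hC1 hinv hp ?_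
      rcases hy with hy | ⟨c0, hc0, hy⟩
      · exact Or.inl (inv_mem hy)
      · exact Or.inr ⟨c0, hc0, inv_mem hy⟩
  apply key g
  rw [Subgroup.closure_union, Subgroup.closure_eq]
  exact hg

end Pool.Agent.FRK
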