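import Pool.Agent.FRK.Kit

/-! FRK, module GROW: enlarging the region by points near it. -/

namespace Pool.Agent.FRK

open Pool.Agent.BURN Pool.Agent.BURR Pool.Agent.FRK.Kit

variable [RP]

theorem grow_proof (E : Eng) (hGP : Stmt_GrowP) (hWB : Stmt_WMB) (hWX : Stmt_WMX)
    (hStr : Stmt_Str) : Stmt_Grow := by
  intro S Γ F C F1 Rb k κ hBig hSt hFF hFinv hnear hqc hRb hCtl hqF hk hκ
  obtain ⟨hPre, hW⟩ := hGP S Γ F C F1 hBig hSt hFF hFinv hnear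
  have hdg := dgG E S
  have hdb := dgB E S
  have hKK : KK (Cnew S F1 C) S.R ≤ S.K := by
    refine Subgroup.closure_mono ?_
    rintro g ⟨c, hc, hg⟩
    exact ⟨c, hc.1, hg⟩
  have hmap : (gN S Γ F1 C).map S.π = Γ.map S.π := by
    unfold gN
    rw [Subgroup.map_sup]
    refine le_antisymm (sup_le le_rfl ?_) le_sup_left
    rintro _ ⟨g, hg, rfl⟩
    have : S.π g = 1 := (ker_K S g).2 (hKK hg)
    rw [this]; exact Subgroup.one_mem _
  have hRb' : ∀ g ∈ gN S Γ F1 C, ∀ r ∈ Rb, S.π g • r ∈ Rb := by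
    intro g hg r hr
    have h1 : S.π g ∈ Γ.map S.π := by
      rw [← hmap]; exact ⟨g, hg, rfl⟩
    obtain ⟨g0, hg0, e⟩ := h1
    rw [← e]; exact hRb g0 hg0 r hr
  have hnew : ∀ c ∈ Cnew S F1 C, S.q c ∈ Nbh S.db κ Rb := by
    rintro c ⟨⟨i, rfl⟩, hnC, w, hw, hcw⟩
    obtain ⟨w', hw', hww⟩ := hW w hw
    have h4 : S.dg (S.ap i) w' ≤ 4 * dd := by
      have := hdg.tri (S.ap i) w w'
      omega
    rcases hStr S Γ F C Rb k κ hSt hqc hCtl w' hw' with ⟨a, ha, hwa⟩ | ⟨c0, hc0, hwc⟩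
    · refine ⟨a, ha, ?_⟩
      have h5 := hdb.tri (S.q (S.ap i)) (S.q w') a
      have h6 := q_le E S (S.ap i) w'
      omega
    · exfalso
      obtain ⟨j, rfl⟩ := hSt.sub hc0
      have h5 := hdg.tri (S.ap i) w' (S.ap j)
      have n2 := num2
      have h6 : i = j := ap_eq E S (by omega)
      apply hnC
      rw [h6]; exact hc0
  refine ⟨gN S Γ F1 C, orb (gN S Γ F1 C) F1, orb (gN S Γ F1 C) (C ∪ Cnew S F1 C),
    hWB S Γ F1 C hPre, le_sup_left, sub_orb _ _, fun c hc => sub_orb _ _ (Or.inl hc), hmap,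
    ⟨?_, ?_⟩, fun B hB => hWX S Γ F1 C B hBig hPre hB⟩
  · rintro x ⟨g, hg, b, hb, rfl⟩
    rw [q_smul]
    exact hRb' g hg _ (hqF b hb)
  · rintro x ⟨g, hg, b, hb, rfl⟩
    rw [q_smul]
    have h1 : S.q b ∈ Nbh S.db κ Rb := by
      rcases hb with hb | hb
      · exact hCtl.2 b hb
      · exact hnew b hb
    obtain ⟨a, ha, hba⟩ := h1
    refine ⟨S.π g • a, hRb' g hg a ha, ?_⟩
    rw [isoB E S]; exact hba

end Pool.Agent.FRK
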