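import Pool.Agent.FRK.Kit

/-! FRK, HAIR: growing the region along a path. -/

namespace Pool.Agent.FRK

open Pool.Agent.BURN Pool.Agent.BURR Pool.Agent.FRK.Kit

variable [RP]

namespace HairX

/-- one step: add the orbit of a point near the region -/
theorem add_point (E : Eng) (hG : Stmt_Grow) (S : KSys) (Γ : Subgroup S.G) (F C : Set S.Gm)
    (Rb : Set S.Xb) (k κ : ℕ) (hB : Big S) (hst : St S Γ F C) (hqc : QC S.db k Rb)
    (hinv : ∀ g ∈ Γ, ∀ r ∈ Rb, S.π g • r ∈ Rb) (hctl : Ctl S Rb κ F C) (h1 : k + 8 * dd ≤ κ)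
    (h2 : κ ≤ 1000 * dd) (u : S.Gm) (hu : S.q u ∈ Rb) (hw : ∃ w ∈ Win S F C, S.dg u w ≤ 1) :
    ∃ (Γ' : Subgroup S.G) (F' C' : Set S.Gm), St S Γ' F' C' ∧ Γ ≤ Γ' ∧ F ⊆ F' ∧ C ⊆ C' ∧
      Γ'.map S.π = Γ.map S.π ∧ Ctl S Rb κ F' C' ∧ u ∈ F' ∧
      (∀ g ∈ Γ', ∀ r ∈ Rb, S.π g • r ∈ Rb) ∧
      ∀ B : Set S.X, (∀ b ∈ B, S.bs b ∈ F) → Ext S.d B Γ Γ' := by
  obtain ⟨w, hw, hd⟩ := hw
  let F1 : Set S.Gm := F ∪ {x | ∃ g ∈ Γ, x = g • u}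
  obtain ⟨Γ', F', C', a1, a2, a3, a4, a5, a6, a7⟩ := hG S Γ F C F1 Rb k κ hB hst
    Set.subset_union_left
    (by
      intro g hg x hx
      rcases hx with hx | ⟨g', hg', rfl⟩
      · exact Or.inl (hst.finv g hg x hx)
      · exact Or.inr ⟨g * g', Γ.mul_mem hg hg', (mul_smul g g' u).symm⟩)
    (by
      intro x hx
      rcases hx with hx | ⟨g, hg, rfl⟩
      · exact ⟨x, sub_win E S F C (Or.inl hx), by
          rw [((dgG E S).eq_zero x x).2 rfl]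
          exact Nat.zero_le 1⟩
      · refine ⟨g • w, win_smul E S hst.finv hst.cinv hg hw, ?_⟩
        rw [isoG E S g u w]
        exact hd)
    hqc hinv hctl
    (by
      intro x hx
      rcases hx with hx | ⟨g, hg, rfl⟩
      · exact hctl.1 x hx
      · rw [q_smul]
        exact hinv g hg _ hu)
    h1 h2
  refine ⟨Γ', F', C', a1, a2, Set.subset_union_left.trans a3, a4, a5, a6, ?_, ?_, ?_⟩
  · exact a3 (Or.inr ⟨1, Γ.one_mem, (one_smul _ u).symm⟩)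
  · intro g hg r hr
    have h3 : S.π g ∈ Γ.map S.π := by
      rw [← a5]
      exact ⟨g, hg, rfl⟩
    obtain ⟨g0, hg0, he⟩ := h3
    rw [← he]
    exact hinv g0 hg0 r hr
  · intro B hBF
    exact a7 B fun b hb => Or.inl (hBF b hb)

end HairX

open HairX in
theorem hair_proof (E : Eng) (hG : Stmt_Grow) : Stmt_Hair := by
  intro S Γ F C Rb k κ t y hB hst hqc hinv hctl h1 h2 h3 h4 h5
  suffices key : ∀ s ≤ t, ∃ (Γ' : Subgroup S.G) (F' C' : Set S.Gm), St S Γ' F' C' ∧ Γ ≤ Γ' ∧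
      F ⊆ F' ∧ C ⊆ C' ∧ Γ'.map S.π = Γ.map S.π ∧ Ctl S Rb κ F' C' ∧ (∃ z ∈ F', S.q z = y s) ∧
      (∀ g ∈ Γ', ∀ r ∈ Rb, S.π g • r ∈ Rb) ∧
      ∀ B : Set S.X, (∀ b ∈ B, S.bs b ∈ F) → Ext S.d B Γ Γ' by
    obtain ⟨Γ', F', C', a1, a2, a3, a4, a5, a6, a7, -, a9⟩ := key t le_rfl
    exact ⟨Γ', F', C', a1, a2, a3, a4, a5, a6, a7, a9⟩
  intro s
  induction s with
  | zero =>
    intro _
    obtain ⟨w, hw, hq⟩ := h3
    obtain ⟨Γ', F', C', a1, a2, a3, a4, a5, a6, a7, a8, a9⟩ :=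
      add_point E hG S Γ F C Rb k κ hB hst hqc hinv hctl h1 h2 w (by
        rw [hq]
        exact h5 0 (Nat.zero_le t)) ⟨w, hw, by
          rw [((dgG E S).eq_zero w w).2 rfl]
          exact Nat.zero_le 1⟩
    exact ⟨Γ', F', C', a1, a2, a3, a4, a5, a6, ⟨w, a7, hq⟩, a8, a9⟩
  | succ s ih =>
    intro hs
    obtain ⟨Γ1, F1, C1, a1, a2, a3, a4, a5, a6, ⟨z, hz, hqz⟩, a8, a9⟩ := ih (by omega)
    obtain ⟨w, hw⟩ := S.qsurj (y (s + 1))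
    obtain ⟨κ', hκ', hd⟩ := q_lift E S z w
    have hqw : S.q (κ' • w) = y (s + 1) := by rw [q_K S hκ', hw]
    have hdd : S.dg (κ' • w) z ≤ 1 := by
      rw [(dgG E S).symm, hd, hqz, hw]
      exact h4 s (by omega)
    obtain ⟨Γ', F', C', b1, b2, b3, b4, b5, b6, b7, b8, b9⟩ :=
      add_point E hG S Γ1 F1 C1 Rb k κ hB a1 hqc a8 a6 h1 h2 (κ' • w) (by
        rw [hqw]
        exact h5 (s + 1) hs) ⟨z, sub_win E S F1 C1 (Or.inl hz), hdd⟩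
    refine ⟨Γ', F', C', b1, a2.trans b2, a3.trans b3, a4.trans b4, b5.trans a5, b6,
      ⟨_, b7, hqw⟩, b8, fun B hBF => ?_⟩
    exact Ext.trans _ _ _ (a9 B hBF) (b9 B fun b hb => a3 (hBF b hb))

end Pool.Agent.FRK
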