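import Pool.Agent.FRK.Kit

/-! FRK module HnnF (MP_1e649a_al): if no nontrivial reduced word in Γ and h is trivial, then
⟨Γ, h⟩ = Γ * ⟨h⟩ (universal property FF). Uses the HNN extension of Γ along the trivial
subgroups. -/

namespace Pool.Agent.FRK

open Pool.Agent.BURN Pool.Agent.BURR

namespace HnnF

variable {G : Type} [Group G] (Γ : Subgroup G) (h : G)

/-- the free product Γ * Z -/
abbrev HN : Type := HNNExtension Γ (⊥ : Subgroup Γ) (⊥ : Subgroup Γ) (MulEquiv.refl _)

/-- the map to a group given on Γ and on the letter -/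
noncomputable def lf {H : Type} [Group H] (φ : Γ →* H) (x : H) : HN Γ →* H :=
  HNNExtension.lift φ x (by
    rintro ⟨a, ha⟩
    have : a = 1 := Subgroup.mem_bot.1 ha
    subst this
    simp)

theorem lf_of {H : Type} [Group H] (φ : Γ →* H) (x : H) (g : Γ) :
    lf Γ φ x (HNNExtension.of g) = φ g := by
  unfold lf
  rw [HNNExtension.lift_of]

theorem lf_t {H : Type} [Group H] (φ : Γ →* H) (x : H) :
    lf Γ φ x HNNExtension.t = x := by
  unfold lf
  rw [HNNExtension.lift_t]

theorem mem_toSubgroup (u : ℤˣ) (g : Γ) :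
    g ∈ HNNExtension.toSubgroup (⊥ : Subgroup Γ) (⊥ : Subgroup Γ) u ↔ g = 1 := by
  rcases Int.units_eq_one_or u with rfl | rfl
  · rw [HNNExtension.toSubgroup_one, Subgroup.mem_bot]
  · rw [HNNExtension.toSubgroup_neg_one, Subgroup.mem_bot]

/-- the letter of a pair -/
def letter (x : ℤˣ × Γ) : G := hp h (decide (x.1 = 1)) * (x.2 : G)

theorem lf_letter (x : ℤˣ × Γ) :
    lf Γ Γ.subtype h (HNNExtension.t ^ (x.1 : ℤ) * HNNExtension.of x.2) = letter Γ h x := by
  rw [map_mul, map_zpow, lf_of, lf_t]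
  rcases Int.units_eq_one_or x.1 with hx | hx
  · simp [letter, hx, hp]
  · have : (-1 : ℤˣ) ≠ 1 := by decide
    simp [letter, hx, hp]

/-- the partial products -/
def pp (w : HNNExtension.NormalWord.ReducedWord Γ (⊥ : Subgroup Γ) ⊥) (i : ℕ) : G :=
  (w.head : G) * ((w.toList.take i).map (letter Γ h)).prod

/-- the signs -/
def sg (w : HNNExtension.NormalWord.ReducedWord Γ (⊥ : Subgroup Γ) ⊥) (i : ℕ) : Bool :=
  decide ((w.toList.getD i (1, 1)).1 = 1)

theorem pp_succ (w : HNNExtension.NormalWord.ReducedWord Γ (⊥ : Subgroup Γ) ⊥) (i : ℕ)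
    (hi : i < w.toList.length) :
    pp Γ h w (i + 1) = pp Γ h w i * hp h (sg Γ w i) * ((w.toList[i]).2 : G) := by
  unfold pp sg
  rw [List.take_succ_eq_append_getElem hi, List.map_append, List.prod_append]
  simp only [List.map_cons, List.map_nil, List.prod_cons, List.prod_nil, mul_one]
  rw [List.getD_eq_getElem _ _ hi]
  simp only [letter, mul_assoc]

theorem rw_of (w : HNNExtension.NormalWord.ReducedWord Γ (⊥ : Subgroup Γ) ⊥) :
    RW Γ h w.toList.length (pp Γ h w) (sg Γ w) where
  zero := by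
    unfold pp
    simp
  succ := by
    intro i hi
    rw [pp_succ Γ h w i hi]
    have : (pp Γ h w i * hp h (sg Γ w i))⁻¹ *
        (pp Γ h w i * hp h (sg Γ w i) * ((w.toList[i]).2 : G)) = ((w.toList[i]).2 : G) := by
      group
    rw [this]
    exact (w.toList[i]).2.2
  red := by
    intro i hi hne heq
    have hi' : i < w.toList.length := by omega
    rw [pp_succ Γ h w i hi'] at heq
    have h1 : ((w.toList[i]).2 : G) = 1 := by
      have := mul_left_cancel (heq.trans (mul_one _).symm)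
      exact this
    have h2 : (w.toList[i]).2 = 1 := Subtype.ext h1
    have hc := List.isChain_iff_getElem.1 w.chain i hi
    have h3 := hc ((mem_toSubgroup Γ _ _).2 h2)
    apply hne
    unfold sg
    rw [List.getD_eq_getElem _ _ hi', List.getD_eq_getElem _ _ hi, h3]

theorem lf_prod (w : HNNExtension.NormalWord.ReducedWord Γ (⊥ : Subgroup Γ) ⊥) :
    lf Γ Γ.subtype h (w.prod (MulEquiv.refl _)) = pp Γ h w w.toList.length := by
  unfold HNNExtension.NormalWord.ReducedWord.prod pp
  rw [map_mul, lf_of, List.take_length, map_list_prod, List.map_map]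
  congr 2
  apply List.map_congr_left
  intro x _
  exact lf_letter Γ h x

theorem lf_injective
    (H : ∀ (n : ℕ) (a : ℕ → G) (ε : ℕ → Bool), 1 ≤ n → RW Γ h n a ε → a n ≠ 1) :
    Function.Injective (lf Γ Γ.subtype h) := by
  rw [injective_iff_map_eq_one]
  intro x hx
  obtain ⟨d⟩ := HNNExtension.NormalWord.TransversalPair.nonempty Γ (⊥ : Subgroup Γ) ⊥
  obtain ⟨w, rfl⟩ : ∃ w : HNNExtension.NormalWord d, w.prod (MulEquiv.refl _) = x :=
    (HNNExtension.NormalWord.equiv (MulEquiv.refl _) d).symm.surjective x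
  rw [lf_prod] at hx
  by_cases hl : w.toList.length = 0
  · rw [List.length_eq_zero_iff] at hl
    have h1 : (w.head : G) = 1 := by
      have := hx
      unfold pp at this
      rw [hl] at this
      simpa using this
    have h2 : w.head = 1 := Subtype.ext h1
    unfold HNNExtension.NormalWord.ReducedWord.prod
    rw [hl, h2]
    simp
  · exact absurd hx (H _ _ _ (Nat.one_le_iff_ne_zero.2 hl) (rw_of Γ h w.toReducedWord))

theorem range_lf : (lf Γ Γ.subtype h).range = Γ ⊔ Subgroup.zpowers h := by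
  apply le_antisymm
  · rintro _ ⟨x, rfl⟩
    induction x using HNNExtension.induction_on with
    | of g =>
      rw [lf_of]
      exact Subgroup.mem_sup_left g.2
    | t =>
      rw [lf_t]
      exact Subgroup.mem_sup_right (Subgroup.mem_zpowers h)
    | mul x y hx hy =>
      rw [map_mul]
      exact mul_mem hx hy
    | inv x hx =>
      rw [map_inv]
      exact inv_mem hx
  · apply sup_le
    · intro g hg
      exact ⟨HNNExtension.of ⟨g, hg⟩, by rw [lf_of]; rfl⟩
    · rw [Subgroup.zpowers_le]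
      exact ⟨HNNExtension.t, lf_t Γ _ _⟩

end HnnF

open HnnF in
theorem hnnF_proof : Stmt_HnnF := by
  intro G _ Γ h H
  refine ⟨le_sup_left, {h}, by rw [Subgroup.zpowers_eq_closure], ?_⟩
  intro K _ φ t
  have hinj := lf_injective Γ h H
  let e : HN Γ ≃* (lf Γ Γ.subtype h).range := MonoidHom.ofInjective hinj
  let ψ : (Γ ⊔ Subgroup.zpowers h : Subgroup G) →* K :=
    ((lf Γ φ (t h)).comp e.symm.toMonoidHom).comp
      (MulEquiv.subgroupCongr (range_lf Γ h).symm).toMonoidHom
  have key : ∀ (y : HN Γ) (hy : lf Γ Γ.subtype h y ∈ Γ ⊔ Subgroup.zpowers h),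
      ψ ⟨lf Γ Γ.subtype h y, hy⟩ = lf Γ φ (t h) y := by
    intro y hy
    have : (MulEquiv.subgroupCongr (range_lf Γ h).symm) ⟨lf Γ Γ.subtype h y, hy⟩ = e y := by
      apply Subtype.ext
      rfl
    change (lf Γ φ (t h)) (e.symm ((MulEquiv.subgroupCongr (range_lf Γ h).symm)
      ⟨lf Γ Γ.subtype h y, hy⟩)) = _
    rw [this, MulEquiv.symm_apply_apply]
  refine ⟨ψ, ?_, ?_⟩
  · intro x hx hx'
    have h1 : lf Γ Γ.subtype h (HNNExtension.of ⟨x, hx⟩) = x := by
      rw [lf_of]; rfl
    have h2 := key (HNNExtension.of ⟨x, hx⟩) (by rw [h1]; exact hx')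
    have h3 : (⟨x, hx'⟩ : (Γ ⊔ Subgroup.zpowers h : Subgroup G)) =
        ⟨lf Γ Γ.subtype h (HNNExtension.of ⟨x, hx⟩), by rw [h1]; exact hx'⟩ :=
      Subtype.ext h1.symm
    rw [h3]
    exact h2.trans (lf_of Γ φ (t h) ⟨x, hx⟩)
  · intro x hx' hxT
    have hxh : x = h := hxT
    subst hxh
    have h1 : lf Γ Γ.subtype x HNNExtension.t = x := lf_t Γ _ _
    have h2 := key HNNExtension.t (by rw [h1]; exact hx')
    have h3 : (⟨x, hx'⟩ : (Γ ⊔ Subgroup.zpowers x : Subgroup G)) =
        ⟨lf Γ Γ.subtype x HNNExtension.t, by rw [h1]; exact hx'⟩ :=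
      Subtype.ext h1.symm
    rw [h3]
    exact h2.trans (lf_t Γ φ (t x))

end Pool.Agent.FRK
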