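import Pool.Agent.FRK.Kit

/-! FRK, module INIT. -/

namespace Pool.Agent.FRK

open Pool.Agent.BURN Pool.Agent.BURR

variable [RP]

theorem init_proof (E : Eng) : Stmt_Init := by
  intro S x0
  have n1 := Kit.num1'
  have n2 := Kit.num2
  have n4 := Kit.num4
  have hd := Kit.dgG E S
  have h0 : S.dg (S.bs x0) (S.bs x0) = 0 := (hd.eq_zero _ _).2 rfl
  have hball : ∀ x ∈ ({u | S.dg (S.bs x0) u ≤ 1} ∪ ∅ : Set S.Gm), S.dg (S.bs x0) x ≤ 1 := by
    rintro x (hx | hx)
    · exact hx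
    · exact absurd hx (Set.notMem_empty x)
  refine ⟨⟨⟨S.bs x0, by show _ ≤ 1; omega⟩, ?_, ?_, ?_, ?_, ?_⟩, ⟨?_, ?_⟩, ?_⟩
  · intro g hg x hx
    rw [Subgroup.mem_bot] at hg
    rw [hg, one_smul]
    exact hx
  · intro g hg c hc
    exact absurd hc (Set.notMem_empty c)
  · exact Set.empty_subset _
  · intro i hi
    exact absurd hi (Set.notMem_empty _)
  · intro i w hw hiw
    exfalso
    obtain ⟨a, ha, b, hb, hab⟩ := hw
    have h1 := hball a ha
    have h2 := hball b hb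
    have h3 := hd.tri a (S.bs x0) b
    have h4 := hd.tri (S.bs x0) a w
    have e1 : S.dg a (S.bs x0) = S.dg (S.bs x0) a := hd.symm _ _
    unfold Pool.Agent.BURN.Btw at hab
    have h5 := Kit.ap_bs E S x0 i
    have h6 := hd.tri (S.bs x0) w (S.ap i)
    have e2 : S.dg w (S.ap i) = S.dg (S.ap i) w := hd.symm _ _
    omega
  · intro x hx
    have h1 : S.db (S.q (S.bs x0)) (S.q x) ≤ 1 := (Kit.q_le E S _ _).trans hx
    have h2 : S.q x ∈ orb (⊥ : Subgroup S.Gb) {x | S.db (S.q (S.bs x0)) x ≤ 1} :=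
      Kit.sub_orb _ _ h1
    refine ⟨_, h2, _, h2, ?_⟩
    unfold Pool.Agent.BURN.Btw
    have := ((Kit.dgB E S).eq_zero (S.q x) (S.q x)).2 rfl
    omega
  · intro c hc
    exact absurd hc (Set.notMem_empty c)
  · intro b hb
    have h1 := Kit.D_le S x0 b 1 (by omega)
    exact (Kit.bs_le E S x0 b).trans h1

end Pool.Agent.FRK
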