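import Pool.Agent.FRK.Kit

/-! FRK, module JClus. -/

namespace Pool.Agent.FRK

open Pool.Agent.BURN Pool.Agent.BURR

variable [RP]

namespace JClus

open Kit

/-- the sequence of ends of the jumps, closed by `x` -/
noncomputable def sq {X : Type} (pv qv : ℕ → X) (n : ℕ) (x : X) (j : ℕ) : X :=
  if 2 * n ≤ j then x else if j % 2 = 0 then pv (j / 2) else qv (j / 2)

theorem sq_even {X : Type} (pv qv : ℕ → X) (n : ℕ) (x : X) {i : ℕ} (h : i < n) :
    sq pv qv n x (2 * i) = pv i := by
  unfold sq
  rw [if_neg (by omega), if_pos (by omega)]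
  congr 1; omega

theorem sq_odd {X : Type} (pv qv : ℕ → X) (n : ℕ) (x : X) {i : ℕ} (h : i < n) :
    sq pv qv n x (2 * i + 1) = qv i := by
  unfold sq
  rw [if_neg (by omega), if_neg (by omega)]
  congr 1; omega

theorem sq_last {X : Type} (pv qv : ℕ → X) (n : ℕ) (x : X) : sq pv qv n x (2 * n) = x := by
  unfold sq
  rw [if_pos (le_refl _)]

end JClus

open JClus Kit in
theorem JClus_proof (E : Eng) (hJS : Stmt_JSeg) (hRW : Stmt_RWord) : Stmt_JClus := by
  intro S Γ F C hb z z' l h hJ hL Γ2 hΓ2 c hfar hcc x hx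
  have hdg := dgG E S
  have hy := hypG E S
  have hiso := isoG E S
  obtain ⟨_, n1, _, _, _, n3, _⟩ := num1'
  have n4 := num2
  have n5 := hJ.lo
  have hzW : z ∈ Win S F C := sub_win E S F C (Or.inl hJ.zF)
  have hzW' : z' ∈ Win S F C := sub_win E S F C (Or.inl hJ.zF')
  have hWinv : ∀ g ∈ Γ, ∀ w ∈ Win S F C, g • w ∈ Win S F C :=
    fun g hg w hw => win_smul E S hJ.st.finv hJ.st.cinv hg hw
  obtain ⟨hS1, hS2, hS3⟩ := hJS S Γ F C hb z z' l h hJ hL
  obtain ⟨g, hg, x', hx', rfl⟩ := hx
  have hx'W : x' ∈ Win S F C := sub_win E S F C hx'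
  rw [hΓ2] at hg
  obtain ⟨n, a, ε, hrw, rfl⟩ := hRW S.G Γ h g hg
  -- distances from c
  have hΓ : Γ ≤ Γ2 := by rw [hΓ2]; exact le_sup_left
  have hh : h ∈ Γ2 := by rw [hΓ2]; exact Subgroup.mem_sup_right (Subgroup.mem_zpowers h)
  have hcz : 990 * dd ≤ S.dg c z := by
    have := (hfar 1 Γ2.one_mem).1
    rwa [one_smul] at this
  have hcz' : 990 * dd ≤ S.dg c (h • z') := (hfar h hh).2
  have hA1 := gp_add_gp hdg c (h • z') z
  have hA2 := gp_add_gp hdg c z (h • z')
  have hA3 := gp_comm hdg z (h • z') c
  -- the (H) argument at z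
  have Hz : ∀ w ∈ Win S F C, gp S.dg c w z ≤ 131 * dd := by
    intro w hw
    have h1 := hS1 w hw
    have h2 := hyp_gp hdg hy w (h • z') c z
    rw [gp_comm hdg c w z]
    omega
  have Hz' : ∀ u, gp S.dg z u (h • z') ≤ 130 * dd → gp S.dg c u (h • z') ≤ 131 * dd := by
    intro u hu
    have h2 := hyp_gp hdg hy u z c (h • z')
    have h3 := gp_comm hdg u z (h • z')
    rw [gp_comm hdg c u (h • z')]
    omega
  have concl1 : ∀ y, gp S.dg c y z ≤ 132 * dd → 500 * dd ≤ gp S.dg y z c := by
    intro y h1
    have h2 := gp_add_gp hdg c y z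
    have h3 := gp_comm hdg y z c
    omega
  have concl2 : ∀ y, gp S.dg c y (h • z') ≤ 132 * dd → 500 * dd ≤ gp S.dg y (h • z') c := by
    intro y h1
    have h2 := gp_add_gp hdg c y (h • z')
    have h3 := gp_comm hdg y (h • z') c
    omega
  rcases Nat.eq_zero_or_pos n with hn | hn
  · subst hn
    left
    apply concl1
    have := Hz (a 0 • x') (hWinv _ hrw.zero _ hx'W)
    omega
  -- the ends of the jumps
  set pv : ℕ → S.Gm := fun i => a i • (if ε i then z else z') with hpv
  set qv : ℕ → S.Gm := fun i => a i • (if ε i then h • z' else h⁻¹ • z) with hqv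
  obtain ⟨T1, T2⟩ := hS3 n a ε pv qv hrw (fun i => rfl) (fun i => rfl)
  set s := sq pv qv n (a n • x') with hs
  have hsl : s (2 * n) = a n • x' := sq_last _ _ _ _
  -- next points
  have nextW : ∀ i, i < n → ∃ u ∈ Win S F C, s (2 * i + 2) = a (i + 1) • u := by
    intro i hi
    by_cases h1 : i + 1 < n
    · refine ⟨if ε (i + 1) then z else z', by split_ifs <;> assumption, ?_⟩
      have := sq_even pv qv n (a n • x') h1
      rw [hs, show 2 * i + 2 = 2 * (i + 1) by ring, this]
    · have h2 : i + 1 = n := by omega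
      refine ⟨x', hx'W, ?_⟩
      rw [show 2 * i + 2 = 2 * n by omega, hsl, h2]
  have prevW : ∀ i, i < n → ∃ u ∈ Win S F C, qv i = a (i + 1) • u := by
    intro i hi
    have h1 := hrw.succ i hi
    refine ⟨((a i * hp h (ε i))⁻¹ * a (i + 1))⁻¹ • (if ε i then z' else z),
      hWinv _ (inv_mem h1) _ (by split_ifs <;> assumption), ?_⟩
    rw [hqv]
    simp only
    cases ε i
    · simp only [hp, Bool.false_eq_true, if_false]
      rw [← mul_smul, ← mul_smul]
      congr 1
      group
    · simp only [hp, if_true]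
      rw [← mul_smul, ← mul_smul]
      congr 1
      group
  have hP : ∀ j, 1 ≤ j → j + 1 ≤ 2 * n → gp S.dg (s (j - 1)) (s (j + 1)) (s j) ≤ 130 * dd := by
    intro j h1 h2
    rcases Nat.even_or_odd' j with ⟨i, hi | hi⟩
    · have hin : i < n := by omega
      obtain ⟨u, hu, hu'⟩ := prevW (i - 1) (by omega)
      rw [show i - 1 + 1 = i by omega] at hu'
      have e1 : s (j - 1) = a i • u := by
        have := sq_odd pv qv n (a n • x') (i := i - 1) (by omega)
        rw [hs, show j - 1 = 2 * (i - 1) + 1 by omega, this, hu']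
      have e2 : s (j + 1) = qv i := by
        rw [hs, hi]; exact sq_odd pv qv n (a n • x') hin
      have e3 : s j = pv i := by
        rw [hs, hi]; exact sq_even pv qv n (a n • x') hin
      rw [e1, e2, e3]
      exact (T1 i hin).2.1 u hu
    · have hin : i < n := by omega
      obtain ⟨u, hu, hu'⟩ := nextW i hin
      have e1 : s (j - 1) = pv i := by
        rw [hs, show j - 1 = 2 * i by omega]; exact sq_even pv qv n (a n • x') hin
      have e2 : s (j + 1) = a (i + 1) • u := by
        rw [show j + 1 = 2 * i + 2 by omega]; exact hu'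
      have e3 : s j = qv i := by
        rw [hs, hi]; exact sq_odd pv qv n (a n • x') hin
      rw [e1, e2, e3]
      exact (T1 i hin).2.2 u hu
  have hD : ∀ j, j + 2 ≤ 2 * n → 1800 * dd ≤ S.dg (s j) (s (j + 1)) := by
    intro j h2
    rcases Nat.even_or_odd' j with ⟨i, hi | hi⟩
    · have hin : i < n := by omega
      have e3 : s j = pv i := by
        rw [hs, hi]; exact sq_even pv qv n (a n • x') hin
      have e2 : s (j + 1) = qv i := by
        rw [hs, hi]; exact sq_odd pv qv n (a n • x') hin
      rw [e2, e3, (T1 i hin).1]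
      omega
    · have hin : i + 1 < n := by omega
      have e3 : s j = qv i := by
        rw [hs, hi]; exact sq_odd pv qv n (a n • x') (by omega)
      have e2 : s (j + 1) = pv (i + 1) := by
        rw [hs, show j + 1 = 2 * (i + 1) by omega]; exact sq_even pv qv n (a n • x') hin
      rw [e2, e3]
      exact T2 i hin
  have hs0 : s 0 = pv 0 := by
    rw [hs]; exact sq_even pv qv n (a n • x') hn
  have hs1 : s 1 = qv 0 := by
    rw [hs]; exact sq_odd pv qv n (a n • x') hn
  by_cases hcase : ε 0 = true ∧ a 0 = 1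
  · -- the word starts with the jump itself
    right
    have hq0 : s 1 = h • z' := by
      rw [hs1, hqv]; simp only [hcase.1, hcase.2, if_true, one_smul]
    have hp0 : pv 0 = z := by
      rw [hpv]; simp only [hcase.1, hcase.2, if_true, one_smul]
    let y : ℕ → S.Gm := fun j => if j = 0 then c else s j
    have hy0 : y 0 = c := by simp [y]
    have hyj : ∀ j, 1 ≤ j → y j = s j := by
      intro j hj
      have : j ≠ 0 := by omega
      simp [y, this]
    have hprod : ∀ i, 1 ≤ i → i + 1 ≤ 2 * n → gp S.dg (y (i - 1)) (y (i + 1)) (y i) ≤ 131 * dd := by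
      intro i h1 h2
      by_cases h3 : i = 1
      · subst h3
        rw [hy0, hyj 2 (by omega), hyj 1 (by omega), hq0]
        apply Hz'
        have := hP 1 (by omega) (by omega)
        rw [hs0, hp0, hq0] at this
        exact this
      · rw [hyj (i - 1) (by omega), hyj (i + 1) (by omega), hyj i (by omega)]
        have := hP i h1 h2
        omega
    have hdist : ∀ i, 1 ≤ i → i + 2 ≤ 2 * n → 131 * dd + del1 < S.dg (y i) (y (i + 1)) := by
      intro i h1 h2
      rw [hyj (i + 1) (by omega), hyj i (by omega)]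
      have := hD i h2
      omega
    have := (E.lga S.Gm S.dg del1 (131 * dd) (2 * n) y hdg hy (by omega) hprod hdist).2.1
    rw [hy0, hyj _ (by omega), hyj 1 (by omega), hsl, hq0] at this
    apply concl2
    omega
  · left
    let y : ℕ → S.Gm := fun j => if j = 0 then c else if j = 1 then z else s (j - 2)
    have hy0 : y 0 = c := by simp [y]
    have hy1 : y 1 = z := by simp [y]
    have hyj : ∀ j, 2 ≤ j → y j = s (j - 2) := by
      intro j hj
      have h1 : j ≠ 0 := by omega
      have h2 : j ≠ 1 := by omega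
      simp [y, h1, h2]
    have hpv0W : s 0 ∈ Win S F C := by
      rw [hs0, hpv]
      exact hWinv _ hrw.zero _ (by split_ifs <;> assumption)
    have hzp : 1900 * dd ≤ S.dg z (s 0) := by
      rw [hs0, hpv]
      simp only
      cases hε : ε 0
      · simp only [Bool.false_eq_true, if_false]
        exact hJ.sep' _ hrw.zero
      · simp only [if_true]
        exact (hJ.sep _ hrw.zero (fun h1 => hcase ⟨hε, h1⟩)).1
    have hprod : ∀ i, 1 ≤ i → i + 1 ≤ 2 * n + 2 →
        gp S.dg (y (i - 1)) (y (i + 1)) (y i) ≤ 131 * dd := by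
      intro i h1 h2
      by_cases h3 : i = 1
      · subst h3
        rw [hy0, hyj 2 (by omega), hy1]
        exact Hz _ hpv0W
      by_cases h4 : i = 2
      · subst h4
        rw [show 2 - 1 = 1 from rfl, hy1, hyj 3 (by omega), hyj 2 (by omega)]
        show gp S.dg z (s 1) (s 0) ≤ 131 * dd
        rw [hs1, hs0]
        have h5 := (T1 0 hn).2.1 ((a 0)⁻¹ • z) (hWinv _ (inv_mem hrw.zero) _ hzW)
        rw [smul_inv_smul] at h5
        omega
      · rw [hyj (i - 1) (by omega), hyj (i + 1) (by omega), hyj i (by omega)]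
        have := hP (i - 2) (by omega) (by omega)
        rw [show i - 1 - 2 = i - 2 - 1 by omega, show i + 1 - 2 = i - 2 + 1 by omega]
        omega
    have hdist : ∀ i, 1 ≤ i → i + 2 ≤ 2 * n + 2 → 131 * dd + del1 < S.dg (y i) (y (i + 1)) := by
      intro i h1 h2
      by_cases h3 : i = 1
      · subst h3
        rw [hy1, hyj 2 (by omega)]
        show 131 * dd + del1 < S.dg z (s 0)
        omega
      · rw [hyj (i + 1) (by omega), hyj i (by omega)]
        have := hD (i - 2) (by omega)
        rw [show i + 1 - 2 = i - 2 + 1 by omega]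
        omega
    have := (E.lga S.Gm S.dg del1 (131 * dd) (2 * n + 2) y hdg hy (by omega) hprod hdist).2.1
    rw [hy0, hyj _ (by omega), hy1, Nat.add_sub_cancel, hsl] at this
    apply concl1
    omega

end Pool.Agent.FRK
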