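import Pool.Agent.FRK.Kit

/-! FRK, JEXT: the closing by h. -/

namespace Pool.Agent.FRK

open Pool.Agent.BURN Pool.Agent.BURR

variable [RP]

theorem jExt_proof (E : Eng) (hNear : Stmt_Near) : Stmt_JExt := by
  intro S Γ F C hb z z' l h hJ hL B hB
  refine Ext.step Γ h ?_
  intro u hu v hv
  obtain ⟨w, hw, hw1⟩ := hNear S Γ F C B hJ.st hB u hu
  obtain ⟨w', hw', hw1'⟩ := hNear S Γ F C B hJ.st hB v hv
  have h1 := hJ.gap w hw w' hw'
  have h2 := Kit.q_le E S w (h • w')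
  rw [Kit.q_smul, hL.lift] at h2
  have h3 := (Kit.dgG E S).tri w (S.bs u) (h • w')
  have h4 := (Kit.dgG E S).tri (S.bs u) (h • S.bs v) (h • w')
  have h5 := Kit.isoG E S h (S.bs v) w'
  have h6 := (Kit.dgG E S).symm w (S.bs u)
  have h7 := Kit.bs_le E S u (h • v)
  rw [← Kit.bs_smul] at h7
  have h8 := hJ.lo
  have hn := Kit.num1'.2.2.1
  have hn1 := Kit.num1'.2.2.2.2.2.1
  have hn2 := Kit.num2
  have hn4 := Kit.num4.1
  have h9 : 1 + 1 ≤ S.D u (h • v) := by
    generalize f3 = f at *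
    generalize dd = D at *
    omega
  have h10 := Kit.d_ge S u (h • v) 1 h9
  omega

/-- same as `jExt_proof` -/
theorem JExt_proof (E : Eng) (hNear : Stmt_Near) : Stmt_JExt := jExt_proof E hNear

end Pool.Agent.FRK
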