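import Pool.Agent.FRK.Kit

/-! FRK, module JFine. -/

namespace Pool.Agent.FRK

open Pool.Agent.BURN Pool.Agent.BURR

variable [RP]

namespace JFine

open Kit

/-- the sequence of ends of the jumps, closed by `x` -/
noncomputable def sq {X : Type} (pv qv : ℕ → X) (n : ℕ) (x : X) (j : ℕ) : X :=
  if 2 * n ≤ j then x else if j % 2 = 0 then pv (j / 2) else qv (j / 2)

omit [RP] in
theorem sq_even {X : Type} (pv qv : ℕ → X) (n : ℕ) (x : X) {i : ℕ} (h : i < n) :
    sq pv qv n x (2 * i) = pv i := by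
  unfold sq
  rw [if_neg (by omega), if_pos (by omega)]
  congr 1; omega

omit [RP] in
theorem sq_odd {X : Type} (pv qv : ℕ → X) (n : ℕ) (x : X) {i : ℕ} (h : i < n) :
    sq pv qv n x (2 * i + 1) = qv i := by
  unfold sq
  rw [if_neg (by omega), if_neg (by omega)]
  congr 1; omega

omit [RP] in
theorem sq_last {X : Type} (pv qv : ℕ → X) (n : ℕ) (x : X) : sq pv qv n x (2 * n) = x := by
  unfold sq
  rw [if_pos (le_refl _)]

end JFine

open JFine Kit in
theorem JFine_proof (E : Eng) (hJS : Stmt_JSeg) (hRW : Stmt_RWord) (hFi : Stmt_Fine) :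
    Stmt_JFine := by
  intro S Γ F C hb z z' l h hJ hL Γ2 hΓ2 w0 hw0 hfar0
  have hdg := dgG E S
  have hy := hypG E S
  have hiso := isoG E S
  have hqc := win_qc E S F C
  obtain ⟨_, n1, _, _, _, n3, _⟩ := num1'
  have n4 := num2
  have n5 := hJ.lo
  have hzW : z ∈ Win S F C := sub_win E S F C (Or.inl hJ.zF)
  have hzW' : z' ∈ Win S F C := sub_win E S F C (Or.inl hJ.zF')
  have hWinv : ∀ g ∈ Γ, ∀ w ∈ Win S F C, g • w ∈ Win S F C :=
    fun g hg w hw => win_smul E S hJ.st.finv hJ.st.cinv hg hw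
  obtain ⟨hS1, hS2, hS3⟩ := hJS S Γ F C hb z z' l h hJ hL
  have hΓ : Γ ≤ Γ2 := by rw [hΓ2]; exact le_sup_left
  have hh : h ∈ Γ2 := by rw [hΓ2]; exact Subgroup.mem_sup_right (Subgroup.mem_zpowers h)
  have rep : ∀ y ∈ orb Γ2 F ∪ orb Γ2 C, ∃ g ∈ Γ2, ∃ u ∈ F ∪ C, y = g • u := by
    intro y hy
    rcases hy with ⟨g, hg, u, hu, rfl⟩ | ⟨g, hg, u, hu, rfl⟩
    · exact ⟨g, hg, u, Or.inl hu, rfl⟩
    · exact ⟨g, hg, u, Or.inr hu, rfl⟩
  obtain ⟨u0, hu0, v0, hv0, hbt0⟩ := hw0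
  obtain ⟨g1, hg1, x', hx', rfl⟩ := rep u0 hu0
  obtain ⟨g2, hg2, y', hy', rfl⟩ := rep v0 hv0
  have hx'W : x' ∈ Win S F C := sub_win E S F C hx'
  have hy'W : y' ∈ Win S F C := sub_win E S F C hy'
  set w := g1⁻¹ • w0 with hw
  have hw1 : g1 • w = w0 := by rw [hw, smul_inv_smul]
  have hbt : Btw S.dg x' w ((g1⁻¹ * g2) • y') := by
    have h1 : Btw S.dg (g1⁻¹ • g1 • x') (g1⁻¹ • w0) (g1⁻¹ • g2 • y') := by
      unfold Pool.Agent.BURN.Btw at hbt0 ⊢
      rw [hiso, hiso, hiso]; exact hbt0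
    rwa [inv_smul_smul, ← mul_smul] at h1
  have hfar : ∀ g ∈ Γ2, 900 * dd ≤ S.dg w (g • z) ∧ 900 * dd ≤ S.dg w (g • z') := by
    intro g hg
    have h1 := hfar0 (g1 * g) (mul_mem hg1 hg)
    rw [← hw1, mul_smul, mul_smul, hiso, hiso] at h1
    exact h1
  have hg12 : g1⁻¹ * g2 ∈ Γ2 := mul_mem (inv_mem hg1) hg2
  rw [hΓ2] at hg12
  obtain ⟨n, a, ε, hrw, han⟩ := hRW S.G Γ h _ hg12
  rw [← han] at hbt
  -- conclusion from a point near a translate of the region
  have near1 : ∀ g ∈ Γ2, (∃ u ∈ Win S F C, S.dg w (g • u) ≤ 6 * del1) →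
      ∃ g ∈ Γ2, (∃ u ∈ Win S F C, S.dg w0 (g • u) ≤ 6 * del1) ∨
        gp S.dg (g • z) (g • h • z') w0 ≤ 2 * del1 := by
    rintro g hg ⟨u, hu, hd⟩
    refine ⟨g1 * g, mul_mem hg1 hg, Or.inl ⟨u, hu, ?_⟩⟩
    rw [← hw1, mul_smul, hiso]; exact hd
  have near2 : ∀ g ∈ Γ2, gp S.dg (g • z) (g • h • z') w ≤ 2 * del1 →
      ∃ g ∈ Γ2, (∃ u ∈ Win S F C, S.dg w0 (g • u) ≤ 6 * del1) ∨
        gp S.dg (g • z) (g • h • z') w0 ≤ 2 * del1 := by
    intro g hg hd
    refine ⟨g1 * g, mul_mem hg1 hg, Or.inr ?_⟩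
    rw [← hw1, mul_smul, mul_smul, isIso_gp hiso]; exact hd
  have seg : ∀ g ∈ Γ2, ∀ u ∈ Win S F C, ∀ v ∈ Win S F C,
      gp S.dg (g • u) (g • v) w ≤ 2 * del1 → ∃ u ∈ Win S F C, S.dg w (g • u) ≤ 6 * del1 := by
    intro g hg u hu v hv hd
    have e1 : gp S.dg u v (g⁻¹ • w) ≤ 2 * del1 := by
      rw [← isIso_gp hiso g, smul_inv_smul]; exact hd
    obtain ⟨γ, hγ⟩ := exists_geod hdg u v
    obtain ⟨m1, m2⟩ := near_geod hdg hy hγ (g⁻¹ • w)
    obtain ⟨u2, hu2, hd2⟩ := hqc u hu v hv _ (hγ.btw' m1)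
    refine ⟨u2, hu2, ?_⟩
    have t1 := hdg.tri (g⁻¹ • w) (γ (gp S.dg v (g⁻¹ • w) u / 2)) u2
    have e2 : S.dg w (g • u2) = S.dg (g⁻¹ • w) u2 := by
      rw [← hiso g (g⁻¹ • w) u2, smul_inv_smul]
    rw [e2]
    omega
  have haΓ2 : ∀ i, i ≤ n → a i ∈ Γ2 := by
    intro i
    induction i with
    | zero => intro _; exact hΓ hrw.zero
    | succ i ih =>
      intro hi
      have h1 := hrw.succ i (by omega)
      have h2 : a (i + 1) = (a i * hp h (ε i)) * ((a i * hp h (ε i))⁻¹ * a (i + 1)) := by group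
      rw [h2]
      refine mul_mem (mul_mem (ih (by omega)) ?_) (hΓ h1)
      unfold hp
      split_ifs
      · exact hh
      · exact inv_mem hh
  rcases Nat.eq_zero_or_pos n with hn | hn
  · subst hn
    apply near1 1 Γ2.one_mem
    obtain ⟨u2, hu2, hd2⟩ := hqc x' hx'W (a 0 • y') (hWinv _ hrw.zero _ hy'W) w hbt
    refine ⟨u2, hu2, ?_⟩
    rw [one_smul]; omega
  -- the ends of the jumps
  set pv : ℕ → S.Gm := fun i => a i • (if ε i then z else z') with hpv
  set qv : ℕ → S.Gm := fun i => a i • (if ε i then h • z' else h⁻¹ • z) with hqv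
  obtain ⟨T1, T2⟩ := hS3 n a ε pv qv hrw (fun i => rfl) (fun i => rfl)
  set s := sq pv qv n (a n • y') with hs
  have hsl : s (2 * n) = a n • y' := sq_last _ _ _ _
  have nextW : ∀ i, i < n → ∃ u ∈ Win S F C, s (2 * i + 2) = a (i + 1) • u := by
    intro i hi
    by_cases h1 : i + 1 < n
    · refine ⟨if ε (i + 1) then z else z', by split_ifs <;> assumption, ?_⟩
      have := sq_even pv qv n (a n • y') h1
      rw [hs, show 2 * i + 2 = 2 * (i + 1) by ring, this]
    · have h2 : i + 1 = n := by omega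
      refine ⟨y', hy'W, ?_⟩
      rw [show 2 * i + 2 = 2 * n by omega, hsl, h2]
  have prevW : ∀ i, i < n → ∃ u ∈ Win S F C, qv i = a (i + 1) • u := by
    intro i hi
    have h1 := hrw.succ i hi
    refine ⟨((a i * hp h (ε i))⁻¹ * a (i + 1))⁻¹ • (if ε i then z' else z),
      hWinv _ (inv_mem h1) _ (by split_ifs <;> assumption), ?_⟩
    rw [hqv]
    simp only
    cases ε i
    · simp only [hp, Bool.false_eq_true, if_false]
      rw [← mul_smul, ← mul_smul]
      congr 1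
      group
    · simp only [hp, if_true]
      rw [← mul_smul, ← mul_smul]
      congr 1
      group
  have hse : ∀ i, i < n → s (2 * i) = pv i := fun i hi => sq_even pv qv n (a n • y') hi
  have hso : ∀ i, i < n → s (2 * i + 1) = qv i := fun i hi => sq_odd pv qv n (a n • y') hi
  have hP : ∀ j, 1 ≤ j → j + 1 ≤ 2 * n → gp S.dg (s (j - 1)) (s (j + 1)) (s j) ≤ 130 * dd := by
    intro j h1 h2
    rcases Nat.even_or_odd' j with ⟨i, hi | hi⟩
    · have hin : i < n := by omega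
      obtain ⟨u, hu, hu'⟩ := prevW (i - 1) (by omega)
      rw [show i - 1 + 1 = i by omega] at hu'
      rw [show j - 1 = 2 * (i - 1) + 1 by omega, hso (i - 1) (by omega), hu', hi, hso i hin,
        hse i hin]
      exact (T1 i hin).2.1 u hu
    · have hin : i < n := by omega
      obtain ⟨u, hu, hu'⟩ := nextW i hin
      rw [show j - 1 = 2 * i by omega, show j + 1 = 2 * i + 2 by omega, hu', hi, hse i hin,
        hso i hin]
      exact (T1 i hin).2.2 u hu
  have hD : ∀ j, j + 2 ≤ 2 * n → 1800 * dd ≤ S.dg (s j) (s (j + 1)) := by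
    intro j h2
    rcases Nat.even_or_odd' j with ⟨i, hi | hi⟩
    · have hin : i < n := by omega
      rw [hi, hse i hin, hso i hin, (T1 i hin).1]
      omega
    · have hin : i + 1 < n := by omega
      rw [show j + 1 = 2 * (i + 1) by omega, hi, hse _ hin, hso i (by omega)]
      exact T2 i hin
  have hF : ∀ j, j < 2 * n → 900 * dd ≤ S.dg w (s j) := by
    intro j hj
    rcases Nat.even_or_odd' j with ⟨i, hi | hi⟩
    · rw [hi, hse i (by omega), hpv]
      simp only
      split_ifs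
      · exact (hfar _ (haΓ2 i (by omega))).1
      · exact (hfar _ (haΓ2 i (by omega))).2
    · rw [hi, hso i (by omega), hqv]
      simp only
      split_ifs
      · rw [← mul_smul]
        exact (hfar _ (mul_mem (haΓ2 i (by omega)) hh)).2
      · rw [← mul_smul]
        exact (hfar _ (mul_mem (haΓ2 i (by omega)) (inv_mem hh))).1
  let X : ℕ → S.Gm := fun j => if j = 0 then x' else s (j - 1)
  have hX0 : X 0 = x' := by simp [X]
  have hXj : ∀ j, 1 ≤ j → X j = s (j - 1) := by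
    intro j hj
    have : j ≠ 0 := by omega
    simp [X, this]
  have hprod : ∀ i, 1 ≤ i → i + 1 ≤ 2 * n + 1 →
      gp S.dg (X (i - 1)) (X (i + 1)) (X i) ≤ 130 * dd := by
    intro i h1 h2
    by_cases h3 : i = 1
    · subst h3
      rw [hX0, hXj 2 (by omega), hXj 1 (by omega)]
      show gp S.dg x' (s 1) (s 0) ≤ 130 * dd
      have e1 := hse 0 hn
      have e2 := hso 0 hn
      rw [mul_zero] at e1 e2
      rw [zero_add] at e2
      rw [e1, e2]
      have h5 := (T1 0 hn).2.1 ((a 0)⁻¹ • x') (hWinv _ (inv_mem hrw.zero) _ hx'W)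
      rw [smul_inv_smul] at h5
      exact h5
    · rw [hXj (i - 1) (by omega), hXj (i + 1) (by omega), hXj i (by omega)]
      have := hP (i - 1) (by omega) (by omega)
      rw [show i + 1 - 1 = i - 1 + 1 by omega]
      exact this
  have hdist : ∀ i, 1 ≤ i → i + 2 ≤ 2 * n + 1 → 130 * dd + 2 * del1 < S.dg (X i) (X (i + 1)) := by
    intro i h1 h2
    rw [hXj (i + 1) (by omega), hXj i (by omega)]
    have := hD (i - 1) (by omega)
    rw [show i + 1 - 1 = i - 1 + 1 by omega]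
    omega
  have hLG := E.lgb S.Gm S.dg del1 (130 * dd) (2 * n + 1) X hdg hy (by omega) hprod hdist
  have hXN : X (2 * n + 1) = a n • y' := by
    rw [hXj _ (by omega), Nat.add_sub_cancel, hsl]
  obtain ⟨i, hi, hip⟩ := hFi S.Gm S.dg del1 (130 * dd + 2 * del1) (2 * n + 1) X w hdg hy (by omega)
    hLG (by rw [hX0, hXN]; exact hbt) (by
      intro i h1 h2
      rw [hXj i h1]
      have := hF (i - 1) (by omega)
      omega)
  by_cases hi0 : i = 0
  · subst hi0
    rw [hX0, hXj 1 (by omega)] at hip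
    apply near1 1 Γ2.one_mem
    apply seg 1 Γ2.one_mem x' hx'W (s 0) ?_ (by rw [one_smul, one_smul]; exact hip)
    have e1 := hse 0 hn
    rw [mul_zero] at e1
    rw [e1, hpv]
    exact hWinv _ hrw.zero _ (by split_ifs <;> assumption)
  rw [hXj i (by omega), hXj (i + 1) (by omega), show i + 1 - 1 = i - 1 + 1 by omega] at hip
  rcases Nat.even_or_odd' (i - 1) with ⟨k, hk | hk⟩
  · have hkn : k < n := by omega
    rw [hk, hse k hkn, hso k hkn, hpv, hqv] at hip
    simp only at hip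
    cases hε : ε k
    · rw [hε] at hip
      simp only [Bool.false_eq_true, if_false] at hip
      apply near2 (a k * h⁻¹) (mul_mem (haΓ2 k (by omega)) (inv_mem hh))
      rw [gp_comm hdg, mul_smul, mul_smul, inv_smul_smul]
      exact hip
    · rw [hε] at hip
      simp only [if_true] at hip
      exact near2 (a k) (haΓ2 k (by omega)) hip
  · have hkn : k < n := by omega
    obtain ⟨u, hu, hu'⟩ := prevW k hkn
    obtain ⟨v, hv, hv'⟩ := nextW k hkn
    rw [hk, hso k hkn, hu', show 2 * k + 1 + 1 = 2 * k + 2 by ring, hv'] at hip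
    exact near1 (a (k + 1)) (haΓ2 _ (by omega)) (seg _ (haΓ2 _ (by omega)) u hu v hv hip)

end Pool.Agent.FRK
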