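import Pool.Agent.FRK.Kit

/-! FRK, module JNear. -/

namespace Pool.Agent.FRK

open Pool.Agent.BURN Pool.Agent.BURR

variable [RP]

open Kit in
theorem JNear_proof (E : Eng) (hJF : Stmt_JFine) : Stmt_JNear := by
  intro S Γ F C hb z z' l h hJ hL Γ2 hΓ2 c hc
  have hdg := dgG E S
  have hy := hypG E S
  have hiso := isoG E S
  obtain ⟨_, n1, _, _, _, n3, _⟩ := num1'
  obtain ⟨⟨i, rfl⟩, hcC, w, hw, hcw⟩ := hc
  have far : ∀ g ∈ Γ2, 1000 * dd ≤ S.dg (S.ap i) (g • z) ∧ 1000 * dd ≤ S.dg (S.ap i) (g • z') := by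
    intro g _
    have e1 : S.ap i = g • S.ap (g⁻¹ • i) := by
      rw [smul_ap, smul_inv_smul]
    constructor
    · rw [e1, hiso, hdg.symm]
      exact hJ.far _
    · rw [e1, hiso, hdg.symm]
      exact hJ.far' _
  have farw : ∀ g ∈ Γ2, 900 * dd ≤ S.dg w (g • z) ∧ 900 * dd ≤ S.dg w (g • z') := by
    intro g hg
    obtain ⟨h1, h2⟩ := far g hg
    have h3 := hdg.tri (S.ap i) w (g • z)
    have h4 := hdg.tri (S.ap i) w (g • z')
    constructor <;> omega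
  obtain ⟨g, hg, hh⟩ := hJF S Γ F C hb z z' l h hJ hL Γ2 hΓ2 w hw farw
  have key : ∀ u, S.dg (g⁻¹ • S.ap i) u = S.dg (S.ap i) (g • u) := by
    intro u
    rw [← hiso g (g⁻¹ • S.ap i) u, smul_inv_smul]
  refine ⟨g, hg, ?_⟩
  rcases hh with ⟨u, hu, hwu⟩ | hgp
  · left
    refine ⟨u, hu, ?_⟩
    rw [key]
    have := hdg.tri (S.ap i) w (g • u)
    omega
  · right
    obtain ⟨p, hp1, hp2⟩ := LadderX.near_btw hdg hy (g • z) (g • h • z') w
    refine ⟨g⁻¹ • p, ?_, ?_⟩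
    · have := LadderX.btw_smul hiso g⁻¹ hp1
      rwa [inv_smul_smul, inv_smul_smul] at this
    · rw [key, smul_inv_smul]
      have := hdg.tri (S.ap i) w p
      omega

end Pool.Agent.FRK
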