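import Pool.Agent.FRK.Kit

/-! FRK, module JPRE: after the jump the new region is a pre-state. -/

namespace Pool.Agent.FRK

open Pool.Agent.BURN Pool.Agent.BURR Pool.Agent.FRK.Kit

variable [RP]

namespace JPre

theorem orb_union {G X : Type} [Group G] [MulAction G X] (Γ : Subgroup G) (A B : Set X) {x : X}
    (hx : x ∈ orb Γ A ∪ orb Γ B) : x ∈ orb Γ (A ∪ B) := by
  rcases hx with hx | hx
  · exact orb_mono le_rfl Set.subset_union_left hx
  · exact orb_mono le_rfl Set.subset_union_right hx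

variable (S : KSys)

theorem ap_inj {i j : S.I} (h : S.ap i = S.ap j) : i = j := by
  have := congrArg Subtype.val h
  exact CV.a.inj this

theorem rot_orb (Γ Γ2 : Subgroup S.G) (C : Set S.Gm) (hsub : C ⊆ Set.range S.ap)
    (hrot : ∀ i, S.ap i ∈ C → RotS (S.E i) (S.nE i) ≤ Γ) (hle : Γ ≤ Γ2) (i : S.I)
    (hi : S.ap i ∈ orb Γ2 C) : RotS (S.E i) (S.nE i) ≤ Γ2 := by
  obtain ⟨g, hg, c, hc, e⟩ := hi
  obtain ⟨j, rfl⟩ := hsub hc
  rw [smul_ap] at e
  have hij := ap_inj S e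
  subst hij
  intro r hr
  have h1 := rot_conj S g⁻¹ (g • j) r hr
  rw [inv_smul_smul, inv_inv] at h1
  have h2 : g⁻¹ * r * g ∈ Γ2 := hle (hrot j hc h1)
  have h3 : g * (g⁻¹ * r * g) * g⁻¹ ∈ Γ2 := Γ2.mul_mem (Γ2.mul_mem hg h2) (Γ2.inv_mem hg)
  have h4 : g * (g⁻¹ * r * g) * g⁻¹ = r := by group
  rwa [h4] at h3

theorem cnew_smul (E : Eng) {Γ2 : Subgroup S.G} {F2 C2 : Set S.Gm}
    (hF : ∀ g ∈ Γ2, ∀ x ∈ F2, g • x ∈ F2) (hC : ∀ g ∈ Γ2, ∀ x ∈ C2, g • x ∈ C2)
    {g : S.G} (hg : g ∈ Γ2) {x : S.Gm} (hx : x ∈ Cnew S F2 C2) : g • x ∈ Cnew S F2 C2 := by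
  obtain ⟨⟨k, rfl⟩, h2, w, hw, hd⟩ := hx
  refine ⟨⟨g • k, (smul_ap S g k).symm⟩, ?_, g • w, win_smul E S hF hC hg hw, ?_⟩
  · intro h
    apply h2
    have := hC g⁻¹ (Γ2.inv_mem hg) _ h
    rwa [inv_smul_smul] at this
  · rw [isoG E S]; exact hd

/-- a new apex q near the interval [x1,y1] sees the clusters of x1 or y1 -/
theorem near_ap (E : Eng) (c z y q w x1 y1 : S.Gm)
    (hcq : 2 * rho + 2 ≤ S.dg q c) (hqw : S.dg q w ≤ 3 * dd)
    (hb : Btw S.dg x1 w y1)
    (hx : 500 * dd ≤ gp S.dg x1 z c ∨ 500 * dd ≤ gp S.dg x1 y c)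
    (hy : 500 * dd ≤ gp S.dg y1 z c ∨ 500 * dd ≤ gp S.dg y1 y c) :
    2 * f3 + 1 ≤ gp S.dg q z c ∨ 2 * f3 + 1 ≤ gp S.dg q y c := by
  have hdg := dgG E S
  have hhy := hypG E S
  -- the argument for one end point
  have key : ∀ u : S.Gm, gp S.dg u c w ≤ del1 →
      (500 * dd ≤ gp S.dg u z c ∨ 500 * dd ≤ gp S.dg u y c) →
      2 * f3 + 1 ≤ gp S.dg q z c ∨ 2 * f3 + 1 ≤ gp S.dg q y c := by
    intro u hu hcl
    have n1 := num1'
    have n2 := num2
    obtain ⟨-, n11, n12, -, -, n13, -⟩ := n1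
    have a1 : gp S.dg w u c + gp S.dg c u w = 2 * S.dg w c := gp_add_gp hdg w u c
    have a2 : gp S.dg c u w = gp S.dg u c w := gp_comm hdg c u w
    have a3 : gp S.dg q w c + S.dg q w = S.dg q c + S.dg w c := gp_add hdg q w c
    have a4 : S.dg q c ≤ S.dg q w + S.dg w c := hdg.tri q w c
    have b1 := hyp_gp hdg hhy q u w c
    have hbig : ∀ t : S.Gm, 500 * dd ≤ gp S.dg u t c → 2 * f3 + 1 ≤ gp S.dg q t c := by
      intro t ht
      have b2 := hyp_gp hdg hhy q t u c
      generalize gp S.dg q u c = g1 at *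
      generalize gp S.dg u t c = g2 at *
      generalize gp S.dg q t c = g3 at *
      generalize gp S.dg q w c = g4 at *
      generalize gp S.dg w u c = g5 at *
      generalize gp S.dg u c w = g6 at *
      generalize gp S.dg c u w = g7 at *
      generalize S.dg q c = d1 at *
      generalize S.dg q w = d2 at *
      generalize S.dg w c = d3 at *
      generalize f3 = f at *
      generalize del1 = e at *
      generalize dd = D at *
      omega
    rcases hcl with h | h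
    · exact Or.inl (hbig z h)
    · exact Or.inr (hbig y h)
  have h0 : gp S.dg x1 y1 w = 0 := (btw_iff hdg x1 w y1).1 hb
  have h1 := hyp_gp hdg hhy x1 y1 c w
  rw [h0, Nat.zero_add] at h1
  rcases min_le_iff.1 h1 with h | h
  · exact key x1 h hx
  · refine key y1 ?_ hy
    rw [gp_comm hdg]; exact h

theorem near_all (E : Eng) (F2 C2 : Set S.Gm) (j : S.I) (z y : S.Gm)
    (hcl : ∀ x ∈ F2 ∪ C2, 500 * dd ≤ gp S.dg x z (S.ap j) ∨ 500 * dd ≤ gp S.dg x y (S.ap j))
    (q : S.Gm) (hq : q ∈ F2 ∪ C2 ∪ Cnew S F2 C2) (hne : q ≠ S.ap j) :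
    2 * f3 + 1 ≤ gp S.dg q z (S.ap j) ∨ 2 * f3 + 1 ≤ gp S.dg q y (S.ap j) := by
  rcases hq with hq | hq
  · have n1 := num1'
    obtain ⟨-, -, n12, -, -, n13, -⟩ := n1
    rcases hcl q hq with h | h
    · left; omega
    · right; omega
  · obtain ⟨⟨k, rfl⟩, -, w, ⟨x1, hx1, y1, hy1, hb⟩, hd⟩ := hq
    have hkj : k ≠ j := fun e => hne (by rw [e])
    exact near_ap S E (S.ap j) z y (S.ap k) w x1 y1 (ap_far E S hkj) hd hb (hcl x1 hx1)
      (hcl y1 hy1)

/-- feet of points seeing each other under a small angle are close -/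
theorem feet_close (E : Eng) (j : S.I) (x y : S.Gm) (A B : S.X)
    (hA : Foot (Dsc Lam S.d) (YE S.d S.E) rho j x A)
    (hB : Foot (Dsc Lam S.d) (YE S.d S.E) rho j y B)
    (h : 2 * f3 + 1 ≤ gp S.dg x y (S.ap j)) : S.D A B < 2 ^ (rho + 5) := by
  by_contra hn
  have h1 := E.vr0 S.X S.I S.D S.Y rho (cd E S) j x y A B hA hB (not_lt.1 hn)
  have h2 : gp S.dg x y (S.ap j) ≤ 2 * f3 := h1
  omega

/-- the span at an apex seeing everything in the clusters of z and y -/
theorem span_two (E : Eng) (F2 C2 : Set S.Gm) (j : S.I) (z y : S.Gm)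
    (hz : z ≠ S.ap j) (hy : y ≠ S.ap j)
    (hcl : ∀ x ∈ F2 ∪ C2, 500 * dd ≤ gp S.dg x z (S.ap j) ∨ 500 * dd ≤ gp S.dg x y (S.ap j))
    (hmin : ∀ A B : S.X, Foot (Dsc Lam S.d) (YE S.d S.E) rho j z A →
      Foot (Dsc Lam S.d) (YE S.d S.E) rho j y B →
      ∀ r ∈ RotS (S.E j) (S.nE j), r ≠ 1 → ∀ v ∈ S.Y j,
        S.D A B + 2 ^ (rho + 9) ≤ S.D v (r • v)) :
    Span S j (F2 ∪ C2 ∪ Cnew S F2 C2) := by
  intro x hx x' hx' hne hne' A B hA hB r hr hr1 v hv
  obtain ⟨Az, hAz⟩ := (E.footEx S.X S.I S.D S.Y rho (cd E S)).1 j z hz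
  obtain ⟨By, hBy⟩ := (E.footEx S.X S.I S.D S.Y rho (cd E S)).1 j y hy
  have hm := hmin Az By hAz hBy r hr hr1 v hv
  have hD := dgD E S
  have p1 : (2 : ℕ) ^ (rho + 7) = 4 * 2 ^ (rho + 5) := by rw [pow_add, pow_add]; ring
  have p2 : (2 : ℕ) ^ (rho + 9) = 16 * 2 ^ (rho + 5) := by rw [pow_add, pow_add]; ring
  have key : S.D A B ≤ 2 * 2 ^ (rho + 5) + S.D Az By := by
    have f1 := fun t T (hT : Foot (Dsc Lam S.d) (YE S.d S.E) rho j t T) (h : _) =>
      feet_close S E j x t A T hA hT h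
    have f2 := fun t T (hT : Foot (Dsc Lam S.d) (YE S.d S.E) rho j t T) (h : _) =>
      feet_close S E j x' t B T hB hT h
    rcases near_all S E F2 C2 j z y hcl x hx hne with h1 | h1 <;>
      rcases near_all S E F2 C2 j z y hcl x' hx' hne' with h2 | h2
    · have a1 := f1 z Az hAz h1
      have a2 := f2 z Az hAz h2
      have a3 := hD.tri A Az B
      have a4 := hD.symm Az B
      omega
    · have a1 := f1 z Az hAz h1
      have a2 := f2 y By hBy h2
      have a3 := hD.tri A Az B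
      have a4 := hD.tri Az By B
      have a5 := hD.symm By B
      omega
    · have a1 := f1 y By hBy h1
      have a2 := f2 z Az hAz h2
      have a3 := hD.tri A By B
      have a4 := hD.tri By Az B
      have a5 := hD.symm Az B
      have a6 := hD.symm By Az
      omega
    · have a1 := f1 y By hBy h1
      have a2 := f2 y By hBy h2
      have a3 := hD.tri A By B
      have a4 := hD.symm By B
      omega
  rw [p2] at hm
  rw [p1]
  omega

/-- transport of the span -/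
theorem span_smul (E : Eng) (Q : Set S.Gm) (g : S.G) (i : S.I)
    (hQ : ∀ x ∈ Q, g⁻¹ • x ∈ Q) (h : Span S (g⁻¹ • i) Q) : Span S i Q := by
  intro x hx y hy hxi hyi A B hA hB r hr hr1 v hv
  have hr2 : g⁻¹ * r * g ∈ RotS (S.E (g⁻¹ • i)) (S.nE (g⁻¹ • i)) := by
    have := rot_conj S g⁻¹ i r hr
    rwa [inv_inv] at this
  have hr3 : g⁻¹ * r * g ≠ 1 := by
    intro e
    apply hr1
    have : r = g * (g⁻¹ * r * g) * g⁻¹ := by group
    rw [this, e]; group
  have hne : ∀ t : S.Gm, t ≠ S.ap i → g⁻¹ • t ≠ S.ap (g⁻¹ • i) := by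
    intro t ht e
    apply ht
    rw [← smul_ap] at e
    exact smul_left_cancel g⁻¹ e
  have h1 := h (g⁻¹ • x) (hQ x hx) (g⁻¹ • y) (hQ y hy) (hne x hxi) (hne y hyi)
    (g⁻¹ • A) (g⁻¹ • B) (foot_smul E S g⁻¹ i x A hA) (foot_smul E S g⁻¹ i y B hB)
    (g⁻¹ * r * g) hr2 hr3 (g⁻¹ • v) ((E.overlap S).2.2.2.1 i g⁻¹ v hv)
  have e1 : (g⁻¹ * r * g) • g⁻¹ • v = g⁻¹ • r • v := by
    rw [mul_smul, mul_smul, smul_inv_smul]
  rw [e1, isoD E S, isoD E S] at h1
  exact h1

theorem far_orb (E : Eng) (z : S.Gm) (hz : ∀ i, 1000 * dd ≤ S.dg z (S.ap i)) (g : S.G) (i : S.I) :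
    1000 * dd ≤ S.dg (g • z) (S.ap i) := by
  have h1 := hz (g⁻¹ • i)
  have h2 : S.dg (g • z) (S.ap i) = S.dg z (S.ap (g⁻¹ • i)) := by
    have := isoG E S g z (S.ap (g⁻¹ • i))
    rw [smul_ap, smul_inv_smul] at this
    exact this
  rw [h2]; exact h1

end JPre

open JPre in
theorem jPre_proof (E : Eng) (hJF : Stmt_JFine) (hJC : Stmt_JClus) (hSm : Stmt_Small)
    (hRB : Stmt_RotBig) : Stmt_JPre := by
  intro S Γ F C hb z z' l h hBig J L Γ2 hΓ2
  have hdg := dgG E S
  have hle : Γ ≤ Γ2 := by rw [hΓ2]; exact le_sup_left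
  have hh : h ∈ Γ2 := by
    rw [hΓ2]
    exact (le_sup_right : Subgroup.zpowers h ≤ _) (Subgroup.mem_zpowers h)
  have hF2 : ∀ g ∈ Γ2, ∀ x ∈ orb Γ2 F, g • x ∈ orb Γ2 F := fun g hg x hx => orb_smul hg hx
  have hC2 : ∀ g ∈ Γ2, ∀ x ∈ orb Γ2 C, g • x ∈ orb Γ2 C := fun g hg x hx => orb_smul hg hx
  refine ⟨?_, hF2, hC2, ?_, ?_, ?_⟩
  · obtain ⟨x, hx⟩ := J.st.ne
    exact ⟨x, sub_orb Γ2 F hx⟩
  · rintro x ⟨g, hg, c, hc, rfl⟩
    obtain ⟨k, rfl⟩ := J.st.sub hc
    exact ⟨g • k, (smul_ap S g k).symm⟩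
  · intro i hi
    exact rot_orb S Γ Γ2 C J.st.sub J.st.rot hle i hi
  · intro i hi
    by_cases hfar : ∀ w ∈ Win S (orb Γ2 F) (orb Γ2 C), f3 + 6 * del1 + 10 < S.dg (S.ap i) w
    · intro x hx y hy hxi hyi A B hA hB r hr hr1 v hv
      have h1 := ((hSm S (orb Γ2 F) (orb Γ2 C) i hfar) x hx y hy hxi hyi).2 A B hA hB
      have h2 := hRB S hBig.big i r hr hr1 v hv
      have p1 : (2 : ℕ) ^ (rho + 7) = 4 * 2 ^ (rho + 5) := by rw [pow_add, pow_add]; ring
      have p2 : (2 : ℕ) ^ (rho + 13) = 256 * 2 ^ (rho + 5) := by rw [pow_add, pow_add]; ring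
      rw [p2] at h2
      rw [p1]
      omega
    · push Not at hfar
      obtain ⟨w, hw, hwi⟩ := hfar
      have n1 := num1'
      obtain ⟨-, n11, n12, -, -, n13, -⟩ := n1
      have hsymm : S.dg (S.ap i) w = S.dg w (S.ap i) := hdg.symm _ _
      have hwz : ∀ t : S.Gm, (∀ i, 1000 * dd ≤ S.dg t (S.ap i)) → ∀ g : S.G,
          900 * dd ≤ S.dg w (g • t) := by
        intro t ht g
        have a1 := far_orb S E t ht g i
        have a2 := hdg.tri (g • t) w (S.ap i)
        have a3 := hdg.symm (g • t) w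
        generalize S.dg (g • t) (S.ap i) = d1 at *
        generalize S.dg (g • t) w = d2 at *
        generalize S.dg w (g • t) = d3 at *
        generalize S.dg w (S.ap i) = d4 at *
        generalize S.dg (S.ap i) w = d5 at *
        generalize f3 = f at *
        generalize del1 = e at *
        generalize dd = D at *
        omega
      obtain ⟨g, hg, hgg⟩ := hJF S Γ F C hb z z' l h J L Γ2 hΓ2 w hw
        (fun g _ => ⟨hwz z J.far g, hwz z' J.far' g⟩)
      rcases hgg with ⟨u, hu, hwu⟩ | hgp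
      · exfalso
        have b1 : S.dg (S.ap (g⁻¹ • i)) u = S.dg (S.ap i) (g • u) := by
          have := isoG E S g (S.ap (g⁻¹ • i)) u
          rw [smul_ap, smul_inv_smul] at this
          exact this.symm
        have b2 := hdg.tri (S.ap i) w (g • u)
        have b3 : S.dg (S.ap (g⁻¹ • i)) u ≤ 2 * dd := by
          rw [b1]
          generalize S.dg (S.ap i) (g • u) = d1 at *
          generalize S.dg w (g • u) = d2 at *
          generalize S.dg w (S.ap i) = d4 at *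
          generalize S.dg (S.ap i) w = d5 at *
          generalize f3 = f at *
          generalize del1 = e at *
          generalize dd = D at *
          omega
        have b4 := J.st.full (g⁻¹ • i) u hu b3
        apply hi.2.1
        refine ⟨g, hg, _, b4, ?_⟩
        rw [smul_ap, smul_inv_smul]
      · have c1 : gp S.dg z (h • z') (S.ap (g⁻¹ • i)) ≤ dd := by
          have d1 : gp S.dg z (h • z') (S.ap (g⁻¹ • i)) =
              gp S.dg (g • z) (g • h • z') (S.ap i) := by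
            have := isIso_gp (isoG E S) g z (h • z') (S.ap (g⁻¹ • i))
            rw [smul_ap, smul_inv_smul] at this
            exact this.symm
          have d2 := gp_le_of_near_base hdg (g • z) (g • h • z') (S.ap i) w
          rw [d1]
          generalize gp S.dg (g • z) (g • h • z') (S.ap i) = e1 at *
          generalize gp S.dg (g • z) (g • h • z') w = e2 at *
          generalize S.dg w (S.ap i) = d4 at *
          generalize S.dg (S.ap i) w = d5 at *
          generalize f3 = f at *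
          generalize del1 = e at *
          generalize dd = D at *
          omega
        have c2 := hJC S Γ F C hb z z' l h J L Γ2 hΓ2 (S.ap (g⁻¹ • i)) (fun g' _ => by
          have a1 := far_orb S E z J.far g' (g⁻¹ • i)
          have a2 := far_orb S E z' J.far' g' (g⁻¹ • i)
          rw [hdg.symm (S.ap (g⁻¹ • i)) (g' • z), hdg.symm (S.ap (g⁻¹ • i)) (g' • z')]
          omega) c1
        have hzne : z ≠ S.ap (g⁻¹ • i) := by
          intro e
          have a1 := J.far (g⁻¹ • i)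
          have a2 := (hdg.eq_zero z (S.ap (g⁻¹ • i))).2 e
          omega
        have hyne : h • z' ≠ S.ap (g⁻¹ • i) := by
          intro e
          have a1 := far_orb S E z' J.far' h (g⁻¹ • i)
          have a2 := (hdg.eq_zero (h • z') (S.ap (g⁻¹ • i))).2 e
          omega
        have hsp := span_two S E (orb Γ2 F) (orb Γ2 C) (g⁻¹ • i) z (h • z') hzne hyne
          (fun x hx => c2 x (orb_union Γ2 F C hx)) (fun A B hA hB => L.minl (g⁻¹ • i) A B hA hB)
        refine span_smul S E _ g i ?_ hsp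
        rintro x ((hx | hx) | hx)
        · exact Or.inl (Or.inl (hF2 _ (Γ2.inv_mem hg) x hx))
        · exact Or.inl (Or.inr (hC2 _ (Γ2.inv_mem hg) x hx))
        · exact Or.inr (cnew_smul S E hF2 hC2 (Γ2.inv_mem hg) hx)

end Pool.Agent.FRK
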