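import Pool.Agent.FRK.Kit

/-! FRK, module JSEG: products at the attaching points of a jump. -/

namespace Pool.Agent.FRK

open Pool.Agent.BURN Pool.Agent.BURR Kit

namespace JSeg

variable [RP]

omit [RP] in
/-- `2 * del1` is small against `dd` -/
theorem del_small : 1000000 * del1 ≤ dd ∧ 1000000 ≤ dd := ⟨num1'.2.1, num1'.2.2.2.2.2.1⟩

/-- first product -/
theorem seg1 (E : Eng) {S : KSys} {Γ : Subgroup S.G} {F C : Set S.Gm} {hb : S.Gb}
    {z z' : S.Gm} {l : ℕ} {h : S.G} (hJ : Jmp S Γ F C hb z z' l) (hh : JLift S hb z z' h)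
    {u : S.Gm} (hu : u ∈ Win S F C) : gp S.dg u (h • z') z ≤ 130 * dd := by
  have hd := dgG E S
  obtain ⟨p, hp, hp2⟩ := LadderX.near_btw hd (hypG E S) z u (h • z')
  obtain ⟨w, hw, hpw⟩ := win_qc E S F C z (sub_win E S F C (Or.inl hJ.zF)) u hu p hp
  have h1 := hJ.gap w hw z' (sub_win E S F C (Or.inl hJ.zF'))
  have h2 : S.db (S.q w) (hb • S.q z') ≤ S.dg w (h • z') := by
    rw [← hh.lift, ← q_smul]
    exact q_le E S _ _
  have h3 := hd.tri (h • z') p w
  have h4 := hd.symm w (h • z')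
  have h5 : S.dg z (h • z') = l := hh.dist.trans hJ.dist
  have h6 := gp_add_gp hd u (h • z') z
  have h7 := gp_add_gp hd z u (h • z')
  have h8 := gp_comm hd u (h • z') z
  obtain ⟨n1, n2⟩ := del_small
  generalize dd = D at *
  generalize del1 = e at *
  omega

/-- second product -/
theorem seg2 (E : Eng) {S : KSys} {Γ : Subgroup S.G} {F C : Set S.Gm} {hb : S.Gb}
    {z z' : S.Gm} {l : ℕ} {h : S.G} (hJ : Jmp S Γ F C hb z z' l) (hh : JLift S hb z z' h)
    {u : S.Gm} (hu : u ∈ Win S F C) : gp S.dg z (h • u) (h • z') ≤ 130 * dd := by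
  have hd := dgG E S
  have hi := isoG E S
  obtain ⟨p, hp, hp2⟩ := LadderX.near_btw hd (hypG E S) z' u (h⁻¹ • z)
  obtain ⟨w, hw, hpw⟩ := win_qc E S F C z' (sub_win E S F C (Or.inl hJ.zF')) u hu p hp
  have h1 := hJ.gap z (sub_win E S F C (Or.inl hJ.zF)) w hw
  have h2 : S.db (S.q z) (hb • S.q w) ≤ S.dg z (h • w) := by
    rw [← hh.lift, ← q_smul]
    exact q_le E S _ _
  have h3 := hd.tri (h⁻¹ • z) p w
  have h4 : S.dg (h⁻¹ • z) w = S.dg z (h • w) := by
    rw [← hi h (h⁻¹ • z) w, smul_inv_smul]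
  have h5 : S.dg z (h • z') = l := hh.dist.trans hJ.dist
  have h5' : S.dg (h⁻¹ • z) z' = S.dg z (h • z') := by
    rw [← hi h (h⁻¹ • z) z', smul_inv_smul]
  have h6 := gp_add_gp hd z' u (h⁻¹ • z)
  have h7 := gp_comm hd (h⁻¹ • z) u z'
  have h8 : gp S.dg z (h • u) (h • z') = gp S.dg (h⁻¹ • z) u z' := by
    rw [← isIso_gp hi h (h⁻¹ • z) u z', smul_inv_smul]
  have h9 := hd.symm z' (h⁻¹ • z)
  obtain ⟨n1, n2⟩ := del_small
  generalize dd = D at *
  generalize del1 = e at *
  omega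

end JSeg

open JSeg

theorem JSeg_proof [RP] (E : Eng) : Stmt_JSeg := by
  intro S Γ F C hb z z' l h hJ hh
  have hd := dgG E S
  have hi := isoG E S
  refine ⟨fun u hu => seg1 E hJ hh hu, fun u hu => seg2 E hJ hh hu, ?_⟩
  intro n a ε pv qv hRW hpv hqv
  have hinvW : ∀ g ∈ Γ, ∀ u ∈ Win S F C, g • u ∈ Win S F C := fun g hg u hu =>
    win_smul E S hJ.st.finv hJ.st.cinv hg hu
  have h5 : S.dg z (h • z') = l := hh.dist.trans hJ.dist
  have hsucc : ∀ i < n, ∃ γ ∈ Γ, a (i + 1) = a i * hp h (ε i) * γ := by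
    intro i hi
    exact ⟨_, hRW.succ i hi, by group⟩
  constructor
  · intro i hin
    obtain ⟨γ, hγ, e⟩ := hsucc i hin
    rw [hpv i, hqv i]
    rcases hε : ε i with _ | _
    · -- the letter h⁻¹
      simp only [Bool.false_eq_true, if_false]
      have e' : hp h (ε i) = h⁻¹ := by rw [hε]; rfl
      refine ⟨?_, ?_, ?_⟩
      · rw [hi, ← hi h z' (h⁻¹ • z), smul_inv_smul, hd.symm]
        exact h5
      · intro u hu
        rw [isIso_gp hi, ← isIso_gp hi h u (h⁻¹ • z) z', smul_inv_smul, gp_comm hd]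
        exact seg2 E hJ hh hu
      · intro u hu
        rw [e, e', mul_smul, mul_smul, isIso_gp hi, ← isIso_gp hi h z' (h⁻¹ • γ • u) (h⁻¹ • z),
          smul_inv_smul, smul_inv_smul, gp_comm hd]
        exact seg1 E hJ hh (hinvW γ hγ u hu)
    · simp only [if_true]
      have e' : hp h (ε i) = h := by rw [hε]; rfl
      refine ⟨?_, ?_, ?_⟩
      · rw [hi]
        exact h5
      · intro u hu
        rw [isIso_gp hi]
        exact seg1 E hJ hh hu
      · intro u hu
        rw [e, e', mul_smul, mul_smul, isIso_gp hi]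
        exact seg2 E hJ hh (hinvW γ hγ u hu)
  · intro i hin
    obtain ⟨γ, hγ, e⟩ := hsucc i (by omega)
    have hred := hRW.red i hin
    have hγ1 : ε (i + 1) ≠ ε i → γ ≠ 1 := by
      intro hne h1
      apply hred hne
      rw [e, h1, mul_one]
    have hle : 1800 * dd ≤ 1900 * dd := by omega
    rw [hpv (i + 1), hqv i]
    rcases hε : ε i with _ | _
    · have e' : hp h (ε i) = h⁻¹ := by rw [hε]; rfl
      simp only [Bool.false_eq_true, if_false]
      rcases hε2 : ε (i + 1) with _ | _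
      · simp only [Bool.false_eq_true, if_false]
        rw [e, e', mul_smul, mul_smul, hi, hi]
        exact le_trans hle (hJ.sep' γ hγ)
      · simp only [if_true]
        rw [e, e', mul_smul, mul_smul, hi, hi]
        exact le_trans hle (hJ.sep γ hγ (hγ1 (by rw [hε, hε2]; decide))).1
    · have e' : hp h (ε i) = h := by rw [hε]; rfl
      simp only [if_true]
      rcases hε2 : ε (i + 1) with _ | _
      · simp only [Bool.false_eq_true, if_false]
        rw [e, e', mul_smul, mul_smul, hi, hi]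
        exact le_trans hle (hJ.sep γ hγ (hγ1 (by rw [hε, hε2]; decide))).2
      · simp only [if_true]
        rw [e, e', mul_smul, mul_smul, hi, hi, hd.symm, ← hi γ⁻¹ (γ • z) z', inv_smul_smul]
        exact le_trans hle (hJ.sep' γ⁻¹ (Γ.inv_mem hγ))

end Pool.Agent.FRK
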