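import Pool.Agent.FRK.Kit

/-! FRK, JUMP: one jump of a state. -/

namespace Pool.Agent.FRK

open Pool.Agent.BURN Pool.Agent.BURR

namespace Jump

theorem orb_orb {G X : Type} [Group G] [MulAction G X] {Γ Γ' : Subgroup G} {B : Set X}
    (h : Γ ≤ Γ') : orb Γ' (orb Γ B) = orb Γ' B := by
  apply Set.Subset.antisymm
  · rintro x ⟨g, hg, y, ⟨g2, hg2, b, hb, rfl⟩, rfl⟩
    exact ⟨g * g2, Γ'.mul_mem hg (h hg2), b, hb, (mul_smul g g2 b).symm⟩
  · rintro x ⟨g, hg, b, hb, rfl⟩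
    exact ⟨g, hg, b, Kit.sub_orb Γ B hb, rfl⟩

variable [RP]

theorem KK_le_K (S : KSys) (F C : Set S.Gm) : KK (Cnew S F C) S.R ≤ S.K := by
  refine (Subgroup.closure_le _).2 ?_
  rintro r ⟨c, hc, hr⟩
  obtain ⟨⟨i, rfl⟩, -⟩ := hc
  rw [Kit.R_ap] at hr
  exact Kit.rot_le_K S i hr

end Jump

variable [RP]

theorem jump_proof (E : Eng) (hMinL : Stmt_MinL) (hJExt : Stmt_JExt) (hJPre : Stmt_JPre)
    (hJNear : Stmt_JNear) (hWMB : Stmt_WMB) (hWMX : Stmt_WMX) : Stmt_Jump := by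
  intro S Γ F C hb z z' l hBig hJ
  have hdd := Kit.num1'.2.2.2.2.2.1
  have hz : ∀ i, z ≠ S.ap i := by
    intro i e
    have h1 := hJ.far i
    have h2 := ((Kit.dgG E S).eq_zero z (S.ap i)).2 e
    omega
  have hz' : ∀ i, z' ≠ S.ap i := by
    intro i e
    have h1 := hJ.far' i
    have h2 := ((Kit.dgG E S).eq_zero z' (S.ap i)).2 e
    omega
  obtain ⟨h, hL⟩ := hMinL S z z' hb hBig hz hz'
  set Γ2 : Subgroup S.G := Γ ⊔ Subgroup.zpowers h with hΓ2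
  have hpre : PreSt S Γ2 (orb Γ2 F) (orb Γ2 C) := hJPre S Γ F C hb z z' l h hBig hJ hL Γ2 hΓ2
  have hst := hWMB S Γ2 (orb Γ2 F) (orb Γ2 C) hpre
  set Γ' : Subgroup S.G := gN S Γ2 (orb Γ2 F) (orb Γ2 C) with hΓ'
  have h2le : Γ2 ≤ Γ' := le_sup_left
  rw [Jump.orb_orb h2le] at hst
  refine ⟨Γ', orb Γ' (orb Γ2 C ∪ Cnew S (orb Γ2 F) (orb Γ2 C)), le_trans le_sup_left h2le, ?_,
    hst, ?_, ?_, ?_⟩
  · have hK : (KK (Cnew S (orb Γ2 F) (orb Γ2 C)) S.R).map S.π = ⊥ := by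
      rw [eq_bot_iff]
      rintro x ⟨k, hk, rfl⟩
      rw [Subgroup.mem_bot]
      exact (Kit.ker_K S k).2 (Jump.KK_le_K S _ _ hk)
    rw [hΓ']
    unfold gN
    rw [Subgroup.map_sup, hK, sup_bot_eq, hΓ2, Subgroup.map_sup, MonoidHom.map_zpowers, hL.lift]
  · intro c hc
    exact Kit.sub_orb _ _ (Or.inl (Kit.sub_orb _ _ hc))
  · rintro c ⟨g, hg, b, hb', rfl⟩
    rcases hb' with ⟨g2, hg2, c0, hc0, rfl⟩ | hb'
    · refine ⟨g * g2, Γ'.mul_mem hg (h2le hg2), Or.inl ?_⟩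
      have e : (g * g2)⁻¹ • g • g2 • c0 = c0 := by
        rw [← mul_smul g g2 c0, ← mul_smul, inv_mul_cancel, one_smul]
      rw [e]
      exact hc0
    · obtain ⟨g2, hg2, hh⟩ := hJNear S Γ F C hb z z' l h hJ hL Γ2 hΓ2 b hb'
      have e : (g * g2)⁻¹ • g • b = g2⁻¹ • b := by
        rw [← mul_smul]
        congr 1
        group
      refine ⟨g * g2, Γ'.mul_mem hg (h2le hg2), Or.inr ?_⟩
      rw [e]
      rcases hh with hh | ⟨s, hs, hs'⟩
      · exact Or.inl hh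
      · refine Or.inr ⟨S.q s, ?_, le_trans (Kit.q_le E S _ _) hs'⟩
        have h1 := Kit.q_le E S z s
        have h2 := Kit.q_le E S s (h • z')
        rw [Kit.q_smul, hL.lift] at h2
        have h3 := hL.dist
        unfold Pool.Agent.BURN.Btw at hs ⊢
        have h4 := (Kit.dgB E S).tri (S.q z) (S.q s) (hb • S.q z')
        omega
  · intro B hB
    refine Ext.trans Γ Γ2 Γ' (hJExt S Γ F C hb z z' l h hJ hL B hB) ?_
    exact hWMX S Γ2 (orb Γ2 F) (orb Γ2 C) B hBig hpre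
      (fun b hb' => Kit.sub_orb _ _ (hB b hb'))

/-- same as `jump_proof` -/
theorem Jump_proof (E : Eng) (hMinL : Stmt_MinL) (hJExt : Stmt_JExt) (hJPre : Stmt_JPre)
    (hJNear : Stmt_JNear) (hWMB : Stmt_WMB) (hWMX : Stmt_WMX) : Stmt_Jump :=
  jump_proof E hMinL hJExt hJPre hJNear hWMB hWMX

end Pool.Agent.FRK
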