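import Pool.Agent.FRK.Kit

/-! KMEM: elements of the kernel which move a base vertex inside the region. -/

namespace Pool.Agent.FRK

open Pool.Agent.BURN Pool.Agent.BURR

variable [RP]

namespace KMem

/-- an apex which sees two points of the region under a small angle belongs to C -/
theorem mem_C (E : Eng) (S : KSys) (Γ : Subgroup S.G) (F C : Set S.Gm) (hS : St S Γ F C) (i : S.I)
    {x y : S.Gm} (hx : x ∈ Win S F C) (hy : y ∈ Win S F C)
    (h : gp S.dg x y (S.ap i) ≤ bet1 del1 (2 * f3)) : S.ap i ∈ C := by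
  obtain ⟨p, hp, hpz⟩ := LadderX.near_btw (Kit.dgG E S) (Kit.hypG E S) x y (S.ap i)
  obtain ⟨w, hw, hpw⟩ := Kit.win_qc E S F C x hx y hy p hp
  refine hS.full i w hw ?_
  have h1 := (Kit.dgG E S).tri (S.ap i) p w
  obtain ⟨-, h2, -, -, -, -, h3, -, -⟩ := Kit.num1'
  generalize bet1 del1 (2 * f3) = b at *
  generalize del1 = e at *
  omega

theorem aux (E : Eng) (S : KSys) (Γ : Subgroup S.G) (F C : Set S.Gm) (hS : St S Γ F C) (v : S.X)
    (hv : S.bs v ∈ Win S F C) (n : ℕ) : ∀ k ∈ S.K, k • S.bs v ∈ Win S F C →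
    S.dg (S.bs v) (k • S.bs v) = n → k ∈ Γ := by
  induction n using Nat.strong_induction_on with
  | _ n ih =>
    intro k hk hkv hn
    by_cases hk1 : k = 1
    · rw [hk1]; exact Γ.one_mem
    rcases E.gl S.G S.Gm S.dg (Set.range S.ap) S.R del1 (2 * f3 + 1) (2 * f3) (2 * rho + 2)
        (Kit.rf E S) (S.bs v) k hk hk1 with ⟨c, ⟨i, rfl⟩, h, -⟩ | ⟨c, ⟨i, rfl⟩, r, hr, -, -, h1, h2⟩
    · exfalso
      have h1 := Kit.ap_bs E S v i
      have h2 := Kit.num2
      obtain ⟨h3, -⟩ := Kit.num1'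
      generalize aa0 del1 (2 * f3 + 1) (2 * f3) = a at *
      omega
    · have hC := mem_C E S Γ F C hS i hv hkv h1
      rw [Kit.R_ap] at hr
      have hrΓ : r ∈ Γ := hS.rot i hC hr
      have hrK : r ∈ S.K := Kit.rot_le_K S i hr
      have hW : (r⁻¹ * k) • S.bs v ∈ Win S F C := by
        rw [mul_smul]
        exact Kit.win_smul E S hS.finv hS.cinv (Γ.inv_mem hrΓ) hkv
      have hd : S.dg (S.bs v) ((r⁻¹ * k) • S.bs v) < n := by
        have e1 := gp_add (Kit.dgG E S) (S.bs v) (k • S.bs v) (S.ap i)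
        have e2 := gp_add (Kit.dgG E S) (S.bs v) (r⁻¹ • k • S.bs v) (S.ap i)
        have e3 : S.dg (r⁻¹ • k • S.bs v) (S.ap i) = S.dg (k • S.bs v) (S.ap i) := by
          have := Kit.isoG E S r (r⁻¹ • k • S.bs v) (S.ap i)
          rw [smul_inv_smul, Kit.rot_fix E S i r hr] at this
          exact this.symm
        obtain ⟨-, -, -, h4⟩ := Kit.aa0_ge'
        rw [mul_smul]
        generalize alp1 del1 (2 * f3 + 1) (2 * f3) = a at *
        generalize bet1 del1 (2 * f3) = b at *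
        omega
      have := ih _ hd (r⁻¹ * k) (S.K.mul_mem (S.K.inv_mem hrK) hk) hW rfl
      have h3 := Γ.mul_mem hrΓ this
      rwa [mul_inv_cancel_left] at h3

end KMem

theorem kMem_proof (E : Eng) : Stmt_KMem := by
  intro S Γ F C hS v k hk hv hkv
  exact KMem.aux E S Γ F C hS v hv _ k hk hkv rfl

end Pool.Agent.FRK
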