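import Pool.Agent.FRK.Kit

/-! FRK, module LREL: the relation between consecutive stages. -/

namespace Pool.Agent.FRK

open Pool.Agent.BURN Pool.Agent.BURR Kit

namespace LRel

variable [RP]

omit [RP] in
/-- the base of an orbit hull is contained in it -/
theorem sub_hull {X : Type} {d : X → X → ℕ} (hd : IsDG d) {A : Set X} {x : X} (hx : x ∈ A) :
    x ∈ hull d A := by
  refine ⟨x, hx, x, hx, ?_⟩
  unfold Pool.Agent.BURN.Btw
  have := (hd.eq_zero x x).2 rfl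
  omega

theorem comap_eq (S : KSys) (Γ : Subgroup S.G) (Nb : Subgroup S.Gb) (h : Γ.map S.π = Nb) :
    Γ ⊔ S.K = Nb.comap S.π := by
  have hk : S.π.ker = S.K := by
    ext g
    rw [MonoidHom.mem_ker]
    exact S.pker g
  rw [← h, Subgroup.comap_map_eq, hk]

theorem D_le_of (S : KSys) (x y : S.X) (r : ℕ) (h : S.d x y ≤ r) :
    S.D x y ≤ (r + Lam - 1) / Lam := by
  show (S.d x y + Lam - 1) / Lam ≤ (r + Lam - 1) / Lam
  exact Nat.div_le_div_right (by omega)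

end LRel

open LRel

theorem LRel_proof [RP] (E : Eng) (hDU : Stmt_DispUp) (hIn : Stmt_Init) (hL : Stmt_Lift2)
    (hBG : Stmt_BallG) (hEx : Stmt_Exh) (hKM : Stmt_KMem) (_hEB : Stmt_ExtB) : Stmt_LRel := by
  intro S hB
  refine ⟨?_, ?_, ?_⟩
  · -- e1
    intro x0 Nb hD hE
    obtain ⟨hSt, hC, hb1⟩ := hIn S x0
    obtain ⟨Γ', F', C', hSt', -, hF, -, hmap, -, hE'⟩ :=
      hL S _ ⊥ Nb hB hE hD ⊥ _ ∅ hSt (Subgroup.map_bot _) hC
    have h1 : Ext S.d {x | S.d x0 x ≤ 1} ⊥ Γ' := hE' _ (fun b hb => hb1 b hb)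
    have h2 : Ext S.d {x | S.d x0 x ≤ 1} Γ' (Γ' ⊔ S.K) :=
      hEx S Γ' F' C' hB hSt' _ (fun b hb => hF (hb1 b hb))
    rw [comap_eq S Γ' Nb hmap] at h2
    exact Ext.trans _ _ _ h1 h2
  · -- e2
    intro x0 Pb r hr hD hE
    obtain ⟨hSt, hC, hb1⟩ := hIn S x0
    obtain ⟨Γ1, F1, C1, hSt1, -, hF1, -, hmap1, hC1, hE1⟩ :=
      hL S _ ⊥ Pb hB hE hD ⊥ _ ∅ hSt (Subgroup.map_bot _) hC
    set s : ℕ := (r + Lam - 1) / Lam with hs
    have hL4 := num4.2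
    have hs1 : 1 ≤ s := by
      rw [hs, Nat.le_div_iff_mul_le (by omega)]
      omega
    set Bs : Set S.Xb := {x | S.db (S.q (S.bs x0)) x ≤ s} with hBs
    set Rb : Set S.Xb := hull S.db (orb Pb Bs) with hRb
    have hmono : hull S.db (orb Pb {x | S.db (S.q (S.bs x0)) x ≤ 1}) ⊆ Rb := by
      refine hull_mono (orb_mono le_rfl ?_)
      intro x hx
      exact le_trans (show S.db (S.q (S.bs x0)) x ≤ 1 from hx) hs1
    have hq : QC S.db (2 * dd) Rb := (E.hull S.Xb S.db dd (dgB E S) (hypB E S)).1 _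
    have hinv : ∀ g ∈ Γ1, ∀ x ∈ Rb, S.π g • x ∈ Rb := by
      intro g hg x hx
      have hg' : S.π g ∈ Pb := by
        rw [← hmap1]
        exact Subgroup.mem_map_of_mem _ hg
      exact hull_smul (isoB E S) (fun y hy => orb_smul hg' hy) hx
    have hCtl : Ctl S Rb (25 * dd) F1 C1 := by
      refine ⟨fun x hx => hmono (hC1.1 x hx), fun c hc => ?_⟩
      obtain ⟨a, ha, hca⟩ := hC1.2 c hc
      exact ⟨a, hmono ha, hca⟩
    have hx0 : S.bs x0 ∈ {u | S.dg (S.bs x0) u ≤ 1} := by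
      show S.dg (S.bs x0) (S.bs x0) ≤ 1
      rw [((dgG E S).eq_zero _ _).2 rfl]
      omega
    obtain ⟨Γ', F', C', hSt', hΓ, hF, -, hmap, hCtl', hball, hE'⟩ :=
      hBG S Γ1 F1 C1 Rb (2 * dd) (25 * dd) s x0 hB hSt1 hq hinv hCtl (by omega) (by omega)
        (hF1 hx0) (fun x hx => sub_hull (dgB E S) (sub_orb _ _ hx))
    have hmap' : Γ'.map S.π = Pb := hmap.trans hmap1
    have hbF : ∀ b : S.X, S.d x0 b ≤ r → S.bs b ∈ F' := fun b hb =>
      hball _ (le_trans (bs_le E S x0 b) (D_le_of S x0 b r hb))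
    refine ⟨Γ', ?_, hmap', ?_, ?_⟩
    · refine Ext.trans _ _ _ (hE1 _ (fun b hb => hb1 b hb)) (hE' _ (fun b hb => hF1 (hb1 b hb)))
    · -- membership
      intro g hg hgP
      rw [← hmap'] at hgP
      obtain ⟨γ, hγ, hγg⟩ := hgP
      have hk : g * γ⁻¹ ∈ S.K := by
        rw [← ker_K, map_mul, map_inv, hγg, mul_inv_cancel]
      have h1 : S.bs (γ • x0) ∈ F' := by
        rw [← bs_smul]
        exact hSt'.finv γ hγ _ (hbF x0 (by rw [(S.good.dg.eq_zero _ _).2 rfl]; omega))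
      have h2 : (g * γ⁻¹) • S.bs (γ • x0) ∈ F' := by
        rw [bs_smul, smul_smul, inv_mul_cancel_right]
        exact hbF _ hg
      have h3 : g * γ⁻¹ ∈ Γ' := hKM S Γ' F' C' hSt' (γ • x0) (g * γ⁻¹) hk
        (sub_win E S F' C' (Or.inl h1)) (sub_win E S F' C' (Or.inl h2))
      have h4 := Γ'.mul_mem h3 hγ
      rwa [inv_mul_cancel_right] at h4
    · intro Nb hDN hEN
      obtain ⟨Γ2, F2, C2, hSt2, -, hF2, -, hmap2, -, hE2⟩ :=
        hL S Bs Pb Nb hB hEN hDN Γ' F' C' hSt' hmap' hCtl'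
      have h1 : Ext S.d {x | S.d x0 x ≤ r} Γ' Γ2 := hE2 _ (fun b hb => hbF b hb)
      have h2 : Ext S.d {x | S.d x0 x ≤ r} Γ2 (Γ2 ⊔ S.K) :=
        hEx S Γ2 F2 C2 hB hSt2 _ (fun b hb => hF2 (hbF b hb))
      rw [comap_eq S Γ2 Nb hmap2] at h2
      exact Ext.trans _ _ _ h1 h2
  · -- e3
    exact fun Nb hD => hDU S Nb hD

end Pool.Agent.FRK
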