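import Pool.Agent.FRK.Kit

namespace Pool.Agent.FRK

open Pool.Agent.BURN Pool.Agent.BURR

variable [RP]

namespace Lift2

/-- the states over a given subgroup of the quotient group -/
def Ok (S : KSys) (Bb : Set S.Xb) (Γb : Subgroup S.Gb)
    (p : Subgroup S.G × Set S.Gm × Set S.Gm) : Prop :=
  St S p.1 p.2.1 p.2.2 ∧ p.1.map S.π = Γb ∧
    Ctl S (hull S.db (orb Γb Bb)) (25 * dd) p.2.1 p.2.2

/-- the relation between consecutive states -/
def Nx (S : KSys) (p p' : Subgroup S.G × Set S.Gm × Set S.Gm) : Prop :=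
  p.1 ≤ p'.1 ∧ p.2.1 ⊆ p'.2.1 ∧ p.2.2 ⊆ p'.2.2 ∧
    ∀ B : Set S.X, (∀ b ∈ B, S.bs b ∈ p.2.1) → Ext S.d B p.1 p'.1

theorem seq (S : KSys) (Bb : Set S.Xb) (s : ℕ → Subgroup S.Gb)
    (h : ∀ n p, Ok S Bb (s n) p → ∃ p', Ok S Bb (s (n + 1)) p' ∧ Nx S p p')
    (p0 : Subgroup S.G × Set S.Gm × Set S.Gm) (h0 : Ok S Bb (s 0) p0) :
    ∃ p : ℕ → Subgroup S.G × Set S.Gm × Set S.Gm, p 0 = p0 ∧ (∀ n, Ok S Bb (s n) (p n)) ∧
      ∀ n, Nx S (p n) (p (n + 1)) := by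
  classical
  choose! f hf1 hf2 using h
  set p : ℕ → Subgroup S.G × Set S.Gm × Set S.Gm := fun n => Nat.rec p0 (fun n q => f n q) n
    with hp
  have hok : ∀ n, Ok S Bb (s n) (p n) := by
    intro n
    induction n with
    | zero => exact h0
    | succ n ih => exact hf1 n (p n) ih
  exact ⟨p, rfl, hok, fun n => hf2 n (p n) (hok n)⟩

theorem mono {S : KSys} {p : ℕ → Subgroup S.G × Set S.Gm × Set S.Gm}
    (h : ∀ n, Nx S (p n) (p (n + 1))) :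
    (Monotone fun n => (p n).1) ∧ (Monotone fun n => (p n).2.1) ∧ Monotone fun n => (p n).2.2 :=
  ⟨monotone_nat_of_le_succ fun n => (h n).1, monotone_nat_of_le_succ fun n => (h n).2.1,
    monotone_nat_of_le_succ fun n => (h n).2.2.1⟩

theorem union_st {S : KSys} {p : ℕ → Subgroup S.G × Set S.Gm × Set S.Gm}
    (hs : ∀ n, St S (p n).1 (p n).2.1 (p n).2.2) (h : ∀ n, Nx S (p n) (p (n + 1))) :
    St S (⨆ n, (p n).1) (⋃ n, (p n).2.1) (⋃ n, (p n).2.2) := by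
  obtain ⟨m1, m2, m3⟩ := mono h
  have hmem : ∀ g ∈ (⨆ n, (p n).1), ∃ n, g ∈ (p n).1 := by
    intro g hg
    exact (Subgroup.mem_iSup_of_directed m1.directed_le).1 hg
  refine ⟨?_, ?_, ?_, ?_, ?_, ?_⟩
  · obtain ⟨x, hx⟩ := (hs 0).ne
    exact ⟨x, Set.mem_iUnion.2 ⟨0, hx⟩⟩
  · intro g hg x hx
    obtain ⟨n, hn⟩ := hmem g hg
    obtain ⟨m, hm⟩ := Set.mem_iUnion.1 hx
    refine Set.mem_iUnion.2 ⟨max n m, (hs (max n m)).finv g (m1 (le_max_left n m) hn) x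
      (m2 (le_max_right n m) hm)⟩
  · intro g hg x hx
    obtain ⟨n, hn⟩ := hmem g hg
    obtain ⟨m, hm⟩ := Set.mem_iUnion.1 hx
    refine Set.mem_iUnion.2 ⟨max n m, (hs (max n m)).cinv g (m1 (le_max_left n m) hn) x
      (m3 (le_max_right n m) hm)⟩
  · exact Set.iUnion_subset fun n => (hs n).sub
  · intro i hi
    obtain ⟨m, hm⟩ := Set.mem_iUnion.1 hi
    exact ((hs m).rot i hm).trans (le_iSup (fun n => (p n).1) m)
  · intro i w hw hd
    obtain ⟨x, hx, y, hy, hb⟩ := hw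
    have h1 : ∀ z ∈ ((⋃ n, (p n).2.1) ∪ ⋃ n, (p n).2.2 : Set S.Gm),
        ∃ n, ∀ m, n ≤ m → z ∈ (p m).2.1 ∪ (p m).2.2 := by
      rintro z (hz | hz)
      · obtain ⟨n, hn⟩ := Set.mem_iUnion.1 hz
        exact ⟨n, fun m hm => Or.inl (m2 hm hn)⟩
      · obtain ⟨n, hn⟩ := Set.mem_iUnion.1 hz
        exact ⟨n, fun m hm => Or.inr (m3 hm hn)⟩
    obtain ⟨n, hn⟩ := h1 x hx
    obtain ⟨m, hm⟩ := h1 y hy
    have hw' : w ∈ Win S (p (max n m)).2.1 (p (max n m)).2.2 :=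
      ⟨x, hn _ (le_max_left n m), y, hm _ (le_max_right n m), hb⟩
    exact Set.mem_iUnion.2 ⟨max n m, (hs (max n m)).full i w hw' hd⟩

theorem ctl_mono {S : KSys} {R R' : Set S.Xb} {κ : ℕ} {F C : Set S.Gm} (hR : R ⊆ R')
    (h : Ctl S R κ F C) : Ctl S R' κ F C := by
  refine ⟨fun x hx => hR (h.1 x hx), fun c hc => ?_⟩
  obtain ⟨a, ha, hd⟩ := h.2 c hc
  exact ⟨a, hR ha, hd⟩

theorem orbm {G X : Type} [Group G] [MulAction G X] {Γ Γ' : Subgroup G} (h : Γ ≤ Γ')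
    (B : Set X) : orb Γ B ⊆ orb Γ' B := by
  rintro x ⟨g, hg, b, hb, rfl⟩
  exact ⟨g, h hg, b, hb, rfl⟩

theorem hullm {X : Type} (d : X → X → ℕ) {A A' : Set X} (h : A ⊆ A') : hull d A ⊆ hull d A' := by
  rintro p ⟨x, hx, y, hy, hb⟩
  exact ⟨x, h hx, y, h hy, hb⟩

end Lift2

theorem lift2_proof (_E : Eng) (hLS : Stmt_LiftS) (hEB : Stmt_ExtB) : Stmt_Lift2 := by
  intro S Bb Γb Γb' hBig hExt
  have main : Disp S.db Γb' → ∀ p, Lift2.Ok S Bb Γb p →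
      ∃ p', Lift2.Ok S Bb Γb' p' ∧ Lift2.Nx S p p' := by
    induction hExt with
    | refl Γ0 =>
      intro _ p hp
      exact ⟨p, hp, le_refl _, Set.Subset.refl _, Set.Subset.refl _, fun B _ => Ext.refl _⟩
    | step Γ0 h gap =>
      intro hD p hp
      obtain ⟨h1, h2, h3⟩ := hp
      subst h2
      obtain ⟨Γ', F', C', k1, k2, k3, k4, k5, k6, k7⟩ :=
        hLS S p.1 p.2.1 p.2.2 Bb h hBig h1 h3 gap hD
      rw [k5] at k6
      exact ⟨(Γ', F', C'), ⟨k1, k5, k6⟩, k2, k3, k4, k7⟩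
    | trans Γ0 Γ1 Γ2 e1 e2 ih1 ih2 =>
      intro hD p hp
      have hle : Γ1 ≤ Γ2 := hEB.1 _ _ _ _ _ _ e2
      obtain ⟨p1, hp1, hn1⟩ := ih1 (fun g hg => hD g (hle hg)) p hp
      obtain ⟨p2, hp2, hn2⟩ := ih2 hD p1 hp1
      refine ⟨p2, hp2, hn1.1.trans hn2.1, hn1.2.1.trans hn2.2.1, hn1.2.2.1.trans hn2.2.2.1, ?_⟩
      intro B hB
      exact Ext.trans _ _ _ (hn1.2.2.2 B hB) (hn2.2.2.2 B fun b hb => hn1.2.1 (hB b hb))
    | union s e ih =>
      intro hD p hp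
      have hle : ∀ n, s n ≤ ⨆ n, s n := fun n => le_iSup s n
      obtain ⟨q, q0, q1, q2⟩ := Lift2.seq S Bb s
        (fun n r hr => ih n (fun g hg => hD g (hle (n + 1) hg)) r hr) p hp
      obtain ⟨m1, m2, m3⟩ := Lift2.mono q2
      refine ⟨(⨆ n, (q n).1, ⋃ n, (q n).2.1, ⋃ n, (q n).2.2),
        ⟨Lift2.union_st (fun n => (q1 n).1) q2, ?_, ?_⟩, ?_, ?_, ?_, ?_⟩
      · show Subgroup.map S.π (⨆ n, (q n).1) = ⨆ n, s n
        rw [Subgroup.map_iSup]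
        exact iSup_congr fun n => (q1 n).2.1
      · have hsub : ∀ n, hull S.db (orb (s n) Bb) ⊆ hull S.db (orb (⨆ n, s n) Bb) :=
          fun n => Lift2.hullm S.db (Lift2.orbm (hle n) Bb)
        refine ⟨?_, ?_⟩
        · intro x hx
          obtain ⟨n, hn⟩ := Set.mem_iUnion.1 hx
          exact hsub n ((q1 n).2.2.1 x hn)
        · intro c hc
          obtain ⟨n, hn⟩ := Set.mem_iUnion.1 hc
          exact (Lift2.ctl_mono (hsub n) (q1 n).2.2).2 c hn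
      · rw [← q0]
        exact le_iSup (fun n => (q n).1) 0
      · rw [← q0]
        exact Set.subset_iUnion (fun n => (q n).2.1) 0
      · rw [← q0]
        exact Set.subset_iUnion (fun n => (q n).2.2) 0
      · intro B hB
        have hE : Ext S.d B ((fun n => (q n).1) 0) (⨆ n, (fun n => (q n).1) n) := by
          refine Ext.union (fun n => (q n).1) ?_
          intro n
          refine (q2 n).2.2.2 B ?_
          intro b hb
          refine m2 (Nat.zero_le n) ?_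
          show S.bs b ∈ (q 0).2.1
          rw [q0]
          exact hB b hb
        simp only [q0] at hE
        exact hE
  intro hD Γ F C hSt hmap hCtl
  obtain ⟨p', ⟨h1, h2, h3⟩, h4, h5, h6, h7⟩ := main hD (Γ, F, C) ⟨hSt, hmap, hCtl⟩
  exact ⟨p'.1, p'.2.1, p'.2.2, h1, h4, h5, h6, h2, h3, h7⟩

end Pool.Agent.FRK
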