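import Pool.Agent.FRK.Kit

/-! FRK, module LiftS: lifting one closing. -/

namespace Pool.Agent.FRK

open Pool.Agent.BURN Pool.Agent.BURR

variable [RP]

namespace LiftS

open Kit

theorem dd_pos : 1 ≤ dd := by have := num1'.2.2.2.2.2.1; omega

theorem rho_big : 1000000 * dd ≤ rho := num2

theorem nbh_mono {X : Type} {d : X → X → ℕ} {k k' : ℕ} (h : k ≤ k') {A : Set X} {x : X}
    (hx : x ∈ Nbh d k A) : x ∈ Nbh d k' A := by
  obtain ⟨a, ha, hd⟩ := hx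
  exact ⟨a, ha, hd.trans h⟩

/-- the image of the region is near Rb -/
theorem strN (E : Eng) (hStr : Stmt_Str) (S : KSys) {Γ : Subgroup S.G} {F C : Set S.Gm}
    {Rb : Set S.Xb} {k κ : ℕ} (hSt : St S Γ F C) (hqc : QC S.db k Rb) (hC : Ctl S Rb κ F C)
    (hk : k ≤ 2 * κ) {w : S.Gm} (hw : w ∈ Win S F C) :
    S.q w ∈ Nbh S.db (2 * κ + 3 * dd) Rb := by
  rcases hStr S Γ F C Rb k κ hSt hqc hC w hw with h | ⟨c, hc, hd⟩
  · exact nbh_mono (by omega) h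
  · obtain ⟨r, hr, hr'⟩ := hC.2 c hc
    refine ⟨r, hr, ?_⟩
    have h1 := (dgB E S).tri (S.q w) (S.q c) r
    have h2 := q_le E S w c
    omega

theorem nbh_smul (E : Eng) (S : KSys) {A : Set S.Xb} {g : S.Gb} (hA : ∀ x ∈ A, g • x ∈ A)
    {k : ℕ} {x : S.Xb} (hx : x ∈ Nbh S.db k A) : g • x ∈ Nbh S.db k A := by
  obtain ⟨a, ha, hd⟩ := hx
  refine ⟨g • a, hA a ha, ?_⟩
  rw [isoB E S]
  exact hd

theorem hull_inv (E : Eng) (S : KSys) {Γb : Subgroup S.Gb} {B : Set S.Xb} {g : S.Gb}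
    (hg : g ∈ Γb) {x : S.Xb} (hx : x ∈ hull S.db (orb Γb B)) :
    g • x ∈ hull S.db (orb Γb B) :=
  hull_smul (isoB E S) (fun _ hy => orb_smul hg hy) hx

/-- far from the images of the apices -/
theorem far_ap (E : Eng) (S : KSys) {n : ℕ} {z : S.Gm} {x : S.Xb} (g : S.Gb)
    (hz : S.q z = g • x) (hx : ∀ i, n ≤ S.db x (S.q (S.ap i))) (i : S.I) :
    n ≤ S.dg z (S.ap i) := by
  obtain ⟨g0, hg0⟩ := S.psurj g⁻¹
  have h1 := q_le E S z (S.ap i)
  have h2 := hx (g0 • i)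
  have h3 : S.db x (S.q (S.ap (g0 • i))) = S.db (S.q z) (S.q (S.ap i)) := by
    rw [← smul_ap S g0 i, q_smul, hg0, hz, ← isoB E S g⁻¹ (g • x) (S.q (S.ap i)), smul_smul,
      inv_mul_cancel, one_smul]
  omega

/-- displacement of points far from the apices -/
theorem sepK (E : Eng) (S : KSys) {Γ : Subgroup S.G} {Γb : Subgroup S.Gb}
    (hm : ∀ g ∈ Γ, S.π g ∈ Γb) (hD : Disp S.db Γb) {z : S.Gm}
    (hz : ∀ i, 1000 * dd ≤ S.dg z (S.ap i)) {g : S.G} (hg : g ∈ Γ) (hg1 : g ≠ 1) :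
    1900 * dd ≤ S.dg z (g • z) := by
  have hd := dd_pos
  by_cases hp : S.π g = 1
  · have hk : g ∈ S.K := (ker_K S g).1 hp
    have hn := num1'
    have h := (E.glcor S.G S.Gm S.dg (Set.range S.ap) S.R del1 (2 * f3 + 1) (2 * f3) (2 * rho + 2)
      (rf E S)).1 z (1000 * dd) g hk hg1
      (by rintro c ⟨i, rfl⟩; have := hz i; omega)
      (by rintro c ⟨i, rfl⟩; exact hz i)
    have h8 : 1000000 * bet1 del1 (2 * f3) ≤ dd := hn.2.2.2.2.2.2.1
    omega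
  · have h := hD (S.π g) (hm g hg) hp (S.q z)
    rw [← q_smul] at h
    have h1 := q_le E S z (g • z)
    have h2 := rho_big
    have h3 := num4
    have h4 : 1 * rho ≤ Lam * rho := Nat.mul_le_mul_right _ (by omega)
    omega

theorem sep2 (E : Eng) (S : KSys) {Γ : Subgroup S.G} {Γb Γb' : Subgroup S.Gb}
    {hb : S.Gb} (hm : ∀ g ∈ Γ, S.π g ∈ Γb) (hle : Γb ≤ Γb') (hbm : hb ∈ Γb') (hbn : hb ∉ Γb)
    (hD : Disp S.db Γb') {z z' : S.Gm} (hl : S.db (S.q z) (hb • S.q z') ≤ 4 * rho)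
    {g : S.G} (hg : g ∈ Γ) : 1900 * dd ≤ S.dg z (g • z') := by
  have hd := dd_pos
  have hne : hb * (S.π g)⁻¹ ≠ 1 := by
    intro h
    have : hb = S.π g := mul_inv_eq_one.1 h
    exact hbn (this ▸ hm g hg)
  have h1 := hD (hb * (S.π g)⁻¹) (Γb'.mul_mem hbm (Γb'.inv_mem (hle (hm g hg)))) hne (S.q z)
  have h2 := (dgB E S).tri (S.q z) (hb • S.q z') ((hb * (S.π g)⁻¹) • S.q z)
  have h3 : S.db (hb • S.q z') ((hb * (S.π g)⁻¹) • S.q z) = S.db (S.q (g • z')) (S.q z) := by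
    rw [mul_smul, isoB E S, ← isoB E S (S.π g) (S.q z'), smul_smul, mul_inv_cancel, one_smul,
      q_smul]
  have h4 := q_le E S (g • z') z
  rw [(dgG E S).symm (g • z') z] at h4
  have h5 := rho_big
  have h6 := num4
  have h7 : 5 * rho ≤ Lam * rho := Nat.mul_le_mul_right _ (by omega)
  omega

end LiftS

open Kit LiftS in
theorem liftS_proof (E : Eng) (hStr : Stmt_Str) (hWQC : Stmt_WQC) (hCho : Stmt_ChoT)
    (hRQC : Stmt_RQC) (hHair : Stmt_Hair) (hAB : Stmt_ABnd) (hJump : Stmt_Jump)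
    (_hExtB : Stmt_ExtB) :
    Stmt_LiftS := by
  intro S Γ F C Bb hb hBig hSt hCtl hGap hDisp
  have hdd := dd_pos
  have hrho := rho_big
  set Γb : Subgroup S.Gb := Γ.map S.π with hΓb
  set Ub : Set S.Xb := hull S.db (orb Γb Bb) with hUb
  have hmemΓ : ∀ g ∈ Γ, S.π g ∈ Γb := fun g hg => Subgroup.mem_map_of_mem _ hg
  have hUqc : QC S.db (2 * dd) Ub := (E.hull S.Xb S.db dd (dgB E S) (hypB E S)).1 _
  have hUinv : ∀ g ∈ Γb, ∀ x ∈ Ub, g • x ∈ Ub := fun g hg x hx => hull_inv E S hg hx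
  have hN : ∀ w ∈ Win S F C, S.q w ∈ Nbh S.db (53 * dd) Ub := by
    intro w hw
    have h := strN E hStr S hSt hUqc hCtl (by omega) hw
    exact nbh_mono (by omega) h
  have hFne : ∃ x0, x0 ∈ F := hSt.ne
  obtain ⟨x0, hx0⟩ := hFne
  have hx0W : x0 ∈ Win S F C := sub_win E S F C (Or.inl hx0)
  -- hb is not in the image of the group
  have hbn : hb ∉ Γb := by
    intro h
    obtain ⟨u, hu, -⟩ := hN x0 hx0W
    have h1 := hGap u hu (hb⁻¹ • u) (hUinv _ (Γb.inv_mem h) u hu)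
    rw [smul_smul, mul_inv_cancel, one_smul, ((dgB E S).eq_zero u u).2 rfl] at h1
    omega
  have hW : ∀ u ∈ S.q '' Win S F C, ∀ v ∈ S.q '' Win S F C,
      3 * rho + 40000 * dd ≤ S.db u (hb • v) := by
    rintro _ ⟨w, hw, rfl⟩ _ ⟨w', hw', rfl⟩
    obtain ⟨r, hr, hr1⟩ := hN w hw
    obtain ⟨r', hr', hr1'⟩ := hN w' hw'
    have h1 := hGap r hr r' hr'
    have h2 := (dgB E S).tri r (S.q w) (hb • r')
    have h3 := (dgB E S).tri (S.q w) (hb • S.q w') (hb • r')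
    have h4 := isoB E S hb (S.q w') r'
    rw [(dgB E S).symm r (S.q w)] at h2
    omega
  obtain ⟨a, ⟨a0, ha0, rfl⟩, b, ⟨b0, hb0, rfl⟩, σ, t, hσ, hmin, ht2, h3, h4, hfar⟩ :=
    hCho S (S.q '' Win S F C) hb (Set.Nonempty.image _ ⟨x0, hx0W⟩) hW
  set L : ℕ := S.db (S.q a0) (hb • S.q b0) with hL
  have hqa : σ 0 = S.q a0 := hσ.1
  have hqb : σ L = hb • S.q b0 := hσ.2.1
  have hWinv : ∀ g ∈ Γb, ∀ w ∈ S.q '' Win S F C, g • w ∈ S.q '' Win S F C := by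
    rintro g ⟨g0, hg0, rfl⟩ _ ⟨w0, hw0, rfl⟩
    exact ⟨g0 • w0, win_smul E S hSt.finv hSt.cinv hg0 hw0, q_smul S g0 w0⟩
  obtain ⟨R, hR⟩ : ∃ R : Set S.Xb, R = S.q '' Win S F C ∪
    {x | ∃ g ∈ Γb, ∃ i ≤ t, x = g • σ i ∨ x = g • hb⁻¹ • σ (L - i)} := ⟨_, rfl⟩
  obtain ⟨hRqc, hRinv, hRgap⟩ := hRQC S.Gb S.Xb S.db dd Γb (S.q '' Win S F C) R hb (S.q a0)
    (S.q b0) σ t (dgB E S) (hypB E S) (isoB E S) hdd (hWQC S Γ F C hSt) hWinv ⟨a0, ha0, rfl⟩
    ⟨b0, hb0, rfl⟩ hσ hmin ht2 hR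
  have hWR : ∀ w ∈ Win S F C, S.q w ∈ R := fun w hw => by rw [hR]; exact Or.inl ⟨w, hw, rfl⟩
  have hCtlR : Ctl S R (12 * dd) F C := by
    refine ⟨fun x hx => hWR x (sub_win E S F C (Or.inl hx)), fun c hc => ?_⟩
    refine ⟨S.q c, hWR c (sub_win E S F C (Or.inr hc)), ?_⟩
    rw [((dgB E S).eq_zero _ _).2 rfl]
    omega
  -- first hair
  obtain ⟨Γ1, F1, C1, hSt1, hΓ1, hF1, hC1, hmap1, hCtl1, ⟨z, hz, hqz⟩, hExt1⟩ :=
    hHair S Γ F C R (4 * dd) (12 * dd) t σ hBig hSt hRqc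
      (fun g hg r hr => hRinv _ (hmemΓ g hg) r hr) hCtlR (by omega) (by omega)
      ⟨a0, ha0, hqa.symm⟩
      (fun i hi => by
        have := hσ.2.2 i (i + 1) (by omega) (by omega)
        omega)
      (fun i hi => by
        rw [hR]
        exact Or.inr ⟨1, Γb.one_mem, i, hi, Or.inl (one_smul _ _).symm⟩)
  have hmem1 : ∀ g ∈ Γ1, S.π g ∈ Γb := fun g hg => by
    have : S.π g ∈ Γ1.map S.π := Subgroup.mem_map_of_mem _ hg
    rw [hmap1] at this
    exact this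
  -- second hair
  obtain ⟨Γ2, F2, C2, hSt2, hΓ2, hF2, hC2, hmap2, hCtl2, ⟨z', hz', hqz'⟩, hExt2⟩ :=
    hHair S Γ1 F1 C1 R (4 * dd) (12 * dd) t (fun i => hb⁻¹ • σ (L - i)) hBig hSt1 hRqc
      (fun g hg r hr => hRinv _ (hmem1 g hg) r hr) hCtl1 (by omega) (by omega)
      ⟨b0, win_mono S hF1 hC1 hb0, by
        show S.q b0 = hb⁻¹ • σ (L - 0)
        rw [Nat.sub_zero, hqb, smul_smul, inv_mul_cancel, one_smul]⟩
      (fun i hi => by
        show S.db (hb⁻¹ • σ (L - i)) (hb⁻¹ • σ (L - (i + 1))) ≤ 1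
        rw [isoB E S, (dgB E S).symm]
        have := hσ.2.2 (L - (i + 1)) (L - i) (by omega) (by omega)
        omega)
      (fun i hi => by
        rw [hR]
        exact Or.inr ⟨1, Γb.one_mem, i, hi, Or.inr (one_smul _ _).symm⟩)
  have hmap2' : Γ2.map S.π = Γb := by rw [hmap2, hmap1]
  have hmem2 : ∀ g ∈ Γ2, S.π g ∈ Γb := fun g hg => by
    have : S.π g ∈ Γ2.map S.π := Subgroup.mem_map_of_mem _ hg
    rw [hmap2'] at this
    exact this
  have hqz'' : hb • S.q z' = σ (L - t) := by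
    rw [hqz', smul_smul, mul_inv_cancel, one_smul]
  have hdist : S.db (S.q z) (hb • S.q z') = L - 2 * t := by
    rw [hqz'', hqz]
    have := hσ.2.2 t (L - t) (by omega) (by omega)
    omega
  have hbm : hb ∈ Γb ⊔ Subgroup.zpowers hb :=
    (le_sup_right : Subgroup.zpowers hb ≤ _) (Subgroup.mem_zpowers hb)
  have hN2 : ∀ w ∈ Win S F2 C2, S.q w ∈ Nbh S.db (27 * dd) R := by
    intro w hw
    have h := strN E hStr S hSt2 hRqc hCtl2 (by omega) hw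
    exact nbh_mono (by omega) h
  have hfz : ∀ i, 1000 * dd ≤ S.dg z (S.ap i) := fun i =>
    far_ap E S (1 : S.Gb) (x := σ t) (by rw [one_smul]; exact hqz) (fun i => (hfar i).1) i
  have hfz' : ∀ i, 1000 * dd ≤ S.dg z' (S.ap i) := fun i =>
    far_ap E S hb⁻¹ (x := σ (L - t)) hqz' (fun i => (hfar i).2) i
  have hJ : Jmp S Γ2 F2 C2 hb z z' (L - 2 * t) := by
    refine ⟨hSt2, hF2 hz, hz', hdist, ?_, hfz, hfz', ?_, ?_, h3⟩
    · intro w hw w' hw'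
      obtain ⟨r, hr, hr1⟩ := hN2 w hw
      obtain ⟨r', hr', hr1'⟩ := hN2 w' hw'
      have k1 := hRgap r hr r' hr'
      have k2 := (dgB E S).tri r (S.q w) (hb • r')
      have k3 := (dgB E S).tri (S.q w) (hb • S.q w') (hb • r')
      have k4 := isoB E S hb (S.q w') r'
      rw [(dgB E S).symm r (S.q w)] at k2
      omega
    · intro g hg hg1
      exact ⟨sepK E S (fun g hg => (le_sup_left : Γb ≤ Γb ⊔ Subgroup.zpowers hb) (hmem2 g hg))
          hDisp hfz hg hg1,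
        sepK E S (fun g hg => (le_sup_left : Γb ≤ Γb ⊔ Subgroup.zpowers hb) (hmem2 g hg))
          hDisp hfz' hg hg1⟩
    · intro g hg
      exact sep2 E S hmem2 le_sup_left hbm hbn hDisp (by rw [hdist]; exact h4) hg
  obtain ⟨Γ', C', hΓ', hmap', hSt', hC', hCc, hExt'⟩ :=
    hJump S Γ2 F2 C2 hb z z' (L - 2 * t) hBig hJ
  rw [hmap2'] at hmap'
  have hFF2 : F ⊆ F2 := fun x hx => hF2 (hF1 hx)
  have hΓΓ' : Γ ≤ Γ' := hΓ1.trans (hΓ2.trans hΓ')
  have hΓb'le : Γb ≤ Γ'.map S.π := by rw [hmap']; exact le_sup_left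
  have hbm' : hb ∈ Γ'.map S.π := by rw [hmap']; exact hbm
  set Vb : Set S.Xb := hull S.db (orb (Γ'.map S.π) Bb) with hVb
  have hVinv : ∀ g ∈ Γ'.map S.π, ∀ x ∈ Vb, g • x ∈ Vb := fun g hg x hx => hull_inv E S hg hx
  have hUV : Ub ⊆ Vb := hull_mono (orb_mono hΓb'le subset_rfl)
  -- apices near the region or near the connecting geodesic
  have key : ∀ (i : S.I) (r : S.Xb), S.db (S.q (S.ap i)) r ≤ 12 * dd →
      (r ∈ S.q '' Win S F C ∨ Btw S.db (S.q a0) r (hb • S.q b0)) →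
      S.q (S.ap i) ∈ Nbh S.db (25 * dd) Vb := by
    intro i r h1 h2
    exact hAB S Γ F C Bb hb (Γ'.map S.π) a0 b0 i r hSt hCtl hΓb'le hbm' ha0 hb0 h1 h2
  -- translated version
  have key2 : ∀ (i : S.I) (r : S.Xb) (g : S.Gb), g ∈ Γ'.map S.π →
      S.db (S.q (S.ap i)) (g • r) ≤ 12 * dd →
      (r ∈ S.q '' Win S F C ∨ Btw S.db (S.q a0) r (hb • S.q b0)) →
      S.q (S.ap i) ∈ Nbh S.db (25 * dd) Vb := by
    intro i r g hg h1 h2
    obtain ⟨g0, hg0⟩ := S.psurj g⁻¹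
    have e1 : S.q (S.ap (g0 • i)) = g⁻¹ • S.q (S.ap i) := by
      rw [← smul_ap S g0 i, q_smul, hg0]
    have h3 : S.db (S.q (S.ap (g0 • i))) r ≤ 12 * dd := by
      rw [e1, ← isoB E S g, smul_smul, mul_inv_cancel, one_smul]
      exact h1
    have h4 := key (g0 • i) r h3 h2
    have h5 := nbh_smul E S (hVinv g hg) h4
    rw [e1, smul_smul, mul_inv_cancel, one_smul] at h5
    exact h5
  have keyR : ∀ (i : S.I) (r : S.Xb), r ∈ R → S.db (S.q (S.ap i)) r ≤ 12 * dd →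
      S.q (S.ap i) ∈ Nbh S.db (25 * dd) Vb := by
    intro i r hr h1
    rw [hR] at hr
    rcases hr with hr | ⟨g, hg, j, hj, hr | hr⟩
    · exact key i r h1 (Or.inl hr)
    · refine key2 i (σ j) g (hΓb'le hg) (by rw [← hr]; exact h1) (Or.inr ?_)
      exact hσ.btw' (by omega)
    · refine key2 i (σ (L - j)) (g * hb⁻¹)
        ((Γ'.map S.π).mul_mem (hΓb'le hg) ((Γ'.map S.π).inv_mem hbm'))
        (by rw [mul_smul, ← hr]; exact h1) (Or.inr ?_)
      exact hσ.btw' (by omega)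
  -- apices of C2
  have keyC : ∀ i : S.I, S.ap i ∈ C2 → S.q (S.ap i) ∈ Nbh S.db (25 * dd) Vb := by
    intro i hi
    obtain ⟨r, hr, hr1⟩ := hCtl2.2 _ hi
    exact keyR i r hr hr1
  refine ⟨Γ', orb Γ' F, C', ⟨?_, ?_, hSt'.cinv, hSt'.sub, hSt'.rot, ?_⟩, hΓΓ', sub_orb _ _,
    fun c hc => hC' (hC2 (hC1 hc)), hmap', ⟨?_, ?_⟩, ?_⟩
  · exact ⟨x0, sub_orb _ _ hx0⟩
  · intro g hg x hx
    exact orb_smul hg hx
  · intro i w hw h
    exact hSt'.full i w (win_mono S (orb_mono le_rfl hFF2) subset_rfl hw) h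
  · rintro x ⟨g, hg, f, hf, rfl⟩
    rw [q_smul]
    exact hVinv _ (Subgroup.mem_map_of_mem _ hg) _ (hUV (hCtl.1 f hf))
  · intro c hc
    obtain ⟨g, hg, hcases⟩ := hCc c hc
    obtain ⟨i, rfl⟩ := hSt'.sub hc
    have e1 : g⁻¹ • S.ap i = S.ap (g⁻¹ • i) := smul_ap S g⁻¹ i
    have hmain : S.q (S.ap (g⁻¹ • i)) ∈ Nbh S.db (25 * dd) Vb := by
      rw [e1] at hcases
      rcases hcases with h | ⟨w, hw, hd⟩ | ⟨s, hs, hd⟩
      · exact keyC _ h
      · rcases hStr S Γ2 F2 C2 R (4 * dd) (12 * dd) hSt2 hRqc hCtl2 w hw with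
          ⟨r, hr, hr1⟩ | ⟨c0, hc0, hd0⟩
        · refine keyR _ r hr ?_
          have k1 := (dgB E S).tri (S.q (S.ap (g⁻¹ • i))) (S.q w) r
          have k2 := q_le E S (S.ap (g⁻¹ • i)) w
          omega
        · obtain ⟨j, rfl⟩ := hSt2.sub hc0
          have k1 := (dgG E S).tri (S.ap (g⁻¹ • i)) w (S.ap j)
          have k2 : g⁻¹ • i = j := ap_eq E S (by omega)
          rw [k2]
          exact keyC j hc0
      · refine key _ s (by omega) (Or.inr ?_)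
        rw [hqz, hqz''] at hs
        have k1 := (dgB E S).tri (S.q a0) (σ t) s
        have k2 := (dgB E S).tri s (σ (L - t)) (hb • S.q b0)
        have k3 := hσ.dist_left (i := t) (by omega)
        have k4 := hσ.dist_right (i := L - t) (by omega)
        have k5 := (dgB E S).tri (S.q a0) s (hb • S.q b0)
        have k6 := hσ.2.2 t (L - t) (by omega) (by omega)
        unfold Pool.Agent.BURN.Btw at hs ⊢
        omega
    have h2 := nbh_smul E S (hVinv _ (Subgroup.mem_map_of_mem _ hg)) hmain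
    rw [← e1, q_smul, map_inv, smul_smul, mul_inv_cancel, one_smul] at h2
    exact h2
  · intro B hB
    refine Ext.trans _ _ _ (hExt1 B hB) (Ext.trans _ _ _ (hExt2 B fun b hb => hF1 (hB b hb)) ?_)
    exact hExt' B fun b hb => hFF2 (hB b hb)

end Pool.Agent.FRK
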