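import Pool.Agent.FRK.Kit

/-! FRK, module LimF: the limit argument (pure group theory). -/

namespace Pool.Agent.FRK

namespace LimF

/-- finitely generated free subgroups which are free factors of all late stages -/
def Good {G : Type} [Group G] (Mk : ℕ → Subgroup G) (E : Finset G) : Prop :=
  FF ⊥ (Subgroup.closure (E : Set G)) ∧ ∃ k0, ∀ k ≥ k0, FF (Subgroup.closure (E : Set G)) (Mk k)

theorem step {G : Type} [Group G] (hB : Stmt_FFB) (hF : Stmt_FGF) (hS : Stmt_Sch)
    (M : Subgroup G) (Mk : ℕ → Subgroup G) (hM : M = ⨆ k, Mk k)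
    (h : ∀ E : Finset G, (∀ x ∈ E, x ∈ M) → ∃ P : Subgroup G, (∀ x ∈ E, x ∈ P) ∧ FF ⊥ P ∧
      ∃ k0, ∀ k ≥ k0, FF P (Mk k)) (E : Finset G) (hE : Good Mk E) (g : G) :
    ∃ E' : Finset G, Good Mk E' ∧
      FF (Subgroup.closure (E : Set G)) (Subgroup.closure (E' : Set G)) ∧
      (g ∈ M → g ∈ Subgroup.closure (E' : Set G)) := by
  classical
  obtain ⟨hE1, k1, hk1⟩ := hE
  have hEM : ∀ x ∈ E, x ∈ M := by
    intro x hx
    rw [hM]
    exact (le_iSup Mk k1) ((hk1 k1 le_rfl).1 (Subgroup.subset_closure (by exact_mod_cast hx)))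
  let F : Finset G := if g ∈ M then insert g E else E
  have hF1 : ∀ x ∈ F, x ∈ M := by
    intro x hx
    by_cases hg : g ∈ M
    · simp only [F, hg, if_true, Finset.mem_insert] at hx
      rcases hx with rfl | hx
      · exact hg
      · exact hEM x hx
    · simp only [F, hg, if_false] at hx
      exact hEM x hx
  obtain ⟨P, hP1, hP2, k2, hk2⟩ := h F hF1
  obtain ⟨A, E', hA, hA1, hA2, hA3⟩ := hF G P F hP2 hP1
  subst hA
  have hEF : ∀ x ∈ E, x ∈ F := by
    intro x hx
    by_cases hg : g ∈ M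
    · simp only [F, hg, if_true, Finset.mem_insert]
      exact Or.inr hx
    · simp only [F, hg, if_false]
      exact hx
  have hle : Subgroup.closure (E : Set G) ≤ Subgroup.closure (E' : Set G) := by
    rw [Subgroup.closure_le]
    intro x hx
    exact hA1 x (hEF x (by exact_mod_cast hx))
  have hgood : ∀ k ≥ k2, FF (Subgroup.closure (E' : Set G)) (Mk k) := fun k hk =>
    hB.2.1 G _ _ _ hA3 (hk2 k hk)
  refine ⟨E', ⟨hA2, k2, hgood⟩, ?_, ?_⟩
  · exact hS G _ _ (Mk (max k1 k2)) hE1 (hk1 _ (le_max_left _ _)) hle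
      (hgood _ (le_max_right _ _)).1
  · intro hg
    refine hA1 g ?_
    simp only [F, hg, if_true, Finset.mem_insert, true_or]

end LimF

theorem LimF_proof (hB : Stmt_FFB) (hF : Stmt_FGF) (hS : Stmt_Sch) : Stmt_LimF := by
  intro G _ _ M Mk _ hM h
  classical
  obtain ⟨f, hf⟩ := exists_surjective_nat G
  have h0 : LimF.Good Mk ∅ := by
    have e : Subgroup.closure ((∅ : Finset G) : Set G) = ⊥ := by simp
    obtain ⟨P, -, hP2, k2, hk2⟩ := h ∅ (by simp)
    refine ⟨?_, k2, fun k hk => ?_⟩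
    · rw [e]; exact hB.1 G ⊥
    · rw [e]; exact hB.2.1 G _ _ _ hP2 (hk2 k hk)
  have hstep := LimF.step hB hF hS M Mk hM h
  choose! nx hnx1 hnx2 hnx3 using hstep
  obtain ⟨s, s0, ss⟩ : ∃ s : ℕ → Finset G, s 0 = ∅ ∧ ∀ n, s (n + 1) = nx (s n) (f n) :=
    ⟨fun n => Nat.rec ∅ (fun n E => nx E (f n)) n, rfl, fun n => rfl⟩
  have hs : ∀ n, LimF.Good Mk (s n) := by
    intro n
    induction n with
    | zero => rw [s0]; exact h0
    | succ n ih => rw [ss]; exact hnx1 _ ih _
  have hFF : ∀ n : ℕ, FF (Subgroup.closure (s n : Set G)) (Subgroup.closure (s (n + 1) : Set G)) := by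
    intro n
    rw [ss]
    exact hnx2 _ (hs n) _
  have hU := hB.2.2.1 G (fun n : ℕ => Subgroup.closure (s n : Set G)) hFF
  have e0 : Subgroup.closure (s 0 : Set G) = ⊥ := by rw [s0]; simp
  have eM : (⨆ n : ℕ, Subgroup.closure (s n : Set G)) = M := by
    apply le_antisymm
    · refine iSup_le fun n => ?_
      obtain ⟨-, k, hk⟩ := hs n
      rw [hM]
      exact (hk k le_rfl).1.trans (le_iSup Mk k)
    · intro g hg
      obtain ⟨n, rfl⟩ := hf g
      refine (le_iSup (fun n : ℕ => Subgroup.closure (s n : Set G)) (n + 1)) ?_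
      change f n ∈ Subgroup.closure (s (n + 1) : Set G)
      rw [ss]
      exact hnx3 _ (hs n) _ hg
  have hU' : FF ⊥ M := by
    have h1 : FF (Subgroup.closure (s 0 : Set G)) (⨆ n : ℕ, Subgroup.closure (s n : Set G)) := hU
    rw [e0, eM] at h1
    exact h1
  exact hB.2.2.2 G M hU'

end Pool.Agent.FRK
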