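import Pool.Agent.FRK.Kit

/-! FRK, module TLine: orbits of an element are coarsely dense in the points moved little. -/

namespace Pool.Agent.FRK.TLine

open Pool.Agent.BURN Pool.Agent.BURR Pool.Agent.FRK

/-- two points near a geodesic at almost the same distance of its origin are near -/
theorem near_line {X : Type} {d : X → X → ℕ} {δ : ℕ} (h : IsDG d) (hy : Hyp d δ)
    {z0 z1 x x' : X} {c S : ℕ} (hx : d z0 x + d x z1 ≤ d z0 z1 + c)
    (hx' : d z0 x' + d x' z1 ≤ d z0 z1 + c) (h1 : d z0 x ≤ d z0 x' + S)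
    (h2 : d z0 x' ≤ d z0 x + S) : d x x' ≤ S + c + δ := by
  have h3 := hy x x' z0 z1
  have e1 := h.symm x z0
  have e2 := h.symm x' z0
  rcases max_le_iff.1 (le_refl (max (d x z0 + d x' z1) (d x z1 + d x' z0))) with ⟨h4, h5⟩
  rcases max_choice (d x z0 + d x' z1) (d x z1 + d x' z0) with h6 | h6 <;> rw [h6] at h3 <;> omega

/-- points between two points near a geodesic are near it -/
theorem btw_line {X : Type} {d : X → X → ℕ} {δ : ℕ} (h : IsDG d) (hy : Hyp d δ)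
    {z0 z1 x x' p : X} {c : ℕ} (hx : d z0 x + d x z1 ≤ d z0 z1 + c)
    (hx' : d z0 x' + d x' z1 ≤ d z0 z1 + c) (hp : Btw d x p x') :
    d z0 p + d p z1 ≤ d z0 z1 + (2 * c + δ) := by
  unfold Pool.Agent.BURN.Btw at hp
  rcases le_total (d z0 x) (d z0 x') with hl | hl
  · have h1 := near_line h hy hx hx' (S := d z0 x' - d z0 x) (by omega) (by omega)
    have h2 := h.tri z0 x p
    have h3 := h.tri p x' z1
    omega
  · have h1 := near_line h hy hx hx' (S := d z0 x - d z0 x') (by omega) (by omega)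
    have h2 := h.tri z0 x' p
    have h3 := h.tri p x z1
    have h4 := h.symm x' p
    have h5 := h.symm p x
    omega

/-- moving a point changes the defect by at most twice the distance -/
theorem move_line {X : Type} {d : X → X → ℕ} (h : IsDG d)
    {z0 z1 x x' : X} {c e : ℕ} (hx : d z0 x + d x z1 ≤ d z0 z1 + c) (he : d x x' ≤ e) :
    d z0 x' + d x' z1 ≤ d z0 z1 + (c + 2 * e) := by
  have h1 := h.tri z0 x x'
  have h2 := h.tri x' x z1
  have h3 := h.symm x' x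
  omega

/-- discrete intermediate values on ℤ -/
theorem ivt (f : ℤ → ℕ) (t s K : ℕ) (hs : ∀ k : ℤ, f (k + 1) ≤ f k + s) (h0 : f (-K) ≤ t)
    (h1 : t ≤ f K) : ∃ k : ℤ, -(K : ℤ) ≤ k ∧ k ≤ K ∧ f k ≤ t + s ∧ t ≤ f k + s := by
  classical
  by_contra hcon
  push Not at hcon
  have key : ∀ n : ℕ, n ≤ 2 * K → f (-(K : ℤ) + n) ≤ t := by
    intro n
    induction n with
    | zero => intro _; simpa using h0
    | succ n ih =>
      intro hn
      have h2 := ih (by omega)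
      have h3 := hs (-(K : ℤ) + n)
      have h4 : (-(K : ℤ) + n + 1) = -(K : ℤ) + ((n + 1 : ℕ) : ℤ) := by push_cast; ring
      rw [h4] at h3
      by_contra h5
      push Not at h5
      have h6 := hcon (-(K : ℤ) + ((n + 1 : ℕ) : ℤ)) (by push_cast; omega) (by push_cast; omega)
        (by omega)
      omega
  have h2 := key (2 * K) le_rfl
  have h4 : (-(K : ℤ) + ((2 * K : ℕ) : ℤ)) = K := by push_cast; ring
  rw [h4] at h2
  have h3 := hcon K (by omega) le_rfl (by omega)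
  omega

end Pool.Agent.FRK.TLine

namespace Pool.Agent.FRK

open Pool.Agent.BURN Pool.Agent.BURR TLine

theorem tLine_proof (E : Eng0) (hTS : Stmt_TStab) (hTN : Stmt_TNear) : Stmt_TLine := by
  intro H X _ _ d δ Bf hT
  obtain ⟨R1, hR1, hst⟩ := hTS H X d δ Bf hT
  obtain ⟨F0, hF0⟩ := hTN H X d δ Bf hT
  have h := hT.dg
  have hy := hT.hyp
  have hiso := hT.iso
  have hne := hT.ne
  refine ⟨F0 + 80 * δ + 4, ?_⟩
  intro w hw s y y' hys hys'
  have hlox := (hst w hw).2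
  -- the power v
  obtain ⟨J, hJ⟩ : ∃ J, J = (16 * δ + 2) * R1 := ⟨_, rfl⟩
  have hJ0 : 0 < J := by rw [hJ]; positivity
  obtain ⟨v, hv⟩ : ∃ v, v = w ^ J := ⟨_, rfl⟩
  have hv1 : v ≠ 1 := by rw [hv]; exact hT.tf w hw J hJ0
  have hvd : ∀ x : X, 16 * δ + 2 ≤ d x (v • x) := by
    intro x
    have h1 := hlox x J
    rw [← hv, hJ, mul_comm] at h1
    exact Nat.le_of_mul_le_mul_left h1 (by omega)
  -- a point moved as little as possible
  obtain ⟨o, ho⟩ : ∃ o : X, ∀ z, d o (v • o) ≤ d z (v • z) := by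
    have h1 : ∃ n, ∃ z, d z (v • z) = n := ⟨_, hne.some, rfl⟩
    classical
    obtain ⟨o, ho⟩ := Nat.find_spec h1
    refine ⟨o, fun z => ?_⟩
    rw [ho]
    exact Nat.find_min' h1 ⟨z, rfl⟩
  obtain ⟨hA1, -, hA3⟩ := E.axis H X d δ (d o (v • o)) h hy hiso (hvd o) v o rfl ho
  -- points w^e o are near [v^j o, v^(j+1) o]
  have hpt : ∀ e : ℤ, ∃ j : ℤ, ∃ q, Btw d (v ^ j • o) q (v ^ (j + 1) • o) ∧
      d q (w ^ e • o) ≤ 15 * δ + 1 := by
    intro e
    obtain ⟨q, ⟨j, hj⟩, hq⟩ := hA3 (w ^ e • o)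
    refine ⟨j, q, hj, ?_⟩
    have h1 : v • (w ^ e • o) = w ^ e • (v • o) := by
      rw [← mul_smul, ← mul_smul, hv]
      congr 1
      exact ((Commute.refl w).pow_left J |>.zpow_right e).eq
    rw [h1, hiso] at hq
    have h2 := h.symm q (w ^ e • o)
    omega
  choose jj hjj using hpt
  -- the points of the hulls
  obtain ⟨p, ⟨a1, ⟨i1, hi1⟩, a2, ⟨i2, hi2⟩, hp⟩, hpd⟩ := hF0 w hw y o
  obtain ⟨p', ⟨a3, ⟨i3, hi3⟩, a4, ⟨i4, hi4⟩, hp'⟩, hpd'⟩ := hF0 w hw y' o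
  subst hi1 hi2 hi3 hi4
  -- the range of exponents
  obtain ⟨K', hK'⟩ : ∃ K', K' = R1 * (4 * δ + d o y' + d o y) := ⟨_, rfl⟩
  have hδ := hT.one_le
  have hK'1 : 0 < K' := by rw [hK']; positivity
  obtain ⟨K, hK⟩ : ∃ K, K = J * K' := ⟨_, rfl⟩
  obtain ⟨I, hI⟩ : ∃ I : ℤ, I = (i1.natAbs + i2.natAbs + i3.natAbs + i4.natAbs + K : ℕ) := ⟨_, rfl⟩
  obtain ⟨M, hM1, hM2⟩ : ∃ M : ℕ, K' < M ∧ ∀ e : ℤ, -I ≤ e → e ≤ I →
      -(M : ℤ) < jj e ∧ jj e + 1 < M := by
    obtain ⟨Sg, hSg⟩ : ∃ Sg, Sg = ∑ e ∈ Finset.Icc (-I) I, (jj e).natAbs := ⟨_, rfl⟩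
    refine ⟨K' + 2 + Sg, by omega, ?_⟩
    intro e he1 he2
    have h1 : (jj e).natAbs ≤ Sg := by
      rw [hSg]
      exact Finset.single_le_sum (f := fun e => (jj e).natAbs) (fun _ _ => Nat.zero_le _)
        (Finset.mem_Icc.2 ⟨he1, he2⟩)
    clear hSg
    constructor <;> omega
  obtain ⟨z0, hz0⟩ : ∃ z0, z0 = v ^ (-(M : ℤ)) • o := ⟨_, rfl⟩
  obtain ⟨z1, hz1⟩ : ∃ z1, z1 = v ^ (M : ℤ) • o := ⟨_, rfl⟩
  have hvj : ∀ j : ℤ, -(M : ℤ) < j → j < M →
      d z0 (v ^ j • o) + d (v ^ j • o) z1 ≤ d z0 z1 + 4 * δ := by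
    intro j h1 h2
    have h3 := hA1 (-(M : ℤ)) M j h1 h2
    rw [← hz0, ← hz1] at h3
    unfold gp at h3
    have h4 := h.symm z1 (v ^ j • o)
    omega
  have hwe : ∀ e : ℤ, -I ≤ e → e ≤ I →
      d z0 (w ^ e • o) + d (w ^ e • o) z1 ≤ d z0 z1 + (39 * δ + 2) := by
    intro e he1 he2
    obtain ⟨q, hq1, hq2⟩ := hjj e
    obtain ⟨h1, h2⟩ := hM2 e he1 he2
    have h3 := btw_line h hy (hvj (jj e) h1 (by omega)) (hvj (jj e + 1) (by omega) h2) hq1
    have h4 := move_line h h3 hq2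
    omega
  -- the point y
  have hline_y : d z0 y + d y z1 ≤ d z0 z1 + (79 * δ + 4 + (s + F0)) := by
    have h1 := btw_line h hy (hwe i1 (by omega) (by omega)) (hwe i2 (by omega) (by omega)) hp
    have h2 := move_line (e := d p y) h h1 le_rfl
    have h3 := h.symm p y
    omega
  have hline_y' : ∀ k : ℤ, -(K : ℤ) ≤ k → k ≤ K →
      d z0 (w ^ k • y') + d (w ^ k • y') z1 ≤ d z0 z1 + (79 * δ + 4 + (s + F0)) := by
    intro k hk1 hk2
    have hb : Btw d (w ^ (k + i3) • o) (w ^ k • p') (w ^ (k + i4) • o) := by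
      unfold Pool.Agent.BURN.Btw at hp' ⊢
      rw [zpow_add, zpow_add, mul_smul, mul_smul, hiso, hiso, hiso]
      exact hp'
    have h1 := btw_line h hy (hwe (k + i3) (by omega) (by omega))
      (hwe (k + i4) (by omega) (by omega)) hb
    have h2 := move_line (e := d (w ^ k • p') (w ^ k • y')) h h1 le_rfl
    rw [hiso] at h2
    have h3 := h.symm p' y'
    omega
  -- far powers
  have hfar : 4 * δ + d o y' + d o y ≤ d o (v ^ K' • o) := by
    have h1 := (hst v hv1).2 o K'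
    rw [hK'] at h1
    rw [hK']
    exact Nat.le_of_mul_le_mul_left h1 (by omega)
  have hvK : (v ^ (K' : ℤ)) = w ^ (K : ℤ) := by
    rw [hv, hK, zpow_natCast, zpow_natCast, ← pow_mul]
  have hvK' : (v ^ (-(K' : ℤ))) = w ^ (-(K : ℤ)) := by
    rw [zpow_neg, zpow_neg, hvK]
  have hup : d z0 y ≤ d z0 (w ^ (K : ℤ) • y') := by
    have h1 := hA1 (-(M : ℤ)) K' 0 (by omega) (by omega)
    rw [← hz0, zpow_zero, one_smul, zpow_natCast] at h1
    unfold gp at h1
    have h2 := h.symm (v ^ K' • o) o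
    have h3 : d (v ^ K' • o) (w ^ (K : ℤ) • y') = d o y' := by
      rw [← hvK, zpow_natCast, hiso]
    have h4 := h.tri z0 (w ^ (K : ℤ) • y') (v ^ K' • o)
    have h5 := h.symm (v ^ K' • o) (w ^ (K : ℤ) • y')
    have h6 := h.tri z0 o y
    omega
  have hlow : d z0 (w ^ (-(K : ℤ)) • y') ≤ d z0 y := by
    have h1 := hA1 (-(M : ℤ)) 0 (-(K' : ℤ)) (by omega) (by omega)
    rw [← hz0, zpow_zero, one_smul] at h1
    unfold gp at h1
    have h2 : d o (v ^ (-(K' : ℤ)) • o) = d o (v ^ K' • o) := by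
      have := hiso (v ^ (K' : ℤ)) o (v ^ (-(K' : ℤ)) • o)
      rw [← mul_smul, ← zpow_add, add_neg_cancel, zpow_zero, one_smul, zpow_natCast] at this
      rw [← this, h.symm]
    have h3 : d (v ^ (-(K' : ℤ)) • o) (w ^ (-(K : ℤ)) • y') = d o y' := by
      rw [← hvK', hiso]
    have h4 := h.tri z0 (v ^ (-(K' : ℤ)) • o) (w ^ (-(K : ℤ)) • y')
    have h6 := h.tri z0 y o
    have h7 := h.symm y o
    omega
  -- intermediate value
  obtain ⟨k, hk1, hk2, hk3, hk4⟩ := ivt (fun k => d z0 (w ^ k • y')) (d z0 y) s K (by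
    intro k
    have h1 := h.tri z0 (w ^ k • y') (w ^ (k + 1) • y')
    have h2 : d (w ^ k • y') (w ^ (k + 1) • y') = d y' (w • y') := by
      rw [zpow_add, zpow_one, mul_smul, hiso]
    show d z0 (w ^ (k + 1) • y') ≤ d z0 (w ^ k • y') + s
    omega) hlow hup
  refine ⟨k, ?_⟩
  have h1 := near_line h hy hline_y (hline_y' k hk1 hk2) (S := s) hk4 hk3
  omega

end Pool.Agent.FRK
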