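import Pool.Agent.FRK.Kit
import Pool.Agent.FRK.TLine
import Pool.Agent.BURR.Overlap
import Pool.Agent.BURN.W97Mid

/-! FRK, module LineG: strong stability implies thin quasi-lines. -/

namespace Pool.Agent.FRK.LineG

open Pool.Agent.BURN Pool.Agent.BURR Pool.Agent.FRK Pool.Agent.FRK.TLine

/-- the orbit of y' under w is coarsely dense along the axis of v = w ^ J -/
theorem coarse (hAxis : Stmt_Axis) {H X : Type} [Group H] [MulAction H X] {d : X → X → ℕ}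
    {δ : ℕ} (h : IsDG d) (hy : Hyp d δ) (hiso : IsIso H d) {w v : H} {J : ℕ} (hv : v = w ^ J)
    {o : X} (hvd : 16 * δ + 2 ≤ d o (v • o)) (ho : ∀ z, d o (v • o) ≤ d z (v • z))
    (hfar : ∀ B, ∃ K' : ℕ, 0 < K' ∧ B ≤ d o (v ^ K' • o)) {y y' : X} {s D : ℕ}
    (hs' : d y' (w • y') ≤ s) (hyv : d y (v • y) ≤ D) (hyv' : d y' (v • y') ≤ D) :
    ∃ k : ℤ, d y (w ^ k • y') ≤ s + (39 * δ + 2 + D) + δ := by
  obtain ⟨hA1, -, hA3⟩ := hAxis H X d δ (d o (v • o)) h hy hiso hvd v o rfl ho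
  have hcomm : ∀ (k : ℤ) (z : X), v • (w ^ k • z) = w ^ k • (v • z) := by
    intro k z
    rw [← mul_smul, ← mul_smul, hv]
    congr 1
    exact ((Commute.refl w).pow_left J |>.zpow_right k).eq
  have hpt : ∀ k : ℤ, ∃ j : ℤ, ∃ q, Btw d (v ^ j • o) q (v ^ (j + 1) • o) ∧
      2 * d q (w ^ k • y') ≤ D + 30 * δ + 2 := by
    intro k
    obtain ⟨q, ⟨j, hj⟩, hq⟩ := hA3 (w ^ k • y')
    refine ⟨j, q, hj, ?_⟩
    rw [hcomm, hiso] at hq
    have h2 := h.symm q (w ^ k • y')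
    omega
  choose jj hjj using hpt
  obtain ⟨q0, ⟨j0, hj0⟩, hq0⟩ := hA3 y
  obtain ⟨K', hK'1, hfar'⟩ := hfar (4 * δ + d o y' + d o y)
  obtain ⟨K, hK⟩ : ∃ K, K = J * K' := ⟨_, rfl⟩
  obtain ⟨M, hM1, hM0, hM2⟩ : ∃ M : ℕ, K' < M ∧ (-(M : ℤ) < j0 ∧ j0 + 1 < M) ∧
      ∀ e : ℤ, -(K : ℤ) ≤ e → e ≤ K → -(M : ℤ) < jj e ∧ jj e + 1 < M := by
    obtain ⟨Sg, hSg⟩ : ∃ Sg, Sg = ∑ e ∈ Finset.Icc (-(K : ℤ)) K, (jj e).natAbs := ⟨_, rfl⟩
    refine ⟨K' + 2 + j0.natAbs + Sg, by omega, by omega, ?_⟩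
    intro e he1 he2
    have h1 : (jj e).natAbs ≤ Sg := by
      rw [hSg]
      exact Finset.single_le_sum (f := fun e => (jj e).natAbs) (fun _ _ => Nat.zero_le _)
        (Finset.mem_Icc.2 ⟨he1, he2⟩)
    clear hSg
    constructor <;> omega
  obtain ⟨z0, hz0⟩ : ∃ z0, z0 = v ^ (-(M : ℤ)) • o := ⟨_, rfl⟩
  obtain ⟨z1, hz1⟩ : ∃ z1, z1 = v ^ (M : ℤ) • o := ⟨_, rfl⟩
  have hvj : ∀ j : ℤ, -(M : ℤ) < j → j < M →
      d z0 (v ^ j • o) + d (v ^ j • o) z1 ≤ d z0 z1 + 4 * δ := by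
    intro j h1 h2
    have h3 := hA1 (-(M : ℤ)) M j h1 h2
    rw [← hz0, ← hz1] at h3
    unfold gp at h3
    have h4 := h.symm z1 (v ^ j • o)
    omega
  have hline_y : d z0 y + d y z1 ≤ d z0 z1 + (39 * δ + 2 + D) := by
    have h3 := btw_line h hy (hvj j0 hM0.1 (by omega)) (hvj (j0 + 1) (by omega) hM0.2) hj0
    have h4 := move_line (e := d q0 y) h h3 le_rfl
    have h5 := h.symm q0 y
    omega
  have hline_y' : ∀ k : ℤ, -(K : ℤ) ≤ k → k ≤ K →
      d z0 (w ^ k • y') + d (w ^ k • y') z1 ≤ d z0 z1 + (39 * δ + 2 + D) := by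
    intro k hk1 hk2
    obtain ⟨q, hq1, hq2⟩ := hjj k
    obtain ⟨h1, h2⟩ := hM2 k hk1 hk2
    have h3 := btw_line h hy (hvj (jj k) h1 (by omega)) (hvj (jj k + 1) (by omega) h2) hq1
    have h4 := move_line (e := d q (w ^ k • y')) h h3 le_rfl
    omega
  have hvK : (v ^ (K' : ℤ)) = w ^ (K : ℤ) := by
    rw [hv, hK, zpow_natCast, zpow_natCast, ← pow_mul]
  have hvK' : (v ^ (-(K' : ℤ))) = w ^ (-(K : ℤ)) := by
    rw [zpow_neg, zpow_neg, hvK]
  have hup : d z0 y ≤ d z0 (w ^ (K : ℤ) • y') := by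
    have h1 := hA1 (-(M : ℤ)) K' 0 (by omega) (by omega)
    rw [← hz0, zpow_zero, one_smul, zpow_natCast] at h1
    unfold gp at h1
    have h2 := h.symm (v ^ K' • o) o
    have h3 : d (v ^ K' • o) (w ^ (K : ℤ) • y') = d o y' := by
      rw [← hvK, zpow_natCast, hiso]
    have h4 := h.tri z0 (w ^ (K : ℤ) • y') (v ^ K' • o)
    have h5 := h.symm (v ^ K' • o) (w ^ (K : ℤ) • y')
    have h6 := h.tri z0 o y
    omega
  have hlow : d z0 (w ^ (-(K : ℤ)) • y') ≤ d z0 y := by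
    have h1 := hA1 (-(M : ℤ)) 0 (-(K' : ℤ)) (by omega) (by omega)
    rw [← hz0, zpow_zero, one_smul] at h1
    unfold gp at h1
    have h2 : d o (v ^ (-(K' : ℤ)) • o) = d o (v ^ K' • o) := by
      have := hiso (v ^ (K' : ℤ)) o (v ^ (-(K' : ℤ)) • o)
      rw [← mul_smul, ← zpow_add, add_neg_cancel, zpow_zero, one_smul, zpow_natCast] at this
      rw [← this, h.symm]
    have h3 : d (v ^ (-(K' : ℤ)) • o) (w ^ (-(K : ℤ)) • y') = d o y' := by
      rw [← hvK', hiso]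
    have h4 := h.tri z0 (v ^ (-(K' : ℤ)) • o) (w ^ (-(K : ℤ)) • y')
    have h6 := h.tri z0 y o
    have h7 := h.symm y o
    omega
  obtain ⟨k, hk1, hk2, hk3, hk4⟩ := ivt (fun k => d z0 (w ^ k • y')) (d z0 y) s K (by
    intro k
    have h1 := h.tri z0 (w ^ k • y') (w ^ (k + 1) • y')
    have h2 : d (w ^ k • y') (w ^ (k + 1) • y') = d y' (w • y') := by
      rw [zpow_add, zpow_one, mul_smul, hiso]
    show d z0 (w ^ (k + 1) • y') ≤ d z0 (w ^ k • y') + s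
    omega) hlow hup
  exact ⟨k, near_line h hy hline_y (hline_y' k hk1 hk2) (S := s) hk4 hk3⟩

/-- a power moves a point by at most the multiple -/
theorem pow_disp {H X : Type} [Group H] [MulAction H X] {d : X → X → ℕ} (h : IsDG d)
    (hiso : IsIso H d) (w : H) (x : X) (J : ℕ) : d x (w ^ J • x) ≤ J * d x (w • x) := by
  induction J with
  | zero => rw [pow_zero, one_smul, (h.eq_zero x x).2 rfl]; omega
  | succ n ih =>
    have h1 := h.tri x (w ^ n • x) (w ^ (n + 1) • x)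
    rw [pow_succ, mul_smul, hiso] at h1
    rw [pow_succ, mul_smul, Nat.add_mul, one_mul]
    omega

theorem num (D R : ℕ) (hD : 1 ≤ D) (hR : 1 ≤ R) :
    21 * D + (39 * D + 2 + (16 * D + 2) * R * (21 * D)) + D ≤ R * (1000000 * D ^ 2) := by
  obtain ⟨D, rfl⟩ := Nat.exists_eq_add_of_le hD
  obtain ⟨R, rfl⟩ := Nat.exists_eq_add_of_le hR
  ring_nf
  nlinarith [Nat.zero_le (D * R), Nat.zero_le (D ^ 2 * R), Nat.zero_le D, Nat.zero_le R,
    Nat.zero_le (D ^ 2)]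

end Pool.Agent.FRK.LineG

namespace Pool.Agent.FRK

open Pool.Agent.BURN Pool.Agent.BURR LineG

variable [RP]

theorem lineG_proof (E : Eng) : Stmt_LineG := by
  intro G X _ _ d N hG hst w hw hx0 y hy y' hy'
  have h := hG.dg
  have hyp := hG.hyp
  have hiso := hG.iso
  have hne := hG.nonempty
  obtain ⟨x0, hx0⟩ := hx0
  have hlox := hst w hw.1
  have hfin : ¬ IsOfFinOrder w := OverlapX.lox_not_fin x0 hw.1
  -- displacement of the points of the quasi-line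
  have hdisp : ∀ z ∈ hull d {x | ∃ w' : G, Subgroup.zpowers w = Subgroup.zpowers w' ∧
      x ∈ MinSet d w'}, d z (w • z) ≤ 21 * dd := by
    intro z hz
    obtain ⟨x1, ⟨w1, e1, m1⟩, x2, ⟨w2, e2, m2⟩, hb⟩ := hz
    have key : ∀ (w' : G) (x : X), Subgroup.zpowers w = Subgroup.zpowers w' → x ∈ MinSet d w' →
        d x (w • x) ≤ 20 * dd := by
      intro w' x e' m
      have gen : ∀ x : X, d x (w' • x) = d x (w • x) := by
        intro x
        rcases (Subgroup.zpowers_eq_zpowers_iff hfin).1 e' with h1 | h1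
        · rw [h1]
        · rw [← h1, OverlapX.disp_inv h hiso]
      have h1 := m x0
      rw [gen, gen] at h1
      exact h1.trans hx0
    have h1 := w97_hulldisp h hyp hiso hb (u := w) (key w1 x1 e1 m1) (key w2 x2 e2 m2)
    omega
  have hRr := Rr_pos
  have hdd : 1 ≤ dd := le_trans del1_pos del1_le_dd
  obtain ⟨J, hJ⟩ : ∃ J, J = (16 * dd + 2) * Rr := ⟨_, rfl⟩
  have hJ0 : 0 < J := by rw [hJ]; positivity
  obtain ⟨v, hv⟩ : ∃ v, v = w ^ J := ⟨_, rfl⟩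
  have hvd : ∀ x : X, 16 * dd + 2 ≤ d x (v • x) := by
    intro x
    have h1 := hlox x J
    rw [← hv, hJ, mul_comm] at h1
    exact Nat.le_of_mul_le_mul_left h1 (by omega)
  obtain ⟨o, ho⟩ := OverlapX.minSet_nonempty (d := d) v
  have hfar : ∀ B, ∃ K' : ℕ, 0 < K' ∧ B ≤ d o (v ^ K' • o) := by
    intro B
    refine ⟨Rr * (B + 1), by positivity, ?_⟩
    have h1 := hlox o (J * (Rr * (B + 1)))
    rw [pow_mul, ← hv] at h1
    have h2 : Rr * (B + 1) ≤ J * (Rr * (B + 1)) := Nat.le_mul_of_pos_left _ hJ0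
    have h3 := Nat.le_of_mul_le_mul_left (h2.trans h1) (by omega)
    omega
  have hpd : ∀ z, d z (w • z) ≤ 21 * dd → d z (v • z) ≤ (16 * dd + 2) * Rr * (21 * dd) := by
    intro z hz
    have h1 := pow_disp h hiso w z J
    rw [← hv] at h1
    rw [← hJ]
    exact h1.trans (Nat.mul_le_mul_left _ hz)
  obtain ⟨k, hk⟩ := coarse E.axis h hyp hiso hv (hvd o) ho hfar (hdisp y' hy')
    (hpd y (hdisp y hy)) (hpd y' (hdisp y' hy'))
  refine ⟨k, hk.trans ?_⟩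
  have h1 := num dd Rr hdd hRr
  have h2 : T1 = Rr * (1000000 * dd ^ 2) := by
    unfold T1
    rw [Rr_eq, mul_assoc]
  rw [h2]
  exact h1

end Pool.Agent.FRK
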