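import Pool.Agent.FRK.Kit

/-! FRK: MINL, good lifts exist. -/

namespace Pool.Agent.FRK

open Pool.Agent.BURN Pool.Agent.BURR

variable [RP]

namespace MinL

omit [RP] in
theorem final_num (a m x : ℕ) (R F M : ℕ) (hR : 1 ≤ R) (hF : F ≤ R) (hM : 8192 * R ≤ M)
    (h1 : a ≤ (32 * R + F) + x + (32 * R + F)) (h2 : x ≤ m + 18)
    (h3 : 2 * m ≤ M + 2 * R) : a + 512 * R ≤ M := by omega

omit [RP] in
theorem num : f3 ≤ rho ∧ 2 * f3 + del1 + 10 ≤ rho := by
  obtain ⟨h1, h1', h1'', h1''', -, h1a, -, -, -⟩ := Kit.num1'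
  have h2 := Kit.num2
  have h3 := Kit.del1_big
  omega

theorem ex_ft (S : KSys) (z : S.Gm) (hz : ∀ i, z ≠ S.ap i) : ∃ y, IsFt z.1 y := by
  obtain ⟨u, hu⟩ := z
  cases u with
  | b v => exact ⟨v, Or.inl rfl⟩
  | c i y s => exact ⟨y, Or.inr ⟨i, s, rfl⟩⟩
  | a i => exact absurd rfl (hz i)

theorem ft_smul (S : KSys) (g : S.G) (z : S.Gm) (y : S.X) (h : IsFt z.1 y) :
    IsFt (g • z).1 (g • y) := by
  unfold IsFt
  rw [S.act]
  rcases h with h | ⟨i, s, h⟩
  · left; rw [h]; rfl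
  · right; exact ⟨g • i, s, by rw [h]; rfl⟩

theorem foot_near (E : Eng) (S : KSys) (i : S.I) (u : S.Gm) (y A : S.X)
    (hy : IsFt u.1 y) (hA : Foot (Dsc Lam S.d) (YE S.d S.E) rho i u A) :
    S.D A (S.pr i y) ≤ 2 ^ (rho + 5) + 2 ^ f3 := by
  have hcd := Kit.cd E S
  have hdgD := Kit.dgD E S
  obtain ⟨hdg, h1, h2, h3, h4, h5, h6, h7⟩ := E.gamDG S.X S.I S.D S.Y rho hcd
  by_cases hH : Hor i u.1
  · obtain ⟨hAY, hA'⟩ := hA
    have hAy : A = y := by
      rcases hA' with ⟨s, hs⟩ | ⟨hn, _⟩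
      · rcases hy with hy | ⟨j, t, ht⟩
        · rw [hs] at hy; cases hy
        · rw [hs] at ht; injection ht
      · exact absurd hH hn
    subst hAy
    have hnear : S.D A (S.pr i A) ≤ S.D A A := (S.prn i A).2 A hAY
    have h0 : S.D A A = 0 := (hdgD.eq_zero A A).2 rfl
    rw [h0] at hnear
    exact le_trans hnear (Nat.zero_le _)
  · -- the distance from u to its base vertex
    have hs : S.dg u (S.bs y) = ht rho u.1 := by
      rcases hy with hy | ⟨j, s, hs⟩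
      · have hu : u = S.bs y := Subtype.ext hy
        have h0 : S.dg u (S.bs y) = 0 := (hdg.eq_zero u (S.bs y)).2 hu
        rw [h0, hy]; rfl
      · have hok := u.2
        rw [hs] at hok
        obtain ⟨hyY, hs1, hs2⟩ := hok
        have h := h6 j y 0 s (S.bs y) u (by omega) (Or.inl ⟨rfl, hyY, rfl⟩) (Or.inr ⟨hs1, hs⟩)
        have hsy : S.dg u (S.bs y) = S.dg (S.bs y) u := (Kit.dgG E S).symm _ _
        have h' : S.dg u (S.bs y) = s - 0 := hsy.trans h
        rw [h', hs]; rfl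
    have hc : rho + 1 + ht rho u.1 ≤ S.dg (S.ap i) u := h3 i (S.ap i) u (Or.inr rfl) hH
    have hb : rho + 1 ≤ S.dg (S.bs y) (S.ap i) := Kit.ap_bs E S y i
    have hDG : IsDG S.dg := Kit.dgG E S
    have hg := gp_add hDG u (S.bs y) (S.ap i)
    have hsym := hDG.symm (S.ap i) u
    have hgp : 2 * rho + 2 ≤ gp S.dg u (S.bs y) (S.ap i) := by omega
    have hne : S.bs y ≠ S.ap i := by
      intro h
      rw [h] at hb
      have h0 := (hDG.eq_zero (S.ap i) (S.ap i)).2 rfl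
      omega
    obtain ⟨A0', hA0⟩ := (E.footEx S.X S.I S.D S.Y rho hcd).1 i (S.bs y) hne
    have hlt : S.D A A0' < 2 ^ (rho + 5) := by
      by_contra hcon
      have := E.vr0 S.X S.I S.D S.Y rho hcd i u (S.bs y) A A0' hA hA0 (by omega)
      have h' : gp S.dg u (S.bs y) (S.ap i) ≤ 2 * f3 := this
      have := num.1
      omega
    have hpr : S.D A0' (S.pr i y) ≤ 2 ^ f3 :=
      E.footPr S.X S.I S.D S.Y rho S.pr hcd S.prn i y A0' hA0
    have := hdgD.tri A A0' (S.pr i y)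
    omega

end MinL

open MinL

/-- MINL -/
theorem MinL_proof (E : Eng) (hEx : Stmt_Exact) (hQL : Stmt_QL) (hRB : Stmt_RotBig) :
    Stmt_MinL := by
  intro S z z' hb hBig hz hz'
  have hcd := Kit.cd E S
  have hdgD := Kit.dgD E S
  have hDG : IsDG S.dg := Kit.dgG E S
  have hisoG := Kit.isoG E S
  have hisoD := Kit.isoD E S
  obtain ⟨a0, ha0⟩ := ex_ft S z hz
  obtain ⟨b0, hb0⟩ := ex_ft S z' hz'
  -- candidates
  obtain ⟨g, hg⟩ := S.psurj hb
  obtain ⟨k, hk, hkd⟩ := Kit.q_lift E S z (g • z')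
  have hex : ∃ n : ℕ, ∃ h : S.G, (S.π h = hb ∧ S.dg z (h • z') = S.db (S.q z) (hb • S.q z')) ∧
      S.D a0 (h • b0) = n := by
    refine ⟨_, k * g, ⟨?_, ?_⟩, rfl⟩
    · rw [map_mul, (Kit.ker_K S k).2 hk, one_mul, hg]
    · rw [mul_smul, hkd, Kit.q_smul, hg]
  classical
  obtain ⟨h, ⟨hπ, hd⟩, hn⟩ := Nat.find_spec hex
  have hmin : ∀ h' : S.G, S.π h' = hb → S.dg z (h' • z') = S.db (S.q z) (hb • S.q z') →
      S.D a0 (h • b0) ≤ S.D a0 (h' • b0) := by
    intro h' h1 h2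
    rw [hn]
    exact Nat.find_min' hex ⟨h', ⟨h1, h2⟩, rfl⟩
  refine ⟨h, hπ, hd, ?_⟩
  intro i A B hA hB r hr hr1 v hv
  have hrot := hRB S hBig.big i r hr hr1 v hv
  have e13 : (2 : ℕ) ^ (rho + 13) = 8192 * 2 ^ rho := by rw [pow_add]; ring
  have e9 : (2 : ℕ) ^ (rho + 9) = 512 * 2 ^ rho := by rw [pow_add]; ring
  have e8 : (2 : ℕ) ^ (rho + 8) = 256 * 2 ^ rho := by rw [pow_add]; ring
  have e5 : (2 : ℕ) ^ (rho + 5) = 32 * 2 ^ rho := by rw [pow_add]; ring
  have e1 : (2 : ℕ) ^ (rho + 1) = 2 * 2 ^ rho := by rw [pow_add]; ring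
  have hone : 1 ≤ 2 ^ rho := Nat.one_le_two_pow
  rw [e13] at hrot
  rw [e9]
  by_cases hlt : S.D A B < 2 ^ (rho + 8)
  · rw [e8] at hlt
    omega
  · have hge : 2 ^ (rho + 8) ≤ S.D A B := by omega
    have hexact : S.dg z (h • z') = S.dg z (S.ap i) + S.dg (S.ap i) (h • z') :=
      hEx S.X S.I S.D S.Y rho hcd num.2 i z (h • z') A B hA hB hge
    -- competitors
    have hcomp : ∀ r' ∈ RotS (S.E i) (S.nE i), S.D a0 (h • b0) ≤ S.D a0 ((r' * h) • b0) := by
      intro r' hr'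
      have hπ' : S.π (r' * h) = hb := by
        rw [map_mul, (Kit.ker_K S r').2 (Kit.rot_le_K S i hr'), one_mul, hπ]
      apply hmin _ hπ'
      have h1 : S.dg z ((r' * h) • z') ≤ S.dg z (S.ap i) + S.dg (S.ap i) ((r' * h) • z') :=
        hDG.tri _ _ _
      have h2 : S.dg (S.ap i) ((r' * h) • z') = S.dg (S.ap i) (h • z') := by
        rw [mul_smul]
        have h3 := hisoG r' (S.ap i) (h • z')
        rw [Kit.rot_fix E S i r' hr'] at h3
        exact h3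
      have h4 := Kit.q_le E S z ((r' * h) • z')
      rw [Kit.q_smul, hπ'] at h4
      omega
    have hprz : IsNear S.D (S.Y i) a0 (S.pr i a0) := S.prn i a0
    have hprh : IsNear S.D (S.Y i) (h • b0) (S.pr i (h • b0)) := S.prn i (h • b0)
    obtain ⟨-, hP2, -, -, -, -⟩ := E.proj S.X S.D 2 1 7 7 9 22 (S.Y i) hdgD (Kit.hypD E S)
      (hcd.qc i) (by norm_num) (by norm_num) (by norm_num) (by norm_num)
    have hP := hP2 a0 (h • b0) (S.pr i a0) (S.pr i (h • b0)) hprz hprh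
    obtain ⟨r0, hr0, hql⟩ := hQL S hBig i (S.pr i a0) hprz.1 (S.pr i (h • b0)) hprh.1
    have hqlv := hql v hv r hr hr1
    have hc := hcomp r0 hr0
    have hup : S.D a0 ((r0 * h) • b0) ≤ S.D a0 (S.pr i a0) +
        S.D (S.pr i a0) (r0 • S.pr i (h • b0)) + S.D (S.pr i (h • b0)) (h • b0) := by
      rw [mul_smul]
      have t1 := hdgD.tri a0 (S.pr i a0) (r0 • h • b0)
      have t2 := hdgD.tri (S.pr i a0) (r0 • S.pr i (h • b0)) (r0 • h • b0)
      have t3 := hisoD r0 (S.pr i (h • b0)) (h • b0)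
      omega
    have hAn := foot_near E S i z a0 A ha0 hA
    have hBn := foot_near E S i (h • z') (h • b0) B (ft_smul S h z' b0 hb0) hB
    have hf3 : 2 ^ f3 ≤ 2 ^ rho := Nat.pow_le_pow_right (by norm_num) num.1
    have t1 := hdgD.tri A (S.pr i a0) B
    have t2 := hdgD.tri (S.pr i a0) (S.pr i (h • b0)) B
    have t3 := hdgD.symm (S.pr i (h • b0)) B
    have hx : S.D (S.pr i a0) (S.pr i (h • b0)) ≤
        S.D (S.pr i a0) (r0 • S.pr i (h • b0)) + 18 := by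
      by_cases h9 : 9 < S.D (S.pr i a0) (S.pr i (h • b0))
      · obtain ⟨-, -, hP3⟩ := hP h9
        omega
      · omega
    rw [e5] at hAn hBn
    rw [e1] at hqlv
    exact final_num (S.D A B) (S.D (S.pr i a0) (r0 • S.pr i (h • b0)))
      (S.D (S.pr i a0) (S.pr i (h • b0))) (2 ^ rho) (2 ^ f3) (S.D v (r • v)) hone hf3 hrot
      (by omega) hx hqlv

end Pool.Agent.FRK
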