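import Pool.Agent.FRK.Kit

/-! FRK, module NOAPEX. -/

namespace Pool.Agent.FRK

open Pool.Agent.BURN Pool.Agent.BURR

namespace NoApex

theorem dK_le {G X : Type} [Group G] [MulAction G X] {d : X → X → ℕ} {K : Subgroup G} {x y : X}
    {k : G} (hk : k ∈ K) : dK d K x y ≤ d x (k • y) := Nat.sInf_le ⟨k, hk, rfl⟩

theorem dK_spec {G X : Type} [Group G] [MulAction G X] (d : X → X → ℕ) (K : Subgroup G)
    (x y : X) : ∃ k ∈ K, dK d K x y = d x (k • y) :=
  Nat.sInf_mem (s := {n | ∃ k ∈ K, n = d x (k • y)}) ⟨_, 1, K.one_mem, rfl⟩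

theorem dK_right {G X : Type} [Group G] [MulAction G X] (d : X → X → ℕ) (K : Subgroup G)
    (x y : X) {k : G} (hk : k ∈ K) : dK d K x (k • y) = dK d K x y := by
  apply le_antisymm
  · obtain ⟨k', hk', e⟩ := dK_spec d K x y
    rw [e]
    have := dK_le (d := d) (x := x) (y := k • y) (K.mul_mem hk' (K.inv_mem hk))
    rwa [mul_smul, inv_smul_smul] at this
  · obtain ⟨k', hk', e⟩ := dK_spec d K x (k • y)
    rw [e, ← mul_smul]
    exact dK_le (K.mul_mem hk' hk)

end NoApex

open NoApex in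
theorem noApex_proof (E : Eng0) : Stmt_NoApex := by
  classical
  intro G X _ _ d C R δ α β σ hRF x y hfar
  have hd := hRF.dg
  have hi := hRF.iso
  have c1 : alp1 δ α β + 9 * δ + 1 = aa0 δ α β := rfl
  have c2 : eta1 δ β + δ ≤ alp1 δ α β := le_max_right _ _
  have c3 : bet1 δ β ≤ eta1 δ β := by unfold eta1 tht BB eta; omega
  have c4 : eta δ β ≤ eta1 δ β := by unfold eta1 tht BB; omega
  have c5 : 1 ≤ tht δ β := by unfold tht; omega
  have c6 := hRF.one_le
  -- x, y is irreducible
  have hIrr : Irr d C R (eta δ β) (tht δ β) x y := by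
    intro c hc r hr hgp
    by_cases hcx : c = x
    · subst hcx
      have := gp_left_self hd c (r • y)
      omega
    · by_cases hcy : c = y
      · subst hcy
        rw [hRF.fix c hc r hr, gp_right_self hd]
        omega
      · have := hfar c hc hcx hcy
        omega
  obtain ⟨k0, hk0, e0⟩ := dK_spec d (KK C R) x y
  have hex : ∃ n, ∃ k ∈ KK C R, d x (k • y) = dK d (KK C R) x y ∧ d y (k • y) = n :=
    ⟨_, k0, hk0, e0.symm, rfl⟩
  obtain ⟨k, hk, hk1, hk2⟩ := Nat.find_spec hex
  have hmin : ∀ k' ∈ KK C R, d x (k' • y) = dK d (KK C R) x y → d y (k • y) ≤ d y (k' • y) := by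
    intro k' hk' h1
    rw [hk2]
    exact Nat.find_min' hex ⟨k', hk', h1, rfl⟩
  by_cases hky : k = 1
  · subst hky
    rw [one_smul] at hk1
    omega
  have hIrr2 : Irr d C R (eta δ β) (tht δ β) x (k • y) := by
    refine ((E.irrMin G X d C R δ α β σ hRF).1 x (k • y) ?_).2
    rw [dK_right d _ x y hk]
    exact hk1
  rcases E.gl G X d C R δ α β σ hRF y k hk hky with ⟨c, hc, hyc, hkc⟩ |
    ⟨c, hc, r, hr, hr1, hyc, hb, hal⟩
  · have e1 : d c (k • y) = d c y := by
      have := hi k c y
      rwa [hRF.fix c hc k hkc] at this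
    have t1 := hd.tri x (k • y) c
    have t2 := hd.tri x c y
    have e2 : d (k • y) c = d c (k • y) := hd.symm _ _
    have e3 : d y c = d c y := hd.symm _ _
    omega
  · exfalso
    have hxx : d x x = 0 := (hd.eq_zero x x).2 rfl
    have hbt : ∀ z, Pool.Agent.BURN.Btw d x x z := by
      intro z
      unfold Pool.Agent.BURN.Btw
      omega
    have hFS := E.fs G X d C R δ α β σ hRF x x x x y k hk (hbt _) (hbt _) hIrr hIrr2 c hc r hr hb
      hal (Or.inl rfl)
    have hyy : d y y = 0 := (hd.eq_zero y y).2 rfl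
    have hcy : c ≠ y := by
      rintro rfl
      omega
    have hcx : c = x := by
      by_contra hne
      have := hfar c hc hne hcy
      omega
    subst hcx
    have hr' : r⁻¹ • c = c := hRF.fix c hc r⁻¹ (inv_mem hr)
    have hrK : r⁻¹ * k ∈ KK C R :=
      mul_mem (inv_mem (Subgroup.subset_closure ⟨c, hc, hr⟩)) hk
    have e1 : d c ((r⁻¹ * k) • y) = d c (k • y) := by
      have := hi r⁻¹ c (k • y)
      rw [hr'] at this
      rw [mul_smul]
      exact this
    have h1 := hmin (r⁻¹ * k) hrK (by rw [e1]; exact hk1)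
    rw [← mul_smul] at hal
    have g1 := gp_add hd y ((r⁻¹ * k) • y) c
    have g2 := gp_add hd y (k • y) c
    have e2 : d ((r⁻¹ * k) • y) c = d c ((r⁻¹ * k) • y) := hd.symm _ _
    have e3 : d (k • y) c = d c (k • y) := hd.symm _ _
    omega

end Pool.Agent.FRK
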