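import Pool.Agent.FRK.Kit

/-! FRK, module PROJHULL. -/

namespace Pool.Agent.FRK

open Pool.Agent.BURN Pool.Agent.BURR

theorem projHull_proof (E : Eng0) : Stmt_ProjHull := by
  intro X D W x x' u p p' r hD hy hqc hxu hp hp' hr w hw
  have hP := E.proj X D 2 1 7 7 9 22 W hD hy hqc rfl rfl (by norm_num) rfl
  have hP2 := hP.2.1
  have t1 := hD.tri r p w
  have t2 := hD.tri r p' w
  by_cases h1 : D r p ≤ 9
  · omega
  by_cases h2 : D r p' ≤ 9
  · omega
  have e1 : D r p = D p r := hD.symm _ _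
  have a1 := (hP2 x u p r hp hr (by omega)).2.2
  have a2 := (hP2 u x' r p' hr hp' (by omega)).2.2
  have t3 := hD.tri x p x'
  have t4 := hD.tri p p' x'
  have h4 := hy r w p p'
  have e2 : D w p' = D p' w := hD.symm _ _
  have e3 : D w p = D p w := hD.symm _ _
  have e4 : D u r = D r u := hD.symm _ _
  omega

end Pool.Agent.FRK
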