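import Pool.Agent.FRK.Kit

/-! FRK, module QL: the quasi-line is coarsely a line on which the rotations translate. -/

namespace Pool.Agent.FRK

open Pool.Agent.BURN Pool.Agent.BURR Pool.Agent.FRK.Kit

namespace QL

section one

variable {G X : Type} [Group G] [MulAction G X] {d : X → X → ℕ} {δ T : ℕ} {Y : Set X} {w : G}

/-- almost additivity of the displacement of powers on a quasi-line -/
theorem double (hdg : IsDG d) (hyp : Hyp d δ) (hiso : IsIso G d) (hqc : QC d (2 * δ) Y)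
    (hinv : ∀ (k : ℕ), ∀ y ∈ Y, w ^ k • y ∈ Y)
    (hline : ∀ y ∈ Y, ∀ y' ∈ Y, ∃ k : ℤ, d y (w ^ k • y') ≤ T)
    (y : X) (hy : y ∈ Y) (k : ℕ) :
    2 * d y (w ^ k • y) ≤ d y (w ^ (2 * k) • y) + (4 * T + 12 * δ + 2) := by
  obtain ⟨g0, hg0⟩ := exists_geod hdg y (w ^ k • y)
  have ePQ : d (w ^ k • y) (w ^ (2 * k) • y) = d y (w ^ k • y) := by
    rw [two_mul, pow_add, mul_smul, hiso]
  have hg : gp d y (w ^ (2 * k) • y) (w ^ k • y) + d y (w ^ (2 * k) • y) =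
      2 * d y (w ^ k • y) := by
    rw [gp_add hdg, hdg.symm (w ^ (2 * k) • y), ePQ]; ring
  obtain ⟨a, ha⟩ : ∃ a, a = d y (w ^ k • y) := ⟨_, rfl⟩
  obtain ⟨g, hgd⟩ : ∃ g, g = gp d y (w ^ (2 * k) • y) (w ^ k • y) := ⟨_, rfl⟩
  obtain ⟨s, hs⟩ : ∃ s, s = min (g / 2) (a / 2) := ⟨_, rfl⟩
  have hs1 : 2 * s ≤ g := by omega
  have hs2 : 2 * s ≤ a := by omega
  have hu1 : d y (g0 s) = s := hg0.dist_left (by omega)
  have hbu : Btw d y (g0 s) (w ^ k • y) := hg0.btw' (by omega)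
  have hbc : Btw d y (g0 (a - s)) (w ^ k • y) := hg0.btw' (by omega)
  have hc2 : d (g0 (a - s)) (w ^ k • y) = s := by
    rw [hg0.dist_right (by omega), ← ha]; omega
  have huc : d (g0 s) (g0 (a - s)) = a - 2 * s := by
    rw [hg0.2.2 s (a - s) (by omega) (by omega)]; omega
  have hbw : Btw d (w ^ k • y) (w ^ k • g0 s) (w ^ (2 * k) • y) := by
    have : w ^ (2 * k) • y = w ^ k • w ^ k • y := by rw [two_mul, pow_add, mul_smul]
    rw [this]
    unfold Pool.Agent.BURN.Btw at hbu ⊢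
    rw [hiso, hiso, hiso]; exact hbu
  have hf : d (g0 (a - s)) (w ^ k • g0 s) ≤ 2 * δ := by
    refine fellow hdg hyp (btw_symm hdg hbc) hbw ?_ ?_
    · rw [hdg.symm (w ^ k • y) (g0 (a - s)), hc2, hiso, hu1]
    · rw [hdg.symm (w ^ k • y) (g0 (a - s)), hc2, ← hgd]; exact hs1
  have huw : d (g0 s) (w ^ k • g0 s) ≤ a - 2 * s + 2 * δ := by
    have := hdg.tri (g0 s) (g0 (a - s)) (w ^ k • g0 s)
    omega
  obtain ⟨u', hu', huu⟩ := hqc y hy (w ^ k • y) (hinv k y hy) (g0 s) hbu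
  obtain ⟨m, hm⟩ := hline u' hu' y hy
  have e1 : d (w ^ m • y) (w ^ k • w ^ m • y) = a := by
    have : w ^ k • w ^ m • y = w ^ m • w ^ k • y := by
      rw [← mul_smul, ← mul_smul]
      congr 1
      rw [← zpow_natCast, ← zpow_add, ← zpow_add, add_comm]
    rw [this, hiso, ha]
  have t1 := hdg.tri (g0 s) u' (w ^ m • y)
  have t2 : d (w ^ k • g0 s) (w ^ k • w ^ m • y) = d (g0 s) (w ^ m • y) := hiso _ _ _
  have t3 := hdg.tri (w ^ m • y) (g0 s) (w ^ k • w ^ m • y)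
  have t4 := hdg.tri (g0 s) (w ^ k • g0 s) (w ^ k • w ^ m • y)
  have t5 := hdg.symm (w ^ m • y) (g0 s)
  have hs3 : 2 * s ≤ 2 * T + 6 * δ := by omega
  rw [← ha] at hg ⊢
  rw [← hgd] at hg
  omega

theorem iter {a : ℕ → ℕ} {C : ℕ} (h : ∀ k, 2 * a k ≤ a (2 * k) + C) (k m : ℕ) :
    2 ^ m * a k ≤ a (2 ^ m * k) + 2 ^ m * C := by
  induction m with
  | zero => simp
  | succ m ih =>
    have h1 := h (2 ^ m * k)
    have e : 2 * (2 ^ m * k) = 2 ^ (m + 1) * k := by ring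
    rw [e] at h1
    have e2 : 2 ^ (m + 1) * a k = 2 * (2 ^ m * a k) := by ring
    have e3 : 2 ^ (m + 1) * C = 2 * (2 ^ m * C) := by ring
    have h3 : 2 ^ m * a k ≤ a (2 ^ m * k) + (2 ^ m - 1) * C := by
      clear ih h1 e e2 e3
      induction m with
      | zero => simp
      | succ m ih =>
        have h1 := h (2 ^ m * k)
        have e : 2 * (2 ^ m * k) = 2 ^ (m + 1) * k := by ring
        rw [e] at h1
        have e2 : 2 ^ (m + 1) * a k = 2 * (2 ^ m * a k) := by ring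
        have hp : 1 ≤ 2 ^ m := Nat.one_le_two_pow
        obtain ⟨c, hc⟩ : ∃ c, 2 ^ m = c + 1 := ⟨2 ^ m - 1, by omega⟩
        have e3 : (2 ^ (m + 1) - 1) * C = 2 * ((2 ^ m - 1) * C) + C := by
          have : 2 ^ (m + 1) - 1 = 2 * c + 1 := by rw [pow_succ]; omega
          rw [this, hc, Nat.add_sub_cancel]; ring
        rw [e2, e3]
        omega
    have hp : 1 ≤ 2 ^ m := Nat.one_le_two_pow
    have h4 : (2 ^ m - 1) * C + C = 2 ^ m * C := by
      obtain ⟨c, hc⟩ : ∃ c, 2 ^ m = c + 1 := ⟨2 ^ m - 1, by omega⟩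
      rw [hc, Nat.add_sub_cancel]; ring
    rw [e2, e3]
    omega

end one

section two

variable [RP]

/-- a(k) is at most k slen + C -/
theorem le_slen (E : Eng) {G X : Type} [Group G] [MulAction G X] {d : X → X → ℕ} {C : ℕ} {w : G}
    (hdg : IsDG d) (hiso : IsIso G d) (y : X)
    (h : ∀ k : ℕ, 2 * d y (w ^ k • y) ≤ d y (w ^ (2 * k) • y) + C) (k : ℕ) :
    (d y (w ^ k • y) : ℝ) ≤ k * slen d y w + C := by
  rcases Nat.eq_zero_or_pos k with rfl | hk
  · have h0 : d y (w ^ 0 • y) = 0 := by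
      rw [pow_zero, one_smul]; exact (hdg.eq_zero y y).2 rfl
    rw [h0]; push_cast; have : (0 : ℝ) ≤ C := Nat.cast_nonneg C
    linarith
  · have hlim := (E.slen G X d hdg hiso).1 y w
    have hsub : Filter.Tendsto (fun m : ℕ => 2 ^ m * k) Filter.atTop Filter.atTop := by
      refine Filter.tendsto_atTop_mono (fun m => ?_) Filter.tendsto_id
      have h1 : m < 2 ^ m := Nat.lt_two_pow_self
      have h2 : 2 ^ m * 1 ≤ 2 ^ m * k := Nat.mul_le_mul_left _ hk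
      show m ≤ 2 ^ m * k
      omega
    have hlim2 := hlim.comp hsub
    have hkr : (0 : ℝ) < k := Nat.cast_pos.2 hk
    have key : ((d y (w ^ k • y) : ℝ) - C) / k ≤ slen d y w := by
      refine ge_of_tendsto hlim2 (Filter.Eventually.of_forall (fun m => ?_))
      have h3 := iter (a := fun k => d y (w ^ k • y)) h k m
      have h3' : (2 : ℝ) ^ m * (d y (w ^ k • y) : ℝ) ≤
          (d y (w ^ (2 ^ m * k) • y) : ℝ) + 2 ^ m * C := by exact_mod_cast h3
      have hp : (0 : ℝ) < 2 ^ m := by positivity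
      simp only [Function.comp]
      rw [div_le_div_iff₀ hkr (by push_cast; positivity)]
      push_cast
      nlinarith [mul_le_mul_of_nonneg_right h3' hkr.le]
    rw [div_le_iff₀ hkr] at key
    linarith

theorem le_slen_int (E : Eng) {G X : Type} [Group G] [MulAction G X] {d : X → X → ℕ} {C : ℕ}
    {w : G} (hdg : IsDG d) (hiso : IsIso G d) (y : X)
    (h : ∀ k : ℕ, 2 * d y (w ^ k • y) ≤ d y (w ^ (2 * k) • y) + C) (k : ℤ) :
    (d y (w ^ k • y) : ℝ) ≤ |(k : ℝ)| * slen d y w + C := by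
  have h1 := le_slen E hdg hiso y h k.natAbs
  have h2 : ((k.natAbs : ℕ) : ℝ) = |(k : ℝ)| := by
    rw [← Int.cast_natCast, Int.natCast_natAbs, Int.cast_abs]
  rw [h2] at h1
  have h3 : d y (w ^ k • y) = d y (w ^ k.natAbs • y) := by
    rcases Int.natAbs_eq k with e | e
    · conv_lhs => rw [e]
      rw [zpow_natCast]
    · conv_lhs => rw [e]
      rw [zpow_neg, zpow_natCast]
      have := hiso (w ^ k.natAbs) y ((w ^ k.natAbs)⁻¹ • y)
      rw [smul_inv_smul] at this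
      rw [← this, hdg.symm]
  rw [h3]; exact h1

theorem rotS_zpowers {G : Type} [Group G] (w : G) (n : ℕ) :
    RotS (Subgroup.zpowers w) n ≤ Subgroup.zpowers (w ^ n) := by
  unfold RotS
  rw [Subgroup.closure_le]
  rintro x ⟨e, ⟨m, rfl⟩, rfl⟩
  refine ⟨m, ?_⟩
  show (w ^ n) ^ m = (w ^ m) ^ n
  rw [← zpow_natCast, ← zpow_natCast, ← zpow_mul, ← zpow_mul, mul_comm]

/-- division with symmetric remainder -/
theorem int_div (k : ℤ) (n : ℕ) (hn : 1 ≤ n) : ∃ b a : ℤ, k = n * b + a ∧ 2 * |a| ≤ n := by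
  have h1 := Int.emod_add_mul_ediv k n
  have h2 := Int.emod_nonneg k (b := (n : ℤ)) (by omega)
  have h3 := Int.emod_lt_of_pos k (b := (n : ℤ)) (by omega)
  by_cases h : 2 * (k % n) ≤ n
  · refine ⟨k / n, k % n, by linarith, ?_⟩
    rw [abs_of_nonneg h2]; exact h
  · refine ⟨k / n + 1, k % n - n, by linarith, ?_⟩
    rw [abs_of_neg (by omega)]
    omega

end two

end QL

open QL in
theorem qL_proof [RP] (E : Eng) : Stmt_QL := by
  intro S hBig i y hy y' hy'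
  obtain ⟨w, hE, hmax, x0, hx0⟩ := S.kil i
  have hYeq : S.Y i = hull S.d {x | ∃ w' : S.G, Subgroup.zpowers w = Subgroup.zpowers w' ∧
      x ∈ MinSet S.d w'} := by
    unfold KSys.Y YE
    rw [hE]
  have hline : ∀ y ∈ S.Y i, ∀ y' ∈ S.Y i, ∃ k : ℤ, S.d y (w ^ k • y') ≤ T1 := by
    intro a ha b hb
    rw [hYeq] at ha hb
    exact hBig.line w hmax ⟨x0, hx0⟩ a ha b hb
  have hdg := S.good.dg
  have hyp := S.good.hyp
  have hiso := S.good.iso
  have hov := E.overlap S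
  have hqc : QC S.d (2 * dd) (S.Y i) := hov.1 i
  have hinv : ∀ (k : ℕ), ∀ y ∈ S.Y i, w ^ k • y ∈ S.Y i := by
    intro k a ha
    refine hov.2.2.1 i (w ^ k) ?_ a ha
    rw [hE]; exact Subgroup.npow_mem_zpowers w k
  obtain ⟨C, hC⟩ : ∃ C, C = 4 * T1 + 12 * dd + 2 := ⟨_, rfl⟩
  have hdb : ∀ a ∈ S.Y i, ∀ k : ℕ, 2 * S.d a (w ^ k • a) ≤ S.d a (w ^ (2 * k) • a) + C := by
    intro a ha k
    rw [hC]
    exact double hdg hyp hiso hqc hinv hline a ha k
  obtain ⟨n, hn⟩ : ∃ n, n = S.nE i := ⟨_, rfl⟩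
  have hn1 : 1 ≤ n := by
    have := S.nge i
    have := nq_pos
    omega
  obtain ⟨k0, hk0⟩ := hline y hy y' hy'
  obtain ⟨b, a', hk, ha⟩ := int_div k0 n hn1
  refine ⟨(w ^ b) ^ n, ?_, ?_⟩
  · rw [← hn]
    refine Subgroup.subset_closure ⟨w ^ b, ?_, rfl⟩
    rw [hE]; exact Subgroup.zpow_mem_zpowers w b
  intro v hv r' hr' hr1
  rw [hE, ← hn] at hr'
  obtain ⟨m, hm⟩ := rotS_zpowers w n hr'
  have hm' : w ^ ((n : ℤ) * m) = r' := by
    rw [zpow_mul, zpow_natCast]; exact hm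
  have hm0 : m ≠ 0 := by
    rintro rfl
    apply hr1
    rw [← hm']; simp
  -- displacement of r'
  obtain ⟨-, hs2, -, hs4, hs5, -⟩ := E.slen S.G S.X S.d hdg hiso
  have hsl0 : 0 ≤ slen S.d y' w := (hs5 y' w).1
  have hd1 : (n : ℝ) * slen S.d y' w ≤ (S.d v (r' • v) : ℝ) := by
    have h1 := (hs5 v r').2
    rw [← hm', hs4 v w, hs2 v y' w, hm'] at h1
    refine le_trans ?_ h1
    refine mul_le_mul_of_nonneg_right ?_ hsl0
    push_cast
    rw [abs_mul]
    have h2 : (1 : ℝ) ≤ |(m : ℝ)| := by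
      rw [← Int.cast_abs]
      exact_mod_cast Int.one_le_abs hm0
    have h3 : |(n : ℝ)| = n := abs_of_nonneg (Nat.cast_nonneg n)
    rw [h3]
    have h4 : (0 : ℝ) ≤ n := Nat.cast_nonneg n
    nlinarith
  have hd2 : S.d y ((w ^ b) ^ n • y') ≤ T1 + S.d y' (w ^ a' • y') := by
    have e1 : w ^ k0 • y' = (w ^ b) ^ n • w ^ a' • y' := by
      rw [hk, zpow_add, mul_smul]
      congr 1
      rw [← zpow_natCast, ← zpow_mul, mul_comm]
    have h1 := hdg.tri y (w ^ k0 • y') ((w ^ b) ^ n • y')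
    rw [e1, hiso, hdg.symm (w ^ a' • y') y'] at h1
    rw [e1] at hk0
    omega
  have hd3 := le_slen_int E hdg hiso y' (hdb y' hy') a'
  have ha' : 2 * |(a' : ℝ)| ≤ n := by exact_mod_cast ha
  have hfin : 2 * (S.d y ((w ^ b) ^ n • y') : ℝ) ≤ (S.d v (r' • v) : ℝ) + 2 * T1 + 2 * C := by
    have h1 : (S.d y ((w ^ b) ^ n • y') : ℝ) ≤ T1 + (S.d y' (w ^ a' • y') : ℝ) := by
      exact_mod_cast hd2
    have h2 : 2 * (|(a' : ℝ)| * slen S.d y' w) ≤ n * slen S.d y' w := by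
      rw [← mul_assoc]
      exact mul_le_mul_of_nonneg_right ha' hsl0
    linarith
  have hfin' : 2 * S.d y ((w ^ b) ^ n • y') ≤ S.d v (r' • v) + 2 * T1 + 2 * C := by
    exact_mod_cast hfin
  -- rescaling
  obtain ⟨t, ht⟩ : ∃ t, t = 2 ^ s3 * (1000000 * dd ^ 2) := ⟨_, rfl⟩
  have hT1 : T1 = Lam * t := by rw [ht]; rfl
  have hdd : 1000000 * dd ≤ t := by
    rw [ht]
    have h1 : 1 ≤ 2 ^ s3 := Nat.one_le_two_pow
    have h2 : dd ≤ dd ^ 2 := Nat.le_self_pow (by norm_num) dd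
    have h3 : 1000000 * dd ≤ 1000000 * dd ^ 2 := Nat.mul_le_mul_left _ h2
    calc 1000000 * dd ≤ 1 * (1000000 * dd ^ 2) := by rw [one_mul]; exact h3
      _ ≤ 2 ^ s3 * (1000000 * dd ^ 2) := Nat.mul_le_mul_right _ h1
  have hn3 : 1000 * t + 2 ≤ 2 ^ rho := by rw [ht]; exact num3
  have hL := num4.2
  have hLt : t ≤ Lam * t := Nat.le_mul_of_pos_left t (by omega)
  have hfin2 : 2 * S.d y ((w ^ b) ^ n • y') ≤ S.d v (r' • v) + 11 * (Lam * t) := by
    have := dd_ge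
    rw [hC, hT1] at hfin'
    omega
  have hD1 : Lam * S.D y ((w ^ b) ^ n • y') ≤ S.d y ((w ^ b) ^ n • y') + Lam - 1 := by
    show Lam * ((S.d y ((w ^ b) ^ n • y') + Lam - 1) / Lam) ≤ _
    exact Nat.mul_div_le _ _
  have hD2 : S.d v (r' • v) ≤ Lam * S.D v (r' • v) := by
    by_contra hcon
    push Not at hcon
    have h1 : S.D v (r' • v) < (S.d v (r' • v) + Lam - 1) / Lam := by
      rw [Nat.lt_iff_add_one_le, Nat.le_div_iff_mul_le (by omega)]
      have : (S.D v (r' • v) + 1) * Lam = Lam * S.D v (r' • v) + Lam := by ring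
      omega
    exact absurd h1 (lt_irrefl _)
  have hmul : Lam * (2 * S.D y ((w ^ b) ^ n • y')) ≤ Lam * (S.D v (r' • v) + 11 * t + 2) := by
    have e1 : Lam * (2 * S.D y ((w ^ b) ^ n • y')) = 2 * (Lam * S.D y ((w ^ b) ^ n • y')) := by
      ring
    have e2 : Lam * (S.D v (r' • v) + 11 * t + 2) =
        Lam * S.D v (r' • v) + 11 * (Lam * t) + 2 * Lam := by ring
    rw [e1, e2]
    omega
  have hfin3 := Nat.le_of_mul_le_mul_left hmul (by omega)
  have p1 : 2 ^ (rho + 1) = 2 * 2 ^ rho := by ring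
  rw [p1]
  omega

end Pool.Agent.FRK
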