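import Pool.Agent.FRK.Kit

/-! FRK, RFV: residually finite hyperbolic groups are virtually torsion-free. -/

namespace Pool.Agent.FRK

open Pool.Agent.BURN Pool.Agent.BURR

theorem rfv_proof (E : Eng0) (hW : Stmt_WMet) : Stmt_RFV := by
  classical
  intro G _ hG hR
  obtain ⟨-, d, δ, Bf, hd, hh, h1, hi, hB⟩ := hW G hG
  have hex : ∀ b : G, ∃ K : Subgroup G, K.Normal ∧ K.FiniteIndex ∧ (b ≠ 1 → b ∉ K) := by
    intro b
    by_cases hb : b = 1
    · exact ⟨⊤, inferInstance, inferInstance, fun h => absurd hb h⟩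
    · obtain ⟨K, k1, k2, k3⟩ := hR b hb
      exact ⟨K, k1, k2, fun _ => k3⟩
  choose K k1 k2 k3 using hex
  let Fs : Set G := {b | d 1 (b • (1 : G)) ≤ 3 * δ + 2}
  have hfin : Fs.Finite := by
    by_contra hinf
    obtain ⟨A, hA, hc⟩ := Set.Infinite.exists_subset_card_eq hinf (Bf (3 * δ + 2) + 1)
    have h2 := hB 1 (3 * δ + 2) A (fun h hh => hA hh)
    omega
  have : Finite Fs := hfin
  let KK : Subgroup G := ⨅ b : Fs, K b
  refine ⟨KK, Subgroup.finiteIndex_iInf fun b => k2 b, ?_⟩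
  intro h hhK hne n hn hpow
  have hx : ∃ m, ∃ x : G, d x (h • x) = m := ⟨_, 1, rfl⟩
  obtain ⟨x, hxm⟩ := Nat.find_spec hx
  have hmin : ∀ y, Nat.find hx ≤ d y (h • y) := fun y => Nat.find_min' hx ⟨y, rfl⟩
  by_cases hle : 3 * δ + 2 ≤ Nat.find hx
  · have h2 := (E.iso2 G G d δ (Nat.find hx) hd hh hi hle h x hxm hmin).2.2.1 n
    rw [hpow, one_smul, (hd.eq_zero x x).mpr rfl] at h2
    have h3 : 1 * 2 ≤ n * (Nat.find hx - 3 * δ) := Nat.mul_le_mul hn (by omega)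
    omega
  · have h2 : d 1 ((x⁻¹ * h * x) • (1 : G)) = d x (h • x) := by
      rw [← hi x 1]
      congr 1
      · simp
      · simp only [smul_eq_mul]
        group
    have h3 : x⁻¹ * h * x ∈ Fs := by
      change d 1 ((x⁻¹ * h * x) • (1 : G)) ≤ 3 * δ + 2
      rw [h2, hxm]
      omega
    have h4 : h ∈ K (x⁻¹ * h * x) := by
      have h5 : KK ≤ K (x⁻¹ * h * x) := iInf_le (fun b : Fs => K b) ⟨_, h3⟩
      exact h5 hhK
    have h6 : x⁻¹ * h * x ∈ K (x⁻¹ * h * x) := by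
      have h7 := (k1 (x⁻¹ * h * x)).conj_mem h h4 x⁻¹
      rwa [inv_inv] at h7
    refine k3 _ ?_ h6
    intro h8
    apply hne
    have h9 : h = x * (x⁻¹ * h * x) * x⁻¹ := by group
    rw [h9, h8]
    group

end Pool.Agent.FRK
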