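import Pool.Agent.FRK.Kit

namespace Pool.Agent.FRK

open Pool.Agent.BURN Pool.Agent.BURR

namespace RQC

variable {G X : Type} [Group G] [MulAction G X] {d : X → X → ℕ} {δ : ℕ}

/-- the foot of a point of the region with hair -/
theorem foot {Γ : Subgroup G} {W R : Set X} {h : G} {a b : X} {σ : ℕ → X} {t : ℕ}
    (hd : IsDG d) (hi : IsIso G d) (hWi : ∀ g ∈ Γ, ∀ w ∈ W, g • w ∈ W)
    (ha : a ∈ W) (hb : b ∈ W) (hσ : IsGeod d a (h • b) σ) (ht : 2 * t ≤ d a (h • b))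
    (hR : R = W ∪ {x | ∃ g ∈ Γ, ∃ i ≤ t, x = g • σ i ∨ x = g • h⁻¹ • σ (d a (h • b) - i)})
    {r : X} (hr : r ∈ R) :
    ∃ w ∈ W, d r w ≤ t ∧ ∃ p : ℕ → X, IsGeod d w r p ∧ ∀ j ≤ d w r, p j ∈ R := by
  set L := d a (h • b) with hL
  have hr' := hr
  rw [hR] at hr'
  rcases hr' with hr' | ⟨g, hg, i, hit, hx | hx⟩
  · have h0 : d r r = 0 := (hd.eq_zero r r).2 rfl
    refine ⟨r, hr', by omega, fun _ => r, ⟨rfl, rfl, ?_⟩, fun _ _ => hr⟩
    intro i j hij hj
    show d r r = j - i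
    omega
  · have e1 : d (g • a) (g • σ i) = i := by
      rw [hi, hσ.dist_left (by omega)]
    refine ⟨g • a, hWi g hg a ha, ?_, fun j => g • σ j, ⟨?_, ?_, ?_⟩, ?_⟩
    · rw [hx, hd.symm, e1]
      exact hit
    · show g • σ 0 = g • a
      rw [hσ.1]
    · show g • σ (d (g • a) r) = r
      rw [hx, e1]
    · intro j k hjk hk
      show d (g • σ j) (g • σ k) = k - j
      rw [hx, e1] at hk
      rw [hi]
      exact hσ.2.2 j k hjk (by omega)
    · intro j hj
      rw [hx, e1] at hj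
      rw [hR]
      exact Or.inr ⟨g, hg, j, by omega, Or.inl rfl⟩
  · have e0 : g • b = g • h⁻¹ • (h • b) := by
      rw [inv_smul_smul]
    have e1 : d (g • b) (g • h⁻¹ • σ (L - i)) = i := by
      rw [e0, hi, hi, hd.symm, hσ.dist_right (by omega)]
      omega
    refine ⟨g • b, hWi g hg b hb, ?_, fun j => g • h⁻¹ • σ (L - j), ⟨?_, ?_, ?_⟩, ?_⟩
    · rw [hx, hd.symm, e1]
      exact hit
    · show g • h⁻¹ • σ (L - 0) = g • b
      rw [e0, Nat.sub_zero, hL, hσ.2.1]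
    · show g • h⁻¹ • σ (L - d (g • b) r) = r
      rw [hx, e1]
    · intro j k hjk hk
      show d (g • h⁻¹ • σ (L - j)) (g • h⁻¹ • σ (L - k)) = k - j
      rw [hx, e1] at hk
      rw [hi, hi, hd.symm, hσ.2.2 (L - k) (L - j) (by omega) (by omega)]
      omega
    · intro j hj
      rw [hx, e1] at hj
      rw [hR]
      exact Or.inr ⟨g, hg, j, by omega, Or.inr rfl⟩

end RQC

theorem rQC_proof : Stmt_RQC := by
  intro G X _ _ d δ Γ W R h a b σ t hd hy hi hδ hW hWi ha hb hσ hmin ht hR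
  have hfoot : ∀ r ∈ R, ∃ w ∈ W, d r w ≤ t ∧ ∃ p : ℕ → X, IsGeod d w r p ∧
      ∀ j ≤ d w r, p j ∈ R := fun r hr => RQC.foot hd hi hWi ha hb hσ ht hR hr
  have hWR : W ⊆ R := by
    rw [hR]
    exact Set.subset_union_left
  refine ⟨?_, ?_, ?_⟩
  · intro p hp p' hp' s hs
    obtain ⟨w, hw, -, u, hu, huR⟩ := hfoot p hp
    obtain ⟨w', hw', -, u', hu', huR'⟩ := hfoot p' hp'
    have h0 : gp d p p' s = 0 := (btw_iff hd p s p').1 hs
    have h1 := hyp_gp hd hy p p' w s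
    rw [h0, Nat.zero_add] at h1
    rcases min_le_iff.1 h1 with h2 | h2
    · obtain ⟨h3, h4⟩ := near_geod hd hy hu s
      refine ⟨u (gp d p s w / 2), huR _ h3, ?_⟩
      rw [gp_comm hd] at h2
      omega
    · have h5 := hyp_gp hd hy w p' w' s
      rcases min_le_iff.1 h5 with h6 | h6
      · obtain ⟨γ, hγ⟩ := exists_geod hd w w'
        obtain ⟨h3, h4⟩ := near_geod hd hy hγ s
        obtain ⟨v, hv, hv'⟩ := hW w hw w' hw' _ (hγ.btw' h3)
        refine ⟨v, hWR hv, ?_⟩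
        have h7 := hd.tri s (γ (gp d w' s w / 2)) v
        omega
      · obtain ⟨h3, h4⟩ := near_geod hd hy hu' s
        refine ⟨u' (gp d p' s w' / 2), huR' _ h3, ?_⟩
        omega
  · intro g hg x hx
    rw [hR] at hx ⊢
    rcases hx with hx | ⟨k, hk, i, hit, hx⟩
    · exact Or.inl (hWi g hg x hx)
    · refine Or.inr ⟨g * k, Γ.mul_mem hg hk, i, hit, ?_⟩
      rcases hx with hx | hx
      · left
        rw [hx, mul_smul]
      · right
        rw [hx, mul_smul]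
  · intro r hr r' hr'
    obtain ⟨w, hw, h1, -⟩ := hfoot r hr
    obtain ⟨w', hw', h2, -⟩ := hfoot r' hr'
    have h3 := hmin w hw w' hw'
    have h4 := hd.tri w r (h • w')
    have h5 := hd.tri r (h • r') (h • w')
    rw [hi] at h5
    rw [hd.symm w r] at h4
    omega

end Pool.Agent.FRK
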