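import Pool.Agent.FRK.Kit

/-! RWORD: reduced forms exist. -/

namespace Pool.Agent.FRK

namespace RWord

theorem one {G : Type} [Group G] (Γ : Subgroup G) (h : G) :
    ∃ (n : ℕ) (a : ℕ → G) (ε : ℕ → Bool), RW Γ h n a ε ∧ a n = 1 :=
  ⟨0, fun _ => 1, fun _ => true, ⟨Γ.one_mem, fun i hi => absurd hi (Nat.not_lt_zero _),
    fun i hi => absurd hi (Nat.not_lt_zero _)⟩, rfl⟩

theorem mul_mem {G : Type} [Group G] (Γ : Subgroup G) (h g γ : G) (hγ : γ ∈ Γ)
    (H : ∃ (n : ℕ) (a : ℕ → G) (ε : ℕ → Bool), RW Γ h n a ε ∧ a n = g) :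
    ∃ (n : ℕ) (a : ℕ → G) (ε : ℕ → Bool), RW Γ h n a ε ∧ a n = g * γ := by
  obtain ⟨n, a, ε, hR, rfl⟩ := H
  refine ⟨n, Function.update a n (a n * γ), ε, ⟨?_, ?_, ?_⟩, by simp⟩
  · by_cases h0 : n = 0
    · subst h0
      simpa using Γ.mul_mem hR.zero hγ
    · rw [Function.update_of_ne (Ne.symm h0)]
      exact hR.zero
  · intro i hi
    rw [Function.update_of_ne hi.ne]
    by_cases h1 : i + 1 = n
    · have h2 := hR.succ i hi
      rw [h1] at h2 ⊢
      rw [Function.update_self, ← mul_assoc]
      exact Γ.mul_mem h2 hγ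
    · rw [Function.update_of_ne h1]
      exact hR.succ i hi
  · intro i hi hε
    rw [Function.update_of_ne hi.ne, Function.update_of_ne (by omega)]
    exact hR.red i hi hε

theorem hp_mul {G : Type} [Group G] (h : G) (b c : Bool) (hbc : b ≠ c) : hp h c * hp h b = 1 := by
  cases b <;> cases c <;> simp_all [hp]

theorem mul_hp {G : Type} [Group G] (Γ : Subgroup G) (h g : G) (b : Bool)
    (H : ∃ (n : ℕ) (a : ℕ → G) (ε : ℕ → Bool), RW Γ h n a ε ∧ a n = g) :
    ∃ (n : ℕ) (a : ℕ → G) (ε : ℕ → Bool), RW Γ h n a ε ∧ a n = g * hp h b := by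
  obtain ⟨n, a, ε, hR, rfl⟩ := H
  by_cases hc : ∃ m, n = m + 1 ∧ b ≠ ε m ∧ a (m + 1) = a m * hp h (ε m)
  · obtain ⟨m, rfl, hb, hm⟩ := hc
    refine ⟨m, a, ε, ⟨hR.zero, fun i hi => hR.succ i (by omega),
      fun i hi hε => hR.red i (by omega) hε⟩, ?_⟩
    rw [hm, mul_assoc, hp_mul h b (ε m) hb, mul_one]
  · refine ⟨n + 1, Function.update a (n + 1) (a n * hp h b), Function.update ε n b,
      ⟨?_, ?_, ?_⟩, by simp⟩
    · rw [Function.update_of_ne (by omega)]
      exact hR.zero
    · intro i hi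
      by_cases h1 : i = n
      · subst h1
        rw [Function.update_self, Function.update_of_ne (by omega), Function.update_self]
        simp
      · rw [Function.update_of_ne (by omega), Function.update_of_ne h1,
          Function.update_of_ne (by omega)]
        exact hR.succ i (by omega)
    · intro i hi hε
      rw [Function.update_of_ne (by omega), Function.update_of_ne (by omega),
        Function.update_of_ne (by omega)]
      rw [Function.update_of_ne (show i ≠ n by omega)] at hε
      by_cases h1 : i + 1 = n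
      · rw [h1, Function.update_self] at hε
        intro hm
        exact hc ⟨i, h1.symm, hε, hm⟩
      · rw [Function.update_of_ne h1] at hε
        exact hR.red i (by omega) hε

end RWord

open RWord in
theorem RWord_proof : Stmt_RWord := by
  intro G _ Γ h g hg
  have hcl : Γ ⊔ Subgroup.zpowers h = Subgroup.closure ((Γ : Set G) ∪ {h}) := by
    rw [Subgroup.closure_union, Subgroup.closure_eq, Subgroup.zpowers_eq_closure]
  rw [hcl] at hg
  refine Subgroup.closure_induction_right
    (p := fun x _ => ∃ (n : ℕ) (a : ℕ → G) (ε : ℕ → Bool), RW Γ h n a ε ∧ a n = x)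
    (one Γ h) ?_ ?_ hg
  · rintro x - y (hy | hy) hx
    · exact mul_mem Γ h x y hy hx
    · rw [Set.mem_singleton_iff] at hy
      subst hy
      exact mul_hp Γ y x true hx
  · rintro x - y (hy | hy) hx
    · exact mul_mem Γ h x y⁻¹ (Γ.inv_mem hy) hx
    · rw [Set.mem_singleton_iff] at hy
      subst hy
      exact mul_hp Γ y x false hx

end Pool.Agent.FRK
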