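import Pool.Agent.FRK.Kit
import Pool.Agent.BURR.KCD

/-! FRK, module ROTBIG. -/

namespace Pool.Agent.FRK

open Pool.Agent.BURN Pool.Agent.BURR

variable [RP]

theorem rotBig_proof (_E : Eng) : Stmt_RotBig := by
  intro S hbig i r hr hr1 y hy
  have hG := S.good
  have hL1 : 1 ≤ Lam := Lam_pos
  obtain ⟨w, hw, hmc, _⟩ := S.kil i
  rw [hw] at hr
  obtain ⟨k, hk⟩ := KCDX.rotS_mem hr
  have hk0 : k ≠ 0 := by
    rintro rfl
    rw [mul_zero, zpow_zero] at hk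
    exact hr1 hk
  have h1 := KCDX.stab_zpow hG hmc.1 y ((S.nE i : ℤ) * k)
  rw [← hk, Int.natAbs_mul, Int.natAbs_natCast] at h1
  have h2 : 1 ≤ k.natAbs := Int.natAbs_pos.mpr hk0
  have h3 : 64 * nq ≤ S.nE i * k.natAbs := by
    calc 64 * nq ≤ S.nE i := hbig i
      _ ≤ S.nE i * k.natAbs := Nat.le_mul_of_pos_right _ h2
  have h4 : Rq * (2 ^ (rho + 13) * Lam) ≤ Rq * S.d y (r • y) := by
    have : 64 * nq = Rq * (2 ^ (rho + 13) * Lam) := by rw [nq_eq]; ring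
    omega
  exact KCDX.le_dsc hL1 (Nat.le_of_mul_le_mul_left h4 Rq_pos)

end Pool.Agent.FRK
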