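import Pool.Agent.FRK.Kit

/-! FRK, SCH: Schreier's theorem with control of a free factor. -/

namespace Pool.Agent.FRK.Sch

open Subgroup

section

variable {F : Type} [Group F] (S : Set F) (H : Subgroup F)

/-- reachability in n steps -/
inductive Rch : ℕ → F ⧸ H → Prop
  | zero : Rch 0 ((1 : F) : F ⧸ H)
  | pos (n : ℕ) (w : F ⧸ H) (s : F) (hs : s ∈ S) (h : Rch n w) : Rch (n + 1) (s • w)
  | neg (n : ℕ) (w : F ⧸ H) (s : F) (hs : s ∈ S) (h : Rch n w) : Rch (n + 1) (s⁻¹ • w)

theorem reach (hgen : closure S = ⊤) (w : F ⧸ H) : ∃ n, Rch S H n w := by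
  have key : ∀ g : F, ∀ w : F ⧸ H, (∃ n, Rch S H n w) ↔ ∃ n, Rch S H n (g • w) := by
    intro g
    have hg : g ∈ closure S := by rw [hgen]; trivial
    induction hg using closure_induction with
    | mem s hs =>
      intro w
      constructor
      · rintro ⟨n, hn⟩
        exact ⟨n + 1, Rch.pos n w s hs hn⟩
      · rintro ⟨n, hn⟩
        have h1 := Rch.neg n _ s hs hn
        rw [inv_smul_smul] at h1
        exact ⟨n + 1, h1⟩
    | one => intro w; rw [one_smul]
    | mul x y _ _ hx hy =>
      intro w
      rw [mul_smul, ← hx, ← hy]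
    | inv x _ hx =>
      intro w
      rw [hx (x⁻¹ • w), smul_inv_smul]
  obtain ⟨a, rfl⟩ := QuotientGroup.mk_surjective w
  have h1 := (key a ((1 : F) : F ⧸ H)).mp ⟨0, Rch.zero⟩
  have h2 : a • ((1 : F) : F ⧸ H) = (a : F ⧸ H) := by
    rw [MulAction.Quotient.smul_coe, smul_eq_mul, mul_one]
  rw [h2] at h1
  exact h1

/-- generator or inverse -/
def hq (s : F) (b : Bool) : F := if b then s else s⁻¹

theorem core (TA : Set F) (hTA : TA ⊆ S) (hgen : closure S = ⊤)
    (huniv : ∀ (X : Type) [Group X] (t : F → X), ∃ ψ : F →* X, ∀ s ∈ S, ψ s = t s)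
    (hH : ∀ x ∈ TA, x ∈ H) :
    ∃ TH : Set F, H = closure TA ⊔ closure TH ∧ ∀ (X : Type) [Group X] (t0 t1 : F → X),
      ∃ ψ : H →* X, (∀ (x : F) (hx : x ∈ H), x ∈ TA → ψ ⟨x, hx⟩ = t0 x) ∧
        (∀ (x : F) (hx : x ∈ H), x ∈ TH → ψ ⟨x, hx⟩ = t1 x) := by
  classical
  let root : F ⧸ H := ((1 : F) : F ⧸ H)
  have hmemH : ∀ x : F, x • root = root ↔ x ∈ H := by
    intro x
    have h2 : x • root = (x : F ⧸ H) := by
      change x • ((1 : F) : F ⧸ H) = _
      rw [MulAction.Quotient.smul_coe, smul_eq_mul, mul_one]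
    rw [h2]
    change (x : F ⧸ H) = ((1 : F) : F ⧸ H) ↔ _
    rw [eq_comm, QuotientGroup.eq]
    simp
  let L : F ⧸ H → ℕ := fun w => Nat.find (reach S H hgen w)
  have hLspec : ∀ w, Rch S H (L w) w := fun w => Nat.find_spec (reach S H hgen w)
  have hLmin : ∀ w n, Rch S H n w → L w ≤ n := fun w n h => Nat.find_min' (reach S H hgen w) h
  have hLroot : L root = 0 := Nat.le_zero.mp (hLmin root 0 Rch.zero)
  -- parents
  have hpar : ∀ w, w ≠ root → ∃ (s : F) (e : Bool) (v : F ⧸ H), s ∈ S ∧ hq s e • v = w ∧
      L v + 1 = L w := by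
    intro w hw
    have h1 := hLspec w
    rcases h2 : L w with _ | m
    · rw [h2] at h1
      exfalso
      apply hw
      cases h1
      rfl
    · rw [h2] at h1
      cases h1 with
      | pos _ v s hs hv =>
        refine ⟨s, true, v, hs, rfl, ?_⟩
        have h3 := hLmin v m hv
        have h4 := hLmin (s • v) (L v + 1) (Rch.pos (L v) v s hs (hLspec v))
        omega
      | neg _ v s hs hv =>
        refine ⟨s, false, v, hs, rfl, ?_⟩
        have h3 := hLmin v m hv
        have h4 := hLmin (s⁻¹ • v) (L v + 1) (Rch.neg (L v) v s hs (hLspec v))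
        omega
  have hpar' : ∀ w, ∃ (s : F) (e : Bool) (v : F ⧸ H), w ≠ root → s ∈ S ∧ hq s e • v = w ∧
      L v + 1 = L w := by
    intro w
    by_cases hw : w = root
    · exact ⟨1, true, w, fun h => absurd hw h⟩
    · obtain ⟨s, e, v, h⟩ := hpar w hw
      exact ⟨s, e, v, fun _ => h⟩
  choose ps pe pw hp using hpar'
  let tau : ℕ → F ⧸ H → F := fun n => Nat.rec (fun _ => 1)
    (fun _ f w => hq (ps w) (pe w) * f (pw w)) n
  let τ : F ⧸ H → F := fun w => tau (L w) w
  have hτroot : τ root = 1 := by
    change tau (L root) root = 1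
    rw [hLroot]
    rfl
  have hτstep : ∀ w, w ≠ root → τ w = hq (ps w) (pe w) * τ (pw w) := by
    intro w hw
    change tau (L w) w = _
    rw [← (hp w hw).2.2]
  have hτ : ∀ n w, L w = n → τ w • root = w := by
    intro n
    induction n with
    | zero =>
      intro w hw
      by_cases h : w = root
      · rw [h, hτroot, one_smul]
      · have := (hp w h).2.2
        omega
    | succ n ih =>
      intro w hw
      have h : w ≠ root := by
        intro h
        rw [h, hLroot] at hw
        omega
      have h1 := hp w h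
      rw [hτstep w h, mul_smul, ih (pw w) (by omega)]
      exact h1.2.1
  have hτ' : ∀ w, τ w • root = w := fun w => hτ (L w) w rfl
  -- tree edges
  let Tr : F ⧸ H → F → Prop := fun w s =>
    (s • w ≠ root ∧ ps (s • w) = s ∧ pe (s • w) = true ∧ pw (s • w) = w) ∨
    (w ≠ root ∧ ps w = s ∧ pe w = false ∧ pw w = s • w)
  let hh : F ⧸ H → F → F := fun w s => (τ (s • w))⁻¹ * s * τ w
  have hhH : ∀ w s, hh w s ∈ H := by
    intro w s
    rw [← hmemH]
    change ((τ (s • w))⁻¹ * s * τ w) • root = root
    rw [mul_smul, mul_smul, hτ' w, inv_smul_eq_iff, hτ']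
  have hTr1 : ∀ w s, Tr w s → hh w s = 1 := by
    intro w s h
    change (τ (s • w))⁻¹ * s * τ w = 1
    rcases h with ⟨h1, h2, h3, h4⟩ | ⟨h1, h2, h3, h4⟩
    · rw [hτstep (s • w) h1, h2, h3, h4]
      change (s * τ w)⁻¹ * s * τ w = 1
      group
    · rw [hτstep w h1, h2, h3, h4]
      change (τ (s • w))⁻¹ * s * (s⁻¹ * τ (s • w)) = 1
      group
  have hnTr : ∀ x ∈ TA, ¬ Tr root x := by
    intro x hx h
    rcases h with ⟨h1, -⟩ | ⟨h1, -⟩
    · exact h1 ((hmemH x).mpr (hH x hx))
    · exact h1 rfl
  have hhroot : ∀ x ∈ TA, hh root x = x := by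
    intro x hx
    change (τ (x • root))⁻¹ * x * τ root = x
    rw [(hmemH x).mpr (hH x hx), hτroot]
    group
  let TH : Set F := {x | ∃ w s, s ∈ S ∧ ¬ Tr w s ∧ ¬ (w = root ∧ s ∈ TA) ∧ x = hh w s}
  refine ⟨TH, ?_, ?_⟩
  · apply le_antisymm
    · -- generation
      have hK : ∀ w, ∀ s ∈ S, hh w s ∈ closure TA ⊔ closure TH := by
        intro w s hs
        by_cases h1 : Tr w s
        · rw [hTr1 w s h1]
          exact one_mem _
        · by_cases h2 : w = root ∧ s ∈ TA
          · rw [h2.1, hhroot s h2.2]
            exact le_sup_left (a := closure TA) (subset_closure h2.2)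
          · exact le_sup_right (a := closure TA) (subset_closure ⟨w, s, hs, h1, h2, rfl⟩)
      have hK2 : ∀ g : F, ∀ w, hh w g ∈ closure TA ⊔ closure TH := by
        intro g
        have hg : g ∈ closure S := by rw [hgen]; trivial
        induction hg using closure_induction with
        | mem s hs => exact fun w => hK w s hs
        | one =>
          intro w
          have : hh w 1 = 1 := by
            change (τ ((1 : F) • w))⁻¹ * 1 * τ w = 1
            rw [one_smul]
            group
          rw [this]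
          exact one_mem _
        | mul x y _ _ hx hy =>
          intro w
          have : hh w (x * y) = hh (y • w) x * hh w y := by
            change (τ ((x * y) • w))⁻¹ * (x * y) * τ w =
              ((τ (x • (y • w)))⁻¹ * x * τ (y • w)) * ((τ (y • w))⁻¹ * y * τ w)
            rw [mul_smul]
            group
          rw [this]
          exact mul_mem (hx _) (hy _)
        | inv x _ hx =>
          intro w
          have : hh w x⁻¹ = (hh (x⁻¹ • w) x)⁻¹ := by
            change (τ (x⁻¹ • w))⁻¹ * x⁻¹ * τ w = ((τ (x • (x⁻¹ • w)))⁻¹ * x * τ (x⁻¹ • w))⁻¹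
            rw [smul_inv_smul]
            group
          rw [this]
          exact inv_mem (hx _)
      intro x hx
      have h1 := hK2 x root
      have h2 : hh root x = x := by
        change (τ (x • root))⁻¹ * x * τ root = x
        rw [(hmemH x).mpr hx, hτroot]
        group
      rwa [h2] at h1
    · apply sup_le
      · rw [closure_le]
        exact hH
      · rw [closure_le]
        rintro x ⟨w, s, _, _, _, rfl⟩
        exact hhH w s
  · intro X _ t0 t1
    let f' : F ⧸ H → F → X := fun w s =>
      if Tr w s then 1 else if w = root ∧ s ∈ TA then t0 s else t1 (hh w s)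
    let π : F → Equiv.Perm ((F ⧸ H) × X) := fun s =>
      { toFun := fun p => (s • p.1, f' p.1 s * p.2)
        invFun := fun p => (s⁻¹ • p.1, (f' (s⁻¹ • p.1) s)⁻¹ * p.2)
        left_inv := by
          rintro ⟨w, x⟩
          simp only [inv_smul_smul, inv_mul_cancel_left]
        right_inv := by
          rintro ⟨w, x⟩
          simp only [smul_inv_smul, mul_inv_cancel_left] }
    obtain ⟨Ψ, hΨ⟩ := huniv (Equiv.Perm ((F ⧸ H) × X)) π
    have hΨ1 : ∀ g : F, ∀ p : (F ⧸ H) × X, (Ψ g p).1 = g • p.1 := by
      intro g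
      have hg : g ∈ closure S := by rw [hgen]; trivial
      induction hg using closure_induction with
      | mem s hs => intro p; rw [hΨ s hs]; rfl
      | one => intro p; rw [map_one, one_smul]; rfl
      | mul x y _ _ hx hy =>
        intro p
        rw [map_mul, Equiv.Perm.mul_apply, hx, hy, mul_smul]
      | inv x _ hx =>
        intro p
        have h1 := hx (Ψ x⁻¹ p)
        have h2 : Ψ x (Ψ x⁻¹ p) = p := by
          rw [← Equiv.Perm.mul_apply, ← map_mul, mul_inv_cancel, map_one]; rfl
        rw [h2] at h1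
        rw [h1, inv_smul_smul]
    have hΨ2 : ∀ g : F, ∀ (p : (F ⧸ H) × X) (x : X),
        Ψ g (p.1, p.2 * x) = ((Ψ g p).1, (Ψ g p).2 * x) := by
      intro g
      have hg : g ∈ closure S := by rw [hgen]; trivial
      induction hg using closure_induction with
      | mem s hs =>
        intro p x
        rw [hΨ s hs]
        change (s • p.1, f' p.1 s * (p.2 * x)) = (s • p.1, (f' p.1 s * p.2) * x)
        rw [mul_assoc]
      | one => intro p x; rw [map_one]; rfl
      | mul a b _ _ ha hb =>
        intro p x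
        rw [map_mul, Equiv.Perm.mul_apply, hb, ha, Equiv.Perm.mul_apply]
      | inv a _ ha =>
        intro p x
        have h2 : ∀ q, Ψ a (Ψ a⁻¹ q) = q := by
          intro q
          rw [← Equiv.Perm.mul_apply, ← map_mul, mul_inv_cancel, map_one]; rfl
        apply (Ψ a).injective
        rw [h2, ha, h2]
    -- the transversal acts trivially
    have hτact : ∀ n w, L w = n → Ψ (τ w) (root, 1) = (w, 1) := by
      intro n
      induction n with
      | zero =>
        intro w hw
        by_cases h : w = root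
        · rw [h, hτroot, map_one]; rfl
        · have := (hp w h).2.2
          omega
      | succ n ih =>
        intro w hw
        have h : w ≠ root := by
          intro h
          rw [h, hLroot] at hw
          omega
        obtain ⟨h1, h2, h3⟩ := hp w h
        rw [hτstep w h, map_mul, Equiv.Perm.mul_apply, ih (pw w) (by omega)]
        rcases he : pe w with _ | _
        · -- negative
          rw [he] at h2
          have h5 : hq (ps w) false = (ps w)⁻¹ := rfl
          rw [h5] at h2 ⊢
          have h6 : pw w = ps w • w := inv_smul_eq_iff.mp h2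
          have h7 : Ψ (ps w) (w, 1) = (pw w, 1) := by
            rw [hΨ (ps w) h1]
            change (ps w • w, f' w (ps w) * 1) = (pw w, 1)
            have h8 : f' w (ps w) = 1 := if_pos (Or.inr ⟨h, rfl, he, h6⟩)
            rw [h8, mul_one, h6]
          rw [← h7, ← Equiv.Perm.mul_apply, ← map_mul, inv_mul_cancel, map_one]
          rfl
        · rw [he] at h2
          have h5 : hq (ps w) true = ps w := rfl
          rw [h5] at h2 ⊢
          rw [hΨ (ps w) h1]
          change (ps w • pw w, f' (pw w) (ps w) * 1) = (w, 1)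
          have h8 : f' (pw w) (ps w) = 1 := by
            apply if_pos
            left
            rw [h2]
            exact ⟨h, rfl, he, rfl⟩
          rw [h8, mul_one, h2]
    have hτact' : ∀ w, Ψ (τ w) (root, 1) = (w, 1) := fun w => hτact (L w) w rfl
    let ψ : H →* X :=
      { toFun := fun h => (Ψ (h : F) (root, 1)).2
        map_one' := by
          rw [Subgroup.coe_one, map_one]; rfl
        map_mul' := by
          intro a b
          rw [Subgroup.coe_mul, map_mul, Equiv.Perm.mul_apply]
          have h1 : Ψ (b : F) (root, 1) = (root, 1 * (Ψ (b : F) (root, 1)).2) := by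
            rw [one_mul]
            refine Prod.ext ?_ rfl
            rw [hΨ1]
            exact (hmemH _).mpr b.2
          rw [h1, hΨ2 (a : F) (root, 1)]
          simp only [one_mul]  }
    have hψ : ∀ w, ∀ s ∈ S, ∀ hx : hh w s ∈ H, ψ ⟨hh w s, hx⟩ = f' w s := by
      intro w s hs hx
      change (Ψ ((τ (s • w))⁻¹ * s * τ w) (root, 1)).2 = f' w s
      rw [map_mul, map_mul, Equiv.Perm.mul_apply, Equiv.Perm.mul_apply, hτact', hΨ s hs]
      change (Ψ (τ (s • w))⁻¹ (s • w, f' w s * 1)).2 = f' w s
      rw [mul_one]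
      have h1 : ((s • w, f' w s) : (F ⧸ H) × X) = Ψ (τ (s • w)) (root, f' w s) := by
        have h2 := hΨ2 (τ (s • w)) (root, 1) (f' w s)
        rw [hτact'] at h2
        simp only [one_mul] at h2
        exact h2.symm
      rw [h1, ← Equiv.Perm.mul_apply, ← map_mul, inv_mul_cancel, map_one]
      rfl
    refine ⟨ψ, ?_, ?_⟩
    · intro x hx hxT
      have h1 := hψ root x (hTA hxT)
      rw [hhroot x hxT] at h1
      rw [h1 hx]
      change (if Tr root x then 1 else if root = root ∧ x ∈ TA then t0 x else t1 (hh root x)) = t0 x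
      rw [if_neg (hnTr x hxT), if_pos ⟨rfl, hxT⟩]
    · rintro x hx ⟨w, s, hs, h1, h2, rfl⟩
      rw [hψ w s hs hx]
      change (if Tr w s then 1 else if w = root ∧ s ∈ TA then t0 s else t1 (hh w s)) = t1 (hh w s)
      rw [if_neg h1, if_neg h2]

end


theorem sch_aux (G : Type) [Group G] (A H F : Subgroup G) (h1 : FF ⊥ A) (h2 : FF A F)
    (h3 : A ≤ H) (h4 : H ≤ F) : FF A H := by
  classical
  obtain ⟨-, TA, hA, uA⟩ := h1
  obtain ⟨hAF, TF, hF, uF⟩ := h2
  rw [bot_sup_eq] at hA
  have hTAA : TA ⊆ (A : Set G) := by rw [hA]; exact subset_closure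
  have hTFF : TF ⊆ (F : Set G) := by
    rw [hF]
    exact fun x hx => le_sup_right (a := A) (subset_closure hx)
  let S : Set F := {x | (x : G) ∈ TA ∪ TF}
  let TA' : Set F := {x | (x : G) ∈ TA}
  have himS : ((↑) : F → G) '' S = TA ∪ TF := by
    ext x
    constructor
    · rintro ⟨y, hy, rfl⟩
      exact hy
    · intro hx
      have hxF : x ∈ F := by
        rcases hx with hx | hx
        · exact hAF (hTAA hx)
        · exact hTFF hx
      exact ⟨⟨x, hxF⟩, hx, rfl⟩
  have himA : ((↑) : F → G) '' TA' = TA := by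
    ext x
    constructor
    · rintro ⟨y, hy, rfl⟩
      exact hy
    · intro hx
      exact ⟨⟨x, hAF (hTAA hx)⟩, hx, rfl⟩
  have hgen : closure S = ⊤ := by
    apply map_injective F.subtype_injective
    rw [MonoidHom.map_closure]
    change closure (((↑) : F → G) '' S) = _
    rw [himS, ← MonoidHom.range_eq_map, Subgroup.range_subtype, Subgroup.closure_union, ← hA]
    exact hF.symm
  have huniv : ∀ (X : Type) [Group X] (t : F → X), ∃ ψ : F →* X, ∀ s ∈ S, ψ s = t s := by
    intro X _ t
    let t' : G → X := fun x => if hx : x ∈ F then t ⟨x, hx⟩ else 1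
    obtain ⟨ψ1, -, hψ1⟩ := uA X 1 t'
    obtain ⟨ψ2, h5, h6⟩ := uF X ψ1 t'
    refine ⟨ψ2, ?_⟩
    rintro ⟨s, hs⟩ hsS
    rcases hsS with hsS | hsS
    · rw [h5 s (hTAA hsS) hs, hψ1 s (hTAA hsS) hsS]
      exact dif_pos hs
    · rw [h6 s hs hsS]
      exact dif_pos hs
  obtain ⟨TH, hTH, uTH⟩ := core S (H.subgroupOf F) TA' (fun x hx => Or.inl hx) hgen huniv
    (fun x hx => by
      rw [mem_subgroupOf]
      exact h3 (hTAA hx))
  have hTHH : ∀ x ∈ TH, (x : G) ∈ H := by
    intro x hx
    have h5 : x ∈ H.subgroupOf F := by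
      rw [hTH]
      exact le_sup_right (a := closure TA') (subset_closure hx)
    exact mem_subgroupOf.mp h5
  refine ⟨h3, ((↑) : F → G) '' TH, ?_, ?_⟩
  · have h5 : (H.subgroupOf F).map F.subtype = H := by
      rw [subgroupOf_map_subtype, inf_eq_left.mpr h4]
    have h6 := congrArg (Subgroup.map F.subtype) hTH
    rw [h5, Subgroup.map_sup, MonoidHom.map_closure, MonoidHom.map_closure] at h6
    change H = closure (((↑) : F → G) '' TA') ⊔ closure (((↑) : F → G) '' TH) at h6
    rw [himA, ← hA] at h6
    exact h6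
  · intro X _ φ t
    let t0 : F → X := fun x => if hx : (x : G) ∈ A then φ ⟨x, hx⟩ else 1
    obtain ⟨ψ, h5, h6⟩ := uTH X t0 (fun x => t (x : G))
    let j : H →* H.subgroupOf F :=
      { toFun := fun x => ⟨⟨x, h4 x.2⟩, mem_subgroupOf.mpr x.2⟩
        map_one' := rfl
        map_mul' := fun _ _ => rfl }
    refine ⟨ψ.comp j, ?_, ?_⟩
    · intro x hx hx'
      -- both homomorphisms on A agree on TA
      let i : A →* H := inclusion h3
      have key : ∀ (y : G) (hy : y ∈ closure TA) (hyA : y ∈ A),
          (ψ.comp (j.comp i)) ⟨y, hyA⟩ = φ ⟨y, hyA⟩ := by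
        intro y hy
        induction hy using closure_induction with
        | mem y hy =>
          intro hyA
          have h7 := h5 ⟨y, hAF hyA⟩ (mem_subgroupOf.mpr (h3 hyA)) hy
          change ψ ⟨⟨y, _⟩, _⟩ = _
          rw [h7]
          exact dif_pos hyA
        | one => intro hyA; exact (map_one (ψ.comp (j.comp i))).trans (map_one φ).symm
        | mul a b ha hb iha ihb =>
          intro hyA
          have haA : a ∈ A := by rw [hA]; exact ha
          have hbA : b ∈ A := by rw [hA]; exact hb
          have e1 : (⟨a * b, hyA⟩ : A) = ⟨a, haA⟩ * ⟨b, hbA⟩ := rfl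
          rw [e1, map_mul, map_mul, iha haA, ihb hbA]
        | inv a ha iha =>
          intro hyA
          have haA : a ∈ A := by rw [hA]; exact ha
          have e1 : (⟨a⁻¹, hyA⟩ : A) = ⟨a, haA⟩⁻¹ := rfl
          rw [e1, map_inv, map_inv, iha haA]
      exact key x (hA ▸ hx) hx
    · rintro x hx' ⟨y, hy, rfl⟩
      exact h6 y (mem_subgroupOf.mpr hx') hy

end Pool.Agent.FRK.Sch

namespace Pool.Agent.FRK

theorem sch_proof : Stmt_Sch := by
  intro G _ A H F h1 h2 h3 h4
  exact Sch.sch_aux G A H F h1 h2 h3 h4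

end Pool.Agent.FRK
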