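import Pool.Agent.FRK.Kit

/-! FRK, module Small: far apices see everything under a small angle. -/

namespace Pool.Agent.FRK

open Pool.Agent.BURN Pool.Agent.BURR

variable [RP]

open Kit in
theorem Small_proof (E : Eng) : Stmt_Small := by
  intro S F C i hfar x hx y hy' hxc hyc
  have hdg := dgG E S
  have hy := hypG E S
  have hqc := win_qc E S F C
  obtain ⟨_, n1, n2, _, _, n3, _⟩ := num1'
  have n4 := num2
  have hself : ∀ z : S.Gm, S.dg z z = 0 := fun z => (hdg.eq_zero z z).2 rfl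
  have hW : ∀ w ∈ Win S F C, ∀ w' ∈ Win S F C, 2 * f3 + 6 * del1 + 21 ≤ gp S.dg w w' (S.ap i) := by
    intro w hw w' hw'
    obtain ⟨γ, hγ⟩ := exists_geod hdg w w'
    obtain ⟨m1, m2⟩ := near_geod hdg hy hγ (S.ap i)
    obtain ⟨u2, hu2, hd2⟩ := hqc w hw w' hw' _ (hγ.btw' m1)
    have t1 := hdg.tri (S.ap i) (γ (gp S.dg w' (S.ap i) w / 2)) u2
    have t2 := hfar u2 hu2
    generalize f3 = f at *
    generalize del1 = e at *
    omega
  have pick : ∀ z ∈ F ∪ C ∪ Cnew S F C, z ≠ S.ap i → ∃ w ∈ Win S F C,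
      2 * f3 + 6 * del1 + 21 ≤ gp S.dg z w (S.ap i) := by
    intro z hz hzc
    rcases hz with hz | hz
    · exact ⟨z, sub_win E S F C hz, hW _ (sub_win E S F C hz) _ (sub_win E S F C hz)⟩
    · obtain ⟨⟨j, rfl⟩, _, w, hw, h3⟩ := hz
      refine ⟨w, hw, ?_⟩
      have hji : j ≠ i := fun h => hzc (by rw [h])
      have h4 := ap_far E S hji
      have g1 := gp_add hdg (S.ap j) w (S.ap i)
      have t1 := hdg.tri (S.ap j) w (S.ap i)
      generalize f3 = f at *
      generalize del1 = e at *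
      omega
  obtain ⟨w, hw, h1⟩ := pick x hx hxc
  obtain ⟨w', hw', h2⟩ := pick y hy' hyc
  have h3 := hW w hw w' hw'
  have H1 := hyp_gp hdg hy x y w (S.ap i)
  have H2 := hyp_gp hdg hy w y w' (S.ap i)
  rw [gp_comm hdg y w'] at h2
  have hmain : 2 * f3 + 1 ≤ gp S.dg x y (S.ap i) := by
    generalize f3 = f at *
    generalize del1 = e at *
    omega
  refine ⟨hmain, ?_⟩
  intro A B hA hB
  by_contra hcon
  have := E.vr0 S.X S.I S.D S.Y rho (cd E S) i x y A B hA hB (not_lt.1 hcon)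
  change gp S.dg x y (S.ap i) ≤ 2 * f3 at this
  generalize f3 = f at *
  omega

end Pool.Agent.FRK
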