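import Pool.Agent.FRK.Kit
import Pool.Agent.BURR.Step

namespace Pool.Agent.FRK

open Pool.Agent.BURN Pool.Agent.BURR

variable [RP]

theorem Step2_proof (E : Eng) (hLRel : Stmt_LRel) (hLineG : Stmt_LineG) (hH2 : Stmt_H2)
    (hH6 : Stmt_H6) (hS3 : Stmt_S3) (hS5 : Stmt_S5) (hS5b : Stmt_S5b) (hS6 : Stmt_S6)
    (hLB2 : Stmt_LB2) (hMS : Stmt_MStep) : Stmt_Step2 := by
  intro G X _ hC _ d N p hG hLine hp hpN
  let S : KSys := StepX.mkS d N (fun _ => p) hG (fun _ _ => ⟨by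
    have := nq_pos
    show nq ≤ p
    omega, hpN⟩) (fun _ _ _ _ _ => rfl)
  have hbig : Big S := ⟨fun i => hp, hC, hLine⟩
  have hgood := StepX.kSys_good E.krf E.h34 hH2 hH6 S
  refine ⟨S.Gb, S.Xb, inferInstance, inferInstance, S.db, S.π, fun x => S.q (S.bs x), ?_, hgood,
    ?_, ?_, ?_⟩
  · haveI : Countable S.G := hC
    exact S.psurj.countable
  · exact hLineG S.Gb S.Xb S.db S.N hgood (E.h34 S).2.2
  · exact StepX.kSys_rel E.kcd E.krf E.kstab E.h34 hS3 hS5 hS5b hS6 hLB2 hMS S (fun _ => p)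
      (fun i => rfl)
  · exact hLRel S hbig

end Pool.Agent.FRK
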