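import Pool.Agent.FRK.Kit

namespace Pool.Agent.FRK

open Pool.Agent.BURN Pool.Agent.BURR

namespace Str

theorem gp_big {X : Type} {d : X → X → ℕ} (h : IsDG d) (c c' p : X) :
    2 * d c c' ≤ gp d c' p c + 2 * d c' p := by
  have h1 := gp_add h c' p c
  have h2 := h.tri c' p c
  have h3 := h.symm c c'
  omega

/-- the two end apices of the part of the geodesic around w -/
theorem two_ends {G X : Type} [Group G] [MulAction G X] {d : X → X → ℕ} {δ : ℕ} {C : Set X}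
    {R : X → Subgroup G} {α β σ : ℕ} (hRF : RF d C R δ α β σ) (hNA : Stmt_NoApex)
    {e : ℕ} (he : (eta1 δ β + 2 * δ + 1) / 2 + δ ≤ e) (hσ : 4 * e + eta1 δ β + 4 * δ < σ)
    {x y w : X} (hb : Pool.Agent.BURN.Btw d x w y) :
    ∃ c1 c2, (c1 = x ∨ (c1 ∈ C ∧ ∃ p, Pool.Agent.BURN.Btw d x p y ∧ d c1 p ≤ e)) ∧
      (c2 = y ∨ (c2 ∈ C ∧ ∃ p, Pool.Agent.BURN.Btw d x p y ∧ d c2 p ≤ e)) ∧
      d c1 w + d w c2 ≤ dK d (KK C R) c1 c2 + 2 * aa0 δ α β + 4 * e := by
  classical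
  have h := hRF.dg
  have hy := hRF.hyp
  obtain ⟨g, hg, hgw⟩ := exists_geod_through h hb
  have hbw : d x w + d w y = d x y := hb
  set L := d x y with hL
  set t := d x w with ht
  have htL : t ≤ L := by omega
  set η := eta1 δ β with hη
  let Cut : X → Prop := fun c => c ∈ C ∧ c ≠ x ∧ c ≠ y ∧ gp d x y c ≤ η + 2 * δ
  let pos : X → ℕ := fun c => gp d y c x / 2
  have hcut : ∀ c, Cut c → pos c ≤ L ∧ d c (g (pos c)) ≤ e := by
    rintro c ⟨_, _, _, h4⟩
    obtain ⟨a1, a2⟩ := near_geod h hy hg c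
    refine ⟨a1, ?_⟩
    have : (gp d x y c + 1) / 2 ≤ (η + 2 * δ + 1) / 2 := by omega
    show d c (g (gp d y c x / 2)) ≤ e
    omega
  have hgij : ∀ i j, i ≤ j → j ≤ L → d (g i) (g j) = j - i := hg.2.2
  -- left end
  have left : ∃ m c, m ≤ t ∧ d c (g m) ≤ e ∧ ((Cut c ∧ m = pos c) ∨ (c = x ∧ m = 0)) ∧
      ∀ c', Cut c' → c' ≠ c → pos c' ≤ t → Cut c ∧ pos c' ≤ m := by
    by_cases hl : ∃ s, s ≤ t ∧ ∃ c, Cut c ∧ s = pos c
    · obtain ⟨s0, hs0, hs1⟩ := hl
      set P : ℕ → Prop := fun s => ∃ c, Cut c ∧ s = pos c with hP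
      have hPm : P (Nat.findGreatest P t) := Nat.findGreatest_spec hs0 hs1
      obtain ⟨c, hc, hm⟩ := hPm
      refine ⟨Nat.findGreatest P t, c, Nat.findGreatest_le t, ?_, Or.inl ⟨hc, hm⟩, ?_⟩
      · rw [hm]; exact (hcut c hc).2
      · intro c' hc' _ hp
        exact ⟨hc, Nat.le_findGreatest hp ⟨c', hc', rfl⟩⟩
    · refine ⟨0, x, Nat.zero_le _, ?_, Or.inr ⟨rfl, rfl⟩, ?_⟩
      · rw [hg.1, LadderX.self_zero h]; exact Nat.zero_le _
      · intro c' hc' _ hp
        exact absurd ⟨pos c', hp, c', hc', rfl⟩ hl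
  have right : ∃ m c, t ≤ m ∧ m ≤ L ∧ d c (g m) ≤ e ∧ ((Cut c ∧ m = pos c) ∨ (c = y ∧ m = L)) ∧
      ∀ c', Cut c' → c' ≠ c → t ≤ pos c' → Cut c ∧ m ≤ pos c' := by
    by_cases hl : ∃ s, t ≤ s ∧ ∃ c, Cut c ∧ s = pos c
    · have hs := Nat.find_spec hl
      obtain ⟨hs0, c, hc, hm⟩ := hs
      refine ⟨Nat.find hl, c, hs0, ?_, ?_, Or.inl ⟨hc, hm⟩, ?_⟩
      · rw [hm]; exact (hcut c hc).1
      · rw [hm]; exact (hcut c hc).2
      · intro c' hc' _ hp
        exact ⟨hc, Nat.find_min' hl ⟨hp, c', hc', rfl⟩⟩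
    · refine ⟨L, y, htL, le_rfl, ?_, Or.inr ⟨rfl, rfl⟩, ?_⟩
      · rw [hg.2.1, LadderX.self_zero h]; exact Nat.zero_le _
      · intro c' hc' _ hp
        exact absurd ⟨pos c', hp, c', hc', rfl⟩ hl
  obtain ⟨m, c1, hm, hd1, hc1, hl⟩ := left
  obtain ⟨m', c2, hm', hmL, hd2, hc2, hr⟩ := right
  have hbt : ∀ i, i ≤ L → Pool.Agent.BURN.Btw d x (g i) y := fun i hi => hg.btw' hi
  have eP : d (g m) (g m') = m' - m := hgij m m' (by omega) hmL
  -- no small angles between c1 and c2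
  have claim : ∀ c ∈ C, c ≠ c1 → c ≠ c2 → η < gp d c1 c2 c := by
    intro c hc n1 n2
    by_contra hcon
    have hsm : gp d c1 c2 c ≤ η := by omega
    -- step 1
    have s1 : gp d (g m) c2 c ≤ η + δ := by
      rcases hc1 with ⟨⟨hcC, _⟩, _⟩ | ⟨rfl, rfl⟩
      · have hf := hRF.sep c hc c1 hcC n1
        have hb1 := gp_big h c c1 (g m)
        have hh := hyp_gp h hy c1 c2 (g m) c
        rcases min_le_iff.1 hh with hh | hh
        · omega
        · omega
      · rw [hg.1]; omega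
    have s2 : gp d (g m) (g m') c ≤ η + 2 * δ := by
      rcases hc2 with ⟨⟨hcC, _⟩, _⟩ | ⟨rfl, rfl⟩
      · have hf := hRF.sep c hc c2 hcC n2
        have hb1 := gp_big h c c2 (g m')
        have e1 := gp_comm h c2 (g m') c
        have hh := hyp_gp h hy (g m) c2 (g m') c
        rcases min_le_iff.1 hh with hh | hh
        · omega
        · omega
      · rw [hg.2.1]; omega
    have a0 := gp_add h (g m) (g m') c
    by_cases hx : c = x
    · -- c = x, then c1 is a cut apex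
      rcases hc1 with ⟨⟨hcC, hcx, _⟩, _⟩ | ⟨rfl, _⟩
      · subst hx
        have hf := hRF.sep c hc c1 hcC (Ne.symm hcx)
        have d1 : d c (g m) = m := hg.dist_left (by omega)
        have d2 : d c (g m') = m' := hg.dist_left (by omega)
        have t1 := h.tri c (g m) c1
        have s1' := h.symm (g m) c1
        have s2' := h.symm (g m) c
        have s3' := h.symm (g m') c
        omega
      · exact n1 hx
    by_cases hyy : c = y
    · rcases hc2 with ⟨⟨hcC, _, hcy, _⟩, _⟩ | ⟨rfl, _⟩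
      · subst hyy
        have hf := hRF.sep c hc c2 hcC (Ne.symm hcy)
        have d1 : d (g m) c = L - m := hg.dist_right (by omega)
        have d2 : d (g m') c = L - m' := hg.dist_right (by omega)
        have t1 := h.tri c (g m') c2
        have s1' := h.symm (g m') c2
        have s3' := h.symm (g m') c
        omega
      · exact n2 hyy
    -- c is a cut apex
    have hcc : Cut c := by
      refine ⟨hc, hx, hyy, ?_⟩
      have b1 : Pool.Agent.BURN.Btw d x (g m) (g m') := by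
        have := hg.btw (Nat.zero_le m) (show m ≤ m' by omega) hmL
        rwa [hg.1] at this
      have b2 : Pool.Agent.BURN.Btw d x (g m') y := hbt m' hmL
      have g1 := gp_mono h b1 c
      have g2 := gp_mono h (btw_symm h b2) c
      have c1' := gp_comm h y x c
      have c2' := gp_comm h (g m') x c
      omega
    obtain ⟨p1, p2⟩ := hcut c hcc
    have u1 := h.tri (g m) c (g (pos c))
    have u2 := h.tri (g m') c (g (pos c))
    rcases le_total (pos c) t with hp | hp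
    · obtain ⟨hcu, hle⟩ := hl c hcc n1 hp
      have hf := hRF.sep c hc c1 hcu.1 n1
      have v1 : d (g (pos c)) (g m) = m - pos c := hgij _ _ hle (by omega)
      have v2 : d (g (pos c)) (g m') = m' - pos c := hgij _ _ (by omega) hmL
      have w1 := h.tri c (g (pos c)) c1
      have w2 := h.tri (g (pos c)) (g m) c1
      have z1 := h.symm (g m) c1
      have z2 := h.symm (g (pos c)) (g m)
      have z3 := h.symm (g (pos c)) (g m')
      omega
    · obtain ⟨hcu, hle⟩ := hr c hcc n2 hp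
      have hf := hRF.sep c hc c2 hcu.1 n2
      have v1 : d (g m) (g (pos c)) = pos c - m := hgij _ _ (by omega) p1
      have v2 : d (g m') (g (pos c)) = pos c - m' := hgij _ _ hle p1
      have w1 := h.tri c (g (pos c)) c2
      have w2 := h.tri (g (pos c)) (g m') c2
      have z1 := h.symm (g m') c2
      have z3 := h.symm (g (pos c)) (g m')
      omega
  have hfin := hNA G X d C R δ α β σ hRF c1 c2 claim
  refine ⟨c1, c2, ?_, ?_, ?_⟩
  · rcases hc1 with ⟨hcc, rfl⟩ | ⟨hh, _⟩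
    · exact Or.inr ⟨hcc.1, g (pos c1), hbt _ (hcut c1 hcc).1, (hcut c1 hcc).2⟩
    · exact Or.inl hh
  · rcases hc2 with ⟨hcc, rfl⟩ | ⟨hh, _⟩
    · exact Or.inr ⟨hcc.1, g (pos c2), hbt _ (hcut c2 hcc).1, (hcut c2 hcc).2⟩
    · exact Or.inl hh
  · have w0 : g t = w := hgw
    have v1 : d (g m) (g t) = t - m := hgij _ _ hm htL
    have v2 : d (g t) (g m') = m' - t := hgij _ _ hm' hmL
    rw [w0] at v1 v2
    have u1 := h.tri c1 (g m) w
    have u2 := h.tri w (g m') c2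
    have u3 := h.tri (g m) c1 (g m')
    have u4 := h.tri c1 c2 (g m')
    have z1 := h.symm (g m) c1
    have z2 := h.symm (g m') c2
    omega

end Str

variable [RP]

theorem Str_proof (E : Eng) (hNA : Stmt_NoApex) : Stmt_Str := by
  intro S Γ F C Rb k κ hSt hQC hCtl w hw
  obtain ⟨x, hx, y, hy, hb⟩ := hw
  have hRF := Kit.rf E S
  obtain ⟨n1, n2, n3, n4, n5, n6, n7, n8, n9⟩ := Kit.num1'
  have n10 := Kit.num2
  obtain ⟨e, he⟩ : ∃ e, e = (eta1 del1 (2 * f3) + 2 * del1 + 1) / 2 + del1 := ⟨_, rfl⟩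
  have he2 : 100000 * e ≤ dd := by
    rw [he]
    generalize eta1 del1 (2 * f3) = a at *
    generalize del1 = b at *
    generalize dd = D at *
    omega
  have hσ : 4 * e + eta1 del1 (2 * f3) + 4 * del1 < 2 * rho + 2 := by
    generalize eta1 del1 (2 * f3) = a at *
    generalize del1 = b at *
    generalize dd = D at *
    generalize rho = r at *
    omega
  obtain ⟨c1, c2, h1, h2, h3⟩ := Str.two_ends hRF hNA (e := e) (he ▸ le_rfl) hσ hb
  have hdK : dK S.dg (KK (Set.range S.ap) S.R) c1 c2 = S.db (S.q c1) (S.q c2) :=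
    (S.qdist c1 c2).symm
  rw [hdK] at h3
  -- c1, c2 ∈ F ∪ C
  have hin : ∀ c, (c ∈ Set.range S.ap ∧ ∃ p, Pool.Agent.BURN.Btw S.dg x p y ∧ S.dg c p ≤ e) →
      c ∈ C := by
    rintro c ⟨⟨i, rfl⟩, p, hp, hle⟩
    refine hSt.full i p ⟨x, hx, y, hy, hp⟩ ?_
    omega
  have k1 : c1 ∈ F ∪ C := by
    rcases h1 with rfl | h1
    · exact hx
    · exact Or.inr (hin c1 h1)
  have k2 : c2 ∈ F ∪ C := by
    rcases h2 with rfl | h2
    · exact hy
    · exact Or.inr (hin c2 h2)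
  have dG := Kit.dgG E S
  have dB := Kit.dgB E S
  have hB := Kit.hypB E S
  -- points of Rb near the images
  have near : ∀ c ∈ F ∪ C, ∃ r ∈ Rb, (c ∈ F ∧ r = S.q c) ∨ (c ∈ C ∧ S.db (S.q c) r ≤ κ) := by
    rintro c (hc | hc)
    · exact ⟨S.q c, hCtl.1 c hc, Or.inl ⟨hc, rfl⟩⟩
    · obtain ⟨r, hr, hle⟩ := hCtl.2 c hc
      exact ⟨r, hr, Or.inr ⟨hc, hle⟩⟩
  obtain ⟨r1, hr1, hn1⟩ := near c1 k1
  obtain ⟨r2, hr2, hn2⟩ := near c2 k2
  have q1 := Kit.q_le E S c1 w
  have q2 := Kit.q_le E S w c2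
  obtain ⟨E0, hE0⟩ : ∃ E0, E0 = 2 * aa0 del1 (2 * f3 + 1) (2 * f3) + 4 * e := ⟨_, rfl⟩
  have hE1 : 10000 * E0 ≤ dd := by
    rw [hE0]
    generalize aa0 del1 (2 * f3 + 1) (2 * f3) = a at *
    omega
  have h3' : S.dg c1 w + S.dg w c2 ≤ S.db (S.q c1) (S.q c2) + E0 := by
    rw [hE0]; omega
  have g0 := gp_add dB (S.q c1) (S.q c2) (S.q w)
  have sy2 := dB.symm (S.q c2) (S.q w)
  have sG1 := dG.symm c1 w
  have tb := dB.tri (S.q c1) (S.q w) (S.q c2)
  have hgp : gp S.db (S.q c1) (S.q c2) (S.q w) ≤ E0 := by omega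
  -- one end
  have endcase : ∀ c r, r ∈ Rb → ((c ∈ F ∧ r = S.q c) ∨ (c ∈ C ∧ S.db (S.q c) r ≤ κ)) →
      S.dg c w ≤ S.db (S.q c) (S.q w) + E0 → gp S.db (S.q c) r (S.q w) ≤ E0 + 2 * dd →
      S.q w ∈ Nbh S.db (k + 3 * dd) Rb ∨ ∃ c ∈ C, S.dg w c ≤ κ + 3 * dd := by
    intro c r hr hcr hle hg
    have a1 := gp_add dB (S.q c) r (S.q w)
    have s1 := dB.symm (S.q c) (S.q w)
    have s2 := dG.symm c w
    rcases hcr with ⟨_, rfl⟩ | ⟨hc, hle2⟩
    · left
      refine ⟨S.q c, hr, ?_⟩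
      rw [LadderX.self_zero dB] at a1
      omega
    · right
      refine ⟨c, hc, ?_⟩
      omega
  have m1 := hyp_gp dB hB (S.q c1) (S.q c2) r1 (S.q w)
  rcases min_le_iff.1 m1 with m1 | m1
  · exact endcase c1 r1 hr1 hn1 (by omega) (by omega)
  have m2 := hyp_gp dB hB r1 (S.q c2) r2 (S.q w)
  rcases min_le_iff.1 m2 with m2 | m2
  · left
    obtain ⟨p, hp1, hp2⟩ := LadderX.near_btw dB hB r1 r2 (S.q w)
    obtain ⟨r, hr, hle⟩ := hQC r1 hr1 r2 hr2 p hp1
    refine ⟨r, hr, ?_⟩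
    have := dB.tri (S.q w) p r
    omega
  · refine endcase c2 r2 hr2 hn2 ?_ ?_
    · have := dG.symm c2 w
      omega
    · rw [gp_comm dB]
      omega

end Pool.Agent.FRK
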