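import Pool.Agent.FRK.Kit
import Pool.Agent.BURN.W97Mid

/-! FRK TCOM: elements moving the ends of a long segment by a bounded amount have common powers. -/

namespace Pool.Agent.FRK

open Pool.Agent.BURN Pool.Agent.BURR

namespace TCom

theorem ivt (g : ℕ → ℤ) (s v : ℤ) (hs : 0 ≤ s) : ∀ n : ℕ, (∀ k < n, |g (k + 1) - g k| ≤ s) →
    g 0 ≤ v → v ≤ g n → ∃ k ≤ n, |g k - v| ≤ s := by
  intro n
  induction n with
  | zero =>
    intro _ h1 h2
    refine ⟨0, le_refl _, ?_⟩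
    rw [show g 0 - v = 0 by omega, abs_zero]
    exact hs
  | succ n ih =>
    intro hst h1 h2
    by_cases h3 : v ≤ g n
    · obtain ⟨k, hk, hk'⟩ := ih (fun k hk => hst k (by omega)) h1 h3
      exact ⟨k, by omega, hk'⟩
    · refine ⟨n + 1, le_refl _, ?_⟩
      have := hst n (by omega)
      rw [abs_le] at this ⊢
      constructor <;> omega

variable {G X : Type} [Group G] [MulAction G X] {d : X → X → ℕ}

theorem disp_pow (hD : IsDG d) (hi : IsIso G d) (g : G) (x : X) (j : ℕ) :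
    d x (g ^ j • x) ≤ j * d x (g • x) := by
  induction j with
  | zero =>
    simp only [pow_zero, one_smul, Nat.zero_mul, Nat.le_zero_eq]
    exact (hD.eq_zero x x).2 rfl
  | succ j ih =>
    have e : g ^ (j + 1) • x = g ^ j • g • x := by
      rw [smul_smul, ← pow_succ]
    have t := hD.tri x (g ^ j • x) (g ^ (j + 1) • x)
    rw [e, hi] at t
    rw [e]
    have : (j + 1) * d x (g • x) = j * d x (g • x) + d x (g • x) := by ring
    omega

theorem disp_zpow (hD : IsDG d) (hi : IsIso G d) (g : G) (x : X) (j : ℤ) :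
    d x (g ^ j • x) ≤ j.natAbs * d x (g • x) := by
  cases j with
  | ofNat k =>
    rw [Int.ofNat_eq_natCast, zpow_natCast, Int.natAbs_natCast]
    exact disp_pow hD hi g x k
  | negSucc k =>
    rw [zpow_negSucc, Int.natAbs_negSucc]
    have h1 := hi (g ^ (k + 1)) x ((g ^ (k + 1))⁻¹ • x)
    rw [smul_inv_smul] at h1
    rw [← h1, hD.symm]
    exact disp_pow hD hi g x (k + 1)

end TCom

open TCom in
theorem TCom_proof (hT : Stmt_TStab) : Stmt_TCom := by
  intro H X _ _ d δ Bf h L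
  classical
  obtain ⟨R1, hR1, hst⟩ := hT H X d δ Bf h
  have hδ := h.one_le
  obtain ⟨s, hs⟩ : ∃ s, s = L + δ := ⟨_, rfl⟩
  obtain ⟨r, hr⟩ : ∃ r, r = 6 * δ + s := ⟨_, rfl⟩
  obtain ⟨N0, hN0⟩ : ∃ N0, N0 = Bf r := ⟨_, rfl⟩
  obtain ⟨M, hM⟩ : ∃ M, M = N0 * s + 10 * δ + 1 := ⟨_, rfl⟩
  obtain ⟨N1, hN1⟩ : ∃ N1, N1 = R1 * M := ⟨_, rfl⟩
  obtain ⟨l, hl⟩ : ∃ l, l = (N0 + N1) * L := ⟨_, rfl⟩
  refine ⟨4 * l + 4 * δ + 8, ?_⟩
  intro x y hxy g g' hg hg' hx hy hx' hy'
  obtain ⟨γ, hγ⟩ := exists_geod h.dg x y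
  obtain ⟨t, ht⟩ : ∃ t, t = d x y / 2 := ⟨_, rfl⟩
  have ht1 : 2 * l + δ + 1 ≤ t := by omega
  have ht2 : t + 2 * l + δ + 1 ≤ d x y := by omega
  obtain ⟨o, ho⟩ : ∃ o, o = γ t := ⟨_, rfl⟩
  have hbt : Btw d x o y := by rw [ho]; exact hγ.btw' (by omega)
  -- displacement of powers
  have hpow : ∀ (u : H) (z : X) (j : ℤ), d z (u • z) ≤ L → j.natAbs ≤ N0 + N1 →
      d z (u ^ j • z) ≤ l := by
    intro u z j h1 h2
    refine (disp_zpow h.dg h.iso u z j).trans ?_
    rw [hl]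
    exact Nat.mul_le_mul h2 h1
  obtain ⟨T, hTd⟩ : ∃ T : H → ℤ, T = fun u => (d x (u • o) : ℤ) - t := ⟨_, rfl⟩
  have hTv : ∀ u, T u = (d x (u • o) : ℤ) - t := fun u => by rw [hTd]
  have hxo : d x o = t := by rw [ho]; exact hγ.dist_left (by omega)
  have hT1 : T 1 = 0 := by rw [hTv, one_smul, hxo]; omega
  -- steps
  have hstep : ∀ u v : H, d x (v • x) ≤ L → d y (v • y) ≤ L → |T (u * v) - T u| ≤ s := by
    intro u v h1 h2
    have h3 := w97_hulldisp h.dg h.hyp h.iso hbt h1 h2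
    have h4 : d ((u * v) • o) (u • o) = d o (v • o) := by
      rw [mul_smul, h.iso, h.dg.symm]
    have t1 := h.dg.tri x (u • o) ((u * v) • o)
    have t2 := h.dg.tri x ((u * v) • o) (u • o)
    have s1 := h.dg.symm (u • o) ((u * v) • o)
    rw [hTv, hTv, abs_le]
    constructor <;> omega
  -- nearness
  have hnear : ∀ u v : H, d x (u • x) ≤ l → d y (u • y) ≤ l → d x (v • x) ≤ l →
      d y (v • y) ≤ l → (d (u • o) (v • o) : ℤ) ≤ |T u - T v| + 6 * δ := by
    intro u v h1 h2 h3 h4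
    obtain ⟨a1, a2, a3, -⟩ := w97_mid h.dg h.hyp h.iso hγ (u := u) h1 h2 (t := t)
      (by omega) (by omega)
    obtain ⟨b1, b2, b3, -⟩ := w97_mid h.dg h.hyp h.iso hγ (u := v) h3 h4 (t := t)
      (by omega) (by omega)
    rw [← ho] at a1 a2 a3 b1 b2 b3
    have t1 := h.dg.tri (u • o) (γ (d x (u • o))) (v • o)
    have t2 := h.dg.tri (γ (d x (u • o))) (γ (d x (v • o))) (v • o)
    have s1 := h.dg.symm (v • o) (γ (d x (v • o)))
    have e : (d (γ (d x (u • o))) (γ (d x (v • o))) : ℤ) = |T u - T v| := by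
      rw [hTv, hTv]
      rcases le_total (d x (u • o)) (d x (v • o)) with hc | hc
      · rw [hγ.2.2 _ _ hc (by omega), abs_of_nonpos (by omega)]
        omega
      · rw [h.dg.symm, hγ.2.2 _ _ hc (by omega), abs_of_nonneg (by omega)]
        omega
    omega
  -- f(j) + f(-j)
  have hneg : ∀ u : H, d x (u • x) ≤ l → d y (u • y) ≤ l → d x (u⁻¹ • x) ≤ l →
      d y (u⁻¹ • y) ≤ l → |T u + T u⁻¹| ≤ 7 * δ := by
    intro u h1 h2 h3 h4
    obtain ⟨c1, c2, c3⟩ := w97_comm h.dg h.hyp h.iso hγ (u := u) (v := u⁻¹) h1 h2 h3 h4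
      (t := t) (by omega) (by omega)
    rw [← ho] at c1 c2 c3
    rw [mul_inv_cancel, one_smul] at c3
    have t1 := h.dg.tri x o (γ (d x (u • o) + d x (u⁻¹ • o) - t))
    have t2 := h.dg.tri x (γ (d x (u • o) + d x (u⁻¹ • o) - t)) o
    have s1 := h.dg.symm o (γ (d x (u • o) + d x (u⁻¹ • o) - t))
    have e := hγ.dist_left (i := d x (u • o) + d x (u⁻¹ • o) - t) (by omega)
    rw [hTv, hTv, abs_le]
    constructor <;> omega
  have hsz : (0 : ℤ) ≤ s := by omega
  -- values of T on powers of g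
  have hg1 : ∀ i : ℕ, i ≤ N0 → |T (g ^ i)| ≤ i * s := by
    intro i
    induction i with
    | zero => intro _; rw [pow_zero, hT1]; simp
    | succ i ih =>
      intro hi
      have h1 := ih (by omega)
      have h2 := hstep (g ^ i) g hx hy
      rw [← pow_succ] at h2
      have h3 : T (g ^ (i + 1)) = (T (g ^ (i + 1)) - T (g ^ i)) + T (g ^ i) := by ring
      rw [h3]
      refine (abs_add_le _ _).trans ?_
      push_cast
      linarith
  have hN0s : ∀ i : ℕ, i ≤ N0 → |T (g ^ i)| ≤ N0 * s := by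
    intro i hi
    refine (hg1 i hi).trans ?_
    have : (i : ℤ) ≤ N0 := by exact_mod_cast hi
    exact mul_le_mul_of_nonneg_right this hsz
  -- the extreme values
  have hbig : (N0 * s + 7 * δ + 1 : ℤ) ≤ |T (g' ^ N1)| := by
    have h1 := (hst g' hg').2 o N1
    rw [hN1] at h1
    have h2 : M ≤ d o (g' ^ (R1 * M) • o) := Nat.le_of_mul_le_mul_left h1 (by omega)
    have hxN : d x (g' ^ N1 • x) ≤ l := by
      have := hpow g' x N1 hx' (by simp)
      rwa [zpow_natCast] at this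
    have hyN : d y (g' ^ N1 • y) ≤ l := by
      have := hpow g' y N1 hy' (by simp)
      rwa [zpow_natCast] at this
    have h3 := w97_middisp h.dg h.hyp h.iso hγ (u := g' ^ N1) hxN hyN (t := t)
      (by omega) (by omega)
    rw [← ho] at h3
    rw [← hN1] at h2
    rw [hTv]
    have hMz : (M : ℤ) = N0 * s + 10 * δ + 1 := by rw [hM]; push_cast; ring
    rcases le_total t (d x (g' ^ N1 • o)) with hc | hc
    · rw [abs_of_nonneg (by omega)]
      have : (M : ℤ) + t ≤ d x (g' ^ N1 • o) + 3 * δ := by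
        have : M + t ≤ d x (g' ^ N1 • o) + 3 * δ := by omega
        exact_mod_cast this
      linarith
    · rw [abs_of_nonpos (by omega)]
      have : (M : ℤ) + d x (g' ^ N1 • o) ≤ t + 3 * δ := by
        have : M + d x (g' ^ N1 • o) ≤ t + 3 * δ := by omega
        exact_mod_cast this
      linarith
  have hzl : ∀ j : ℤ, j.natAbs ≤ N1 → ∀ z : X, d z (g' • z) ≤ L → d z (g' ^ j • z) ≤ l :=
    fun j hj z hz => hpow g' z j hz (by omega)
  have hsum : |T (g' ^ (N1 : ℤ)) + T (g' ^ (-(N1 : ℤ)))| ≤ 7 * δ := by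
    have := hneg (g' ^ (N1 : ℤ)) (hzl _ (by simp) x hx') (hzl _ (by simp) y hy')
      (by rw [← zpow_neg]; exact hzl _ (by simp) x hx')
      (by rw [← zpow_neg]; exact hzl _ (by simp) y hy')
    rwa [← zpow_neg] at this
  -- intermediate values
  have hfind : ∀ i : ℕ, i ≤ N0 → ∃ j : ℤ, j.natAbs ≤ N1 ∧ |T (g' ^ j) - T (g ^ i)| ≤ s := by
    intro i hi
    have hv := hN0s i hi
    obtain ⟨F, hF⟩ : ∃ F : ℕ → ℤ, F = fun (k : ℕ) => T (g' ^ ((k : ℤ) - N1)) := ⟨_, rfl⟩
    have hFv : ∀ k, F k = T (g' ^ ((k : ℤ) - N1)) := fun k => by rw [hF]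
    have hFst : ∀ k < 2 * N1, |F (k + 1) - F k| ≤ s := by
      intro k _
      rw [hFv, hFv]
      have e : g' ^ (((k + 1 : ℕ) : ℤ) - N1) = g' ^ ((k : ℤ) - N1) * g' := by
        rw [← zpow_add_one]; congr 1; push_cast; ring
      rw [e]
      exact hstep _ _ hx' hy'
    have hF0 : F 0 = T (g' ^ (-(N1 : ℤ))) := by rw [hFv]; congr 2; simp
    have hF1 : F (2 * N1) = T (g' ^ (N1 : ℤ)) := by rw [hFv]; congr 2; push_cast; ring
    have hb : (N0 * s + 7 * δ + 1 : ℤ) ≤ |T (g' ^ (N1 : ℤ))| := by rw [zpow_natCast]; exact hbig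
    rw [abs_le] at hsum hv
    have key : ∃ k ≤ 2 * N1, |F k - T (g ^ i)| ≤ s := by
      rcases le_or_gt 0 (T (g' ^ (N1 : ℤ))) with hc | hc
      · rw [abs_of_nonneg hc] at hb
        refine ivt F s (T (g ^ i)) hsz (2 * N1) hFst ?_ ?_
        · rw [hF0]; linarith [hsum.2, hv.1]
        · rw [hF1]; linarith [hv.2]
      · rw [abs_of_neg hc] at hb
        obtain ⟨k, hk, hk'⟩ := ivt (fun k => - F k) s (- T (g ^ i)) hsz (2 * N1)
          (by
            intro k hk
            have := hFst k hk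
            rw [show - F (k + 1) - - F k = -(F (k + 1) - F k) by ring, abs_neg]
            exact this)
          (by show - F 0 ≤ _; rw [hF0]; linarith [hsum.1, hv.2])
          (by show _ ≤ - F (2 * N1); rw [hF1]; linarith [hv.1])
        refine ⟨k, hk, ?_⟩
        have hk2 : |(- F k) - (- T (g ^ i))| ≤ s := hk'
        rw [show (- F k) - (- T (g ^ i)) = -(F k - T (g ^ i)) by ring, abs_neg] at hk2
        exact hk2
    obtain ⟨k, hk, hk'⟩ := key
    refine ⟨(k : ℤ) - N1, by omega, ?_⟩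
    rw [← hFv]
    exact hk'
  choose! J hJ1 hJ2 using hfind
  -- pigeonhole
  have hbd : ∀ i ∈ Finset.range (N0 + 1), d o (((g' ^ (J i))⁻¹ * g ^ i) • o) ≤ r := by
    intro i hi
    have hi' : i ≤ N0 := by rw [Finset.mem_range] at hi; omega
    have h1 := hnear (g ^ i) (g' ^ (J i))
      (by have := hpow g x i hx (by simp; omega); rwa [zpow_natCast] at this)
      (by have := hpow g y i hy (by simp; omega); rwa [zpow_natCast] at this)
      (hzl _ (hJ1 i hi') x hx') (hzl _ (hJ1 i hi') y hy')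
    have h2 := hJ2 i hi'
    rw [abs_sub_comm] at h2
    have h3 : d o (((g' ^ (J i))⁻¹ * g ^ i) • o) = d (g ^ i • o) (g' ^ (J i) • o) := by
      have := h.iso (g' ^ (J i)) o (((g' ^ (J i))⁻¹ * g ^ i) • o)
      rw [smul_smul, mul_inv_cancel_left] at this
      rw [← this, h.dg.symm]
    rw [h3, hr]
    have : (d (g ^ i • o) (g' ^ (J i) • o) : ℤ) ≤ s + 6 * δ := by linarith
    have : d (g ^ i • o) (g' ^ (J i) • o) ≤ s + 6 * δ := by exact_mod_cast this
    omega
  have hcard := h.prop o r ((Finset.range (N0 + 1)).image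
    (fun i : ℕ => (g' ^ (J i))⁻¹ * g ^ i)) (by
      intro u hu
      obtain ⟨i, hi, rfl⟩ := Finset.mem_image.1 hu
      exact hbd i hi)
  have hlt : ((Finset.range (N0 + 1)).image
    (fun i : ℕ => (g' ^ (J i))⁻¹ * g ^ i)).card < (Finset.range (N0 + 1)).card := by
    rw [Finset.card_range]; omega
  obtain ⟨i, hi, i', hi', hne, heq⟩ := Finset.exists_ne_map_eq_of_card_lt_of_maps_to
    (s := Finset.range (N0 + 1)) hlt (fun i hi => Finset.mem_image_of_mem _ hi)
  have heq' : (g' ^ (J i))⁻¹ * g ^ i = (g' ^ (J i'))⁻¹ * g ^ i' := heq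
  have e1 : g ^ ((i : ℤ) - i') = g' ^ (J i - J i') := by
    rw [zpow_sub, zpow_sub, zpow_natCast, zpow_natCast]
    have h1 : g ^ i = g' ^ (J i) * (g' ^ (J i'))⁻¹ * g ^ i' := by
      rw [mul_assoc, ← heq', mul_inv_cancel_left]
    rw [h1, mul_assoc, mul_inv_cancel, mul_one]
  have hne' : ((i : ℤ) - i') ≠ 0 := by
    intro h0
    exact hne (by omega)
  refine ⟨(i : ℤ) - i', J i - J i', hne', ?_, e1⟩
  intro h0
  rw [h0, zpow_zero] at e1
  -- g has a nonzero power equal to one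
  have h2 : g ^ ((i : ℤ) - i').natAbs = 1 := by
    rcases Int.natAbs_eq ((i : ℤ) - i') with h3 | h3
    · rw [← zpow_natCast, ← h3, e1]
    · rw [h3, zpow_neg, inv_eq_one, zpow_natCast] at e1
      exact e1
  exact h.tf g hg _ (by omega) h2

theorem tCom_proof (hT : Stmt_TStab) : Stmt_TCom := TCom_proof hT

end Pool.Agent.FRK
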