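import Pool.Agent.FRK.Kit

/-! FRK, module TCycA: the commensurator of an element is abelian. -/

namespace Pool.Agent.FRK

open Pool.Agent.BURN Pool.Agent.BURR
open scoped commutatorElement

namespace TCycA

variable {H X : Type} [Group H] [MulAction H X] {d : X → X → ℕ} {δ : ℕ} {Bf : ℕ → ℕ}

/-- the elements commuting with a positive power of g -/
def EE (g : H) : Subgroup H where
  carrier := {h | ∃ m : ℕ, 1 ≤ m ∧ Commute h (g ^ m)}
  one_mem' := ⟨1, le_rfl, Commute.one_left _⟩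
  mul_mem' := by
    rintro a b ⟨m, hm, ha⟩ ⟨n, hn, hb⟩
    refine ⟨m * n, Nat.mul_pos hm hn, ?_⟩
    have h1 : Commute a (g ^ (m * n)) := by rw [pow_mul]; exact ha.pow_right n
    have h2 : Commute b (g ^ (m * n)) := by rw [mul_comm, pow_mul]; exact hb.pow_right m
    exact h1.mul_left h2
  inv_mem' := by
    rintro a ⟨m, hm, ha⟩
    exact ⟨m, hm, ha.inv_left⟩

theorem mem_EE {g h : H} : h ∈ EE g ↔ ∃ m : ℕ, 1 ≤ m ∧ Commute h (g ^ m) := Iff.rfl

theorem min_exists [Nonempty X] (f : X → ℕ) : ∃ o, ∀ y, f o ≤ f y := by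
  obtain ⟨o, ho⟩ := Nat.sInf_mem (Set.range_nonempty f)
  exact ⟨o, fun y => by rw [ho]; exact Nat.sInf_le ⟨y, rfl⟩⟩

theorem fin_disp (T : TFA (H := H) d δ Bf) (o : X) (r : ℕ) :
    {c : H | d o (c • o) ≤ r}.Finite := by
  by_contra hinf
  obtain ⟨t, ht, hc⟩ := (Set.not_finite.mp hinf |> fun h => h.exists_subset_card_eq (Bf r + 1))
  have := T.prop o r t (fun h hh => ht hh)
  omega

theorem comm_disp (E : Eng0) (T : TFA (H := H) d δ Bf) {g v : H} {J R1 : ℕ} {o : X}
    (hv : v = g ^ J) (hJ : 1 ≤ J) (hR1 : 1 ≤ R1)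
    (hst : ∀ (x : X) (m : ℕ), m ≤ R1 * d x (g ^ m • x))
    (hm : 16 * δ + 2 ≤ d o (v • o)) (ho : ∀ y, d o (v • o) ≤ d y (v • y))
    {a b : H} (ha : a ∈ EE g) (hb : b ∈ EE g) :
    d o ((a⁻¹ * b⁻¹ * a * b) • o) ≤ 20 * δ := by
  obtain ⟨m, hm1, ha⟩ := ha
  obtain ⟨n, hn1, hb⟩ := hb
  set M := m * n with hM
  have hM1 : 1 ≤ M := Nat.mul_pos hm1 hn1
  set l := max (d o (a • o)) (d o (b • o)) with hl
  set k := R1 * (2 * l + 3 * δ + 10) with hk
  have hk1 : 1 ≤ k := by rw [hk]; exact Nat.mul_pos hR1 (by omega)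
  set N := M * k with hN
  have hN1 : 1 ≤ N := Nat.mul_pos hM1 hk1
  have hkN : k ≤ J * N := by
    calc k = 1 * (1 * k) := by ring
      _ ≤ J * (M * k) := Nat.mul_le_mul hJ (Nat.mul_le_mul hM1 le_rfl)
  -- a and b commute with v ^ N
  have hva : Commute a (v ^ N) := by
    have : v ^ N = (g ^ m) ^ (n * k * J) := by
      rw [hv, ← pow_mul, ← pow_mul, hN, hM]; congr 1; ring
    rw [this]; exact ha.pow_right _
  have hvb : Commute b (v ^ N) := by
    have : v ^ N = (g ^ n) ^ (m * k * J) := by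
      rw [hv, ← pow_mul, ← pow_mul, hN, hM]; congr 1; ring
    rw [this]; exact hb.pow_right _
  obtain ⟨ax, -, -⟩ := E.axis H X d δ (d o (v • o)) T.dg T.hyp T.iso hm v o rfl ho
  have hgp := ax (-(N : ℤ)) (N : ℤ) 0 (by omega) (by omega)
  simp only [zpow_zero, one_smul, zpow_neg, zpow_natCast] at hgp
  set x := (v ^ N)⁻¹ • o with hx
  set y := v ^ N • o with hy
  have hD : 2 * l + 3 * δ + 10 ≤ d o y := by
    have h1 := hst o (J * N)
    have h2 : g ^ (J * N) • o = y := by rw [hy, hv, ← pow_mul]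
    rw [h2] at h1
    have h3 : R1 * (2 * l + 3 * δ + 10) ≤ R1 * d o y := by rw [← hk]; exact hkN.trans h1
    exact Nat.le_of_mul_le_mul_left h3 hR1
  have hxo : d x o = d o y := by
    have := T.iso (v ^ N) x o
    rw [hx, smul_inv_smul] at this
    rw [hx, ← this]
  have hgp' := gp_add T.dg x y o
  have hyo : d y o = d o y := T.dg.symm _ _
  have hox : d o x = d x o := T.dg.symm _ _
  have hdisp : ∀ c : H, Commute c (v ^ N) → d x (c • x) = d o (c • o) ∧
      d y (c • y) = d o (c • o) := by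
    intro c hc
    constructor
    · have e1 : c • x = (v ^ N)⁻¹ • (c • o) := by
        rw [hx, ← mul_smul, ← mul_smul, hc.inv_right.eq]
      rw [e1, hx, T.iso]
    · have e1 : c • y = v ^ N • (c • o) := by
        rw [hy, ← mul_smul, ← mul_smul, hc.eq]
      rw [e1, hy, T.iso]
  obtain ⟨a1, a2⟩ := hdisp a hva
  obtain ⟨b1, b2⟩ := hdisp b hvb
  obtain ⟨γ, hγ⟩ := exists_geod T.dg x y
  obtain ⟨n1, n2⟩ := near_geod T.dg T.hyp hγ o
  set t := gp d y o x / 2 with ht
  have hla : d o (a • o) ≤ l := le_max_left _ _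
  have hlb : d o (b • o) ≤ l := le_max_right _ _
  have ht' := gp_add T.dg y o x
  have hyx : d y x = d x y := T.dg.symm _ _
  have key := w97_comm' T.dg T.hyp T.iso hγ (u := a) (v := b) (l := l) (by omega) (by omega)
    (by omega) (by omega) (t := t) (by omega) (by omega)
  have t1 := T.dg.tri o (γ t) ((a⁻¹ * b⁻¹ * a * b) • o)
  have t2 := T.dg.tri (γ t) ((a⁻¹ * b⁻¹ * a * b) • γ t) ((a⁻¹ * b⁻¹ * a * b) • o)
  have t3 := T.iso (a⁻¹ * b⁻¹ * a * b) (γ t) o
  have t4 := T.dg.symm (γ t) o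
  omega

end TCycA

open TCycA in
theorem TCycA_proof (E : Eng0) (hT : Stmt_TStab) : Stmt_TCycA := by
  intro H X _ _ d δ Bf T g hg h h' hh hh'
  have := T.ne
  obtain ⟨R1, hR1, hst⟩ := hT H X d δ Bf T
  obtain ⟨-, hst⟩ := hst g hg
  set J := (16 * δ + 2) * R1 with hJ
  have hJ1 : 1 ≤ J := Nat.mul_pos (by omega) hR1
  obtain ⟨o, ho⟩ := min_exists (fun y : X => d y (g ^ J • y))
  have hm : 16 * δ + 2 ≤ d o (g ^ J • o) := by
    have h1 := hst o J
    have h2 : R1 * (16 * δ + 2) ≤ R1 * d o (g ^ J • o) := by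
      have e : R1 * (16 * δ + 2) = J := by rw [hJ, mul_comm]
      rw [e]; exact h1
    exact Nat.le_of_mul_le_mul_left h2 hR1
  have hfin := fin_disp T o (20 * δ)
  have : Finite (commutatorSet (EE g)) := by
    have hsub : commutatorSet (EE g) ⊆
        (Subtype.val : EE g → H) ⁻¹' {c : H | d o (c • o) ≤ 20 * δ} := by
      rintro c ⟨a, b, rfl⟩
      have := comm_disp E T (v := g ^ J) rfl hJ1 hR1 hst hm ho
        ((EE g).inv_mem a.2) ((EE g).inv_mem b.2)
      simp only [inv_inv] at this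
      simpa [commutatorElement_def] using this
    exact ((hfin.preimage Subtype.val_injective.injOn).subset hsub).to_subtype
  have hcomm : ∀ a b : EE g, a * b = b * a := by
    intro a b
    have hmem : ⁅a, b⁆ ∈ _root_.commutator (EE g) :=
      Subgroup.commutator_mem_commutator (Subgroup.mem_top a) (Subgroup.mem_top b)
    have hfo : IsOfFinOrder (⟨⁅a, b⁆, hmem⟩ : _root_.commutator (EE g)) := isOfFinOrder_of_finite _
    obtain ⟨n, hn, h1⟩ := isOfFinOrder_iff_pow_eq_one.mp hfo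
    have h2 : ((⁅a, b⁆ : EE g) : H) ^ n = 1 := by
      have := congrArg (fun c : _root_.commutator (EE g) => ((c : EE g) : H)) h1
      simpa using this
    have h3 : ((⁅a, b⁆ : EE g) : H) = 1 := by
      by_contra hne
      exact T.tf _ hne n hn h2
    have h4 : (⁅a, b⁆ : EE g) = 1 := Subtype.ext h3
    exact (commutatorElement_eq_one_iff_mul_comm.mp h4)
  have := hcomm ⟨h, hh⟩ ⟨h', hh'⟩
  exact congrArg (Subtype.val) this

end Pool.Agent.FRK
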