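import Pool.Agent.FRK.Kit

/-! FRK, module TCycB: the commensurator of an element is cyclic. -/

namespace Pool.Agent.FRK

open Pool.Agent.BURN Pool.Agent.BURR

namespace TCycB

variable {H X : Type} [Group H] [MulAction H X] {d : X → X → ℕ} {δ : ℕ} {Bf : ℕ → ℕ}

/-- membership in the commensurator -/
def InE (g h : H) : Prop := ∃ m : ℕ, 1 ≤ m ∧ Commute h (g ^ m)

theorem InE.one (g : H) : InE g (1 : H) := ⟨1, le_rfl, Commute.one_left _⟩

theorem InE.mul {g a b : H} (ha : InE g a) (hb : InE g b) : InE g (a * b) := by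
  obtain ⟨m, hm, ha⟩ := ha
  obtain ⟨n, hn, hb⟩ := hb
  refine ⟨m * n, Nat.mul_pos hm hn, ?_⟩
  have h1 : Commute a (g ^ (m * n)) := by rw [pow_mul]; exact ha.pow_right n
  have h2 : Commute b (g ^ (m * n)) := by rw [mul_comm, pow_mul]; exact hb.pow_right m
  exact h1.mul_left h2

theorem InE.inv {g a : H} (ha : InE g a) : InE g a⁻¹ := by
  obtain ⟨m, hm, ha⟩ := ha
  exact ⟨m, hm, ha.inv_left⟩

theorem InE.zpow {g a : H} (ha : InE g a) (n : ℤ) : InE g (a ^ n) := by
  obtain ⟨m, hm, ha⟩ := ha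
  exact ⟨m, hm, ha.zpow_left n⟩

theorem tf' (T : TFA (H := H) d δ Bf) {h : H} {a : ℤ} (ha : a ≠ 0) (h1 : h ^ a = 1) : h = 1 := by
  by_contra hne
  have hn := T.tf h hne a.natAbs (Int.natAbs_pos.mpr ha)
  rcases Int.natAbs_eq a with e | e
  · rw [e, zpow_natCast] at h1; exact hn h1
  · rw [e, zpow_neg, zpow_natCast, inv_eq_one] at h1; exact hn h1

theorem zpow_inj (T : TFA (H := H) d δ Bf) {g : H} (hg : g ≠ 1) {a b : ℤ} (h : g ^ a = g ^ b) :
    a = b := by
  by_contra hne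
  have : g ^ (a - b) = 1 := by rw [zpow_sub, h, mul_inv_cancel]
  exact hg (tf' T (sub_ne_zero.mpr hne) this)

/-- commensuration -/
theorem exists_ab (hT : Stmt_TStab) (hC : Stmt_TCom) (T : TFA (H := H) d δ Bf) {g h : H}
    (hg : g ≠ 1) (hh : InE g h) : ∃ (a : ℕ) (b : ℤ), 1 ≤ a ∧ h ^ a = g ^ b := by
  by_cases h1 : h = 1
  · exact ⟨1, 0, le_rfl, by simp [h1]⟩
  obtain ⟨m, hm, hcm⟩ := hh
  obtain ⟨o⟩ := T.ne
  obtain ⟨R1, hR1, hst⟩ := hT H X d δ Bf T
  obtain ⟨-, hst⟩ := hst g hg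
  set u := g ^ m with hu
  have hu1 : u ≠ 1 := T.tf g hg m (by omega)
  set L := max (d o (h • o)) (d o (u • o)) with hL
  obtain ⟨A, hA⟩ := hC H X d δ Bf T L
  set k := A * R1 with hk
  have hdist : A ≤ d ((u ^ k)⁻¹ • o) (u ^ k • o) := by
    have h2 := T.iso (u ^ k) ((u ^ k)⁻¹ • o) (u ^ k • o)
    rw [smul_inv_smul] at h2
    have h3 : u ^ k • u ^ k • o = g ^ (2 * m * k) • o := by
      rw [← mul_smul, ← pow_add, hu, ← pow_mul]; congr 2; ring
    rw [h3] at h2
    have h4 := hst o (2 * m * k)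
    rw [← h2]
    have h5 : R1 * A ≤ R1 * d o (g ^ (2 * m * k) • o) := by
      refine le_trans ?_ h4
      calc R1 * A = 1 * k := by rw [hk]; ring
        _ ≤ 2 * m * k := Nat.mul_le_mul (by omega) le_rfl
    exact Nat.le_of_mul_le_mul_left h5 hR1
  have e1 : ∀ c : H, Commute c u → d ((u ^ k)⁻¹ • o) (c • (u ^ k)⁻¹ • o) = d o (c • o) := by
    intro c hc
    have : c • (u ^ k)⁻¹ • o = (u ^ k)⁻¹ • c • o := by
      rw [← mul_smul, ← mul_smul, (hc.pow_right k).inv_right.eq]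
    rw [this, T.iso]
  have e2 : ∀ c : H, Commute c u → d (u ^ k • o) (c • u ^ k • o) = d o (c • o) := by
    intro c hc
    have : c • u ^ k • o = u ^ k • c • o := by
      rw [← mul_smul, ← mul_smul, (hc.pow_right k).eq]
    rw [this, T.iso]
  obtain ⟨a, b, ha, hb, hab⟩ := hA _ _ hdist h u h1 hu1
    (by rw [e1 h hcm]; exact le_max_left _ _) (by rw [e2 h hcm]; exact le_max_left _ _)
    (by rw [e1 u (Commute.refl u)]; exact le_max_right _ _)
    (by rw [e2 u (Commute.refl u)]; exact le_max_right _ _)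
  refine ⟨a.natAbs, m * b * a.sign, by have := Int.natAbs_pos.mpr ha; omega, ?_⟩
  have e3 : h ^ a.natAbs = h ^ (a * a.sign) := by
    rw [Int.mul_sign_self, zpow_natCast]
  rw [e3, zpow_mul, hab, hu, ← zpow_natCast g m, ← zpow_mul, ← zpow_mul, mul_assoc]

/-- the image of the commensurator in the rationals -/
def img (T : TFA (H := H) d δ Bf) (g : H) (hcomm : ∀ h h' : H, InE g h → InE g h' → Commute h h') :
    AddSubgroup ℚ where
  carrier := {q | ∃ h : H, InE g h ∧ ∃ (a : ℕ) (b : ℤ), 1 ≤ a ∧ h ^ a = g ^ b ∧ q = b / a}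
  zero_mem' := ⟨1, InE.one g, 1, 0, le_rfl, by simp, by simp⟩
  add_mem' := by
    rintro q q' ⟨h, hh, a, b, ha, hab, rfl⟩ ⟨h', hh', a', b', ha', hab', rfl⟩
    refine ⟨h * h', hh.mul hh', a * a', b * a' + b' * a, Nat.mul_pos ha ha', ?_, ?_⟩
    · rw [(hcomm h h' hh hh').mul_pow, zpow_add, pow_mul, hab, mul_comm a a', pow_mul h', hab',
        zpow_mul, zpow_mul, zpow_natCast, zpow_natCast]
    · have h1 : (a : ℚ) ≠ 0 := by exact_mod_cast (by omega : a ≠ 0)
      have h2 : (a' : ℚ) ≠ 0 := by exact_mod_cast (by omega : a' ≠ 0)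
      push_cast
      field_simp
  neg_mem' := by
    rintro q ⟨h, hh, a, b, ha, hab, rfl⟩
    refine ⟨h⁻¹, hh.inv, a, -b, ha, ?_, ?_⟩
    · rw [inv_pow, hab, zpow_neg]
    · push_cast; ring

theorem mem_img {T : TFA (H := H) d δ Bf} {g : H}
    {hcomm : ∀ h h' : H, InE g h → InE g h' → Commute h h'} {q : ℚ} :
    q ∈ img T g hcomm ↔ ∃ h : H, InE g h ∧ ∃ (a : ℕ) (b : ℤ), 1 ≤ a ∧ h ^ a = g ^ b ∧
      q = b / a := Iff.rfl

/-- displacement of powers -/
theorem disp_pow (T : TFA (H := H) d δ Bf) (g : H) (o : X) (b : ℕ) :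
    d o (g ^ b • o) ≤ b * d o (g • o) := by
  induction b with
  | zero =>
    have := (T.dg.eq_zero o o).mpr rfl
    simp [this]
  | succ n ih =>
    have h1 := T.dg.tri o (g ^ n • o) (g ^ (n + 1) • o)
    have h2 : g ^ (n + 1) • o = g ^ n • g • o := by rw [← mul_smul, ← pow_succ]
    have h3 := T.iso (g ^ n) o (g • o)
    rw [h2] at h1
    rw [h2]
    have : (n + 1) * d o (g • o) = n * d o (g • o) + d o (g • o) := by ring
    omega

end TCycB

open TCycB in
theorem TCycB_proof (E : Eng0) (hT : Stmt_TStab) (hC : Stmt_TCom) (hA : Stmt_TCycA) :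
    Stmt_TCycB := by
  intro H X _ _ d δ Bf T g hg
  have hcomm : ∀ h h' : H, InE g h → InE g h' → Commute h h' :=
    fun h h' hh hh' => hA H X d δ Bf T g hg h h' hh hh'
  obtain ⟨o⟩ := T.ne
  obtain ⟨R1, hR1, hst⟩ := hT H X d δ Bf T
  set C := R1 * d o (g • o) + 1 with hCdef
  have hCpos : (0 : ℚ) < C := by
    have : 0 < C := by omega
    exact_mod_cast this
  obtain ⟨q0, hq0⟩ := AddSubgroup.cyclic_of_isolated_zero (H := img T g hcomm) (a := 1 / (C : ℚ))
    (by positivity) (by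
      rw [Set.disjoint_left]
      rintro q ⟨h, hh, a, b, ha, hab, rfl⟩ ⟨h1, h2⟩
      have ha' : (0 : ℚ) < a := by exact_mod_cast ha
      have hb : 0 < b := by
        have : (0 : ℚ) < b := by
          have := mul_pos h1 ha'
          rwa [div_mul_cancel₀ _ ha'.ne'] at this
        exact_mod_cast this
      have hh1 : h ≠ 1 := by
        rintro rfl
        rw [one_pow] at hab
        exact hb.ne' (zpow_inj T hg (by rw [← hab, zpow_zero]))
      obtain ⟨n, rfl⟩ := Int.eq_ofNat_of_zero_le hb.le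
      have h3 := (hst h hh1).2 o a
      rw [hab, zpow_natCast] at h3
      have h4 := disp_pow T g o n
      have h5 : a < n * C := by
        have h6 : R1 * d o (g ^ n • o) ≤ R1 * (n * d o (g • o)) := Nat.mul_le_mul le_rfl h4
        have h7 : n * C = R1 * (n * d o (g • o)) + n := by rw [hCdef]; ring
        omega
      have h8 : (a : ℚ) < n * C := by exact_mod_cast h5
      have h9 : (1 : ℚ) / C < (n : ℤ) / a := by
        rw [div_lt_div_iff₀ hCpos ha']
        push_cast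
        linarith
      exact absurd h2 (not_lt.mpr h9.le))
  have hq0mem : q0 ∈ img T g hcomm := by
    rw [hq0]; exact AddSubgroup.subset_closure rfl
  obtain ⟨c, hc, a', b', ha', hab', hq0'⟩ := hq0mem
  refine ⟨c, fun h hh => ?_⟩
  obtain ⟨a, b, ha, hab⟩ := exists_ab hT hC T hg hh
  have hmem : (b / a : ℚ) ∈ img T g hcomm := ⟨h, hh, a, b, ha, hab, rfl⟩
  rw [hq0, AddSubgroup.mem_closure_singleton] at hmem
  obtain ⟨n, hn⟩ := hmem
  rw [hq0', zsmul_eq_mul] at hn
  have h1 : (a : ℚ) ≠ 0 := by exact_mod_cast (by omega : a ≠ 0)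
  have h2 : (a' : ℚ) ≠ 0 := by exact_mod_cast (by omega : a' ≠ 0)
  have h3 : (n : ℚ) * b' * a = b * a' := by
    field_simp at hn
    linarith
  have h4 : n * b' * a = b * a' := by exact_mod_cast h3
  have h5 : h ^ (a * a' : ℤ) = (c ^ n) ^ (a * a' : ℤ) := by
    rw [zpow_mul, zpow_natCast h a, hab, ← zpow_mul, ← h4, ← zpow_mul]
    have e1 : n * (a * a' : ℤ) = a' * (n * a) := by ring
    rw [e1, zpow_mul c, zpow_natCast, hab', ← zpow_mul]
    congr 1; ring
  have h6 : (h * (c ^ n)⁻¹) ^ (a * a' : ℤ) = 1 := by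
    rw [((hcomm h _ hh (hc.zpow n)).inv_right).mul_zpow, h5, inv_zpow, mul_inv_cancel]
  have h7 := tf' T (a := (a * a' : ℤ)) (by
    have : a * a' ≠ 0 := (Nat.mul_pos ha ha').ne'
    exact_mod_cast this) h6
  rw [mul_inv_eq_one] at h7
  exact ⟨n, h7.symm⟩

end Pool.Agent.FRK
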