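import Pool.Agent.FRK.Kit

/-! FRK, module TGW. -/

namespace Pool.Agent.FRK

open Pool.Agent.BURN Pool.Agent.BURR

theorem TGW_proof (hT : Stmt_TStab) (hC : Stmt_TCom) (hB : Stmt_TCycB) : Stmt_TGW := by
  intro H X _ _ d δ Bf T
  obtain ⟨R1, hR1, hst⟩ := hT H X d δ Bf T
  obtain ⟨A, hA⟩ := hC H X d δ Bf T (100 * δ)
  refine ⟨A, R1, hR1, fun N hN => ⟨T.dg, T.hyp, T.one_le, T.iso, le_rfl, ?_, ?_, hN, ?_⟩⟩
  · intro x y hxy
    by_cases h0 : ∃ g0 : H, g0 ≠ 1 ∧ d x (g0 • x) ≤ 100 * δ ∧ d y (g0 • y) ≤ 100 * δ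
    · obtain ⟨g0, h1, h2, h3⟩ := h0
      obtain ⟨c, hc⟩ := hB H X d δ Bf T g0 h1
      refine ⟨c, ?_, fun g hg1 hg2 => ?_⟩
      · by_cases hc1 : c = 1
        · exact Or.inl hc1
        · exact Or.inr (hst c hc1).1
      · by_cases hg : g = 1
        · rw [hg]; exact Subgroup.one_mem _
        obtain ⟨a, b, -, hb, hab⟩ := hA x y hxy g g0 hg h1 hg1 hg2 h2 h3
        refine hc g ⟨b.natAbs, by have := Int.natAbs_pos.mpr hb; omega, ?_⟩
        have h4 : Commute g (g0 ^ b) := by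
          rw [← hab]; exact (Commute.refl g).zpow_right a
        rcases Int.natAbs_eq b with e | e
        · rw [e, zpow_natCast] at h4; exact h4
        · rw [e, zpow_neg, zpow_natCast] at h4
          exact Commute.inv_right_iff.mp h4
    · refine ⟨1, Or.inl rfl, fun g hg1 hg2 => ?_⟩
      by_cases hg : g = 1
      · rw [hg]; exact Subgroup.one_mem _
      · exact absurd ⟨g, hg, hg1, hg2⟩ h0
  · intro g hg
    by_cases h1 : g = 1
    · rw [h1, one_pow]
    · exact absurd (hst g h1).1 hg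
  · intro g hg x m
    by_cases h1 : g = 1
    · exfalso
      obtain ⟨m, hm⟩ := hg x 0
      rw [h1, one_pow, one_smul, (T.dg.eq_zero x x).mpr rfl] at hm
      omega
    · exact (hst g h1).2 x m

end Pool.Agent.FRK
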