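import Pool.Agent.FRK.Kit

/-! FRK, module TNEAR. -/

namespace Pool.Agent.FRK

open Pool.Agent.BURN Pool.Agent.BURR

namespace TNear

variable {H X : Type} [Group H] [MulAction H X] {d : X → X → ℕ} {δ : ℕ}

theorem le_mul (h : IsDG d) (hi : IsIso H d) (g : H) (x : X) (k : ℕ) :
    d x (g ^ k • x) ≤ k * d x (g • x) := by
  induction k with
  | zero => simp [(h.eq_zero x x).2 rfl]
  | succ k ih =>
    have h1 := h.tri x (g ^ k • x) (g ^ (k + 1) • x)
    have h2 : d (g ^ k • x) (g ^ (k + 1) • x) = d x (g • x) := by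
      have := hi (g ^ k) x (g • x)
      rw [← mul_smul, ← pow_succ] at this
      exact this
    rw [Nat.succ_mul]
    omega

theorem ex_near (W : Set X) (hW : W.Nonempty) (x : X) : ∃ p, IsNear d W x p := by
  classical
  obtain ⟨w0, hw0⟩ := hW
  have hex : ∃ n, ∃ w ∈ W, d x w = n := ⟨_, w0, hw0, rfl⟩
  obtain ⟨p, hp, e⟩ := Nat.find_spec hex
  refine ⟨p, hp, fun w hw => ?_⟩
  rw [e]
  exact Nat.find_min' hex ⟨w, hw, rfl⟩

theorem near_smul {U : Set X} (hi : IsIso H d) {g : H} (hg : ∀ u ∈ U, g • u ∈ U)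
    (hg' : ∀ u ∈ U, g⁻¹ • u ∈ U) {x p : X} (hn : IsNear d U x p) :
    IsNear d U (g • x) (g • p) := by
  refine ⟨hg p hn.1, fun w hw => ?_⟩
  have h1 := hn.2 (g⁻¹ • w) (hg' w hw)
  have h2 := hi g x (g⁻¹ • w)
  rw [smul_inv_smul] at h2
  rw [hi g x p]
  omega

end TNear

open TNear in
theorem tNear_proof (E : Eng0) (hTS : Stmt_TStab) : Stmt_TNear := by
  intro H X _ _ d δ Bf hT
  have hd := hT.dg
  have hy := hT.hyp
  have hi := hT.iso
  have h1 := hT.one_le
  obtain ⟨R1, hR1, hst⟩ := hTS H X d δ Bf hT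
  obtain ⟨c3, hc3⟩ : ∃ c3, c3 = 7 * δ + 1 := ⟨_, rfl⟩
  obtain ⟨J, hJ⟩ : ∃ J, J = R1 * (c3 + 1) := ⟨_, rfl⟩
  refine ⟨J * (c3 + 3 * δ) + 3 * c3 + 1, fun g hg x o => ?_⟩
  obtain ⟨A, hA⟩ : ∃ A : Set X, A = {y | ∃ i : ℤ, y = g ^ i • o} := ⟨_, rfl⟩
  rw [← hA]
  have hAg : ∀ (k : ℤ), ∀ y ∈ A, g ^ k • y ∈ A := by
    rintro k y hy'
    rw [hA] at hy' ⊢
    obtain ⟨i, rfl⟩ := hy'
    exact ⟨k + i, by rw [zpow_add, mul_smul]⟩
  have hqc := (E.hull X d δ hd hy).1 A
  have hinv : ∀ (k : ℤ), ∀ u ∈ hull d A, g ^ k • u ∈ hull d A := fun k u hu =>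
    Kit.hull_smul hi (hAg k) hu
  have hWne : (hull d A).Nonempty := by
    refine ⟨o, o, ?_, o, ?_, ?_⟩
    · rw [hA]; exact ⟨0, by simp⟩
    · rw [hA]; exact ⟨0, by simp⟩
    · unfold Pool.Agent.BURN.Btw
      have := (hd.eq_zero o o).2 rfl
      omega
  obtain ⟨p, hp⟩ := ex_near (d := d) (hull d A) hWne x
  refine ⟨p, hp.1, ?_⟩
  have hP2 := (E.proj X d δ (2 * δ) (6 * δ + 1) ((c3 + 1) / 2 + δ) c3
    (2 * ((c3 + 1) / 2 + δ) + 3 * δ + 2 * δ + 1) (hull d A) hd hy hqc (by omega) (by omega) rfl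
    rfl).2.1
  have hpow : ∀ (k : ℕ) (y q : X), IsNear d (hull d A) y q →
      IsNear d (hull d A) (g ^ k • y) (g ^ k • q) := by
    intro k y q hq
    apply near_smul hi _ _ hq
    · intro u hu
      have := hinv k u hu
      rwa [zpow_natCast] at this
    · intro u hu
      have := hinv (-k) u hu
      rwa [zpow_neg, zpow_natCast] at this
  have hgp : IsNear d (hull d A) (g • x) (g • p) := by
    have := hpow 1 x p hp
    rwa [pow_one] at this
  by_cases hc : c3 < d p (g • p)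
  · have h2 := (hP2 x (g • x) p (g • p) hp hgp hc).2.2
    have e1 : d (g • p) (g • x) = d p x := hi g p x
    have e2 : d p x = d x p := hd.symm _ _
    omega
  · -- the product at p
    have gp1 := gp_add hd x (g • x) p
    have gp2 := gp_le_left hd x (g • x) p
    have gp3 := gp_le_right hd x (g • x) p
    generalize gp d x (g • x) p = P at *
    have ex : d p x = d x p := hd.symm _ _
    have egx : d (g • x) p = d p (g • x) := hd.symm _ _
    obtain ⟨x1, hx1, hx1'⟩ := hd.geo p x (P / 2) (by omega)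
    obtain ⟨x2, hx2, hx2'⟩ := hd.geo p (g • x) (P / 2) (by omega)
    have b1 : Pool.Agent.BURN.Btw d p x1 x := by
      unfold Pool.Agent.BURN.Btw
      omega
    have b2 : Pool.Agent.BURN.Btw d p x2 (g • x) := by
      unfold Pool.Agent.BURN.Btw
      omega
    have hf : d x1 x2 ≤ 2 * δ := by
      apply fellow hd hy b1 b2 (by omega)
      have g1 := gp_add hd x (g • x) p
      omega
    have e1 : d (g • p) (g • x1) = P / 2 := by rw [hi]; exact hx1
    have e2 : d (g • x1) (g • x) = d p x - P / 2 := by rw [hi]; exact hx1'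
    have b3 : Pool.Agent.BURN.Btw d (g • p) (g • x1) (g • x) := by
      unfold Pool.Agent.BURN.Btw
      rw [hi, hi, hi]
      exact b1
    have hn := near_of_btw hd hy b3 x2
    have t1 := hd.tri x2 p (g • p)
    have t2 := hd.tri p (g • p) (g • x)
    have e3 : d x2 p = d p x2 := hd.symm _ _
    have e4 : d (g • p) (g • x) = d p x := hi _ _ _
    have e5 : d (g • x) (g • x1) = d (g • x1) (g • x) := hd.symm _ _
    have hx2g : d x2 (g • x1) ≤ c3 + δ := by
      rcases hn with hn | hn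
      · omega
      · omega
    have t3 := hd.tri x1 x2 (g • x1)
    have hl1 : d x1 (g • x1) ≤ c3 + 3 * δ := by omega
    -- p is nearest to x1
    have hpn : IsNear d (hull d A) x1 p := by
      refine ⟨hp.1, fun w hw => ?_⟩
      have h2 := hp.2 w hw
      have t4 := hd.tri x x1 w
      have e6 : d x x1 = d x1 x := hd.symm _ _
      have e7 : d x1 p = d p x1 := hd.symm _ _
      omega
    have hJp : c3 < d p (g ^ J • p) := by
      have h2 := (hst g hg).2 p J
      rw [hJ] at h2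
      have h3 := Nat.le_of_mul_le_mul_left h2 (by omega)
      rw [← hJ] at h3
      omega
    have h3 := (hP2 x1 (g ^ J • x1) p (g ^ J • p) hpn (hpow J x1 p hpn) hJp).2.2
    have h4 := le_mul hd hi g x1 J
    have h5 : J * d x1 (g • x1) ≤ J * (c3 + 3 * δ) := Nat.mul_le_mul_left _ hl1
    have e8 : d (g ^ J • p) (g ^ J • x1) = d p x1 := hi _ _ _
    have e9 : d x1 p = d p x1 := hd.symm _ _
    have t5 := hd.tri (g • p) p (g • x)
    have e10 : d (g • p) p = d p (g • p) := hd.symm _ _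
    omega

end Pool.Agent.FRK
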