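import Pool.Agent.FRK.Kit

/-! FRK, TOW2. -/

namespace Pool.Agent.FRK

open Pool.Agent.BURN Pool.Agent.BURR

variable [RP]

namespace Tow2X

/-- stages with the extra data -/
structure Stg2 (N : ℕ) where
  t : StgG N
  cnt : Countable t.G
  line : LineP (G := t.G) t.d

/-- one step -/
structure Nxt {N : ℕ} (p : ℕ) (s : Stg2 N) where
  t : Stg2 N
  π : s.t.G →* t.t.G
  ι : s.t.X → t.t.X
  rel : StepRel s.t.d t.t.d π ι (fun _ => p)
  lift : LiftRel s.t.d t.t.d π ι

theorem nxt (hStep : Stmt_Step2) {N p : ℕ} (hp : 64 * nq ≤ p) (hd : p ∣ N) (s : Stg2 N) :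
    Nonempty (Nxt p s) := by
  obtain ⟨G', X', gG, gX, d', π, ι, hc, hg, hl, hr, hL⟩ :=
    @hStep s.t.G s.t.X _ s.cnt _ s.t.d N p s.t.good s.line hp hd
  exact ⟨⟨⟨{ G := G', X := X', gG := gG, aX := gX, d := d', good := hg }, hc, hl⟩, π, ι, hr, hL⟩⟩

end Tow2X

open Tow2X in
theorem tow2_proof (hStep : Stmt_Step2) : Stmt_Tow2 := by
  intro N p s hc hl hp hd
  let T : ℕ → Stg2 N := fun k =>
    Nat.rec ⟨s, hc, hl⟩ (fun _ t => (Classical.choice (nxt hStep hp hd t)).t) k
  exact ⟨{ T := fun k => (T k).t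
           π := fun k => (Classical.choice (nxt hStep hp hd (T k))).π
           ι := fun k => (Classical.choice (nxt hStep hp hd (T k))).ι
           rel := fun k => (Classical.choice (nxt hStep hp hd (T k))).rel }, rfl,
    fun k => (Classical.choice (nxt hStep hp hd (T k))).lift⟩

end Pool.Agent.FRK
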