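import Pool.Agent.FRK.Kit

/-! FRK, module TowF: the kernel of the map to the limit group is free. -/

namespace Pool.Agent.FRK

open Pool.Agent.BURN Pool.Agent.BURR

variable [RP]

namespace TowF

variable {N p : ℕ}

/-- kernel of the map from stage j to stage j + m -/
def Nk (W : Tow N p) : ∀ (m j : ℕ), Subgroup (W.T j).G
  | 0, _ => ⊥
  | m + 1, j => (Nk W m (j + 1)).comap (W.π j)

/-- base points -/
def pt (W : Tow N p) (x0 : (W.T 0).X) : ∀ j, (W.T j).X
  | 0 => x0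
  | j + 1 => W.ι j (pt W x0 j)

theorem nk_ker (W : Tow N p) : ∀ (m k n : ℕ), n = k + m → (Nk W m k).comap (W.φ k) = (W.φ n).ker
  | 0, k, n, h => by
    subst h
    rfl
  | m + 1, k, n, h => by
    have h1 := nk_ker W m (k + 1) n (by omega)
    rw [← h1]
    rfl

theorem nk_zero (W : Tow N p) (m : ℕ) : Nk W m 0 = (W.φ m).ker := by
  have h := nk_ker W m 0 m (by omega)
  rw [← h]
  rfl

theorem disp (W : Tow N p)
    (hL : ∀ k, LiftRel (W.T k).d (W.T (k + 1)).d (W.π k) (W.ι k)) :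
    ∀ m j, Disp (W.T j).d (Nk W m j)
  | 0, j => by
    intro g hg h1
    exact absurd (Subgroup.mem_bot.1 hg) h1
  | m + 1, j => (hL j).e3 _ (disp W hL m (j + 1))

theorem ext1 (W : Tow N p) (x0 : (W.T 0).X)
    (hL : ∀ k, LiftRel (W.T k).d (W.T (k + 1)).d (W.π k) (W.ι k)) :
    ∀ m j, Ext (W.T j).d {x | (W.T j).d (pt W x0 j) x ≤ 1} ⊥ (Nk W m j)
  | 0, j => Ext.refl _
  | m + 1, j => (hL j).e1 (pt W x0 j) _ (disp W hL m (j + 1)) (ext1 W x0 hL m (j + 1))

theorem lamrho : 2 ≤ Lam * rho := by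
  have h2 := Kit.num4.2
  have h3 : 20 ≤ rho := by rw [rho_eq]; omega
  have h4 : 1 * rho ≤ Lam * rho := Nat.mul_le_mul_right _ (by omega)
  omega

theorem sle (r a : ℕ) (h : r ≤ Lam ^ (a + 1)) : (r + Lam - 1) / Lam ≤ Lam ^ a := by
  have hL := Lam_pos
  apply Nat.le_of_lt_succ
  rw [Nat.div_lt_iff_lt_mul hL]
  have : (Lam ^ a).succ * Lam = Lam ^ (a + 1) + Lam := by
    rw [Nat.succ_eq_add_one, pow_succ]; ring
  rw [this]
  omega

theorem sge (r : ℕ) (h : 1 ≤ r) : 1 ≤ (r + Lam - 1) / Lam := by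
  have hL := Lam_pos
  rw [Nat.le_div_iff_mul_le hL]
  omega

theorem claim (W : Tow N p) (x0 : (W.T 0).X)
    (hL : ∀ k, LiftRel (W.T k).d (W.T (k + 1)).d (W.π k) (W.ι k)) :
    ∀ (a j r : ℕ), 1 ≤ r → r ≤ Lam ^ a → ∃ P : Subgroup (W.T j).G,
      Ext (W.T j).d {x | (W.T j).d (pt W x0 j) x ≤ 1} ⊥ P ∧ Disp (W.T j).d P ∧
      (∀ (g : (W.T j).G) (m : ℕ), (W.T j).d (pt W x0 j) (g • pt W x0 j) ≤ r → g ∈ Nk W m j →
        g ∈ P) ∧
      ∀ m, a ≤ m → Ext (W.T j).d {x | (W.T j).d (pt W x0 j) x ≤ r} P (Nk W m j)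
  | 0, j, r, h1, h2 => by
    have hr : r = 1 := by
      rw [pow_zero] at h2
      omega
    subst hr
    refine ⟨⊥, Ext.refl _, ?_, ?_, ?_⟩
    · intro g hg h1
      exact absurd (Subgroup.mem_bot.1 hg) h1
    · intro g m hg hm
      by_contra h
      have h3 := disp W hL m j g hm (fun h4 => h (Subgroup.mem_bot.2 h4)) (pt W x0 j)
      have h4 := lamrho
      omega
    · intro m _
      exact ext1 W x0 hL m j
  | a + 1, j, r, h1, h2 => by
    obtain ⟨Pb, q1, q2, q3, q4⟩ := claim W x0 hL a (j + 1) ((r + Lam - 1) / Lam) (sge r h1)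
      (sle r a h2)
    obtain ⟨P, p1, p2, p3, p4⟩ := (hL j).e2 (pt W x0 j) Pb r h1 q2 q1
    have hle : P ≤ Pb.comap (W.π j) := by
      rw [← p2]
      exact Subgroup.le_comap_map _ _
    refine ⟨P, p1, ?_, ?_, ?_⟩
    · intro g hg
      exact (hL j).e3 Pb q2 g (hle hg)
    · intro g m hg hm
      cases m with
      | zero =>
        have h3 : g = 1 := Subgroup.mem_bot.1 hm
        rw [h3]
        exact P.one_mem
      | succ m =>
        apply p3 g hg
        apply q3 (W.π j g) m ?_ hm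
        have h4 := (W.rel j).contr (pt W x0 j) (g • pt W x0 j)
        rw [(W.rel j).equiv] at h4
        refine le_trans h4 ?_
        unfold Dsc
        apply Nat.div_le_div_right
        omega
    · intro m hm
      cases m with
      | zero => omega
      | succ m => exact p4 _ (disp W hL m (j + 1)) (q4 m (by omega))

end TowF

theorem TowF_proof (E : Eng) (hF : Stmt_ExtFF) (hB : Stmt_ExtB) (hLim : Stmt_LimF)
    (hFB : Stmt_FFB) : Stmt_TowF := by
  intro N p W hp hc hL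
  obtain ⟨x0⟩ := (W.T 0).good.nonempty
  have hmono : Monotone (fun k => (W.φ k).ker) := by
    apply monotone_nat_of_le_succ
    intro k g hg
    rw [MonoidHom.mem_ker] at hg ⊢
    show W.π k (W.φ k g) = 1
    rw [hg, map_one]
  apply hLim (W.T 0).G W.M (fun k => (W.φ k).ker) hmono rfl
  intro A hA
  have hdg := (W.T 0).good.dg
  have key : ∃ r, 1 ≤ r ∧ ∀ x ∈ A, (W.T 0).d x0 (x • x0) ≤ r := by
    refine ⟨1 + ∑ x ∈ A, (W.T 0).d x0 (x • x0), by omega, ?_⟩
    intro x hx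
    have := Finset.single_le_sum (f := fun x => (W.T 0).d x0 (x • x0))
      (fun i _ => Nat.zero_le _) hx
    omega
  obtain ⟨r, hr1, hr2⟩ := key
  have hlam : r ≤ Lam ^ r := by
    have h2 := Kit.num4.2
    exact (Nat.lt_pow_self (by omega)).le
  obtain ⟨P, p1, p2, p3, p4⟩ := TowF.claim W x0 hL r 0 r hr1 hlam
  refine ⟨P, ?_, ?_, r, ?_⟩
  · intro x hx
    have h1 : x ∈ ⨆ k, (W.φ k).ker := hA x hx
    rw [Subgroup.mem_iSup_of_directed (hmono.directed_le)] at h1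
    obtain ⟨k, hk⟩ := h1
    exact p3 x k (hr2 x hx) (by rw [TowF.nk_zero]; exact hk)
  · refine hF _ _ _ _ _ _ hdg (W.T 0).good.hyp (W.T 0).good.iso ⟨x0, ?_⟩ p1 p2
    show (W.T 0).d x0 x0 ≤ 1
    rw [(hdg.eq_zero x0 x0).2 rfl]
    omega
  · intro k hk
    rw [← TowF.nk_zero]
    refine hF _ _ _ _ _ _ hdg (W.T 0).good.hyp (W.T 0).good.iso ⟨x0, ?_⟩ (p4 k hk)
      (TowF.disp W hL k 0)
    show (W.T 0).d x0 x0 ≤ r
    rw [(hdg.eq_zero x0 x0).2 rfl]
    omega

end Pool.Agent.FRK
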