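import Pool.Agent.FRK.Kit

/-! FRK, module WMB: the windmill operation, region. -/

namespace Pool.Agent.FRK

open Pool.Agent.BURN Pool.Agent.BURR

variable [RP]

namespace WMB

open Kit

theorem self_zero (E : Eng) (S : KSys) (x : S.Gm) : S.dg x x = 0 := ((dgG E S).eq_zero x x).2 rfl

theorem ap_inj (E : Eng) (S : KSys) {i j : S.I} (h : S.ap i = S.ap j) : i = j := by
  apply ap_eq E S
  rw [h, self_zero E S]
  omega

/-- the new apices are invariant -/
theorem cnew_inv (E : Eng) {S : KSys} {Γ : Subgroup S.G} {F C : Set S.Gm} (hP : PreSt S Γ F C)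
    {g : S.G} (hg : g ∈ Γ) {c : S.Gm} (hc : c ∈ Cnew S F C) : g • c ∈ Cnew S F C := by
  obtain ⟨⟨i, rfl⟩, h2, w, hw, h3⟩ := hc
  refine ⟨⟨g • i, (smul_ap S g i).symm⟩, ?_, g • w, win_smul E S hP.finv hP.cinv hg hw, ?_⟩
  · intro h
    apply h2
    have := hP.cinv g⁻¹ (inv_mem hg) _ h
    rwa [inv_smul_smul] at this
  · rw [isoG E S]; exact h3

/-- the separation property -/
theorem sep (E : Eng) {S : KSys} {Γ : Subgroup S.G} {F C : Set S.Gm} (hP : PreSt S Γ F C)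
    {j : S.I} (hj : S.ap j ∈ Cnew S F C) {r : S.G} (hr : r ∈ RotS (S.E j) (S.nE j)) (hr1 : r ≠ 1)
    {q q' : S.Gm} (hq : q ∈ F ∪ C ∪ Cnew S F C) (hq' : q' ∈ F ∪ C ∪ Cnew S F C)
    (h1 : q ≠ S.ap j) (h2 : q' ≠ S.ap j) : gp S.dg q (r • q') (S.ap j) ≤ 2 * f3 := by
  obtain ⟨A, hA⟩ := (E.footEx S.X S.I S.D S.Y rho (cd E S)).1 j q h1
  obtain ⟨A', hA'⟩ := (E.footEx S.X S.I S.D S.Y rho (cd E S)).1 j q' h2
  have hrj : r • j = j := by
    have := rot_fix E S j r hr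
    rw [smul_ap] at this
    exact ap_inj E S this
  have hfA' := foot_smul E S r j q' A' hA'
  rw [hrj] at hfA'
  have hsp := hP.span j hj q hq q' hq' h1 h2 A A' hA hA' r hr hr1 A' hA'.1
  have ht := (dgD E S).tri A' A (r • A')
  have hs := (dgD E S).symm A' A
  have hbig : 2 ^ (rho + 5) ≤ S.D A (r • A') := by
    have : 2 ^ (rho + 5) ≤ 2 ^ (rho + 7) := Nat.pow_le_pow_right (by norm_num) (by omega)
    omega
  exact E.vr0 S.X S.I S.D S.Y rho (cd E S) j q (r • q') A (r • A') hA hfA' hbig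

theorem core (E : Eng) {S : KSys} {F C : Set S.Gm} (hsub : C ⊆ Set.range S.ap)
    {a b p c : S.Gm} (ha : a ∈ F ∪ C ∪ Cnew S F C) (hb : b ∈ F ∪ C ∪ Cnew S F C)
    (hab : gp S.dg a b p ≤ 4 * f3 + 6 * del1) (hc : c ∈ Set.range S.ap)
    (hcp : S.dg c p ≤ 2 * dd) : c ∈ C ∪ Cnew S F C := by
  have h := dgG E S
  obtain ⟨_, n1, n2, _, _, n3, _⟩ := num1'
  have n4 := num2
  have hself := self_zero E S
  have hy := hypG E S
  have hqc := win_qc E S F C
  generalize f3 = f at *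
  generalize del1 = e at *
  have fin : (∃ w ∈ Win S F C, S.dg c w ≤ 3 * dd) → c ∈ C ∪ Cnew S F C := by
    intro hw
    by_cases hcC : c ∈ C
    · exact Or.inl hcC
    · exact Or.inr ⟨hc, hcC, hw⟩
  have pick : ∀ z ∈ F ∪ C ∪ Cnew S F C, ∃ w ∈ Win S F C, S.dg z w ≤ 3 * dd ∧
      (S.dg z w = 0 ∨ z ∈ Cnew S F C) := by
    intro z hz
    rcases hz with hz | hz
    · exact ⟨z, sub_win E S F C hz, by rw [hself]; omega, Or.inl (hself z)⟩
    · obtain ⟨_, _, w, hw, h3⟩ := id hz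
      exact ⟨w, hw, h3, Or.inr hz⟩
  have side : ∀ z w, w ∈ Win S F C → S.dg z w ≤ 3 * dd → (S.dg z w = 0 ∨ z ∈ Cnew S F C) →
      gp S.dg z w p ≤ 4 * f + 8 * e → c ∈ C ∪ Cnew S F C := by
    intro z w hw hzw hz hp
    have g1 := gp_add h z w p
    have t1 := h.tri c p w
    have s1 := h.symm p w
    have t2 := h.tri c p z
    have s2 := h.symm p z
    rcases hz with hz | hz
    · apply fin
      refine ⟨w, hw, ?_⟩
      omega
    · right
      obtain ⟨i, rfl⟩ := hc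
      obtain ⟨j, rfl⟩ := hz.1
      have : i = j := by
        apply ap_eq E S
        omega
      subst this
      exact hz
  obtain ⟨w, hw, haw, hat⟩ := pick a ha
  obtain ⟨w', hw', hbw, hbt⟩ := pick b hb
  have H1 := hyp_gp h hy a b w p
  have H2 := hyp_gp h hy w b w' p
  by_cases c1 : gp S.dg a w p ≤ 4 * f + 8 * e
  · exact side a w hw haw hat c1
  by_cases c2 : gp S.dg b w' p ≤ 4 * f + 8 * e
  · exact side b w' hw' hbw hbt c2
  rw [gp_comm h b w'] at c2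
  have c3 : gp S.dg w w' p ≤ 4 * f + 8 * e := by omega
  obtain ⟨g, hg⟩ := exists_geod h w w'
  obtain ⟨n5, n6⟩ := near_geod h hy hg p
  obtain ⟨w2, hw2, hd⟩ := hqc w hw w' hw' _ (hg.btw' n5)
  apply fin
  refine ⟨w2, hw2, ?_⟩
  have t1 := h.tri c p w2
  have t2 := h.tri p (g (gp S.dg w' p w / 2)) w2
  omega

/-- main claim: apices near a segment between translates of marked points -/
theorem main (E : Eng) (hCh : Stmt_GChain) {S : KSys} {Γ : Subgroup S.G} {F C : Set S.Gm}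
    (hP : PreSt S Γ F C) {u v p c : S.Gm} {g : S.G} (hg : g ∈ gN S Γ F C)
    (hu : u ∈ F ∪ C ∪ Cnew S F C) (hv : v ∈ F ∪ C ∪ Cnew S F C) (hbt : Btw S.dg u p (g • v))
    (hc : c ∈ Set.range S.ap) (hcp : S.dg c p ≤ 2 * dd) :
    ∃ k ∈ gN S Γ F C, ∃ y ∈ C ∪ Cnew S F C, c = k • y := by
  have h := dgG E S
  have hy := hypG E S
  have hiso := isoG E S
  have hRF := rf E S
  have hself := self_zero E S
  have hQinv : ∀ g ∈ Γ, ∀ y ∈ F ∪ C ∪ Cnew S F C, g • y ∈ F ∪ C ∪ Cnew S F C := by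
    intro g hg y hy
    rcases hy with (hy | hy) | hy
    · exact Or.inl (Or.inl (hP.finv g hg y hy))
    · exact Or.inl (Or.inr (hP.cinv g hg y hy))
    · exact Or.inr (cnew_inv E hP hg hy)
  haveI : Nonempty S.Gm := ⟨u⟩
  obtain ⟨m, gs, cs, h1, hh1, hgs0, hgm, hgsm, hcs, hne⟩ :=
    hCh S.G S.Gm S.dg (Set.range S.ap) S.R del1 (2 * f3 + 1) (2 * f3) (2 * rho + 2) Γ
      (Cnew S F C) hRF (fun c hc => hc.1) (fun g hg c hc => cnew_inv E hP hg hc) g hg
  let x : ℕ → S.Gm := fun i => if i = 0 then u else if i ≤ m then cs i else g • v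
  have hx0 : x 0 = u := by simp [x]
  have hxi : ∀ i, 1 ≤ i → i ≤ m → x i = cs i := by
    intro i hi1 hi2
    have : i ≠ 0 := by omega
    simp [x, this, hi2]
  have hxl : x (m + 1) = g • v := by simp [x]
  have nl : ∀ i, i ≤ m → (gs i)⁻¹ • x i ∈ F ∪ C ∪ Cnew S F C := by
    intro i hi
    by_cases h0 : i = 0
    · subst h0; rw [hgs0, hx0, inv_one, one_smul]; exact hu
    · rw [hxi i (by omega) hi]
      exact Or.inr (hcs i (by omega) hi).2.2.1
  have nr : ∀ i, i ≤ m → (gs i)⁻¹ • x (i + 1) ∈ F ∪ C ∪ Cnew S F C := by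
    intro i hi
    by_cases h0 : i + 1 ≤ m
    · rw [hxi (i + 1) (by omega) h0]
      have := (hcs (i + 1) (by omega) h0).2.1
      rw [Nat.add_sub_cancel] at this
      exact Or.inr this
    · have him : i = m := by omega
      subst him
      rw [hxl, hgm, mul_smul, inv_smul_smul]
      exact hQinv h1 hh1 v hv
  -- products
  have hprod : ∀ i, 1 ≤ i → i + 1 ≤ m + 1 → gp S.dg (x (i - 1)) (x (i + 1)) (x i) ≤ 2 * f3 := by
    intro i hi1 hi2
    have him : i ≤ m := by omega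
    obtain ⟨e1, e2, e3, r, hr, hr1, hgi⟩ := hcs i hi1 him
    rw [hxi i hi1 him]
    set c' := (gs (i - 1))⁻¹ • cs i with hc'
    obtain ⟨j, hj⟩ := e2.1
    set q := (gs (i - 1))⁻¹ • x (i - 1) with hq
    set q' := (gs i)⁻¹ • x (i + 1) with hq'
    have nq : q ∈ F ∪ C ∪ Cnew S F C := nl (i - 1) (by omega)
    have nq' : q' ∈ F ∪ C ∪ Cnew S F C := nr i him
    set r' := (gs (i - 1))⁻¹ * r * gs (i - 1) with hr'
    have hr'R : r' ∈ RotS (S.E j) (S.nE j) := by
      have h2 := (hRF.conj (gs (i - 1))⁻¹ _ e1 r).1 hr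
      rw [inv_inv, ← hc', ← hj, R_ap] at h2
      exact h2
    have hr'1 : r' ≠ 1 := by
      intro h2
      apply hr1
      have h3 : r = gs (i - 1) * r' * (gs (i - 1))⁻¹ := by rw [hr']; group
      rw [h3, h2]; group
    have tr1 : gs (i - 1) • q = x (i - 1) := by rw [hq, smul_inv_smul]
    have tr3 : gs (i - 1) • c' = cs i := by rw [hc', smul_inv_smul]
    have tr2 : gs (i - 1) • (r' • q') = x (i + 1) := by
      rw [hq', hgi, hr', ← mul_smul, ← mul_smul]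
      have : gs (i - 1) * ((gs (i - 1))⁻¹ * r * gs (i - 1)) * (r * gs (i - 1))⁻¹ = 1 := by group
      rw [this, one_smul]
    rw [← tr1, ← tr2, ← tr3, isIso_gp hiso]
    by_cases hqc : q = c'
    · rw [hqc, gp_left_self h]; omega
    by_cases hqc' : q' = c'
    · have : r' • c' = c' := by rw [← hj]; exact rot_fix E S j r' hr'R
      rw [hqc', this, gp_right_self h]; omega
    rw [← hj] at hqc hqc' ⊢
    exact sep E hP (by rw [hj]; exact e2) hr'R hr'1 nq nq' hqc hqc'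
  obtain ⟨_, n1, n2, _, _, n3, _⟩ := num1'
  have n4 := num2
  have hLG : ∀ i, 1 ≤ i → i + 1 ≤ m + 1 →
      gp S.dg (x 0) (x (m + 1)) (x i) ≤ 2 * f3 + 2 * del1 := by
    by_cases hm : m = 0
    · intro i h1 h2; omega
    · refine E.lgb S.Gm S.dg del1 (2 * f3) (m + 1) x h hy (by omega) hprod ?_
      intro i h1 h2
      rw [hxi i h1 (by omega), hxi (i + 1) (by omega) (by omega)]
      have := hRF.sep (cs i) (hcs i h1 (by omega)).1 (cs (i + 1))
        (hcs (i + 1) (by omega) (by omega)).1 (hne i h1 (by omega))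
      generalize f3 = f at *
      generalize del1 = e at *
      omega
  obtain ⟨i, hi, hip⟩ := E.cover S.Gm S.dg del1 (2 * f3 + 2 * del1) (m + 1) x p h hy (by omega)
    hLG (by rw [hx0, hxl]; exact hbt)
  have him : i ≤ m := by omega
  have hcore := core E (F := F) hP.sub (p := (gs i)⁻¹ • p) (c := (gs i)⁻¹ • c) (nl i him)
    (nr i him)
    (by
      rw [isIso_gp hiso]
      generalize f3 = f at *
      generalize del1 = e at *
      omega)
    (hRF.cinv _ c hc) (by rw [hiso]; exact hcp)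
  exact ⟨gs i, hgsm i him, _, hcore, by rw [smul_inv_smul]⟩

end WMB

open WMB Kit in
theorem WMB_proof (E : Eng) (hCh : Stmt_GChain) : Stmt_WMB := by
  intro S Γ F C hP
  have hsubr : C ∪ Cnew S F C ⊆ Set.range S.ap := Set.union_subset hP.sub (fun c hc => hc.1)
  have hΓ : Γ ≤ gN S Γ F C := le_sup_left
  have hKK : KK (Cnew S F C) S.R ≤ gN S Γ F C := le_sup_right
  refine ⟨?_, ?_, ?_, ?_, ?_, ?_⟩
  · obtain ⟨x, hx⟩ := hP.ne
    exact ⟨x, sub_orb _ _ hx⟩
  · intro g hg x hx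
    exact orb_smul hg hx
  · intro g hg x hx
    exact orb_smul hg hx
  · rintro x ⟨g, _, b, hb, rfl⟩
    obtain ⟨j, rfl⟩ := hsubr hb
    exact ⟨g • j, (smul_ap S g j).symm⟩
  · intro i hi r hr
    obtain ⟨g, hg, c, hc, hic⟩ := hi
    obtain ⟨j, rfl⟩ := hsubr hc
    have hij : i = g • j := by
      rw [smul_ap] at hic
      exact ap_inj E S hic
    subst hij
    have h1 := rot_conj S g⁻¹ (g • j) r hr
    rw [inv_smul_smul, inv_inv] at h1
    have h2 : g⁻¹ * r * g ∈ gN S Γ F C := by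
      rcases hc with hc | hc
      · exact hΓ (hP.rot j hc h1)
      · refine hKK (Subgroup.subset_closure ⟨S.ap j, hc, ?_⟩)
        rw [R_ap]; exact h1
    have h3 : r = g * (g⁻¹ * r * g) * g⁻¹ := by group
    rw [h3]
    exact mul_mem (mul_mem hg h2) (inv_mem hg)
  · intro i w hw hiw
    obtain ⟨u0, hu0, v0, hv0, hb⟩ := hw
    have rep : ∀ z ∈ orb (gN S Γ F C) F ∪ orb (gN S Γ F C) (C ∪ Cnew S F C),
        ∃ g ∈ gN S Γ F C, ∃ u ∈ F ∪ C ∪ Cnew S F C, z = g • u := by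
      intro z hz
      rcases hz with ⟨g, hg, u, hu, rfl⟩ | ⟨g, hg, u, hu, rfl⟩
      · exact ⟨g, hg, u, Or.inl (Or.inl hu), rfl⟩
      · rcases hu with hu | hu
        · exact ⟨g, hg, u, Or.inl (Or.inr hu), rfl⟩
        · exact ⟨g, hg, u, Or.inr hu, rfl⟩
    obtain ⟨g1, hg1, u, hu, rfl⟩ := rep u0 hu0
    obtain ⟨g2, hg2, v, hv, rfl⟩ := rep v0 hv0
    have hb' : Btw S.dg u (g1⁻¹ • w) ((g1⁻¹ * g2) • v) := by
      have h1 : Btw S.dg (g1⁻¹ • g1 • u) (g1⁻¹ • w) (g1⁻¹ • g2 • v) := by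
        unfold Pool.Agent.BURN.Btw at hb ⊢
        rw [isoG E S, isoG E S, isoG E S]; exact hb
      rwa [inv_smul_smul, ← mul_smul] at h1
    obtain ⟨k, hk, y, hy, hcy⟩ := main E hCh hP (c := g1⁻¹ • S.ap i)
      (mul_mem (inv_mem hg1) hg2) hu hv hb' ⟨g1⁻¹ • i, (smul_ap S g1⁻¹ i).symm⟩
      (by rw [isoG E S]; exact hiw)
    refine ⟨g1 * k, mul_mem hg1 hk, y, hy, ?_⟩
    rw [mul_smul, ← hcy, smul_inv_smul]

end Pool.Agent.FRK
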