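import Pool.Agent.FRK.Kit

/-! FRK, module WMX: adding the rotations at the new apices is a chain of closings. -/

namespace Pool.Agent.FRK.WMX

open Pool.Agent.BURN Pool.Agent.BURR Pool.Agent.FRK Pool.Agent.FRK.Kit

theorem rotS_zp {G : Type} [Group G] (w : G) (n : ℕ) :
    RotS (Subgroup.zpowers w) n = Subgroup.zpowers (w ^ n) := by
  unfold RotS
  apply le_antisymm
  · rw [Subgroup.closure_le]
    rintro x ⟨e, he, rfl⟩
    obtain ⟨k, rfl⟩ := Subgroup.mem_zpowers_iff.1 he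
    show (w ^ k) ^ n ∈ Subgroup.zpowers (w ^ n)
    rw [Subgroup.mem_zpowers_iff]
    refine ⟨k, ?_⟩
    rw [← zpow_natCast, ← zpow_natCast, ← zpow_mul, ← zpow_mul, mul_comm]
  · rw [Subgroup.zpowers_le]
    exact Subgroup.subset_closure ⟨w, Subgroup.mem_zpowers w, rfl⟩

theorem ceil_add (L a b : ℕ) (hL : 1 ≤ L) :
    (a + L - 1) / L + (b + L - 1) / L ≤ (a + b + L - 1) / L + 1 := by
  have h1 : (a + L - 1) / L * L ≤ a + L - 1 := Nat.div_mul_le_self _ _
  have h2 : (b + L - 1) / L * L ≤ b + L - 1 := Nat.div_mul_le_self _ _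
  generalize (a + L - 1) / L = p at *
  generalize (b + L - 1) / L = q at *
  have h3 : p + q - 1 ≤ (a + b + L - 1) / L := by
    rw [Nat.le_div_iff_mul_le (by omega)]
    rw [Nat.sub_mul, add_mul]
    omega
  omega

variable [RP]

theorem ap_inj {S : KSys} {i j : S.I} (h : S.ap i = S.ap j) : i = j :=
  CV.a.inj (congrArg Subtype.val h)

theorem bs_ne_ap {S : KSys} (x : S.X) (i : S.I) : S.bs x ≠ S.ap i := by
  intro h
  have h' : (CV.b x : CV S.X S.I) = CV.a i := congrArg Subtype.val h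
  cases h'

theorem cnt_I (S : KSys) (hB : Big S) : Countable S.I := by
  have := hB.cnt
  have h : ∀ i : S.I, ∃ w : S.G, S.E i = Subgroup.zpowers w := fun i => by
    obtain ⟨w, hw, _⟩ := S.kil i
    exact ⟨w, hw⟩
  choose w hw using h
  have hinj : Function.Injective w := by
    intro i j hij
    apply S.inj
    rw [hw i, hw j, hij]
  exact hinj.countable

theorem cnew_smul (E : Eng) (S : KSys) {Γ : Subgroup S.G} {F C : Set S.Gm} (hP : PreSt S Γ F C)
    {g : S.G} (hg : g ∈ Γ) {c : S.Gm} (hc : c ∈ Cnew S F C) : g • c ∈ Cnew S F C := by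
  obtain ⟨⟨i, rfl⟩, h2, w, hw, hd⟩ := hc
  refine ⟨⟨g • i, (smul_ap S g i).symm⟩, ?_, g • w, win_smul E S hP.finv hP.cinv hg hw, ?_⟩
  · intro h
    apply h2
    have := hP.cinv g⁻¹ (Γ.inv_mem hg) _ h
    rwa [inv_smul_smul] at this
  · rw [isoG E S]; exact hd

theorem rot_idx (E : Eng) (S : KSys) (i : S.I) (r : S.G) (hr : r ∈ RotS (S.E i) (S.nE i)) :
    r • i = i := by
  apply ap_inj (S := S)
  rw [← smul_ap, rot_fix E S i r hr]

theorem sep (E : Eng) (S : KSys) {Γ : Subgroup S.G} {F C : Set S.Gm} (hP : PreSt S Γ F C)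
    (i : S.I) (hi : S.ap i ∈ Cnew S F C) (r : S.G) (hr : r ∈ S.R (S.ap i)) (hr1 : r ≠ 1)
    (q q' : S.Gm) (hq : q ∈ F ∪ C ∪ Cnew S F C) (hq' : q' ∈ F ∪ C ∪ Cnew S F C)
    (hqi : q ≠ S.ap i) (hqi' : q' ≠ S.ap i) : gp S.dg q (r • q') (S.ap i) ≤ 2 * f3 := by
  have hr' : r ∈ RotS (S.E i) (S.nE i) := by rw [← R_ap S i]; exact hr
  obtain ⟨A, hA⟩ := (E.footEx S.X S.I S.D S.Y rho (cd E S)).1 i q hqi
  obtain ⟨A', hA'⟩ := (E.footEx S.X S.I S.D S.Y rho (cd E S)).1 i q' hqi'
  have hri : r • i = i := rot_idx E S i r hr'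
  have hf := foot_smul E S r i q' A' hA'
  rw [hri] at hf
  have hsp := hP.span i hi q hq q' hq' hqi hqi' A A' hA hA' r hr' hr1 A' hA'.1
  have h1 := (dgD E S).tri A' A (r • A')
  have h2 := (dgD E S).symm A' A
  refine E.vr0 S.X S.I S.D S.Y rho (cd E S) i q (r • q') A (r • A') hA hf ?_
  have h3 : 2 ^ (rho + 5) ≤ 2 ^ (rho + 7) := Nat.pow_le_pow_right (by norm_num) (by omega)
  omega

theorem near_foot (E : Eng) (hG : Stmt_GChain) (S : KSys) {Γ : Subgroup S.G} {F C : Set S.Gm}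
    (hP : PreSt S Γ F C) (C1 : Set S.Gm) (h1 : C1 ⊆ Cnew S F C)
    (hinv : ∀ g ∈ Γ, ∀ c ∈ C1, g • c ∈ C1) (i : S.I) (hi : S.ap i ∈ Cnew S F C)
    (hi1 : S.ap i ∉ C1) (γ : S.G) (hγ : γ ∈ Γ ⊔ KK C1 S.R) (b : S.X) (hb : S.bs b ∈ F)
    (A : S.X) (hA : Foot (Dsc Lam S.d) (YE S.d S.E) rho i (S.bs (γ • b)) A) :
    ∃ q ∈ F ∪ C ∪ Cnew S F C, q ≠ S.ap i ∧ ∃ Aq,
      Foot (Dsc Lam S.d) (YE S.d S.E) rho i q Aq ∧ S.D A Aq ≤ 2 ^ (rho + 5) := by
  have : Nonempty S.Gm := ⟨hP.ne.some⟩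
  have hRF := rf E S
  obtain ⟨m, gs, c, h, hh, g0, hg, hmem, hc, hne⟩ := hG S.G S.Gm S.dg (Set.range S.ap) S.R del1
    (2 * f3 + 1) (2 * f3) (2 * rho + 2) Γ C1 hRF (fun x hx => (h1 hx).1) hinv γ hγ
  have hbx : S.bs (γ • b) = gs m • (h • S.bs b) := by
    rw [← bs_smul, hg, mul_smul]
  rcases Nat.eq_zero_or_pos m with hm | hm
  · subst hm
    refine ⟨S.bs (γ • b), Or.inl (Or.inl ?_), bs_ne_ap _ _, A, hA, ?_⟩
    · rw [hbx, g0, one_smul]
      exact hP.finv h hh _ hb
    · rw [((dgD E S).eq_zero A A).2 rfl]; exact Nat.zero_le _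
  · set X : ℕ → S.Gm := fun j => if j = 0 then S.ap i else if j ≤ m then c j else S.bs (γ • b)
      with hX
    have hX0 : X 0 = S.ap i := by simp [hX]
    have hXj : ∀ j, 1 ≤ j → j ≤ m → X j = c j := by
      intro j hj1 hj2
      simp only [hX]
      rw [if_neg (by omega), if_pos hj2]
    have hXm : X (m + 1) = S.bs (γ • b) := by
      simp only [hX]
      rw [if_neg (by omega), if_neg (by omega)]
    have hc1 : c 1 ∈ C1 := by
      have := (hc 1 le_rfl hm).2.1
      rwa [show (1 : ℕ) - 1 = 0 from rfl, g0, inv_one, one_smul] at this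
    have hprod : ∀ j, 1 ≤ j → j + 1 ≤ m + 1 →
        gp S.dg (X (j - 1)) (X (j + 1)) (X j) ≤ 2 * f3 := by
      intro j hj1 hj2
      have hjm : j ≤ m := by omega
      obtain ⟨hcr, hca, hca', r, hr, hr1, hgj⟩ := hc j hj1 hjm
      set g' := gs (j - 1) with hg'
      obtain ⟨k, hk⟩ := (h1 hca).1
      have hr' : g'⁻¹ * r * g' ∈ S.R (S.ap k) := by
        rw [hk]
        have := (hRF.conj g'⁻¹ (c j) hcr r).1 hr
        rwa [inv_inv] at this
      have hr'1 : g'⁻¹ * r * g' ≠ 1 := by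
        intro h0
        apply hr1
        have : r = g' * (g'⁻¹ * r * g') * g'⁻¹ := by group
        rw [this, h0]; group
      have hfix : r • c j = c j := hRF.fix _ hcr r hr
      -- the neighbours
      have hq : g'⁻¹ • X (j - 1) ∈ F ∪ C ∪ Cnew S F C := by
        rcases Nat.lt_or_ge j 2 with h2 | h2
        · have hj : j = 1 := by omega
          subst hj
          rw [hg', show (1 : ℕ) - 1 = 0 from rfl, g0, inv_one, one_smul, hX0]
          exact Or.inr hi
        · rw [hXj (j - 1) (by omega) (by omega), hg']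
          exact Or.inr (h1 (hc (j - 1) (by omega) (by omega)).2.2.1)
      have hq' : (gs j)⁻¹ • X (j + 1) ∈ F ∪ C ∪ Cnew S F C := by
        rcases Nat.lt_or_ge m (j + 1) with h2 | h2
        · have hj : j = m := by omega
          subst hj
          rw [hXm, hbx, inv_smul_smul]
          exact Or.inl (Or.inl (hP.finv h hh _ hb))
        · rw [hXj (j + 1) (by omega) h2]
          have := (hc (j + 1) (by omega) h2).2.1
          rw [Nat.add_sub_cancel] at this
          exact Or.inr (h1 this)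
      have hqa : g'⁻¹ • X (j - 1) ≠ S.ap k := by
        rw [hk]
        intro h0
        have h0' : X (j - 1) = c j := smul_left_cancel _ h0
        rcases Nat.lt_or_ge j 2 with h2 | h2
        · have hj : j = 1 := by omega
          subst hj
          rw [show (1 : ℕ) - 1 = 0 from rfl, hX0] at h0'
          apply hi1
          rw [h0']; exact hc1
        · rw [hXj (j - 1) (by omega) (by omega)] at h0'
          refine hne (j - 1) (by omega) (by omega) ?_
          rw [h0', show j - 1 + 1 = j by omega]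
      have hqa' : (gs j)⁻¹ • X (j + 1) ≠ S.ap k := by
        rw [hk]
        intro h0
        have h0' : X (j + 1) = c j := by
          have e1 : X (j + 1) = gs j • (g'⁻¹ • c j) := by rw [← h0, smul_inv_smul]
          rw [e1, hgj, mul_smul, smul_inv_smul, hfix]
        rcases Nat.lt_or_ge m (j + 1) with h2 | h2
        · have hj : j = m := by omega
          subst hj
          rw [hXm] at h0'
          obtain ⟨k', hk'⟩ := hcr
          exact bs_ne_ap _ _ (h0'.trans hk'.symm)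
        · rw [hXj (j + 1) (by omega) h2] at h0'
          exact hne j hj1 h2 h0'.symm
      have hki : S.ap k ∈ Cnew S F C := by rw [hk]; exact h1 hca
      have hs := sep E S hP k hki _ hr' hr'1 _ _ hq hq' hqa hqa'
      have e1 : (g'⁻¹ * r * g') • ((gs j)⁻¹ • X (j + 1)) = g'⁻¹ • X (j + 1) := by
        rw [← mul_smul, hgj]
        congr 1
        group
      rw [e1, hk, isIso_gp (isoG E S)] at hs
      rw [hXj j hj1 hjm]
      exact hs
    have hnum : 4 * f3 + 2 * del1 + 10 ≤ rho := by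
      have h2 := num2
      have h3 := num1'
      obtain ⟨-, h4, h5, -, -, h6, -⟩ := h3
      generalize f3 = a at *
      generalize del1 = b at *
      omega
    have hdist : ∀ j, 1 ≤ j → j + 2 ≤ m + 1 → 2 * f3 + del1 < S.dg (X j) (X (j + 1)) := by
      intro j hj1 hj2
      rw [hXj j hj1 (by omega), hXj (j + 1) (by omega) (by omega)]
      have := hRF.sep (c j) (hc j hj1 (by omega)).1 (c (j + 1))
        (hc (j + 1) (by omega) (by omega)).1 (hne j hj1 (by omega))
      omega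
    have hL := (E.lga S.Gm S.dg del1 (2 * f3) (m + 1) X (dgG E S) (hypG E S) (by omega)
      hprod hdist).2.1
    rw [hX0, hXm, hXj 1 le_rfl hm] at hL
    have hne1 : S.ap i ≠ c 1 := by
      intro h0
      apply hi1; rw [h0]; exact hc1
    have hfar := hRF.sep (S.ap i) ⟨i, rfl⟩ (c 1) (hc 1 le_rfl hm).1 hne1
    have hsum := gp_add_gp (dgG E S) (S.ap i) (S.bs (γ • b)) (c 1)
    obtain ⟨Aq, hAq⟩ := (E.footEx S.X S.I S.D S.Y rho (cd E S)).1 i (c 1) (Ne.symm hne1)
    refine ⟨c 1, Or.inr (h1 hc1), Ne.symm hne1, Aq, hAq, ?_⟩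
    by_contra hcon
    have hv := E.vr0 S.X S.I S.D S.Y rho (cd E S) i (c 1) (S.bs (γ • b)) Aq A hAq hA (by
      have := (dgD E S).symm A Aq
      omega)
    have hv' : gp S.dg (c 1) (S.bs (γ • b)) (S.ap i) ≤ 2 * f3 := hv
    omega

theorem gap (E : Eng) (hG : Stmt_GChain) (hPH : Stmt_ProjHull) (S : KSys) {Γ : Subgroup S.G}
    {F C : Set S.Gm}
    (hP : PreSt S Γ F C) (C1 : Set S.Gm) (h1 : C1 ⊆ Cnew S F C)
    (hinv : ∀ g ∈ Γ, ∀ c ∈ C1, g • c ∈ C1) (i : S.I) (hi : S.ap i ∈ Cnew S F C)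
    (hi1 : S.ap i ∉ C1) (r : S.G) (hr : r ∈ RotS (S.E i) (S.nE i)) (hr1 : r ≠ 1)
    (B : Set S.X) (hB : ∀ b ∈ B, S.bs b ∈ F) :
    ∀ u ∈ hull S.d (orb (Γ ⊔ KK C1 S.R) B), ∀ v ∈ hull S.d (orb (Γ ⊔ KK C1 S.R) B),
      4 * rho ≤ S.d u (r • v) := by
  have hri : r • i = i := rot_idx E S i r hr
  have hri' : r⁻¹ • i = i := by
    rw [inv_smul_eq_iff, hri]
  -- projections of orbit points
  have key : ∀ x ∈ orb (Γ ⊔ KK C1 S.R) B, ∀ x' ∈ orb (Γ ⊔ KK C1 S.R) B, ∀ w ∈ S.Y i,
      S.D (S.pr i x) (S.pr i x') + 2 ^ (rho + 6) ≤ S.D w (r • w) + 2 * 2 ^ f3 := by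
    rintro x ⟨γ, hγ, b, hb, rfl⟩ x' ⟨γ', hγ', b', hb', rfl⟩ w hw
    obtain ⟨A, hA⟩ := (E.footEx S.X S.I S.D S.Y rho (cd E S)).1 i (S.bs (γ • b)) (bs_ne_ap _ _)
    obtain ⟨A', hA'⟩ := (E.footEx S.X S.I S.D S.Y rho (cd E S)).1 i (S.bs (γ' • b'))
      (bs_ne_ap _ _)
    have p1 : S.D A (S.pr i (γ • b)) ≤ 2 ^ f3 :=
      E.footPr S.X S.I S.D S.Y rho S.pr (cd E S) S.prn i _ A hA
    have p2 : S.D A' (S.pr i (γ' • b')) ≤ 2 ^ f3 :=
      E.footPr S.X S.I S.D S.Y rho S.pr (cd E S) S.prn i _ A' hA'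
    obtain ⟨q, hq, hqi, Q, hQ, hQd⟩ := near_foot E hG S hP C1 h1 hinv i hi hi1 γ hγ b (hB b hb)
      A hA
    obtain ⟨q', hq', hqi', Q', hQ', hQd'⟩ := near_foot E hG S hP C1 h1 hinv i hi hi1 γ' hγ' b'
      (hB b' hb') A' hA'
    have hsp := hP.span i hi q hq q' hq' hqi hqi' Q Q' hQ hQ' r hr hr1 w hw
    have dD := dgD E S
    have t1 := dD.tri (S.pr i (γ • b)) A (S.pr i (γ' • b'))
    have t2 := dD.tri A Q (S.pr i (γ' • b'))
    have t3 := dD.tri Q Q' (S.pr i (γ' • b'))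
    have t4 := dD.tri Q' A' (S.pr i (γ' • b'))
    have s1 := dD.symm (S.pr i (γ • b)) A
    have s2 := dD.symm Q' A'
    have e1 : 2 ^ (rho + 7) = 2 * 2 ^ (rho + 6) := by rw [pow_succ]; ring
    have e2 : 2 ^ (rho + 6) = 2 * 2 ^ (rho + 5) := by rw [pow_succ]; ring
    omega
  have hnear : ∀ x, IsNear S.D (S.Y i) x (S.pr i x) := fun x => S.prn i x
  have hbt : ∀ x u y, Btw S.d x u y → S.D x u + S.D u y ≤ S.D x y + 1 := by
    intro x u y h
    have h' : S.d x u + S.d u y = S.d x y := h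
    have hL := num4.2
    have := ceil_add Lam (S.d x u) (S.d u y) (by omega)
    rw [h'] at this
    exact this
  intro u hu v hv
  obtain ⟨x1, hx1, x2, hx2, hxb⟩ := hu
  obtain ⟨y1, hy1, y2, hy2, hyb⟩ := hv
  have dD := dgD E S
  have hqc : QC S.D 1 (S.Y i) := (cd E S).qc i
  have hw : S.pr i v ∈ S.Y i := (hnear v).1
  have P1 := hPH S.X S.D (S.Y i) x1 x2 u (S.pr i x1) (S.pr i x2) (S.pr i u) dD (hypD E S) hqc
    (hbt _ _ _ hxb) (hnear _) (hnear _) (hnear _) (S.pr i v) hw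
  have P2 := hPH S.X S.D (S.Y i) y1 y2 v (S.pr i y1) (S.pr i y2) (S.pr i v) dD (hypD E S) hqc
    (hbt _ _ _ hyb) (hnear _) (hnear _) (hnear _) (S.pr i x1) (hnear x1).1
  have P3 := hPH S.X S.D (S.Y i) y1 y2 v (S.pr i y1) (S.pr i y2) (S.pr i v) dD (hypD E S) hqc
    (hbt _ _ _ hyb) (hnear _) (hnear _) (hnear _) (S.pr i x2) (hnear x2).1
  have K11 := key y1 hy1 x1 hx1 _ hw
  have K12 := key y1 hy1 x2 hx2 _ hw
  have K21 := key y2 hy2 x1 hx1 _ hw
  have K22 := key y2 hy2 x2 hx2 _ hw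
  have s1 := dD.symm (S.pr i x1) (S.pr i v)
  have s2 := dD.symm (S.pr i x2) (S.pr i v)
  have hA : S.D (S.pr i u) (S.pr i v) + 2 ^ (rho + 6) ≤
      S.D (S.pr i v) (r • S.pr i v) + 2 * 2 ^ f3 + 120 := by
    rcases le_total (S.D (S.pr i x1) (S.pr i v)) (S.D (S.pr i x2) (S.pr i v)) with hh | hh
    · rw [max_eq_right hh] at P1
      rcases le_total (S.D (S.pr i y1) (S.pr i x2)) (S.D (S.pr i y2) (S.pr i x2)) with h3 | h3
      · rw [max_eq_right h3] at P3; omega
      · rw [max_eq_left h3] at P3; omega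
    · rw [max_eq_left hh] at P1
      rcases le_total (S.D (S.pr i y1) (S.pr i x1)) (S.D (S.pr i y2) (S.pr i x1)) with h3 | h3
      · rw [max_eq_right h3] at P2; omega
      · rw [max_eq_left h3] at P2; omega
  -- the projection of r v
  have isoD := isoD E S
  have hYs : ∀ (g : S.G), g • i = i → ∀ y ∈ S.Y i, g • y ∈ S.Y i := by
    intro g hg y hy
    have := (E.overlap S).2.2.2.1 i g y hy
    rwa [hg] at this
  have hn2 : IsNear S.D (S.Y i) (r • v) (r • S.pr i v) := by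
    refine ⟨hYs r hri _ hw, ?_⟩
    intro w hw'
    rw [isoD]
    have h2 := (hnear v).2 (r⁻¹ • w) (hYs _ hri' _ hw')
    have h3 := isoD r v (r⁻¹ • w)
    rw [smul_inv_smul] at h3
    omega
  have h7 : S.D (S.pr i (r • v)) (r • S.pr i v) ≤ 7 :=
    (E.proj S.X S.D 2 1 7 7 9 22 (S.Y i) dD (hypD E S) hqc rfl rfl rfl rfl).2.2.2.1 (r • v) _ _
      (hnear _) hn2
  have h18 : S.D (S.pr i u) (S.pr i (r • v)) ≤ S.D u (r • v) + 18 :=
    (E.shadow S.X S.I S.D S.Y rho S.pr (cd E S) S.prn).2.1 i u (r • v)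
  have t1 := dD.tri (S.pr i v) (S.pr i u) (r • S.pr i v)
  have t2 := dD.tri (S.pr i u) (S.pr i (r • v)) (r • S.pr i v)
  have s3 := dD.symm (S.pr i v) (S.pr i u)
  have hnum : 2 * 2 ^ f3 + 147 ≤ 2 ^ (rho + 6) := by
    have h2 := num2
    obtain ⟨-, -, h5, -, -, h6, -⟩ := num1'
    have h3 : f3 ≤ rho := by
      generalize f3 = a at *
      omega
    have h4 : 2 ^ f3 ≤ 2 ^ rho := Nat.pow_le_pow_right (by norm_num) h3
    have h8 : 2 ^ (rho + 6) = 64 * 2 ^ rho := by rw [pow_add]; ring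
    have h9 : 2 ^ 10 ≤ 2 ^ rho := Nat.pow_le_pow_right (by norm_num) (by omega)
    norm_num at h9
    generalize 2 ^ f3 = a at *
    omega
  have hD : 1 + 1 ≤ S.D u (r • v) := by
    generalize 2 ^ f3 = a at *
    omega
  have hd := d_ge S u (r • v) 1 hD
  have := num4.1
  omega

theorem step_eq (E : Eng) (S : KSys) (Γ : Subgroup S.G) (c : ℕ → S.Gm) (n : ℕ) (i : S.I)
    (hc : c n = S.ap i) (r : S.G) (hr : RotS (S.E i) (S.nE i) = Subgroup.zpowers r) :
    Γ ⊔ KK (orb Γ {x | ∃ j < n + 1, x = c j}) S.R =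
      (Γ ⊔ KK (orb Γ {x | ∃ j < n, x = c j}) S.R) ⊔ Subgroup.zpowers r := by
  have hmono : KK (orb Γ {x | ∃ j < n, x = c j}) S.R ≤
      KK (orb Γ {x | ∃ j < n + 1, x = c j}) S.R := by
    unfold KK
    apply Subgroup.closure_mono
    rintro x ⟨y, hy, hx⟩
    refine ⟨y, ?_, hx⟩
    refine orb_mono le_rfl ?_ hy
    rintro z ⟨j, hj, rfl⟩
    exact ⟨j, by omega, rfl⟩
  have hRr : S.R (c n) = Subgroup.zpowers r := by rw [hc, R_ap, hr]
  apply le_antisymm
  · refine sup_le (le_sup_left.trans le_sup_left) ?_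
    conv_lhs => unfold KK
    rw [Subgroup.closure_le]
    rintro x ⟨y, ⟨g, hg, z, ⟨j, hj, rfl⟩, rfl⟩, hx⟩
    rcases Nat.lt_or_ge j n with h | h
    · refine Subgroup.mem_sup_left (Subgroup.mem_sup_right ?_)
      exact Subgroup.subset_closure ⟨_, ⟨g, hg, _, ⟨j, h, rfl⟩, rfl⟩, hx⟩
    · have hj' : j = n := by omega
      subst hj'
      have hcr : c j ∈ Set.range S.ap := ⟨i, hc.symm⟩
      have hx' : g⁻¹ * x * g ∈ S.R (c j) := by
        rw [(rf E S).conj g (c j) hcr (g⁻¹ * x * g)]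
        have : g * (g⁻¹ * x * g) * g⁻¹ = x := by group
        rw [this]; exact hx
      rw [hRr] at hx'
      have hG : g ∈ (Γ ⊔ KK (orb Γ {x | ∃ j' < j, x = c j'}) S.R) ⊔ Subgroup.zpowers r :=
        Subgroup.mem_sup_left (Subgroup.mem_sup_left hg)
      have : x = g * (g⁻¹ * x * g) * g⁻¹ := by group
      rw [SetLike.mem_coe, this]
      exact Subgroup.mul_mem _ (Subgroup.mul_mem _ hG (Subgroup.mem_sup_right hx'))
        (Subgroup.inv_mem _ hG)
  · refine sup_le (sup_le_sup_left hmono Γ) ?_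
    rw [← hRr]
    refine le_trans ?_ le_sup_right
    intro x hx
    exact Subgroup.subset_closure ⟨c n, sub_orb Γ _ ⟨n, by omega, rfl⟩, hx⟩

end Pool.Agent.FRK.WMX

namespace Pool.Agent.FRK

open Pool.Agent.BURN Pool.Agent.BURR Pool.Agent.FRK.Kit Pool.Agent.FRK.WMX

variable [RP]

theorem WMX_proof (E : Eng) (hG : Stmt_GChain) (hPH : Stmt_ProjHull) : Stmt_WMX := by
  intro S Γ F C B hBig hP hB
  have := cnt_I S hBig
  have hcnt : (Cnew S F C).Countable :=
    (Set.countable_range S.ap).mono (fun x hx => hx.1)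
  rcases (Cnew S F C).eq_empty_or_nonempty with he | hne
  · have : gN S Γ F C = Γ := by
      unfold gN KK
      rw [he]
      have : {r : S.G | ∃ c ∈ (∅ : Set S.Gm), r ∈ S.R c} = ∅ := by
        ext x; simp
      rw [this, Subgroup.closure_empty, sup_bot_eq]
    rw [this]
    exact Ext.refl Γ
  · obtain ⟨c, hc⟩ := hcnt.exists_eq_range hne
    have hcm : ∀ j, c j ∈ Cnew S F C := fun j => by rw [hc]; exact ⟨j, rfl⟩
    set s : ℕ → Subgroup S.G := fun n => Γ ⊔ KK (orb Γ {x | ∃ j < n, x = c j}) S.R with hs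
    have hC1 : ∀ n, orb Γ {x | ∃ j < n, x = c j} ⊆ Cnew S F C := by
      rintro n x ⟨g, hg, y, ⟨j, hj, rfl⟩, rfl⟩
      exact cnew_smul E S hP hg (hcm j)
    have h0 : s 0 = Γ := by
      simp only [hs]
      have : {x : S.Gm | ∃ j < 0, x = c j} = ∅ := by
        ext x; simp
      rw [this]
      have h2 : orb Γ (∅ : Set S.Gm) = ∅ := by
        ext x
        simp [orb]
      rw [h2]
      unfold KK
      have : {r : S.G | ∃ c ∈ (∅ : Set S.Gm), r ∈ S.R c} = ∅ := by
        ext x; simp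
      rw [this, Subgroup.closure_empty, sup_bot_eq]
    have hsup : (⨆ n, s n) = gN S Γ F C := by
      apply le_antisymm
      · refine iSup_le fun n => ?_
        unfold gN
        refine sup_le_sup_left ?_ Γ
        unfold KK
        apply Subgroup.closure_mono
        rintro x ⟨y, hy, hx⟩
        exact ⟨y, hC1 n hy, hx⟩
      · unfold gN
        refine sup_le ?_ ?_
        · rw [← h0]; exact le_iSup s 0
        · conv_lhs => unfold KK
          rw [Subgroup.closure_le]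
          rintro x ⟨y, hy, hx⟩
          rw [hc] at hy
          obtain ⟨j, rfl⟩ := hy
          refine (le_iSup s (j + 1)) ?_
          refine Subgroup.mem_sup_right (Subgroup.subset_closure ⟨c j, ?_, hx⟩)
          exact sub_orb Γ _ ⟨j, by omega, rfl⟩
    have hstep : ∀ n, Ext S.d B (s n) (s (n + 1)) := by
      intro n
      obtain ⟨i, hi⟩ := (hcm n).1
      obtain ⟨w, hw, hwm, -⟩ := S.kil i
      have hR : RotS (S.E i) (S.nE i) = Subgroup.zpowers (w ^ S.nE i) := by
        rw [hw]; exact rotS_zp w _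
      have heq := step_eq E S Γ c n i hi.symm _ hR
      by_cases hin : S.ap i ∈ orb Γ {x | ∃ j < n, x = c j}
      · have hle : Subgroup.zpowers (w ^ S.nE i) ≤
            Γ ⊔ KK (orb Γ {x | ∃ j < n, x = c j}) S.R := by
          rw [← hR, ← R_ap]
          intro x hx
          exact Subgroup.mem_sup_right (Subgroup.subset_closure ⟨_, hin, hx⟩)
        have : s (n + 1) = s n := by
          show Γ ⊔ KK (orb Γ {x | ∃ j < n + 1, x = c j}) S.R = _
          rw [heq]
          exact sup_eq_left.2 hle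
        rw [this]
        exact Ext.refl _
      · have : s (n + 1) = s n ⊔ Subgroup.zpowers (w ^ S.nE i) := heq
        rw [this]
        refine Ext.step _ _ ?_
        refine gap E hG hPH S hP _ (hC1 n) ?_ i (by rw [hi]; exact hcm n) hin _ ?_ ?_ B hB
        · intro g hg x hx
          exact orb_smul hg hx
        · rw [hR]; exact Subgroup.mem_zpowers _
        · -- a power of a loxodromic element is not trivial
          intro h1
          have hpos : 1 ≤ S.nE i := nq_pos.trans (S.nge i)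
          have hl := hwm.1
          have hbd : ∀ m, w ^ m = w ^ (m % S.nE i) := by
            intro m
            conv_lhs => rw [← Nat.div_add_mod m (S.nE i), pow_add, pow_mul, h1, one_pow, one_mul]
          obtain ⟨x⟩ := S.good.nonempty
          obtain ⟨m, hm⟩ := hl x (∑ j ∈ Finset.range (S.nE i), S.d x (w ^ j • x))
          rw [hbd m] at hm
          have hlt : m % S.nE i < S.nE i := Nat.mod_lt _ (by omega)
          have := Finset.single_le_sum (f := fun j => S.d x (w ^ j • x))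
            (fun j _ => Nat.zero_le _) (Finset.mem_range.2 hlt)
          omega
    have := Ext.union s hstep
    rw [hsup, h0] at this
    exact this

end Pool.Agent.FRK
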