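import Pool.Agent.FRK.Kit

/-! FRK, module WQC: the image of the region is quasi-convex. -/

namespace Pool.Agent.FRK

open Pool.Agent.BURN Pool.Agent.BURR

variable [RP]

open Kit in
theorem WQC_proof (E : Eng) : Stmt_WQC := by
  intro S Γ F C hSt
  have hdg := dgG E S
  have hy := hypG E S
  have hiso := isoG E S
  have hRF := rf E S
  have hqc := win_qc E S F C
  obtain ⟨_, n1, _, _, n2, n3, _, n4, _⟩ := num1'
  have hWinv : ∀ g ∈ Γ, ∀ w ∈ Win S F C, g • w ∈ Win S F C :=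
    fun g hg w hw => win_smul E S hSt.finv hSt.cinv hg hw
  rintro _ ⟨p, hp, rfl⟩ _ ⟨p', hp', rfl⟩ s hs
  -- the group generated by the rotations of C
  have hCΓ : KK C S.R ≤ Γ := by
    unfold KK
    rw [Subgroup.closure_le]
    rintro r ⟨c, hc, hr⟩
    obtain ⟨i, rfl⟩ := hSt.sub hc
    rw [R_ap] at hr
    exact hSt.rot i hc hr
  have hCK : KK C S.R ≤ S.K := by
    apply Subgroup.closure_mono
    rintro r ⟨c, hc, hr⟩
    exact ⟨c, hSt.sub hc, hr⟩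
  obtain ⟨k0, hk0, hmin⟩ : ∃ k0 ∈ KK C S.R, ∀ k ∈ KK C S.R,
      S.dg p (k0 • p') ≤ S.dg p (k • p') := by
    have hne : {n | ∃ k ∈ KK C S.R, n = S.dg p (k • p')}.Nonempty := ⟨_, 1, one_mem _, rfl⟩
    obtain ⟨k0, hk0, he⟩ := Nat.sInf_mem hne
    refine ⟨k0, hk0, fun k hk => ?_⟩
    rw [← he]
    exact Nat.sInf_le ⟨k, hk, rfl⟩
  set p2 := k0 • p' with hp2
  have hp2W : p2 ∈ Win S F C := hWinv _ (hCΓ hk0) _ hp'
  have hq2 : S.q p2 = S.q p' := q_K S (hCK hk0) p'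
  have nearW : ∀ c, ∀ m, gp S.dg p p2 c ≤ m → ∃ w ∈ Win S F C,
      S.dg c w ≤ (m + 1) / 2 + 3 * del1 := by
    intro c m hm
    obtain ⟨γ, hγ⟩ := exists_geod hdg p p2
    obtain ⟨m1, m2⟩ := near_geod hdg hy hγ c
    obtain ⟨u2, hu2, hd2⟩ := hqc p hp p2 hp2W _ (hγ.btw' m1)
    refine ⟨u2, hu2, ?_⟩
    have t1 := hdg.tri c (γ (gp S.dg p2 c p / 2)) u2
    omega
  have hIrr : Irr S.dg (Set.range S.ap) S.R (eta del1 (2 * f3)) (tht del1 (2 * f3)) p p2 := by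
    intro c hc r hr hle
    by_contra hcon
    have hth : tht del1 (2 * f3) = eta del1 (2 * f3) + 4 * del1 + 1 := rfl
    obtain ⟨w, hw, hcw⟩ := nearW c _ hle
    obtain ⟨i, rfl⟩ := hc
    have hcC : S.ap i ∈ C := hSt.full i w hw (by omega)
    have hrk : r * k0 ∈ KK C S.R := mul_mem (Subgroup.subset_closure ⟨_, hcC, hr⟩) hk0
    have h1 := hmin _ hrk
    rw [mul_smul, ← hp2] at h1
    have h2 := gp_add hdg p p2 (S.ap i)
    have h3 := gp_add hdg p (r • p2) (S.ap i)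
    have h4 : S.dg (r • p2) (S.ap i) = S.dg p2 (S.ap i) := by
      have := hiso r p2 (S.ap i)
      rw [hRF.fix _ ⟨i, rfl⟩ r hr] at this
      exact this
    omega
  rw [← hq2] at hs
  obtain ⟨g, hg, hgt⟩ := exists_geod_through (dgB E S) hs
  obtain ⟨t, ht0⟩ : ∃ t, t = S.db (S.q p) s := ⟨_, rfl⟩
  rw [← ht0] at hgt
  have ht : t ≤ S.db (S.q p) (S.q p2) := by
    unfold Pool.Agent.BURN.Btw at hs
    omega
  obtain ⟨y, g', e1, e2, e3, e4⟩ := (E.krf S).2.2.2.2.2.2 p (S.q p2) g hg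
  obtain ⟨k', hk', hk'y⟩ := (S.qeq p2 y).1 e2.symm
  have hIrr' : Irr S.dg (Set.range S.ap) S.R (eta del1 (2 * f3)) (tht del1 (2 * f3)) p y := by
    refine ((E.irrMin S.G S.Gm S.dg (Set.range S.ap) S.R del1 (2 * f3 + 1) (2 * f3)
      (2 * rho + 2) hRF).1 p y ?_).2
    rw [e1, ← e2]
    exact S.qdist p y
  obtain ⟨γ, hγ⟩ := exists_geod hdg p p2
  have hky : k'⁻¹ • y = p2 := by rw [← hk'y, inv_smul_smul]
  have hlad := E.ladder S.G S.Gm S.dg (Set.range S.ap) S.R del1 (2 * f3 + 1) (2 * f3)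
    (2 * rho + 2) hRF p y k'⁻¹ g' γ (inv_mem hk') e3 (by rw [hky]; exact hγ) hIrr'
    (by rw [hky]; exact hIrr) t (by rw [e1]; exact ht)
  obtain ⟨k2, hk2, j, hj, hd⟩ := hlad
  rw [hky] at hj
  obtain ⟨u2, hu2, hd2⟩ := hqc p hp p2 hp2W _ (hγ.btw' hj)
  refine ⟨S.q u2, ⟨u2, hu2, rfl⟩, ?_⟩
  have h5 : s = S.q (k2 • g' t) := by
    rw [q_K S hk2, e4 t (by rw [e1]; exact ht), hgt]
  rw [h5]
  have h6 := q_le E S (k2 • g' t) u2
  have h7 := hdg.tri (k2 • g' t) (γ j) u2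
  omega

end Pool.Agent.FRK
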