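import Pool.Agent.FRK.EngAsm
import Pool.Agent.FRK.ABnd
import Pool.Agent.FRK.BallG
import Pool.Agent.FRK.BaseTF
import Pool.Agent.FRK.ChoT
import Pool.Agent.FRK.Close
import Pool.Agent.FRK.DispUp
import Pool.Agent.FRK.Exact
import Pool.Agent.FRK.Exh
import Pool.Agent.FRK.ExtB
import Pool.Agent.FRK.ExtFF
import Pool.Agent.FRK.FFB
import Pool.Agent.FRK.FGF
import Pool.Agent.FRK.Final
import Pool.Agent.FRK.Fine
import Pool.Agent.FRK.GChain
import Pool.Agent.FRK.Grow
import Pool.Agent.FRK.GrowP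
import Pool.Agent.FRK.Hair
import Pool.Agent.FRK.HnnF
import Pool.Agent.FRK.Init
import Pool.Agent.FRK.JClus
import Pool.Agent.FRK.JExt
import Pool.Agent.FRK.JFine
import Pool.Agent.FRK.JNear
import Pool.Agent.FRK.JPre
import Pool.Agent.FRK.JSeg
import Pool.Agent.FRK.Jump
import Pool.Agent.FRK.KMem
import Pool.Agent.FRK.LRel
import Pool.Agent.FRK.Lift2
import Pool.Agent.FRK.LiftS
import Pool.Agent.FRK.LimF
import Pool.Agent.FRK.LineG
import Pool.Agent.FRK.MinL
import Pool.Agent.FRK.Near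
import Pool.Agent.FRK.NoApex
import Pool.Agent.FRK.ProjHull
import Pool.Agent.FRK.QL
import Pool.Agent.FRK.RFV
import Pool.Agent.FRK.RQC
import Pool.Agent.FRK.RWord
import Pool.Agent.FRK.RotBig
import Pool.Agent.FRK.Sch
import Pool.Agent.FRK.Small
import Pool.Agent.FRK.Step2
import Pool.Agent.FRK.Str
import Pool.Agent.FRK.TCom
import Pool.Agent.FRK.TCycA
import Pool.Agent.FRK.TCycB
import Pool.Agent.FRK.TGW
import Pool.Agent.FRK.TLine
import Pool.Agent.FRK.TNear
import Pool.Agent.FRK.TStab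
import Pool.Agent.FRK.Tow2
import Pool.Agent.FRK.TowF
import Pool.Agent.FRK.WMB
import Pool.Agent.FRK.WMX
import Pool.Agent.FRK.WMet
import Pool.Agent.FRK.WQC

/-! FRK: assembly. -/

namespace Pool.Agent.FRK

open Pool.Agent.BURN Pool.Agent.BURR Pool.Agent.BURR.Asm

namespace Asm

/-! ### parts A, B, G -/
theorem p_FFB : Stmt_FFB := FFB_proof
theorem p_RWord : Stmt_RWord := RWord_proof
theorem p_HnnF : Stmt_HnnF := hnnF_proof
theorem p_FGF : Stmt_FGF := fGF_proof
theorem p_Sch : Stmt_Sch := sch_proof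
theorem p_LimF : Stmt_LimF := LimF_proof p_FFB p_FGF p_Sch
theorem p_Close : Stmt_Close := close_proof eng0
theorem p_ExtB : Stmt_ExtB := extB_proof
theorem p_ExtFF : Stmt_ExtFF := ExtFF_proof eng0 p_Close p_HnnF p_FFB p_ExtB
theorem p_Fine : Stmt_Fine := fine_proof
theorem p_ProjHull : Stmt_ProjHull := projHull_proof eng0
theorem p_Exact : Stmt_Exact := exact_proof eng0
theorem p_NoApex : Stmt_NoApex := noApex_proof eng0
theorem p_GChain : Stmt_GChain := gChain_proof
theorem p_RQC : Stmt_RQC := rQC_proof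
theorem p_WMet : Stmt_WMet := wmet_proof
theorem p_RFV : Stmt_RFV := rfv_proof eng0 p_WMet
theorem p_TStab : Stmt_TStab := tStab_proof eng0
theorem p_TCom : Stmt_TCom := tCom_proof p_TStab
theorem p_TCycA : Stmt_TCycA := TCycA_proof eng0 p_TStab
theorem p_TCycB : Stmt_TCycB := TCycB_proof eng0 p_TStab p_TCom p_TCycA
theorem p_TGW : Stmt_TGW := TGW_proof p_TStab p_TCom p_TCycB
theorem p_TNear : Stmt_TNear := tNear_proof eng0 p_TStab
theorem p_TLine : Stmt_TLine := tLine_proof eng0 p_TStab p_TNear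
theorem p_BaseTF : Stmt_BaseTF := baseTF_proof eng0 p_TStab p_TGW p_TNear p_TLine

variable [RP]

/-! ### part C -/
theorem p_DispUp : Stmt_DispUp := dispUp_proof eng
theorem p_RotBig : Stmt_RotBig := rotBig_proof eng
theorem p_LineG : Stmt_LineG := lineG_proof eng
theorem p_QL : Stmt_QL := qL_proof eng
theorem p_MinL : Stmt_MinL := MinL_proof eng p_Exact p_QL p_RotBig
theorem p_Str : Stmt_Str := Str_proof eng p_NoApex
theorem p_WQC : Stmt_WQC := WQC_proof eng
theorem p_Near : Stmt_Near := Near_proof eng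
theorem p_KMem : Stmt_KMem := kMem_proof eng
theorem p_Small : Stmt_Small := Small_proof eng
theorem p_WMB : Stmt_WMB := WMB_proof eng p_GChain
theorem p_WMX : Stmt_WMX := WMX_proof eng p_GChain p_ProjHull
theorem p_GrowP : Stmt_GrowP := growP_proof eng p_Small p_RotBig
theorem p_Grow : Stmt_Grow := grow_proof eng p_GrowP p_WMB p_WMX p_Str
theorem p_Hair : Stmt_Hair := hair_proof eng p_Grow
theorem p_BallG : Stmt_BallG := ballG_proof eng p_Grow
theorem p_Exh : Stmt_Exh := Exh_proof eng p_Grow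

/-! ### part D -/
theorem p_JSeg : Stmt_JSeg := JSeg_proof eng
theorem p_JFine : Stmt_JFine := JFine_proof eng p_JSeg p_RWord p_Fine
theorem p_JClus : Stmt_JClus := JClus_proof eng p_JSeg p_RWord
theorem p_JNear : Stmt_JNear := JNear_proof eng p_JFine
theorem p_JPre : Stmt_JPre := jPre_proof eng p_JFine p_JClus p_Small p_RotBig
theorem p_JExt : Stmt_JExt := JExt_proof eng p_Near
theorem p_Jump : Stmt_Jump := Jump_proof eng p_MinL p_JExt p_JPre p_JNear p_WMB p_WMX

/-! ### part E -/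
theorem p_ChoT : Stmt_ChoT := ChoT_proof eng
theorem p_ABnd : Stmt_ABnd := ABnd_proof eng p_Str
theorem p_LiftS : Stmt_LiftS :=
  liftS_proof eng p_Str p_WQC p_ChoT p_RQC p_Hair p_ABnd p_Jump p_ExtB
theorem p_Lift2 : Stmt_Lift2 := lift2_proof eng p_LiftS p_ExtB
theorem p_Init : Stmt_Init := init_proof eng
theorem p_LRel : Stmt_LRel := LRel_proof eng p_DispUp p_Init p_Lift2 p_BallG p_Exh p_KMem p_ExtB

/-! ### part F -/
theorem p_Step2 : Stmt_Step2 := Step2_proof eng p_LRel p_LineG p_H2 p_H6 p_S3 p_S5 p_S5b p_S6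
  p_LB2 p_MStep
theorem p_Tow2 : Stmt_Tow2 := tow2_proof p_Step2
theorem p_TowF : Stmt_TowF := TowF_proof eng p_ExtFF p_ExtB p_LimF p_FFB

omit [RP] in
theorem p_Final : Stmt_Final := final_proof p_Tow2 p_TowF p_WMet p_RFV p_BaseTF p_Lim1

end Asm

end Pool.Agent.FRK
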