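import Pool.Agent.BURR.Stmts4
import Pool.Agent.BURN.Basic
import Pool.Agent.BURN.Ladder

/-! FRK (MP_1e649a_al): freeness of the kernels of the Burnside tower. Definitions.
Text: /team-store/MP_1e649a_FRK.md. Everything uses the Burnside engine Pool/Agent/BURN, in the
version Pool/Agent/BURR with a free stability constant (class RP: R ≥ Rr; Rq = R,
nq = Rq * Lam * 2 ^ (rho + 7)). -/

namespace Pool.Agent.FRK

open Pool.Agent.BURN Pool.Agent.BURR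

variable [RP]

/-! ### group theory -/

/-- Γ' is the free product of Γ and a free group (on the set T ⊆ Γ'), stated by the universal
property -/
def FF {G : Type} [Group G] (Γ Γ' : Subgroup G) : Prop :=
  Γ ≤ Γ' ∧ ∃ T : Set G, Γ' = Γ ⊔ Subgroup.closure T ∧
    ∀ (H : Type) [Group H] (φ : Γ →* H) (t : G → H), ∃ ψ : Γ' →* H,
      (∀ (x : G) (hx : x ∈ Γ) (hx' : x ∈ Γ'), ψ ⟨x, hx'⟩ = φ ⟨x, hx⟩) ∧
      (∀ (x : G) (hx' : x ∈ Γ'), x ∈ T → ψ ⟨x, hx'⟩ = t x)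

/-- h or its inverse -/
def hp {G : Type} [Group G] (h : G) (b : Bool) : G := if b then h else h⁻¹

/-- reduced words γ_0 h^{ε_0} γ_1 h^{ε_1} ... h^{ε_{n-1}} γ_n in Γ and h, given by the partial
products a i = γ_0 h^{ε_0} ... γ_i -/
structure RW {G : Type} [Group G] (Γ : Subgroup G) (h : G) (n : ℕ) (a : ℕ → G) (ε : ℕ → Bool) :
    Prop where
  zero : a 0 ∈ Γ
  succ : ∀ i < n, (a i * hp h (ε i))⁻¹ * a (i + 1) ∈ Γ
  red : ∀ i, i + 1 < n → ε (i + 1) ≠ ε i → a (i + 1) ≠ a i * hp h (ε i)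

/-- the union of the translates of B by Γ -/
def orb {G X : Type} [Group G] [MulAction G X] (Γ : Subgroup G) (B : Set X) : Set X :=
  {x | ∃ g ∈ Γ, ∃ b ∈ B, x = g • b}

/-- chains of closings (free product extensions recognised by the metric d and the base B) -/
inductive Ext {G X : Type} [Group G] [MulAction G X] (d : X → X → ℕ) (B : Set X) :
    Subgroup G → Subgroup G → Prop
  | refl (Γ : Subgroup G) : Ext d B Γ Γ
  | step (Γ : Subgroup G) (h : G)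
      (gap : ∀ u ∈ hull d (orb Γ B), ∀ v ∈ hull d (orb Γ B), 4 * rho ≤ d u (h • v)) :
      Ext d B Γ (Γ ⊔ Subgroup.zpowers h)
  | trans (Γ Γ' Γ'' : Subgroup G) : Ext d B Γ Γ' → Ext d B Γ' Γ'' → Ext d B Γ Γ''
  | union (s : ℕ → Subgroup G) : (∀ n, Ext d B (s n) (s (n + 1))) → Ext d B (s 0) (⨆ n, s n)

/-- all nontrivial elements of Γ move all points by at least Lam * rho -/
def Disp {G X : Type} [Group G] [MulAction G X] (d : X → X → ℕ) (Γ : Subgroup G) : Prop :=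
  ∀ g ∈ Γ, g ≠ 1 → ∀ x : X, Lam * rho ≤ d x (g • x)

/-- closed k-neighbourhood -/
def Nbh {X : Type} (d : X → X → ℕ) (k : ℕ) (A : Set X) : Set X := {x | ∃ a ∈ A, d x a ≤ k}

/-- thickness of quasi-lines -/
noncomputable def T1 : ℕ := Lam * (2 ^ s3 * (1000000 * dd ^ 2))

/-- the quasi-lines of short maximal cyclic groups are thin -/
def LineP {G X : Type} [Group G] [MulAction G X] (d : X → X → ℕ) : Prop :=
  ∀ w : G, IsMaxCyc d w → (∃ x : X, d x (w • x) ≤ 20 * dd) →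
    ∀ y ∈ hull d {x | ∃ w' : G, Subgroup.zpowers w = Subgroup.zpowers w' ∧ x ∈ MinSet d w'},
    ∀ y' ∈ hull d {x | ∃ w' : G, Subgroup.zpowers w = Subgroup.zpowers w' ∧ x ∈ MinSet d w'},
    ∃ k : ℤ, d y (w ^ k • y') ≤ T1

/-! ### killing systems (one step of the tower) -/

/-- large exponents, countable group, thin quasi-lines -/
structure Big (S : KSys) : Prop where
  big : ∀ i, 64 * nq ≤ S.nE i
  cnt : Countable S.G
  line : LineP (G := S.G) S.d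

/-- the region of (F, C) -/
def Win (S : KSys) (F C : Set S.Gm) : Set S.Gm := hull S.dg (F ∪ C)

/-- a state: a group Γ, a Γ-invariant set F of marked points, a Γ-invariant set C of apices whose
rotations lie in Γ, containing all apices near the region -/
structure St (S : KSys) (Γ : Subgroup S.G) (F C : Set S.Gm) : Prop where
  ne : F.Nonempty
  finv : ∀ g ∈ Γ, ∀ x ∈ F, g • x ∈ F
  cinv : ∀ g ∈ Γ, ∀ c ∈ C, g • c ∈ C
  sub : C ⊆ Set.range S.ap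
  rot : ∀ i, S.ap i ∈ C → RotS (S.E i) (S.nE i) ≤ Γ
  full : ∀ i, ∀ w ∈ Win S F C, S.dg (S.ap i) w ≤ 2 * dd → S.ap i ∈ C

/-- the apices near the region which do not belong to C -/
def Cnew (S : KSys) (F C : Set S.Gm) : Set S.Gm :=
  {c | c ∈ Set.range S.ap ∧ c ∉ C ∧ ∃ w ∈ Win S F C, S.dg c w ≤ 3 * dd}

/-- feet of the points of Q at the apex i span less than a translation -/
def Span (S : KSys) (i : S.I) (Q : Set S.Gm) : Prop :=
  ∀ x ∈ Q, ∀ y ∈ Q, x ≠ S.ap i → y ≠ S.ap i → ∀ A B : S.X,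
    Foot (Dsc Lam S.d) (YE S.d S.E) rho i x A → Foot (Dsc Lam S.d) (YE S.d S.E) rho i y B →
    ∀ r ∈ RotS (S.E i) (S.nE i), r ≠ 1 → ∀ v ∈ S.Y i, S.D A B + 2 ^ (rho + 7) ≤ S.D v (r • v)

/-- a pre-state: the apices near the region have small span -/
structure PreSt (S : KSys) (Γ : Subgroup S.G) (F C : Set S.Gm) : Prop where
  ne : F.Nonempty
  finv : ∀ g ∈ Γ, ∀ x ∈ F, g • x ∈ F
  cinv : ∀ g ∈ Γ, ∀ c ∈ C, g • c ∈ C
  sub : C ⊆ Set.range S.ap
  rot : ∀ i, S.ap i ∈ C → RotS (S.E i) (S.nE i) ≤ Γ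
  span : ∀ i, S.ap i ∈ Cnew S F C → Span S i (F ∪ C ∪ Cnew S F C)

/-- the group generated by Γ and the rotations at the new apices -/
def gN (S : KSys) (Γ : Subgroup S.G) (F C : Set S.Gm) : Subgroup S.G := Γ ⊔ KK (Cnew S F C) S.R

/-- control of (F, C) by a subset Rb of the quotient space -/
def Ctl (S : KSys) (Rb : Set S.Xb) (κ : ℕ) (F C : Set S.Gm) : Prop :=
  (∀ x ∈ F, S.q x ∈ Rb) ∧ ∀ c ∈ C, S.q c ∈ Nbh S.db κ Rb

/-- data of a jump -/
structure Jmp (S : KSys) (Γ : Subgroup S.G) (F C : Set S.Gm) (hb : S.Gb) (z z' : S.Gm) (l : ℕ) :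
    Prop where
  st : St S Γ F C
  zF : z ∈ F
  zF' : z' ∈ F
  dist : S.db (S.q z) (hb • S.q z') = l
  gap : ∀ w ∈ Win S F C, ∀ w' ∈ Win S F C, l ≤ S.db (S.q w) (hb • S.q w') + 60 * dd
  far : ∀ i, 1000 * dd ≤ S.dg z (S.ap i)
  far' : ∀ i, 1000 * dd ≤ S.dg z' (S.ap i)
  sep : ∀ g ∈ Γ, g ≠ 1 → 1900 * dd ≤ S.dg z (g • z) ∧ 1900 * dd ≤ S.dg z' (g • z')
  sep' : ∀ g ∈ Γ, 1900 * dd ≤ S.dg z (g • z')
  lo : 3 * rho ≤ l

/-- a good lift h of hb for the jump from z to hb z' -/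
structure JLift (S : KSys) (hb : S.Gb) (z z' : S.Gm) (h : S.G) : Prop where
  lift : S.π h = hb
  dist : S.dg z (h • z') = S.db (S.q z) (hb • S.q z')
  minl : ∀ i (A B : S.X), Foot (Dsc Lam S.d) (YE S.d S.E) rho i z A →
    Foot (Dsc Lam S.d) (YE S.d S.E) rho i (h • z') B →
    ∀ r ∈ RotS (S.E i) (S.nE i), r ≠ 1 → ∀ v ∈ S.Y i, S.D A B + 2 ^ (rho + 9) ≤ S.D v (r • v)

/-- the relation between consecutive stages used in the limit argument -/
structure LiftRel {G X G' X' : Type} [Group G] [MulAction G X] [Group G'] [MulAction G' X']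
    (d : X → X → ℕ) (d' : X' → X' → ℕ) (π : G →* G') (ι : X → X') : Prop where
  e1 : ∀ (x0 : X) (Nb : Subgroup G'), Disp d' Nb → Ext d' {x | d' (ι x0) x ≤ 1} ⊥ Nb →
    Ext d {x | d x0 x ≤ 1} ⊥ (Nb.comap π)
  e2 : ∀ (x0 : X) (Pb : Subgroup G') (r : ℕ), 1 ≤ r → Disp d' Pb →
    Ext d' {x | d' (ι x0) x ≤ 1} ⊥ Pb →
    ∃ P : Subgroup G, Ext d {x | d x0 x ≤ 1} ⊥ P ∧ P.map π = Pb ∧
      (∀ g : G, d x0 (g • x0) ≤ r → π g ∈ Pb → g ∈ P) ∧
      ∀ Nb : Subgroup G', Disp d' Nb →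
        Ext d' {x | d' (ι x0) x ≤ (r + Lam - 1) / Lam} Pb Nb →
        Ext d {x | d x0 x ≤ r} P (Nb.comap π)
  e3 : ∀ Nb : Subgroup G', Disp d' Nb → Disp d (Nb.comap π)

/-- the hyperbolicity hypothesis of the frozen statement S00879 -/
def HypGrp (G : Type) [Group G] : Prop :=
  ∃ S : Finset G, Subgroup.closure (S : Set G) = ⊤ ∧ ∃ δ : ℕ,
      ∀ len : G → ℕ,
        (∀ g : G, len g = sInf {n : ℕ | ∃ l : List G, l.length = n ∧
            (∀ s ∈ l, s ∈ S ∨ s⁻¹ ∈ S) ∧ l.prod = g}) →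
        ∀ x y z w : G,
          min ((len (x⁻¹ * w) : ℤ) + (len (y⁻¹ * w) : ℤ) - (len (x⁻¹ * y) : ℤ))
              ((len (y⁻¹ * w) : ℤ) + (len (z⁻¹ * w) : ℤ) - (len (y⁻¹ * z) : ℤ)) - 2 * (δ : ℤ)
            ≤ (len (x⁻¹ * w) : ℤ) + (len (z⁻¹ * w) : ℤ) - (len (x⁻¹ * z) : ℤ)

/-- a subgroup of finite index is torsion-free -/
def VTF (G : Type) [Group G] : Prop :=
  ∃ H : Subgroup G, H.FiniteIndex ∧ ∀ h ∈ H, h ≠ 1 → ∀ n : ℕ, 0 < n → h ^ n ≠ 1

/-- residually finite -/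
def RFin (G : Type) [Group G] : Prop :=
  ∀ g : G, g ≠ 1 → ∃ K : Subgroup G, K.Normal ∧ K.FiniteIndex ∧ g ∉ K

/-- free, uniformly proper action of a torsion-free group on a hyperbolic space -/
structure TFA {H X : Type} [Group H] [MulAction H X] (d : X → X → ℕ) (δ : ℕ) (Bf : ℕ → ℕ) :
    Prop where
  dg : IsDG d
  hyp : Hyp d δ
  iso : IsIso H d
  one_le : 1 ≤ δ
  ne : Nonempty X
  prop : ∀ (x : X) (r : ℕ) (A : Finset H), (∀ h ∈ A, d x (h • x) ≤ r) → A.card ≤ Bf r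
  tf : ∀ h : H, h ≠ 1 → ∀ n : ℕ, 0 < n → h ^ n ≠ 1

/-- engine statements of sections 1 to 3 -/
structure Eng0 : Prop where
  hull : Stmt_Hull
  lga : Stmt_LGa
  lgb : Stmt_LGb
  cover : Stmt_Cover
  proj : Stmt_Proj
  iso1 : Stmt_Iso1
  iso2 : Stmt_Iso2
  axis : Stmt_Axis
  chain : Stmt_Chain
  claimA : Stmt_ClaimA
  gl : Stmt_GL
  glcor : Stmt_GLcor
  fs : Stmt_FS
  irrMin : Stmt_IrrMin
  ladder : Stmt_Ladder
  gamDG : Stmt_GamDG
  gamLen : Stmt_GamLen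
  climb : Stmt_Climb
  top : Stmt_Top
  excur : Stmt_Excur
  shadow : Stmt_Shadow
  guess : Stmt_Guess
  hypGam : Stmt_HypGam
  footEx : Stmt_FootEx
  footPr : Stmt_FootPr
  vr0 : Stmt_VR0
  rescale : Stmt_Rescale

/-- engine statements which may be used -/
structure Eng : Prop extends Eng0 where
  slen : Stmt_Slen
  overlap : Stmt_Overlap
  kcd : Stmt_KCD
  krf : Stmt_KRF
  kstab : Stmt_KStab
  cyc : Stmt_Cyc
  maxCyc : Stmt_MaxCyc
  h34 : Stmt_H34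

end Pool.Agent.FRK
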