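import Pool.Agent.FRK.Defs
import Pool.Agent.BURR.Asm

namespace Pool.Agent.FRK

open Pool.Agent.BURN Pool.Agent.BURR Pool.Agent.BURR.Asm

theorem eng0 : Eng0 where
  hull := p_Hull
  lga := p_LGa
  lgb := p_LGb
  cover := p_Cover
  proj := p_Proj
  iso1 := p_Iso1
  iso2 := p_Iso2
  axis := p_Axis
  chain := p_Chain
  claimA := p_ClaimA
  gl := p_GL
  glcor := p_GLcor
  fs := p_FS
  irrMin := p_IrrMin
  ladder := p_Ladder
  gamDG := p_GamDG
  gamLen := p_GamLen
  climb := p_Climb
  top := p_Top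
  excur := p_Excur
  shadow := p_Shadow
  guess := p_Guess
  hypGam := p_HypGam
  footEx := p_FootEx
  footPr := p_FootPr
  vr0 := p_VR0
  rescale := p_Rescale

theorem eng [RP] : Eng where
  toEng0 := eng0
  slen := p_Slen
  overlap := p_Overlap
  kcd := p_KCD
  krf := p_KRF
  kstab := p_KStab
  cyc := p_Cyc
  maxCyc := p_MaxCyc
  h34 := p_H34

end Pool.Agent.FRK
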