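import Pool.Agent.FRK.Kit

/-! FRK, module GROWP: enlarging F by points near the region gives a pre-state. -/

namespace Pool.Agent.FRK

open Pool.Agent.BURN Pool.Agent.BURR Pool.Agent.FRK.Kit

variable [RP]

theorem growP_proof (E : Eng) (hSm : Stmt_Small) (hRB : Stmt_RotBig) : Stmt_GrowP := by
  intro S Γ F C F1 hBig hSt hFF hFinv hnear
  have hdg := dgG E S
  have hhy := hypG E S
  have hne : ∀ x ∈ F1 ∪ C, ∃ a ∈ Win S F C, S.dg x a ≤ 1 := by
    rintro x (hx | hx)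
    · exact hnear x hx
    · refine ⟨x, sub_win E S F C (Or.inr hx), ?_⟩
      rw [(hdg.eq_zero x x).2 rfl]; omega
  have key : ∀ w ∈ Win S F1 C, ∃ w' ∈ Win S F C, S.dg w w' ≤ 3 * del1 + 2 := by
    rintro w ⟨x, hx, y, hy, hb⟩
    obtain ⟨a, ha, hxa⟩ := hne x hx
    obtain ⟨b, hb', hyb⟩ := hne y hy
    have h0 : gp S.dg x y w = 0 := (btw_iff hdg x w y).1 hb
    have h1 := gp_le_of_near hdg a x b w
    have h2 := gp_le_of_near_right hdg x b y w
    rw [hdg.symm a x] at h1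
    rw [hdg.symm b y] at h2
    obtain ⟨p, hp, hwp⟩ := LadderX.near_btw hdg hhy a b w
    obtain ⟨w', hw', hpw⟩ := win_qc E S F C a ha b hb' p hp
    refine ⟨w', hw', ?_⟩
    have h3 := hdg.tri w p w'
    omega
  obtain ⟨-, n11, n12, -, -, n13, -⟩ := num1'
  refine ⟨⟨?_, hFinv, hSt.cinv, hSt.sub, hSt.rot, ?_⟩, ?_⟩
  · obtain ⟨x, hx⟩ := hSt.ne
    exact ⟨x, hFF hx⟩
  · intro i hi
    have hfar : ∀ w ∈ Win S F1 C, f3 + 6 * del1 + 10 < S.dg (S.ap i) w := by
      intro w hw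
      obtain ⟨w', hw', hww⟩ := key w hw
      by_contra hcon
      push Not at hcon
      apply hi.2.1
      refine hSt.full i w' hw' ?_
      have h3 := hdg.tri (S.ap i) w w'
      omega
    intro x hx y hy hxi hyi A B hA hB r hr hr1 v hv
    have h1 := ((hSm S F1 C i hfar) x hx y hy hxi hyi).2 A B hA hB
    have h2 := hRB S hBig.big i r hr hr1 v hv
    have p1 : (2 : ℕ) ^ (rho + 7) = 4 * 2 ^ (rho + 5) := by rw [pow_add, pow_add]; ring
    have p2 : (2 : ℕ) ^ (rho + 13) = 256 * 2 ^ (rho + 5) := by rw [pow_add, pow_add]; ring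
    rw [p2] at h2
    rw [p1]
    omega
  · intro w hw
    obtain ⟨w', hw', hww⟩ := key w hw
    exact ⟨w', hw', by omega⟩

end Pool.Agent.FRK
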