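import Pool.Agent.FRK.Stmts

/-! FRK: toolbox (numerical facts, elementary facts on killing systems). -/

namespace Pool.Agent.FRK.Kit

open Pool.Agent.BURN Pool.Agent.BURR Pool.Agent.FRK

/-! ### numbers (all constants are opaque; use these facts) -/

theorem eta1_ge : bet1 del1 (2 * f3) ≤ eta1 del1 (2 * f3) ∧ eta del1 (2 * f3) ≤ eta1 del1 (2 * f3) ∧
    2 * f3 ≤ eta1 del1 (2 * f3) ∧ del1 ≤ eta1 del1 (2 * f3) ∧
    tht del1 (2 * f3) ≤ eta1 del1 (2 * f3) := by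
  unfold eta1 tht BB eta bet1
  refine ⟨?_, ?_, ?_, ?_, ?_⟩ <;> omega

theorem aa0_ge' : alp1 del1 (2 * f3 + 1) (2 * f3) ≤ aa0 del1 (2 * f3 + 1) (2 * f3) ∧
    eta1 del1 (2 * f3) + del1 ≤ alp1 del1 (2 * f3 + 1) (2 * f3) ∧
    2 * f3 + 1 ≤ alp1 del1 (2 * f3 + 1) (2 * f3) ∧
    bet1 del1 (2 * f3) < alp1 del1 (2 * f3 + 1) (2 * f3) := by
  have h1 : alp1 del1 (2 * f3 + 1) (2 * f3) + 9 * del1 + 1 = aa0 del1 (2 * f3 + 1) (2 * f3) := rfl
  have h2 : eta1 del1 (2 * f3) + del1 ≤ alp1 del1 (2 * f3 + 1) (2 * f3) := le_max_right _ _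
  have h3 : 2 * f3 + 1 ≤ alp1 del1 (2 * f3 + 1) (2 * f3) := le_max_left _ _
  have h4 := eta1_ge
  have h5 := del1_pos
  refine ⟨by omega, h2, h3, by omega⟩

theorem del1_big : 8000000 ≤ del1 := by
  unfold del1 Dlt
  have : f3 = 32 * 250 ^ 2 := by unfold f3; rfl
  rw [this]
  norm_num

theorem num1_gen (e g : ℕ) (he : 8000000 ≤ e) :
    1000000 * (aa0 e (2 * g + 1) (2 * g) + e + g + eta1 e (2 * g) +
    CL e (2 * g + 1) (2 * g) + 1) ≤ dq1 e (2 * g + 1) (2 * g) := by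
  have h2 : CL e (2 * g + 1) (2 * g) =
    4 * ee3 e (2 * g) + 2 * aa0 e (2 * g + 1) (2 * g) + e + 2 := rfl
  have h3 : ee3 e (2 * g) = eta1 e (2 * g) + e + 1 := rfl
  have h4 : alp1 e (2 * g + 1) (2 * g) + 9 * e + 1 = aa0 e (2 * g + 1) (2 * g) := rfl
  have h5 : 2 * g + 1 ≤ alp1 e (2 * g + 1) (2 * g) := le_max_left _ _
  have h6 : dq1 e (2 * g + 1) (2 * g) =
    4 * (4 * (32 * (CL e (2 * g + 1) (2 * g) + CT e (2 * g) + 2) ^ 2) +
      2 * (CL e (2 * g + 1) (2 * g) + CT e (2 * g) + 2)) + 4 := rfl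
  rw [h6]
  generalize CL e (2 * g + 1) (2 * g) = c at *
  generalize CT e (2 * g) = t at *
  generalize alp1 e (2 * g + 1) (2 * g) = a at *
  generalize aa0 e (2 * g + 1) (2 * g) = a' at *
  generalize eta1 e (2 * g) = b at *
  generalize ee3 e (2 * g) = b' at *
  have h7 : a' + e + g + b + c + 1 ≤ 6 * c := by omega
  have h8 : 8000000 ≤ c := by omega
  have h9 : c * 8000000 ≤ (c + t + 2) ^ 2 := by
    rw [sq]; exact Nat.mul_le_mul (by omega) (by omega)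
  omega

/-- dd is much larger than the constants of the cone-off -/
theorem num1 : 1000000 * (aa0 del1 (2 * f3 + 1) (2 * f3) + del1 + f3 + eta1 del1 (2 * f3) +
    CL del1 (2 * f3 + 1) (2 * f3) + 1) ≤ dd := by
  rw [dd_eq]; exact num1_gen del1 f3 del1_big

theorem num1' : 1000000 * aa0 del1 (2 * f3 + 1) (2 * f3) ≤ dd ∧ 1000000 * del1 ≤ dd ∧
    1000000 * f3 ≤ dd ∧ 1000000 * eta1 del1 (2 * f3) ≤ dd ∧
    1000000 * CL del1 (2 * f3 + 1) (2 * f3) ≤ dd ∧ 1000000 ≤ dd ∧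
    1000000 * bet1 del1 (2 * f3) ≤ dd ∧ 1000000 * eta del1 (2 * f3) ≤ dd ∧
    1000000 * tht del1 (2 * f3) ≤ dd := by
  have h := num1
  have h' := eta1_ge
  generalize dd = D at *
  generalize aa0 del1 (2 * f3 + 1) (2 * f3) = a at *
  generalize CL del1 (2 * f3 + 1) (2 * f3) = c at *
  generalize eta1 del1 (2 * f3) = b at *
  generalize bet1 del1 (2 * f3) = b1 at *
  generalize eta del1 (2 * f3) = b2 at *
  generalize tht del1 (2 * f3) = b3 at *
  generalize del1 = e at *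
  generalize f3 = g at *
  refine ⟨?_, ?_, ?_, ?_, ?_, ?_, ?_, ?_, ?_⟩ <;> omega

theorem num2_gen (D R M : ℕ) (hD : 1000 ≤ D) (hM : M = 2 ^ (202 * D)) (hR : M ≤ R) :
    1000000 * D ≤ R := by
  have h2 : D < 2 ^ D := Nat.lt_two_pow_self
  have h3 : 2 ^ (202 * D) = 2 ^ D * 2 ^ (201 * D) := by rw [← pow_add]; congr 1; ring
  have h4 : 2 ^ 20 ≤ 2 ^ (201 * D) := Nat.pow_le_pow_right (by norm_num) (by omega)
  have h5 : (2 : ℕ) ^ 20 = 1048576 := by norm_num
  rw [h5] at h4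
  rw [h3] at hM
  generalize 2 ^ (201 * D) = b at *
  generalize 2 ^ D = a at *
  have h6 : D * 1048576 ≤ a * b := Nat.mul_le_mul h2.le h4
  omega

/-- rho is much larger than dd -/
theorem num2 : 1000000 * dd ≤ rho := by
  refine num2_gen dd rho M2 dd_ge M2_eq ?_
  rw [rho_eq]; omega

theorem num3_gen (D R s : ℕ) (hD : 1000 ≤ D) (hR : s + 1000 * D ≤ R) :
    1000 * (2 ^ s * (1000000 * D ^ 2)) + 2 ≤ 2 ^ R := by
  have h2 : D < 2 ^ D := Nat.lt_two_pow_self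
  have h3 : 2 ^ (s + 1000 * D) ≤ 2 ^ R := Nat.pow_le_pow_right (by norm_num) hR
  have h4 : 2 ^ (s + 1000 * D) = 2 ^ s * (2 ^ D * 2 ^ D * 2 ^ (998 * D)) := by
    rw [pow_add]
    congr 1
    rw [← pow_add, ← pow_add]
    congr 1
    ring
  have h5 : 2 ^ 31 ≤ 2 ^ (998 * D) := Nat.pow_le_pow_right (by norm_num) (by omega)
  have h6 : (2 : ℕ) ^ 31 = 2147483648 := by norm_num
  rw [h6] at h5
  have h7 : 1 ≤ 2 ^ s := Nat.one_le_two_pow
  have h10 : 1 ≤ D ^ 2 := Nat.one_le_pow _ _ (by omega)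
  have h11 : D ^ 2 ≤ 2 ^ D * 2 ^ D := by rw [sq]; exact Nat.mul_le_mul h2.le h2.le
  have h8 : D ^ 2 * 2147483648 ≤ 2 ^ D * 2 ^ D * 2 ^ (998 * D) := Nat.mul_le_mul h11 h5
  have h9 : 1000000000 * D ^ 2 + 2 ≤ 2 ^ D * 2 ^ D * 2 ^ (998 * D) := by
    generalize 2 ^ D * 2 ^ D * 2 ^ (998 * D) = a at *
    generalize D ^ 2 = b at *
    omega
  calc 1000 * (2 ^ s * (1000000 * D ^ 2)) + 2
      ≤ 1000 * (2 ^ s * (1000000 * D ^ 2)) + 2 ^ s * 2 := by
        have : 2 ≤ 2 ^ s * 2 := by omega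
        omega
    _ = 2 ^ s * (1000000000 * D ^ 2 + 2) := by ring
    _ ≤ 2 ^ s * (2 ^ D * 2 ^ D * 2 ^ (998 * D)) := Nat.mul_le_mul_left _ h9
    _ ≤ 2 ^ R := by rw [← h4]; exact h3

theorem num3 : 1000 * (2 ^ s3 * (1000000 * dd ^ 2)) + 2 ≤ 2 ^ rho := by
  refine num3_gen dd rho s3 dd_ge ?_
  rw [rho_eq]; omega

theorem num4 : 4 * rho ≤ Lam ∧ 1000000 ≤ Lam := by
  have h : 4 * rho ≤ Lam := by
    rw [Lam_eq, A0_eq]
    generalize 2 ^ (101 * dd + 3) = a
    omega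
  have := num2
  have := dd_ge
  exact ⟨h, by omega⟩

theorem T1_le : 1000 * T1 + 2 * Lam ≤ Lam * 2 ^ rho := by
  have h := Nat.mul_le_mul_left Lam num3
  unfold T1
  calc 1000 * (Lam * (2 ^ s3 * (1000000 * dd ^ 2))) + 2 * Lam
      = Lam * (1000 * (2 ^ s3 * (1000000 * dd ^ 2)) + 2) := by ring
    _ ≤ Lam * 2 ^ rho := h

/-! ### hulls and orbits -/

theorem hull_mono {X : Type} {d : X → X → ℕ} {A B : Set X} (h : A ⊆ B) : hull d A ⊆ hull d B := by
  rintro p ⟨x, hx, y, hy, hb⟩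
  exact ⟨x, h hx, y, h hy, hb⟩
/-- invariance of hulls -/
theorem hull_smul {G X : Type} [Group G] [MulAction G X] {d : X → X → ℕ} (hi : IsIso G d)
    {A : Set X} {g : G} (hA : ∀ x ∈ A, g • x ∈ A) {p : X} (hp : p ∈ hull d A) :
    g • p ∈ hull d A := by
  obtain ⟨x, hx, y, hy, hb⟩ := hp
  refine ⟨g • x, hA x hx, g • y, hA y hy, ?_⟩
  unfold Pool.Agent.BURN.Btw at *
  rw [hi, hi, hi]
  exact hb
theorem orb_smul {G X : Type} [Group G] [MulAction G X] {Γ : Subgroup G} {B : Set X} {g : G}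
    (hg : g ∈ Γ) {x : X} (hx : x ∈ orb Γ B) : g • x ∈ orb Γ B := by
  obtain ⟨g', hg', b, hb, rfl⟩ := hx
  exact ⟨g * g', Γ.mul_mem hg hg', b, hb, (mul_smul g g' b).symm⟩
theorem sub_orb {G X : Type} [Group G] [MulAction G X] (Γ : Subgroup G) (B : Set X) :
    B ⊆ orb Γ B := fun b hb => ⟨1, Γ.one_mem, b, hb, (one_smul G b).symm⟩
theorem orb_mono {G X : Type} [Group G] [MulAction G X] {Γ Γ' : Subgroup G} {B B' : Set X}
    (h : Γ ≤ Γ') (h' : B ⊆ B') : orb Γ B ⊆ orb Γ' B' := by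
  rintro x ⟨g, hg, b, hb, rfl⟩
  exact ⟨g, h hg, b, h' hb, rfl⟩


/-! ### one killing system -/

variable [RP]

variable (E : Eng) (S : KSys)

include E

theorem dgG : IsDG S.dg := (E.krf S).1.dg
theorem hypG : Hyp S.dg del1 := (E.krf S).1.hyp
theorem isoG : IsIso S.G S.dg := (E.krf S).1.iso
theorem rf : RF S.dg (Set.range S.ap) S.R del1 (2 * f3 + 1) (2 * f3) (2 * rho + 2) := (E.krf S).1
theorem dgB : IsDG S.db := (E.krf S).2.1
theorem isoB : IsIso S.Gb S.db := (E.krf S).2.2.1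
theorem hypB : Hyp S.db dd := (E.krf S).2.2.2.1
theorem cd : CD S.D S.Y rho := (E.kcd S).1
theorem isoD : IsIso S.G S.D := (E.kcd S).2.1
theorem dgD : IsDG S.D := (cd E S).dg
theorem hypD : Hyp S.D 2 := (cd E S).hyp
/-- the projection is 1-Lipschitz -/
theorem q_le (u w : S.Gm) : S.db (S.q u) (S.q w) ≤ S.dg u w := (E.krf S).2.2.2.2.1 u w
/-- lifting of a distance -/
theorem q_lift (u w : S.Gm) : ∃ k ∈ S.K, S.dg u (k • w) = S.db (S.q u) (S.q w) :=
  (E.krf S).2.2.2.2.2.1 u w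
/-- different apices are far apart -/
theorem ap_far {i j : S.I} (h : i ≠ j) : 2 * rho + 2 ≤ S.dg (S.ap i) (S.ap j) :=
  (rf E S).sep _ ⟨i, rfl⟩ _ ⟨j, rfl⟩ (fun e => h (by
    have := congrArg Subtype.val e
    exact CV.a.inj this))
/-- two apices at distance < 2 rho + 2 are equal -/
theorem ap_eq {i j : S.I} (h : S.dg (S.ap i) (S.ap j) < 2 * rho + 2) : i = j := by
  by_contra hn
  have := ap_far E S hn
  omega
/-- the same in the quotient -/
theorem qap_eq {i j : S.I} (h : S.db (S.q (S.ap i)) (S.q (S.ap j)) < 2 * rho + 2) :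
    S.q (S.ap i) = S.q (S.ap j) := by
  by_contra hn
  have := (E.kstab S).2.2.2.2.2.2.2.1 i j hn
  omega
/-- apices are far from base vertices -/
theorem ap_bs (x : S.X) (i : S.I) : rho + 1 ≤ S.dg (S.bs x) (S.ap i) :=
  (E.kstab S).2.2.2.2.2.2.2.2 x i
theorem bs_le (x y : S.X) : S.dg (S.bs x) (S.bs y) ≤ S.D x y :=
  (E.gamDG S.X S.I S.D S.Y rho (cd E S)).2.2.2.2.1 x y
/-- the region is quasi-convex -/
theorem win_qc (F C : Set S.Gm) : QC S.dg (2 * del1) (Win S F C) :=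
  (E.hull S.Gm S.dg del1 (dgG E S) (hypG E S)).1 _
/-- elements of F ∪ C belong to the region -/
theorem sub_win (F C : Set S.Gm) {x : S.Gm} (hx : x ∈ F ∪ C) : x ∈ Win S F C := by
  refine ⟨x, hx, x, hx, ?_⟩
  unfold Pool.Agent.BURN.Btw
  have := ((dgG E S).eq_zero x x).2 rfl
  omega
/-- the stabiliser of an apex in the kernel -/
theorem rot_fix (i : S.I) (r : S.G) (hr : r ∈ RotS (S.E i) (S.nE i)) : r • S.ap i = S.ap i :=
  (rf E S).fix _ ⟨i, rfl⟩ r (by
    have h : S.R (S.ap i) = RotS (S.E i) (S.nE i) := S.rot i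
    rw [h]; exact hr)

omit E

theorem smul_ap (g : S.G) (i : S.I) : g • S.ap i = S.ap (g • i) :=
  Subtype.ext (S.act g (S.ap i))
theorem bs_smul (g : S.G) (x : S.X) : g • S.bs x = S.bs (g • x) :=
  Subtype.ext (S.act g (S.bs x))
theorem q_smul (g : S.G) (u : S.Gm) : S.q (g • u) = S.π g • S.q u := (S.qsmul g u).symm
theorem q_K {k : S.G} (hk : k ∈ S.K) (u : S.Gm) : S.q (k • u) = S.q u :=
  ((S.qeq u (k • u)).2 ⟨k, hk, rfl⟩).symm
theorem ker_K (g : S.G) : S.π g = 1 ↔ g ∈ S.K := S.pker g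
theorem R_ap (i : S.I) : S.R (S.ap i) = RotS (S.E i) (S.nE i) := S.rot i
theorem rot_le_K (i : S.I) : RotS (S.E i) (S.nE i) ≤ S.K := by
  intro r hr
  refine Subgroup.subset_closure ⟨S.ap i, ⟨i, rfl⟩, ?_⟩
  rw [R_ap]; exact hr
theorem rot_conj (g : S.G) (i : S.I) (r : S.G) (hr : r ∈ RotS (S.E i) (S.nE i)) :
    g * r * g⁻¹ ∈ RotS (S.E (g • i)) (S.nE (g • i)) := by
  rw [S.nconj]
  have hle : RotS (S.E i) (S.nE i) ≤
      (RotS (S.E (g • i)) (S.nE i)).comap (MulAut.conj g).toMonoidHom := by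
    conv_lhs => unfold RotS
    rw [Subgroup.closure_le]
    rintro x ⟨e, he, rfl⟩
    refine Subgroup.subset_closure ⟨g * e * g⁻¹, ?_, ?_⟩
    · rw [S.conj]
      have h2 : g⁻¹ * (g * e * g⁻¹) * g = e := by group
      rwa [h2]
    · change g * e ^ S.nE i * g⁻¹ = (g * e * g⁻¹) ^ S.nE i
      rw [conj_pow]
  exact hle hr
theorem win_mono {F C F' C' : Set S.Gm} (h : F ⊆ F') (h' : C ⊆ C') :
    Win S F C ⊆ Win S F' C' := hull_mono (Set.union_subset_union h h')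
include E

theorem win_smul {Γ : Subgroup S.G} {F C : Set S.Gm} (hF : ∀ g ∈ Γ, ∀ x ∈ F, g • x ∈ F)
    (hC : ∀ g ∈ Γ, ∀ c ∈ C, g • c ∈ C) {g : S.G} (hg : g ∈ Γ) {w : S.Gm} (hw : w ∈ Win S F C) :
    g • w ∈ Win S F C := by
  refine hull_smul (isoG E S) ?_ hw
  rintro x (hx | hx)
  · exact Or.inl (hF g hg x hx)
  · exact Or.inr (hC g hg x hx)

omit E

/-- d against the rescaled metric -/
theorem d_ge (x y : S.X) (m : ℕ) (h : m + 1 ≤ S.D x y) : Lam * m + 1 ≤ S.d x y := by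
  have hL := num4.2
  have h1 : m + 1 ≤ (S.d x y + Lam - 1) / Lam := h
  rw [Nat.le_div_iff_mul_le (by omega)] at h1
  have : (m + 1) * Lam = Lam * m + Lam := by ring
  omega

theorem D_le (x y : S.X) (m : ℕ) (h : S.d x y ≤ Lam * m) : S.D x y ≤ m := by
  have hL := num4.2
  show (S.d x y + Lam - 1) / Lam ≤ m
  rw [← Nat.lt_succ_iff, Nat.div_lt_iff_lt_mul (by omega)]
  have : m.succ * Lam = Lam * m + Lam := by rw [Nat.succ_eq_add_one]; ring
  omega

include E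

/-- feet are equivariant -/
theorem foot_smul (g : S.G) (i : S.I) (z : S.Gm) (A : S.X)
    (h : Foot (Dsc Lam S.d) (YE S.d S.E) rho i z A) :
    Foot (Dsc Lam S.d) (YE S.d S.E) rho (g • i) (g • z) (g • A) := by
  obtain ⟨hA, h⟩ := h
  have hY : g • A ∈ S.Y (g • i) := (E.overlap S).2.2.2.1 i g A hA
  refine ⟨hY, ?_⟩
  rcases h with ⟨s, hs⟩ | ⟨hh, he⟩
  · left
    refine ⟨s, ?_⟩
    rw [S.act, hs]
    rfl
  · right
    constructor
    · intro hc
      apply hh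
      rw [S.act] at hc
      rcases hc with ⟨y, s, e⟩ | e
      · left
        revert e
        cases h0 : z.1 with
        | b v => intro e; exact absurd e (by intro h; cases h)
        | c j y' s' =>
          intro e
          have e' : CV.c (g • j) (g • y') s' = CV.c (g • i) y s := e
          injection e' with e1 e2 e3
          exact ⟨y', s', by rw [smul_left_cancel g e1]⟩
        | a j => intro e; exact absurd e (by intro h; cases h)
      · right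
        revert e
        cases h0 : z.1 with
        | b v => intro e; exact absurd e (by intro h; cases h)
        | c j y' s' => intro e; exact absurd e (by intro h; cases h)
        | a j =>
          intro e
          have e' : (CV.a (g • j) : CV S.X S.I) = CV.a (g • i) := e
          injection e' with e1
          rw [smul_left_cancel g e1]
    · have h1 : S.dg (g • z) (S.ap (g • i)) = S.dg z (S.ap i) := by
        rw [← smul_ap]; exact isoG E S g _ _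
      have h2 : S.dg (g • z) (S.bs (g • A)) = S.dg z (S.bs A) := by
        rw [← bs_smul]; exact isoG E S g _ _
      show S.dg (g • z) (S.ap (g • i)) = S.dg (g • z) (S.bs (g • A)) + rho + 1
      rw [h1, h2]
      exact he

end Pool.Agent.FRK.Kit
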