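import Pool.Agent.FRK.Main

/-! FRK: the kernels for all large odd exponents. -/

namespace Pool.Agent.FRK

open Pool.Agent.BURN Pool.Agent.BURR Pool.Agent.BURR.Asm

open Final in
theorem main_all (h2 : ∀ [RP], Stmt_Tow2) (hF : ∀ [RP], Stmt_TowF) (hW : Stmt_WMet)
    (hB : Stmt_BaseTF) (hL : ∀ [RP], Stmt_Lim1) (G : Type) [Group G] (hG : HypGrp G)
    (H : Subgroup G) (htf : ∀ h ∈ H, h ≠ 1 → ∀ n : ℕ, 0 < n → h ^ n ≠ 1) :
    ∃ p0 : ℕ, ∀ p : ℕ, p0 ≤ p → Odd p →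
      IsFreeGroup ↥(Subgroup.closure {x : G | ∃ y ∈ H, x = y ^ p}) := by
  obtain ⟨hc, d, δ, Bf, hd, hh, h1, hi, hBf⟩ := hW G hG
  have hT : TFA (H := H) (X := G) d δ Bf := by
    refine ⟨hd, hh, fun g x y => hi (g : G) x y, h1, ⟨1⟩, ?_, ?_⟩
    · intro x r A hA
      have h3 := hBf x r (A.map ⟨fun h : H => (h : G), Subtype.val_injective⟩) (by
        intro h hh
        rw [Finset.mem_map] at hh
        obtain ⟨a, ha, rfl⟩ := hh
        exact hA a ha)
      rwa [Finset.card_map] at h3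
    · intro h hne n hn hpow
      refine htf (h : G) h.2 ?_ n hn ?_
      · intro h0
        exact hne (Subtype.ext h0)
      · rw [← Subgroup.coe_pow, hpow]
        rfl
  obtain ⟨P, hP⟩ := hB H G d δ Bf hT
  refine ⟨64 * nq, fun p hp2 hodd => ?_⟩
  obtain ⟨d', hgood, hline⟩ := hP p hodd
  let s : StgG p := { G := H, X := G, d := d', good := hgood }
  have hcs : Countable s.G := inferInstanceAs (Countable H)
  have hp1 : 1 ≤ p := hodd.pos
  obtain ⟨W, hW0, hLR⟩ := h2 p p s hcs hline hp2 dvd_rfl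
  have hcW : Countable (W.T 0).G := by
    rw [hW0]
    exact hcs
  have hfree : IsFreeGroup (Subgroup.closure {x : H | ∃ y : H, x = y ^ p}) :=
    bottom hL p W hp1 (hF p p W hp1 hcW hLR) s hW0
  let M : Subgroup H := Subgroup.closure {x : H | ∃ y : H, x = y ^ p}
  have hMeq : M.map H.subtype = Subgroup.closure {x : G | ∃ y ∈ H, x = y ^ p} := by
    change (Subgroup.closure {x : H | ∃ y : H, x = y ^ p}).map H.subtype = _
    rw [MonoidHom.map_closure]
    congr 1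
    ext x
    constructor
    · rintro ⟨z, ⟨y, rfl⟩, rfl⟩
      exact ⟨(y : G), y.2, by simp⟩
    · rintro ⟨y, hy, rfl⟩
      exact ⟨⟨y, hy⟩ ^ p, ⟨⟨y, hy⟩, rfl⟩, by simp⟩
  rw [← hMeq]
  have : IsFreeGroup M := hfree
  exact IsFreeGroup.ofMulEquiv (M.equivMapOfInjective H.subtype H.subtype_injective)

/-- all large odd powers, all torsion-free subgroups -/
theorem main_odd (G : Type) [Group G] (hG : HypGrp G) (H : Subgroup G)
    (htf : ∀ h ∈ H, h ≠ 1 → ∀ n : ℕ, 0 < n → h ^ n ≠ 1) :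
    ∃ p0 : ℕ, ∀ p : ℕ, p0 ≤ p → Odd p →
      IsFreeGroup ↥(Subgroup.closure {x : G | ∃ y ∈ H, x = y ^ p}) :=
  main_all Asm.p_Tow2 Asm.p_TowF Asm.p_WMet Asm.p_BaseTF p_Lim1 G hG H htf

end Pool.Agent.FRK
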