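import Pool.Agent.FRK.Kit

/-! FRK, module Near: base points near the region. -/

namespace Pool.Agent.FRK.Near

open Pool.Agent.BURN Pool.Agent.BURR Pool.Agent.FRK

/-- the abstract version, in a cone-off -/
theorem core {V I : Type} {D : V → V → ℕ} {Y : I → Set V} {ρ : ℕ} {pr : I → V → V}
    (hG : Stmt_GamDG) (hP : Stmt_Proj) (hGu : Stmt_Guess) (hS : Stmt_Shadow)
    (hCD : CD D Y ρ) (hpr : IsPr D Y pr) {x y u : V} (h : D x u + D u y ≤ D x y + 1) :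
    ∃ q : Gam Y ρ, Pool.Agent.BURN.Btw (dGam D Y ρ) (vb Y ρ x) q (vb Y ρ y) ∧
      dGam D Y ρ (vb Y ρ u) q ≤ ρ + f3 + 30 := by
  obtain ⟨hdg, -, -, -, hbs, hap, hver, hhor⟩ := hG V I D Y ρ hCD
  obtain ⟨-, -, hdeep, -⟩ := hS V I D Y ρ pr hCD hpr
  obtain ⟨hL1, -⟩ := hGu V I D Y ρ pr hCD hpr
  have hD := hCD.dg
  obtain ⟨g, hg⟩ := exists_geod hdg (vb Y ρ x) (vb Y ρ y)
  obtain ⟨p, hpb, hpu⟩ := LadderX.near_btw hD hCD.hyp x y u
  have hgp : gp D x y u ≤ 1 := by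
    unfold gp
    have := hD.symm y u
    omega
  have hpu3 : D u p ≤ 3 := by omega
  have hup : dGam D Y ρ (vb Y ρ u) (vb Y ρ p) ≤ 3 := (hbs u p).trans hpu3
  -- reduction to a point of the guessed path
  have red : ∀ v ∈ Lset D Y ρ pr x y, dGam D Y ρ (vb Y ρ u) v ≤ ρ + 30 →
      ∃ q : Gam Y ρ, Pool.Agent.BURN.Btw (dGam D Y ρ) (vb Y ρ x) q (vb Y ρ y) ∧
        dGam D Y ρ (vb Y ρ u) q ≤ ρ + f3 + 30 := by
    intro v hv hvu
    obtain ⟨j, hj, hjv⟩ := (hL1 x y g hg).1 v hv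
    refine ⟨g j, hg.btw' hj, ?_⟩
    have := hdg.tri (vb Y ρ u) v (g j)
    omega
  by_cases hnd : ∀ i, ¬ Deep D pr i x y p
  · refine red (vb Y ρ p) (Or.inl ⟨p, rfl, hpb, hnd⟩) ?_
    omega
  push Not at hnd
  obtain ⟨i, hi⟩ := hnd
  obtain ⟨h9, h166⟩ := hdeep i x y p hpb hi
  -- the projections
  obtain ⟨-, hP2, -⟩ := hP V D 2 1 7 7 9 22 (Y i) hD hCD.hyp (hCD.qc i) (by norm_num)
    (by norm_num) (by norm_num) (by norm_num)
  have hxp := (hP2 x p (pr i x) (pr i p) (hpr i x) (hpr i p) (by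
    have := hi.1; rw [hD.symm]; omega)).2.2
  have hpy := (hP2 p y (pr i p) (pr i y) (hpr i p) (hpr i y) (by
    have := hi.2; omega)).2.2
  have hi2 := hi.2
  have tr1 := hD.tri x (pr i x) y
  have tr2 := hD.tri (pr i x) (pr i y) y
  have hle : D (pr i p) (pr i x) ≤ D (pr i x) (pr i y) := by
    unfold Pool.Agent.BURN.Btw at hpb
    have e1 := hD.symm (pr i p) (pr i x)
    have e2 := hD.symm (pr i p) p
    omega
  have hpp : dGam D Y ρ (vb Y ρ p) (vb Y ρ (pr i p)) ≤ 9 := (hbs _ _).trans h9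
  have hu12 : dGam D Y ρ (vb Y ρ u) (vb Y ρ (pr i p)) ≤ 12 := by
    have := hdg.tri (vb Y ρ u) (vb Y ρ p) (vb Y ρ (pr i p))
    omega
  have hxY : pr i x ∈ Y i := (hpr i x).1
  have hpY : pr i p ∈ Y i := (hpr i p).1
  obtain ⟨T, hT⟩ : ∃ T, T = Nat.clog 2 (D (pr i x) (pr i y)) := ⟨_, rfl⟩
  have hT1 : 1 ≤ T := by
    have h2 : Nat.clog 2 2 ≤ Nat.clog 2 (D (pr i x) (pr i y)) :=
      Nat.clog_mono_right 2 (by omega)
    have h3 : 1 ≤ Nat.clog 2 2 := Nat.clog_pos (by norm_num) (by norm_num)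
    omega
  by_cases hTρ : ρ < T
  · refine red (va Y ρ i) (Or.inr ⟨i, by omega, Or.inr (Or.inr (Or.inr ⟨by rw [← hT]; exact hTρ,
      rfl⟩))⟩) ?_
    have h1 := hap i (pr i p) 0 (vb Y ρ (pr i p)) (Or.inl ⟨rfl, hpY, rfl⟩)
    have := hdg.tri (vb Y ρ u) (vb Y ρ (pr i p)) (va Y ρ i)
    omega
  · have hTρ' : T ≤ ρ := by omega
    let v : Gam Y ρ := ⟨.c i (pr i x) T, hxY, hT1, hTρ'⟩
    let w : Gam Y ρ := ⟨.c i (pr i p) T, hpY, hT1, hTρ'⟩
    refine red v (Or.inr ⟨i, by omega, Or.inr (Or.inr (Or.inl ⟨T, hT1, by rw [← hT], hTρ',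
      Or.inl rfl⟩))⟩) ?_
    have h1 := hver i (pr i p) 0 T (vb Y ρ (pr i p)) w (by omega) (Or.inl ⟨rfl, hpY, rfl⟩)
      (Or.inr ⟨hT1, rfl⟩)
    have h2 : D (pr i p) (pr i x) ≤ 2 ^ T :=
      hle.trans (by rw [hT]; exact Nat.le_pow_clog (by norm_num) _)
    have h3 := hhor i (pr i p) (pr i x) T w v hT1 h2 rfl rfl
    have t1 := hdg.tri (vb Y ρ u) (vb Y ρ (pr i p)) w
    have t2 := hdg.tri (vb Y ρ u) w v
    omega

end Pool.Agent.FRK.Near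

namespace Pool.Agent.FRK

open Pool.Agent.BURN Pool.Agent.BURR

variable [RP]

theorem Near_proof (E : Eng) : Stmt_Near := by
  intro S Γ F C B hSt hB u hu
  obtain ⟨x, hx, y, hy, hxy⟩ := hu
  have hF : ∀ z ∈ orb Γ B, S.bs z ∈ F := by
    rintro z ⟨g, hg, b, hb, rfl⟩
    rw [← Kit.bs_smul]
    exact hSt.finv g hg _ (hB b hb)
  have hD : S.D x u + S.D u y ≤ S.D x y + 1 := by
    have hL := Kit.num4.2
    unfold Pool.Agent.BURN.Btw at hxy
    show (S.d x u + Lam - 1) / Lam + (S.d u y + Lam - 1) / Lam ≤ (S.d x y + Lam - 1) / Lam + 1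
    rw [← hxy]
    generalize Lam = L at hL ⊢
    generalize S.d x u = a
    generalize S.d u y = b
    have h1 : (a + L - 1) / L + (b + L - 1) / L ≤ ((a + L - 1) + (b + L - 1)) / L :=
      Nat.add_div_le_add_div _ _ _
    refine h1.trans ?_
    have h2 : (a + b + L - 1) / L + 1 = (a + b + L - 1 + L) / L := by
      rw [Nat.add_div_right _ (by omega)]
    rw [h2]
    apply Nat.div_le_div_right
    omega
  obtain ⟨q, hq, hqu⟩ := Near.core (pr := S.pr) E.gamDG E.proj E.guess E.shadow (Kit.cd E S)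
    S.prn hD
  exact ⟨q, ⟨S.bs x, Or.inl (hF x hx), S.bs y, Or.inl (hF y hy), hq⟩, hqu⟩

end Pool.Agent.FRK
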