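import Pool.Agent.FRK.Defs
import Pool.Agent.BURN.W97Cyc

/-! FRK (MP_1e649a_al): exact statements of the modules. For each `Stmt_Foo` the file
`Pool/Agent/FRK/Foo.lean` proves `theorem foo_proof ... : Stmt_Foo`, hypotheses: `(E : Eng)` and other
`Stmt_Bar` as listed in the table. Parts A and B do not depend on [RP]; there use `(E : Eng0)`. -/

namespace Pool.Agent.FRK

open Pool.Agent.BURN Pool.Agent.BURR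

variable [RP]

/-! ### Part A: group theory -/

/-- FFB -/
def Stmt_FFB : Prop :=
  (∀ (G : Type) [Group G] (Γ : Subgroup G), FF Γ Γ) ∧
  (∀ (G : Type) [Group G] (Γ Γ' Γ'' : Subgroup G), FF Γ Γ' → FF Γ' Γ'' → FF Γ Γ'') ∧
  (∀ (G : Type) [Group G] (s : ℕ → Subgroup G), (∀ n, FF (s n) (s (n + 1))) →
    FF (s 0) (⨆ n, s n)) ∧
  (∀ (G : Type) [Group G] (Γ : Subgroup G), FF ⊥ Γ → IsFreeGroup Γ)

/-- RWORD: reduced forms exist -/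
def Stmt_RWord : Prop := ∀ (G : Type) [Group G] (Γ : Subgroup G) (h g : G),
  g ∈ Γ ⊔ Subgroup.zpowers h → ∃ (n : ℕ) (a : ℕ → G) (ε : ℕ → Bool), RW Γ h n a ε ∧ a n = g

/-- HNNF: if nonempty reduced words are nontrivial then <Γ,h> = Γ * <h>, h of infinite order -/
def Stmt_HnnF : Prop := ∀ (G : Type) [Group G] (Γ : Subgroup G) (h : G),
  (∀ (n : ℕ) (a : ℕ → G) (ε : ℕ → Bool), 1 ≤ n → RW Γ h n a ε → a n ≠ 1) →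
  FF Γ (Γ ⊔ Subgroup.zpowers h)

/-- FGF -/
def Stmt_FGF : Prop := ∀ (G : Type) [Group G] (P : Subgroup G) (E : Finset G), FF ⊥ P →
  (∀ x ∈ E, x ∈ P) → ∃ (A : Subgroup G) (E' : Finset G),
    A = Subgroup.closure (E' : Set G) ∧ (∀ x ∈ E, x ∈ A) ∧ FF ⊥ A ∧ FF A P

/-- SCH: a free factor of a free group is a free factor of every intermediate subgroup -/
def Stmt_Sch : Prop := ∀ (G : Type) [Group G] (A H F : Subgroup G), FF ⊥ A → FF A F → A ≤ H →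
  H ≤ F → FF A H

/-- LIMF -/
def Stmt_LimF : Prop := ∀ (G : Type) [Group G] [Countable G] (M : Subgroup G)
  (Mk : ℕ → Subgroup G), Monotone Mk → M = ⨆ k, Mk k →
  (∀ E : Finset G, (∀ x ∈ E, x ∈ M) → ∃ P : Subgroup G, (∀ x ∈ E, x ∈ P) ∧ FF ⊥ P ∧
    ∃ k0, ∀ k ≥ k0, FF P (Mk k)) → IsFreeGroup M

/-! ### Part B: general geometry -/

/-- CLOSE: the closing criterion -/
def Stmt_Close : Prop := ∀ (G X : Type) [Group G] [MulAction G X] (d : X → X → ℕ) (δ : ℕ)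
  (Γ : Subgroup G) (h : G) (U : Set X), IsDG d → Hyp d δ → IsIso G d → 1 ≤ δ → U.Nonempty →
  QC d (2 * δ) U → (∀ g ∈ Γ, ∀ u ∈ U, g • u ∈ U) →
  (∀ g ∈ Γ ⊔ Subgroup.zpowers h, g ≠ 1 → ∀ x : X, 30 * δ ≤ d x (g • x)) →
  (∀ u ∈ U, ∀ v ∈ U, 30 * δ ≤ d u (h • v)) →
  ∀ (n : ℕ) (a : ℕ → G) (ε : ℕ → Bool), 1 ≤ n → RW Γ h n a ε → a n ≠ 1

/-- EXTFF -/
def Stmt_ExtFF : Prop := ∀ (G X : Type) [Group G] [MulAction G X] (d : X → X → ℕ) (B : Set X)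
  (Γ Γ' : Subgroup G), IsDG d → Hyp d dd → IsIso G d → B.Nonempty → Ext d B Γ Γ' → Disp d Γ' →
  FF Γ Γ'

/-- EXTB: elementary facts on Ext -/
def Stmt_ExtB : Prop :=
  (∀ (G X : Type) [Group G] [MulAction G X] (d : X → X → ℕ) (B : Set X) (Γ Γ' : Subgroup G),
    Ext d B Γ Γ' → Γ ≤ Γ') ∧
  (∀ (G X : Type) [Group G] [MulAction G X] (d : X → X → ℕ) (B B' : Set X) (Γ Γ' : Subgroup G),
    B' ⊆ B → Ext d B Γ Γ' → Ext d B' Γ Γ')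

/-- FINE -/
def Stmt_Fine : Prop := ∀ (X : Type) (d : X → X → ℕ) (δ b n : ℕ) (x : ℕ → X) (w : X),
  IsDG d → Hyp d δ → 1 ≤ n →
  (∀ i, 1 ≤ i → i + 1 ≤ n → gp d (x 0) (x n) (x i) ≤ b) →
  Btw d (x 0) w (x n) → (∀ i, 1 ≤ i → i + 1 ≤ n → b + 2 * δ < d w (x i)) →
  ∃ i, i < n ∧ gp d (x i) (x (i + 1)) w ≤ 2 * δ

/-- PROJHULL -/
def Stmt_ProjHull : Prop := ∀ (X : Type) (D : X → X → ℕ) (W : Set X) (x x' u p p' r : X),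
  IsDG D → Hyp D 2 → QC D 1 W → D x u + D u x' ≤ D x x' + 1 →
  IsNear D W x p → IsNear D W x' p' → IsNear D W u r →
  ∀ w ∈ W, D r w ≤ max (D p w) (D p' w) + 60

/-- EXACT: apices with a large angle lie on every geodesic -/
def Stmt_Exact : Prop := ∀ (V I : Type) (D : V → V → ℕ) (Y : I → Set V) (ρ : ℕ), CD D Y ρ →
  2 * f3 + del1 + 10 ≤ ρ → ∀ (i : I) (x y : Gam Y ρ) (A B : V), Foot D Y ρ i x A →
  Foot D Y ρ i y B → 2 ^ (ρ + 8) ≤ D A B →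
  dGam D Y ρ x y = dGam D Y ρ x (va Y ρ i) + dGam D Y ρ (va Y ρ i) y

/-- NOAPEX -/
def Stmt_NoApex : Prop := ∀ (G X : Type) [Group G] [MulAction G X] (d : X → X → ℕ) (C : Set X)
  (R : X → Subgroup G) (δ α β σ : ℕ), RF d C R δ α β σ → ∀ x y : X,
  (∀ c ∈ C, c ≠ x → c ≠ y → eta1 δ β < gp d x y c) →
  d x y ≤ dK d (KK C R) x y + 2 * aa0 δ α β

/-- GCHAIN: chains for an arbitrary group Γ -/
def Stmt_GChain : Prop := ∀ (G X : Type) [Group G] [MulAction G X] [Nonempty X]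
  (d : X → X → ℕ) (C : Set X)
  (R : X → Subgroup G) (δ α β σ : ℕ) (Γ : Subgroup G) (C1 : Set X), RF d C R δ α β σ → C1 ⊆ C →
  (∀ h ∈ Γ, ∀ c ∈ C1, h • c ∈ C1) →
  ∀ g ∈ Γ ⊔ KK C1 R,
   ∃ (m : ℕ) (gs : ℕ → G) (c : ℕ → X) (h : G), h ∈ Γ ∧ gs 0 = 1 ∧ g = gs m * h ∧
    (∀ i, i ≤ m → gs i ∈ Γ ⊔ KK C1 R) ∧
    (∀ i, 1 ≤ i → i ≤ m → c i ∈ C ∧ (gs (i - 1))⁻¹ • c i ∈ C1 ∧ (gs i)⁻¹ • c i ∈ C1 ∧
      ∃ r ∈ R (c i), r ≠ 1 ∧ gs i = r * gs (i - 1)) ∧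
    (∀ i, 1 ≤ i → i + 1 ≤ m → c i ≠ c (i + 1))

/-! ### Part C: one killing system -/

/-- DISP -/
def Stmt_DispUp : Prop := ∀ (S : KSys) (Nb : Subgroup S.Gb), Disp S.db Nb →
  Disp S.d (Nb.comap S.π)

/-- ROTBIG -/
def Stmt_RotBig : Prop := ∀ S : KSys, (∀ i, 64 * nq ≤ S.nE i) →
  ∀ i, ∀ r ∈ RotS (S.E i) (S.nE i), r ≠ 1 → ∀ v ∈ S.Y i, 2 ^ (rho + 13) ≤ S.D v (r • v)

/-- LINEG: strong stability implies thin quasi-lines -/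
def Stmt_LineG : Prop := ∀ (G X : Type) [Group G] [MulAction G X] (d : X → X → ℕ) (N : ℕ),
  Good (G := G) d N → (∀ g : G, Lox d g → ∀ (x : X) (m : ℕ), m ≤ Rr * d x (g ^ m • x)) →
  LineP (G := G) d

/-- QL: the quasi-line is coarsely a line on which the rotations translate -/
def Stmt_QL : Prop := ∀ S : KSys, Big S →
  ∀ i, ∀ y ∈ S.Y i, ∀ y' ∈ S.Y i, ∃ r ∈ RotS (S.E i) (S.nE i),
    ∀ v ∈ S.Y i, ∀ r' ∈ RotS (S.E i) (S.nE i), r' ≠ 1 →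
      2 * S.D y (r • y') ≤ S.D v (r' • v) + 2 ^ (rho + 1)

/-- MINL: good lifts exist -/
def Stmt_MinL : Prop := ∀ (S : KSys) (z z' : S.Gm) (hb : S.Gb), Big S →
  (∀ i, z ≠ S.ap i) → (∀ i, z' ≠ S.ap i) → ∃ h, JLift S hb z z' h

/-- STR: structure of the image of the region -/
def Stmt_Str : Prop := ∀ (S : KSys) (Γ : Subgroup S.G) (F C : Set S.Gm) (Rb : Set S.Xb)
  (k κ : ℕ), St S Γ F C → QC S.db k Rb → Ctl S Rb κ F C →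
  ∀ w ∈ Win S F C, S.q w ∈ Nbh S.db (k + 3 * dd) Rb ∨ ∃ c ∈ C, S.dg w c ≤ κ + 3 * dd

/-- WQC -/
def Stmt_WQC : Prop := ∀ (S : KSys) (Γ : Subgroup S.G) (F C : Set S.Gm), St S Γ F C →
  QC S.db dd (S.q '' Win S F C)

/-- NEAR -/
def Stmt_Near : Prop := ∀ (S : KSys) (Γ : Subgroup S.G) (F C : Set S.Gm) (B : Set S.X),
  St S Γ F C → (∀ b ∈ B, S.bs b ∈ F) → ∀ u ∈ hull S.d (orb Γ B),
  ∃ w ∈ Win S F C, S.dg (S.bs u) w ≤ rho + f3 + 30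

/-- KMEM -/
def Stmt_KMem : Prop := ∀ (S : KSys) (Γ : Subgroup S.G) (F C : Set S.Gm), St S Γ F C →
  ∀ (v : S.X), ∀ k ∈ S.K, S.bs v ∈ Win S F C → k • S.bs v ∈ Win S F C → k ∈ Γ

/-- SMALL: far apices see everything under a small angle -/
def Stmt_Small : Prop := ∀ (S : KSys) (F C : Set S.Gm) (i : S.I),
  (∀ w ∈ Win S F C, f3 + 6 * del1 + 10 < S.dg (S.ap i) w) →
  ∀ x ∈ F ∪ C ∪ Cnew S F C, ∀ y ∈ F ∪ C ∪ Cnew S F C, x ≠ S.ap i → y ≠ S.ap i →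
    2 * f3 + 1 ≤ gp S.dg x y (S.ap i) ∧
    ∀ A B : S.X, Foot (Dsc Lam S.d) (YE S.d S.E) rho i x A →
      Foot (Dsc Lam S.d) (YE S.d S.E) rho i y B → S.D A B < 2 ^ (rho + 5)

/-- WMB: the windmill operation, region -/
def Stmt_WMB : Prop := ∀ (S : KSys) (Γ : Subgroup S.G) (F C : Set S.Gm), PreSt S Γ F C →
  St S (gN S Γ F C) (orb (gN S Γ F C) F) (orb (gN S Γ F C) (C ∪ Cnew S F C))

/-- WMX: the windmill operation, closings -/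
def Stmt_WMX : Prop := ∀ (S : KSys) (Γ : Subgroup S.G) (F C : Set S.Gm) (B : Set S.X), Big S →
  PreSt S Γ F C → (∀ b ∈ B, S.bs b ∈ F) → Ext S.d B Γ (gN S Γ F C)

/-- GROWP: enlarging F by points near the region gives a pre-state -/
def Stmt_GrowP : Prop := ∀ (S : KSys) (Γ : Subgroup S.G) (F C F1 : Set S.Gm), Big S →
  St S Γ F C → F ⊆ F1 → (∀ g ∈ Γ, ∀ x ∈ F1, g • x ∈ F1) →
  (∀ x ∈ F1, ∃ w ∈ Win S F C, S.dg x w ≤ 1) →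
  PreSt S Γ F1 C ∧ ∀ w ∈ Win S F1 C, ∃ w' ∈ Win S F C, S.dg w w' ≤ dd

/-- GROW -/
def Stmt_Grow : Prop := ∀ (S : KSys) (Γ : Subgroup S.G) (F C F1 : Set S.Gm) (Rb : Set S.Xb)
  (k κ : ℕ), Big S → St S Γ F C → F ⊆ F1 → (∀ g ∈ Γ, ∀ x ∈ F1, g • x ∈ F1) →
  (∀ x ∈ F1, ∃ w ∈ Win S F C, S.dg x w ≤ 1) → QC S.db k Rb →
  (∀ g ∈ Γ, ∀ r ∈ Rb, S.π g • r ∈ Rb) → Ctl S Rb κ F C → (∀ x ∈ F1, S.q x ∈ Rb) →
  k + 8 * dd ≤ κ → κ ≤ 1000 * dd →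
  ∃ (Γ' : Subgroup S.G) (F' C' : Set S.Gm), St S Γ' F' C' ∧ Γ ≤ Γ' ∧ F1 ⊆ F' ∧ C ⊆ C' ∧
    Γ'.map S.π = Γ.map S.π ∧ Ctl S Rb κ F' C' ∧
    ∀ B : Set S.X, (∀ b ∈ B, S.bs b ∈ F1) → Ext S.d B Γ Γ'

/-- HAIR -/
def Stmt_Hair : Prop := ∀ (S : KSys) (Γ : Subgroup S.G) (F C : Set S.Gm) (Rb : Set S.Xb)
  (k κ t : ℕ) (y : ℕ → S.Xb), Big S → St S Γ F C → QC S.db k Rb →
  (∀ g ∈ Γ, ∀ r ∈ Rb, S.π g • r ∈ Rb) → Ctl S Rb κ F C →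
  k + 8 * dd ≤ κ → κ ≤ 1000 * dd → (∃ w ∈ Win S F C, S.q w = y 0) →
  (∀ i < t, S.db (y i) (y (i + 1)) ≤ 1) → (∀ i ≤ t, y i ∈ Rb) →
  ∃ (Γ' : Subgroup S.G) (F' C' : Set S.Gm), St S Γ' F' C' ∧ Γ ≤ Γ' ∧ F ⊆ F' ∧ C ⊆ C' ∧
    Γ'.map S.π = Γ.map S.π ∧ Ctl S Rb κ F' C' ∧ (∃ z ∈ F', S.q z = y t) ∧
    ∀ B : Set S.X, (∀ b ∈ B, S.bs b ∈ F) → Ext S.d B Γ Γ'

/-- BALLG: growth covering a ball -/
def Stmt_BallG : Prop := ∀ (S : KSys) (Γ : Subgroup S.G) (F C : Set S.Gm) (Rb : Set S.Xb)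
  (k κ s : ℕ) (x0 : S.X), Big S → St S Γ F C → QC S.db k Rb →
  (∀ g ∈ Γ, ∀ r ∈ Rb, S.π g • r ∈ Rb) → Ctl S Rb κ F C →
  k + 8 * dd ≤ κ → κ ≤ 1000 * dd → S.bs x0 ∈ F →
  (∀ x, S.db (S.q (S.bs x0)) x ≤ s → x ∈ Rb) →
  ∃ (Γ' : Subgroup S.G) (F' C' : Set S.Gm), St S Γ' F' C' ∧ Γ ≤ Γ' ∧ F ⊆ F' ∧ C ⊆ C' ∧
    Γ'.map S.π = Γ.map S.π ∧ Ctl S Rb κ F' C' ∧ (∀ u, S.dg (S.bs x0) u ≤ s → u ∈ F') ∧
    ∀ B : Set S.X, (∀ b ∈ B, S.bs b ∈ F) → Ext S.d B Γ Γ'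

/-- EXH: all remaining rotations -/
def Stmt_Exh : Prop := ∀ (S : KSys) (Γ : Subgroup S.G) (F C : Set S.Gm), Big S → St S Γ F C →
  ∀ B : Set S.X, (∀ b ∈ B, S.bs b ∈ F) → Ext S.d B Γ (Γ ⊔ S.K)

/-! ### Part D: the jump -/

/-- JSEG: products at the attaching points. `pv i`, `qv i` are the ends of the i-th jump of a
reduced word. -/
def Stmt_JSeg : Prop := ∀ (S : KSys) (Γ : Subgroup S.G) (F C : Set S.Gm) (hb : S.Gb)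
  (z z' : S.Gm) (l : ℕ) (h : S.G), Jmp S Γ F C hb z z' l → JLift S hb z z' h →
  (∀ u ∈ Win S F C, gp S.dg u (h • z') z ≤ 130 * dd) ∧
  (∀ u ∈ Win S F C, gp S.dg z (h • u) (h • z') ≤ 130 * dd) ∧
  ∀ (n : ℕ) (a : ℕ → S.G) (ε : ℕ → Bool) (pv qv : ℕ → S.Gm), RW Γ h n a ε →
    (∀ i, pv i = a i • (if ε i then z else z')) →
    (∀ i, qv i = a i • (if ε i then h • z' else h⁻¹ • z)) →
    (∀ i < n, S.dg (pv i) (qv i) = l ∧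
      (∀ u ∈ Win S F C, gp S.dg (a i • u) (qv i) (pv i) ≤ 130 * dd) ∧
      (∀ u ∈ Win S F C, gp S.dg (pv i) (a (i + 1) • u) (qv i) ≤ 130 * dd)) ∧
    (∀ i, i + 1 < n → 1800 * dd ≤ S.dg (qv i) (pv (i + 1)))

/-- JFINE -/
def Stmt_JFine : Prop := ∀ (S : KSys) (Γ : Subgroup S.G) (F C : Set S.Gm) (hb : S.Gb)
  (z z' : S.Gm) (l : ℕ) (h : S.G), Jmp S Γ F C hb z z' l → JLift S hb z z' h →
  ∀ Γ2 : Subgroup S.G, Γ2 = Γ ⊔ Subgroup.zpowers h →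
  ∀ w ∈ Win S (orb Γ2 F) (orb Γ2 C),
    (∀ g ∈ Γ2, 900 * dd ≤ S.dg w (g • z) ∧ 900 * dd ≤ S.dg w (g • z')) →
    ∃ g ∈ Γ2, (∃ u ∈ Win S F C, S.dg w (g • u) ≤ 6 * del1) ∨
      gp S.dg (g • z) (g • h • z') w ≤ 2 * del1

/-- JCLUS -/
def Stmt_JClus : Prop := ∀ (S : KSys) (Γ : Subgroup S.G) (F C : Set S.Gm) (hb : S.Gb)
  (z z' : S.Gm) (l : ℕ) (h : S.G), Jmp S Γ F C hb z z' l → JLift S hb z z' h →
  ∀ Γ2 : Subgroup S.G, Γ2 = Γ ⊔ Subgroup.zpowers h →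
  ∀ c : S.Gm, (∀ g ∈ Γ2, 990 * dd ≤ S.dg c (g • z) ∧ 990 * dd ≤ S.dg c (g • z')) →
    gp S.dg z (h • z') c ≤ dd →
    ∀ x ∈ orb Γ2 (F ∪ C), 500 * dd ≤ gp S.dg x z c ∨ 500 * dd ≤ gp S.dg x (h • z') c

/-- JNEAR: new apices after the jump are near the old region or near the jump -/
def Stmt_JNear : Prop := ∀ (S : KSys) (Γ : Subgroup S.G) (F C : Set S.Gm) (hb : S.Gb)
  (z z' : S.Gm) (l : ℕ) (h : S.G), Jmp S Γ F C hb z z' l → JLift S hb z z' h →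
  ∀ Γ2 : Subgroup S.G, Γ2 = Γ ⊔ Subgroup.zpowers h →
  ∀ c ∈ Cnew S (orb Γ2 F) (orb Γ2 C), ∃ g ∈ Γ2, (∃ w ∈ Win S F C, S.dg (g⁻¹ • c) w ≤ 4 * dd) ∨
    ∃ s, Btw S.dg z s (h • z') ∧ S.dg (g⁻¹ • c) s ≤ 4 * dd

/-- JPRE: after the jump the new region is a pre-state -/
def Stmt_JPre : Prop := ∀ (S : KSys) (Γ : Subgroup S.G) (F C : Set S.Gm) (hb : S.Gb)
  (z z' : S.Gm) (l : ℕ) (h : S.G), Big S → Jmp S Γ F C hb z z' l → JLift S hb z z' h →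
  ∀ Γ2 : Subgroup S.G, Γ2 = Γ ⊔ Subgroup.zpowers h →
  PreSt S Γ2 (orb Γ2 F) (orb Γ2 C)

/-- JEXT: the closing by h -/
def Stmt_JExt : Prop := ∀ (S : KSys) (Γ : Subgroup S.G) (F C : Set S.Gm) (hb : S.Gb)
  (z z' : S.Gm) (l : ℕ) (h : S.G), Jmp S Γ F C hb z z' l → JLift S hb z z' h →
  ∀ B : Set S.X, (∀ b ∈ B, S.bs b ∈ F) → Ext S.d B Γ (Γ ⊔ Subgroup.zpowers h)

/-- JUMP -/
def Stmt_Jump : Prop := ∀ (S : KSys) (Γ : Subgroup S.G) (F C : Set S.Gm) (hb : S.Gb)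
  (z z' : S.Gm) (l : ℕ), Big S → Jmp S Γ F C hb z z' l →
  ∃ (Γ' : Subgroup S.G) (C' : Set S.Gm), Γ ≤ Γ' ∧ Γ'.map S.π = Γ.map S.π ⊔ Subgroup.zpowers hb ∧
    St S Γ' (orb Γ' F) C' ∧ C ⊆ C' ∧
    (∀ c ∈ C', ∃ g ∈ Γ', g⁻¹ • c ∈ C ∨ (∃ w ∈ Win S F C, S.dg (g⁻¹ • c) w ≤ 4 * dd) ∨
      ∃ s, Btw S.db (S.q z) s (hb • S.q z') ∧ S.db (S.q (g⁻¹ • c)) s ≤ 4 * dd) ∧
    ∀ B : Set S.X, (∀ b ∈ B, S.bs b ∈ F) → Ext S.d B Γ Γ'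

/-! ### Part E: lifting -/

/-- CHOT: choice of the cut points of the hair -/
def Stmt_ChoT : Prop := ∀ (S : KSys) (Wb : Set S.Xb) (hb : S.Gb), Wb.Nonempty →
  (∀ u ∈ Wb, ∀ v ∈ Wb, 3 * rho + 40000 * dd ≤ S.db u (hb • v)) →
  ∃ a ∈ Wb, ∃ b ∈ Wb, ∃ (σ : ℕ → S.Xb) (t : ℕ), IsGeod S.db a (hb • b) σ ∧
    (∀ u ∈ Wb, ∀ v ∈ Wb, S.db a (hb • b) ≤ S.db u (hb • v)) ∧
    2 * t ≤ S.db a (hb • b) ∧ 3 * rho ≤ S.db a (hb • b) - 2 * t ∧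
    S.db a (hb • b) - 2 * t ≤ 4 * rho ∧
    ∀ i, 1000 * dd ≤ S.db (σ t) (S.q (S.ap i)) ∧
      1000 * dd ≤ S.db (σ (S.db a (hb • b) - t)) (S.q (S.ap i))

/-- RQC: the region with hair in the quotient -/
def Stmt_RQC : Prop := ∀ (G X : Type) [Group G] [MulAction G X] (d : X → X → ℕ) (δ : ℕ)
  (Γ : Subgroup G) (W R : Set X) (h : G) (a b : X) (σ : ℕ → X) (t : ℕ),
  IsDG d → Hyp d δ → IsIso G d → 1 ≤ δ → QC d δ W → (∀ g ∈ Γ, ∀ w ∈ W, g • w ∈ W) →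
  a ∈ W → b ∈ W → IsGeod d a (h • b) σ →
  (∀ u ∈ W, ∀ v ∈ W, d a (h • b) ≤ d u (h • v)) → 2 * t ≤ d a (h • b) →
  R = W ∪ {x | ∃ g ∈ Γ, ∃ i ≤ t, x = g • σ i ∨ x = g • h⁻¹ • σ (d a (h • b) - i)} →
  QC d (4 * δ) R ∧ (∀ g ∈ Γ, ∀ x ∈ R, g • x ∈ R) ∧
  ∀ r ∈ R, ∀ r' ∈ R, d a (h • b) ≤ d r (h • r') + 2 * t

/-- ABND: apices near the region or near the connecting geodesic are near the hull of the orbit of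
the base -/
def Stmt_ABnd : Prop := ∀ (S : KSys) (Γ : Subgroup S.G) (F C : Set S.Gm) (Bb : Set S.Xb)
  (hb : S.Gb) (Γb' : Subgroup S.Gb) (a b : S.Gm) (i : S.I) (r : S.Xb), St S Γ F C →
  Ctl S (hull S.db (orb (Γ.map S.π) Bb)) (25 * dd) F C → Γ.map S.π ≤ Γb' → hb ∈ Γb' →
  a ∈ Win S F C → b ∈ Win S F C → S.db (S.q (S.ap i)) r ≤ 12 * dd →
  (r ∈ S.q '' Win S F C ∨ Btw S.db (S.q a) r (hb • S.q b)) →
  S.q (S.ap i) ∈ Nbh S.db (25 * dd) (hull S.db (orb Γb' Bb))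

/-- LIFTS: lifting one closing -/
def Stmt_LiftS : Prop := ∀ (S : KSys) (Γ : Subgroup S.G) (F C : Set S.Gm) (Bb : Set S.Xb)
  (hb : S.Gb), Big S → St S Γ F C →
  Ctl S (hull S.db (orb (Γ.map S.π) Bb)) (25 * dd) F C →
  (∀ u ∈ hull S.db (orb (Γ.map S.π) Bb), ∀ v ∈ hull S.db (orb (Γ.map S.π) Bb),
    4 * rho ≤ S.db u (hb • v)) →
  Disp S.db (Γ.map S.π ⊔ Subgroup.zpowers hb) →
  ∃ (Γ' : Subgroup S.G) (F' C' : Set S.Gm), St S Γ' F' C' ∧ Γ ≤ Γ' ∧ F ⊆ F' ∧ C ⊆ C' ∧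
    Γ'.map S.π = Γ.map S.π ⊔ Subgroup.zpowers hb ∧
    Ctl S (hull S.db (orb (Γ'.map S.π) Bb)) (25 * dd) F' C' ∧
    ∀ B : Set S.X, (∀ b ∈ B, S.bs b ∈ F) → Ext S.d B Γ Γ'

/-- LIFT: lifting chains -/
def Stmt_Lift2 : Prop := ∀ (S : KSys) (Bb : Set S.Xb) (Γb Γb' : Subgroup S.Gb), Big S →
  Ext S.db Bb Γb Γb' → Disp S.db Γb' →
  ∀ (Γ : Subgroup S.G) (F C : Set S.Gm), St S Γ F C → Γ.map S.π = Γb →
  Ctl S (hull S.db (orb Γb Bb)) (25 * dd) F C →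
  ∃ (Γ' : Subgroup S.G) (F' C' : Set S.Gm), St S Γ' F' C' ∧ Γ ≤ Γ' ∧ F ⊆ F' ∧ C ⊆ C' ∧
    Γ'.map S.π = Γb' ∧ Ctl S (hull S.db (orb Γb' Bb)) (25 * dd) F' C' ∧
    ∀ B : Set S.X, (∀ b ∈ B, S.bs b ∈ F) → Ext S.d B Γ Γ'

/-- INIT: the initial state -/
def Stmt_Init : Prop := ∀ (S : KSys) (x0 : S.X),
  St S ⊥ {u | S.dg (S.bs x0) u ≤ 1} ∅ ∧
  Ctl S (hull S.db (orb (⊥ : Subgroup S.Gb) {x | S.db (S.q (S.bs x0)) x ≤ 1})) (25 * dd)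
    {u | S.dg (S.bs x0) u ≤ 1} ∅ ∧
  ∀ b, S.d x0 b ≤ 1 → S.dg (S.bs x0) (S.bs b) ≤ 1

/-- LREL -/
def Stmt_LRel : Prop := ∀ S : KSys, Big S → LiftRel S.d S.db S.π (fun x => S.q (S.bs x))

/-! ### Part F: tower, final -/

/-- STEP2 -/
def Stmt_Step2 : Prop := ∀ (G X : Type) [Group G] [Countable G] [MulAction G X] (d : X → X → ℕ)
  (N p : ℕ), Good (G := G) d N → LineP (G := G) d → 64 * nq ≤ p → p ∣ N →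
  ∃ (G' X' : Type) (_ : Group G') (_ : MulAction G' X') (d' : X' → X' → ℕ) (π : G →* G')
    (ι : X → X'), Countable G' ∧ Good (G := G') d' N ∧ LineP (G := G') d' ∧
    StepRel d d' π ι (fun _ => p) ∧ LiftRel d d' π ι

/-- TOW2 -/
def Stmt_Tow2 : Prop := ∀ (N p : ℕ) (s : StgG N), Countable s.G → LineP (G := s.G) s.d →
  64 * nq ≤ p → p ∣ N →
  ∃ W : Tow N p, W.T 0 = s ∧ ∀ k, LiftRel (W.T k).d (W.T (k + 1)).d (W.π k) (W.ι k)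

/-- TOWF: the kernel of the map to the limit group is free -/
def Stmt_TowF : Prop := ∀ (N p : ℕ) (W : Tow N p), 1 ≤ p → Countable (W.T 0).G →
  (∀ k, LiftRel (W.T k).d (W.T (k + 1)).d (W.π k) (W.ι k)) → IsFreeGroup W.M

/-! ### Part G: the base (torsion-free hyperbolic groups; no RP except in BaseTF) -/

/-- WMET: the word metric -/
def Stmt_WMet : Prop := ∀ (G : Type) [Group G], HypGrp G → Countable G ∧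
  ∃ (d : G → G → ℕ) (δ : ℕ) (Bf : ℕ → ℕ), IsDG d ∧ Hyp d δ ∧ 1 ≤ δ ∧ IsIso G d ∧
    ∀ (x : G) (r : ℕ) (A : Finset G), (∀ h ∈ A, d x (h • x) ≤ r) → A.card ≤ Bf r

/-- RFV: residually finite hyperbolic groups are virtually torsion-free -/
def Stmt_RFV : Prop := ∀ (G : Type) [Group G], HypGrp G → RFin G → VTF G

/-- TSTAB: nontrivial elements are loxodromic, with a uniform rate -/
def Stmt_TStab : Prop := ∀ (H X : Type) [Group H] [MulAction H X] (d : X → X → ℕ) (δ : ℕ)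
  (Bf : ℕ → ℕ), TFA (H := H) d δ Bf → ∃ R1, 1 ≤ R1 ∧ ∀ h : H, h ≠ 1 →
    Lox d h ∧ ∀ (x : X) (m : ℕ), m ≤ R1 * d x (h ^ m • x)

/-- TCOM: elements moving the ends of a long segment by a bounded amount have common powers -/
def Stmt_TCom : Prop := ∀ (H X : Type) [Group H] [MulAction H X] (d : X → X → ℕ) (δ : ℕ)
  (Bf : ℕ → ℕ), TFA (H := H) d δ Bf → ∀ L : ℕ, ∃ A : ℕ, ∀ x y : X, A ≤ d x y → ∀ g g' : H,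
    g ≠ 1 → g' ≠ 1 → d x (g • x) ≤ L → d y (g • y) ≤ L → d x (g' • x) ≤ L → d y (g' • y) ≤ L →
    ∃ a b : ℤ, a ≠ 0 ∧ b ≠ 0 ∧ g ^ a = g' ^ b

/-- TCYCA: the commensurator of an element is abelian -/
def Stmt_TCycA : Prop := ∀ (H X : Type) [Group H] [MulAction H X] (d : X → X → ℕ) (δ : ℕ)
  (Bf : ℕ → ℕ), TFA (H := H) d δ Bf → ∀ g : H, g ≠ 1 →
    ∀ h h' : H, (∃ m : ℕ, 1 ≤ m ∧ Commute h (g ^ m)) → (∃ m : ℕ, 1 ≤ m ∧ Commute h' (g ^ m)) →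
    Commute h h'

/-- TCYCB: the commensurator of an element is cyclic -/
def Stmt_TCycB : Prop := ∀ (H X : Type) [Group H] [MulAction H X] (d : X → X → ℕ) (δ : ℕ)
  (Bf : ℕ → ℕ), TFA (H := H) d δ Bf → ∀ g : H, g ≠ 1 → ∃ c : H,
    ∀ h : H, (∃ m : ℕ, 1 ≤ m ∧ Commute h (g ^ m)) → h ∈ Subgroup.zpowers c

/-- TGW -/
def Stmt_TGW : Prop := ∀ (H X : Type) [Group H] [MulAction H X] (d : X → X → ℕ) (δ : ℕ)
  (Bf : ℕ → ℕ), TFA (H := H) d δ Bf → ∃ A R1 : ℕ, 1 ≤ R1 ∧ ∀ N : ℕ, Odd N →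
    W97.GW (G := H) d δ (100 * δ) A R1 N

/-- TNEAR: points moved little are near the orbit hulls -/
def Stmt_TNear : Prop := ∀ (H X : Type) [Group H] [MulAction H X] (d : X → X → ℕ) (δ : ℕ)
  (Bf : ℕ → ℕ), TFA (H := H) d δ Bf → ∃ F : ℕ, ∀ g : H, g ≠ 1 → ∀ x o : X,
    ∃ p ∈ hull d {y | ∃ i : ℤ, y = g ^ i • o}, 2 * d x p ≤ d x (g • x) + F

/-- TLINE: orbits of an element are coarsely dense in the points moved little -/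
def Stmt_TLine : Prop := ∀ (H X : Type) [Group H] [MulAction H X] (d : X → X → ℕ) (δ : ℕ)
  (Bf : ℕ → ℕ), TFA (H := H) d δ Bf → ∃ F : ℕ, ∀ w : H, w ≠ 1 → ∀ (s : ℕ) (y y' : X),
    d y (w • y) ≤ s → d y' (w • y') ≤ s → ∃ k : ℤ, d y (w ^ k • y') ≤ 4 * s + F

/-- BASETF -/
def Stmt_BaseTF : Prop := ∀ (H X : Type) [Group H] [MulAction H X] (d : X → X → ℕ) (δ : ℕ)
  (Bf : ℕ → ℕ), TFA (H := H) d δ Bf → ∃ P : RP, ∀ N : ℕ, Odd N →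
    ∃ d' : X → X → ℕ, @Good P H X _ _ d' N ∧ LineP (G := H) d'

/-- FINAL -/
def Stmt_Final : Prop := ∀ (G : Type) [Group G], HypGrp G → (RFin G ∨ VTF G) →
  ∃ F : Subgroup G, F.Normal ∧ IsFreeGroup F ∧ ∃ n : ℕ, 0 < n ∧ ∀ g : G, g ^ n ∈ F

end Pool.Agent.FRK
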